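import Mathlib

set_option autoImplicit false

noncomputable section

namespace Pool.Agent.Lib.MP_40b2af_gt

open scoped Manifold ContDiff ComplexConjugate
open Complex

/-- coordinate space C^n -/
abbrev V (n : ℕ) : Type := Fin n → ℂ

/-- components h_{k l-bar}(y) of a Hermitian metric in holomorphic coordinates -/
abbrev Her (n : ℕ) : Type := V n → Matrix (Fin n) (Fin n) ℂ

section Local

variable {n : ℕ}

/-- Wirtinger derivative d/dz_i -/
def dz (i : Fin n) (f : V n → ℂ) (y : V n) : ℂ :=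
  (fderiv ℝ f y (Pi.single i 1) - I * fderiv ℝ f y (Pi.single i I)) / 2

/-- Wirtinger derivative d/dzbar_i -/
def dzb (i : Fin n) (f : V n → ℂ) (y : V n) : ℂ :=
  (fderiv ℝ f y (Pi.single i 1) + I * fderiv ℝ f y (Pi.single i I)) / 2

/-- Chern curvature R_{i j-bar k l-bar} -/
def chern (h : Her n) (y : V n) (i j k l : Fin n) : ℂ :=
  - dz i (dzb j fun z => h z k l) y
    + ∑ p, ∑ q, (h y)⁻¹ q p * dz i (fun z => h z k q) y * dzb j (fun z => h z p l) y

end Local

section Manifold

variable (E : Type) [NormedAddCommGroup E] [NormedSpace ℝ E]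
  (M : Type) [TopologicalSpace M] [ChartedSpace E M]

/-- smooth Riemannian metrics on M -/
abbrev RMetric [IsManifold 𝓘(ℝ, E) ∞ M] : Type :=
  Bundle.ContMDiffRiemannianMetric 𝓘(ℝ, E) ∞ E (fun x : M => TangentSpace 𝓘(ℝ, E) x)

variable {E M} [IsManifold 𝓘(ℝ, E) ∞ M]

/-- the metric read in the chart at x, at the point with coordinates y, on coordinate vectors -/
def gc (g : RMetric E M) (x : M) (y u v : E) : ℝ :=
  g.inner ((chartAt E x).symm y) (mfderiv 𝓘(ℝ, E) 𝓘(ℝ, E) (chartAt E x).symm y u)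
    (mfderiv 𝓘(ℝ, E) 𝓘(ℝ, E) (chartAt E x).symm y v)

end Manifold

section Hermitian

variable {n : ℕ} {M : Type} [TopologicalSpace M] [ChartedSpace (V n) M]
  [IsManifold 𝓘(ℝ, V n) ∞ M]

/-- g(Ju, Jv) = g(u, v), with J multiplication by i in holomorphic charts -/
def IsHermitian (g : RMetric (V n) M) : Prop :=
  ∀ (x : M) (u v : V n),
    gc g x (chartAt (V n) x x) (I • u) (I • v) = gc g x (chartAt (V n) x x) u v

/-- h_{k l-bar} = g(d/dz_k, d/dzbar_l) in the chart at x -/
def coef (g : RMetric (V n) M) (x : M) : Her n := fun y k l =>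
  (gc g x y (Pi.single k 1) (Pi.single l 1) + I * gc g x y (Pi.single k 1) (Pi.single l I)) / 2

/-- constant Chern holomorphic sectional curvature c -/
def ConstChernHSC (g : RMetric (V n) M) (c : ℝ) : Prop :=
  ∀ (x : M) (X : V n),
    ∑ i, ∑ j, ∑ k, ∑ l, chern (coef g x) (chartAt (V n) x x) i j k l
        * X i * conj (X j) * X k * conj (X l)
      = c * (∑ i, ∑ j, coef g x (chartAt (V n) x x) i j * X i * conj (X j)) ^ 2

/-- vanishing Chern curvature -/
def ChernFlat (g : RMetric (V n) M) : Prop :=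
  ∀ (x : M) (i j k l : Fin n), chern (coef g x) (chartAt (V n) x x) i j k l = 0

/-- the 2-form g(J., .) is closed -/
def IsKaehler (g : RMetric (V n) M) : Prop :=
  ∀ (x : M) (u v w : V n),
    fderiv ℝ (fun y => gc g x y (I • v) w) (chartAt (V n) x x) u
      + fderiv ℝ (fun y => gc g x y (I • w) u) (chartAt (V n) x x) v
      + fderiv ℝ (fun y => gc g x y (I • u) v) (chartAt (V n) x x) w = 0

end Hermitian

end Pool.Agent.Lib.MP_40b2af_gt
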