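import Mathlib

set_option autoImplicit false

noncomputable section

namespace Pool.Agent.Lib.MP_40b2af_gt

open scoped ComplexConjugate ComplexOrder
open Function

variable {n : ℕ} {α : Type} {e : Fin n → α}

/-- nested sums over the variables of a list -/
def Sv (e : Fin n → α) : List ℕ → ((ℕ → α) → ℂ) → (ℕ → α) → ℂ
  | [], F, u => F u
  | v :: l, F, u => ∑ i, Sv e l F (update u v (e i))

theorem Sv_append (l l' : List ℕ) (F : (ℕ → α) → ℂ) : Sv e (l ++ l') F = Sv e l (Sv e l' F) := by
  induction l with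
  | nil => rfl
  | cons v l ih => funext u; simp only [List.cons_append, Sv, ih]

theorem Sv_perm {l l' : List ℕ} (h : l.Perm l') (F : (ℕ → α) → ℂ) : Sv e l F = Sv e l' F := by
  induction h with
  | nil => rfl
  | cons v _ ih => funext u; simp only [Sv, ih]
  | swap v w l =>
    funext u
    simp only [Sv]
    by_cases h : v = w
    · subst h; rfl
    · rw [Finset.sum_comm]
      exact Finset.sum_congr rfl fun i _ => Finset.sum_congr rfl fun j _ => by
        rw [update_comm h]
  | trans _ _ ih ih' => rw [ih, ih']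

theorem Sv_add (l : List ℕ) (F G : (ℕ → α) → ℂ) (u : ℕ → α) :
    Sv e l (fun u => F u + G u) u = Sv e l F u + Sv e l G u := by
  induction l generalizing u with
  | nil => rfl
  | cons v l ih => simp only [Sv, ih, Finset.sum_add_distrib]

theorem Sv_mul (l : List ℕ) (c : ℂ) (F : (ℕ → α) → ℂ) (u : ℕ → α) :
    Sv e l (fun u => c * F u) u = c * Sv e l F u := by
  induction l generalizing u with
  | nil => rfl
  | cons v l ih => simp only [Sv, ih, Finset.mul_sum]

theorem Sv_zero (l : List ℕ) (u : ℕ → α) : Sv e l (fun _ => 0) u = 0 := by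
  simpa using Sv_mul (e := e) l 0 (fun _ => 0) u

theorem Sv_sum {ι : Type} (s : List ι) (l : List ℕ) (F : ι → (ℕ → α) → ℂ) (u : ℕ → α) :
    Sv e l (fun u => (s.map fun x => F x u).sum) u = (s.map fun x => Sv e l (F x) u).sum := by
  induction s with
  | nil => exact Sv_zero l u
  | cons x s ih => simp only [List.map_cons, List.sum_cons, Sv_add, ih]

theorem Sv_conj (l : List ℕ) (F : (ℕ → α) → ℂ) (u : ℕ → α) :
    Sv e l (fun u => conj (F u)) u = conj (Sv e l F u) := by
  induction l generalizing u with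
  | nil => rfl
  | cons v l ih => simp only [Sv, ih, map_sum]

theorem Sv_map {ρ : ℕ → ℕ} (l : List ℕ) (h : ∀ v ∈ l, ∀ w, ρ w = ρ v → w = v)
    (F : (ℕ → α) → ℂ) (u : ℕ → α) :
    Sv e (l.map ρ) (fun u => F (u ∘ ρ)) u = Sv e l F (u ∘ ρ) := by
  induction l generalizing u with
  | nil => rfl
  | cons v l ih =>
    simp only [List.map_cons, Sv, ih fun w hw => h w (List.mem_cons_of_mem _ hw)]
    refine Finset.sum_congr rfl fun i _ => ?_
    congr 1
    funext w
    by_cases hw : w = v
    · subst hw; simp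
    · rw [comp_apply, update_of_ne hw, update_of_ne fun h' => hw (h v (by simp) w h'), comp_apply]

theorem Sv_frame {β : Type} (φ : α → β) (l : List ℕ) (F : (ℕ → β) → ℂ) (u : ℕ → α) :
    Sv (φ ∘ e) l F (φ ∘ u) = Sv e l (fun u => F (φ ∘ u)) u := by
  induction l generalizing u with
  | nil => rfl
  | cons v l ih => simp only [Sv, ← ih, comp_update, comp_apply]

/-- F depends only on the variables in A -/
def Dp (A : ℕ → Prop) (F : (ℕ → α) → ℂ) : Prop :=
  ∀ u u' : ℕ → α, (∀ v, A v → u v = u' v) → F u = F u'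

theorem Dp.mono {A B : ℕ → Prop} {F : (ℕ → α) → ℂ} (h : Dp A F) (hAB : ∀ v, A v → B v) :
    Dp B F := fun u u' hu => h u u' fun v hv => hu v (hAB v hv)

theorem Dp.Sv {A : ℕ → Prop} {F : (ℕ → α) → ℂ} (h : Dp A F) (l : List ℕ) :
    Dp (fun v => A v ∧ v ∉ l) (Sv e l F) := by
  induction l with
  | nil => exact h.mono fun v hv => ⟨hv, by simp⟩
  | cons v l ih =>
    intro u u' hu
    refine Finset.sum_congr rfl fun i _ => ih _ _ fun w hw => ?_
    by_cases hv : w = v
    · subst hv; simp
    · rw [update_of_ne hv, update_of_ne hv]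
      exact hu w ⟨hw.1, by simp [hv, hw.2]⟩

theorem Dp.Sv_mul {A : ℕ → Prop} {G : (ℕ → α) → ℂ} (h : Dp A G) {l : List ℕ}
    (hl : ∀ v ∈ l, ¬ A v) (F : (ℕ → α) → ℂ) (u : ℕ → α) :
    MP_40b2af_gt.Sv e l (fun u => G u * F u) u = G u * MP_40b2af_gt.Sv e l F u := by
  induction l generalizing u with
  | nil => rfl
  | cons v l ih =>
    simp only [MP_40b2af_gt.Sv, ih fun w hw => hl w (List.mem_cons_of_mem _ hw), Finset.mul_sum]
    refine Finset.sum_congr rfl fun i _ => ?_
    rw [h (update u v (e i)) u fun w hw => update_of_ne (by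
      rintro rfl; exact hl w (by simp) hw) _ _]

theorem Sv_nonneg (l : List ℕ) {F : (ℕ → α) → ℂ} (h : ∀ u, 0 ≤ F u) (u : ℕ → α) :
    0 ≤ Sv e l F u := by
  induction l generalizing u with
  | nil => exact h u
  | cons v l ih => exact Finset.sum_nonneg fun i _ => ih _

theorem Sv_eq_zero (l : List ℕ) {F : (ℕ → Fin n) → ℂ} (h : ∀ u, 0 ≤ F u) (u u' : ℕ → Fin n)
    (h0 : Sv id l F u = 0) (hu : ∀ v, v ∉ l → u' v = u v) : F u' = 0 := by
  induction l generalizing u with
  | nil => rwa [show u' = u from funext fun v => hu v (by simp)]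
  | cons v l ih =>
    refine ih _ ((Finset.sum_eq_zero_iff_of_nonneg fun i _ => Sv_nonneg l h _).1 h0 (u' v)
      (Finset.mem_univ _)) fun w hw => ?_
    by_cases hv : w = v
    · subst hv; simp
    · rw [update_of_ne hv]; exact hu w (by simp [hv, hw])

/-- exchange of the entries k and k + 1 -/
def swT {β : Type} (k : ℕ) : List β → List β :=
  Nat.rec (fun s => match s with
      | p :: q :: r => q :: p :: r
      | s => s)
    (fun _ ih s => match s with
      | [] => []
      | p :: r => p :: ih r) k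

/-- exchange of the two last pairs -/
def swR {β : Type} (k : ℕ) : List β → List β :=
  Nat.rec (fun s => match s with
      | [p, q, r, s] => [r, s, p, q]
      | s => s)
    (fun _ ih s => match s with
      | [] => []
      | p :: r => p :: ih r) k

theorem swT_map {β γ : Type} (φ : β → γ) (k : ℕ) (s : List β) :
    (swT k s).map φ = swT k (s.map φ) := by
  induction k generalizing s with
  | zero => rcases s with _ | ⟨p, _ | ⟨q, r⟩⟩ <;> rfl
  | succ k ih =>
    rcases s with _ | ⟨p, r⟩
    · rfl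
    · exact congrArg (φ p :: ·) (ih r)

theorem swR_map {β γ : Type} (φ : β → γ) (k : ℕ) (s : List β) :
    (swR k s).map φ = swR k (s.map φ) := by
  induction k generalizing s with
  | zero => rcases s with _ | ⟨p, _ | ⟨q, _ | ⟨r, _ | ⟨s, _ | ⟨t, l⟩⟩⟩⟩⟩ <;> rfl
  | succ k ih =>
    rcases s with _ | ⟨p, r⟩
    · rfl
    · exact congrArg (φ p :: ·) (ih r)

theorem swT_perm {β : Type} (k : ℕ) (s : List β) : (swT k s).Perm s := by
  induction k generalizing s with
  | zero =>
    rcases s with _ | ⟨p, _ | ⟨q, r⟩⟩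
    · exact .refl _
    · exact .refl _
    · exact .swap _ _ _
  | succ k ih =>
    rcases s with _ | ⟨p, r⟩
    · exact .refl _
    · exact (ih r).cons p

theorem swR_perm {β : Type} (k : ℕ) (s : List β) : (swR k s).Perm s := by
  induction k generalizing s with
  | zero =>
    rcases s with _ | ⟨p, _ | ⟨q, _ | ⟨r, _ | ⟨s, _ | ⟨t, l⟩⟩⟩⟩⟩
    case cons.cons.cons.cons.nil => exact List.perm_append_comm (l₁ := [r, s]) (l₂ := [p, q])
    all_goals exact .refl _
  | succ k ih =>
    rcases s with _ | ⟨p, r⟩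
    · exact .refl _
    · exact (ih r).cons p

end Pool.Agent.Lib.MP_40b2af_gt
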