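import Mathlib
import Pool.Agent.Lib.MP_40b2af_gt.Sum

set_option autoImplicit false

noncomputable section

namespace Pool.Agent.Lib.MP_40b2af_gt

open scoped ComplexConjugate
open Function

/-- a slot: flag and variable -/
abbrev Sl : Type := Bool × ℕ
/-- a factor: code and slots -/
abbrev Fac : Type := ℕ × List Sl
/-- a product of factors -/
abbrev Tm : Type := List Fac
/-- a linear combination of products -/
abbrev Ex : Type := List (ℤ × Tm)

/-- components of the tensors in a unitary frame -/
structure Alg (n : ℕ) where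
  C : ℕ → List (Bool × Fin n) → ℂ
  c : ℝ
  sw : ∀ j s, C (8 * j) (swT j s) = - C (8 * j) s
  rs : ∀ j s, C (8 * j + 1) (swR j s) = C (8 * j + 1) s
  cj : ∀ k s, C k (s.map fun x => (!x.1, x.2)) = conj (C k s)
  dl : ∀ b i j, C 3 [(b, i), (!b, j)] = if i = j then 1 else 0
  cc : C 2 [] = c

variable {n : ℕ} [NeZero n] {A : Alg n}

/-- the variables of a product -/
def vars (t : Tm) : List ℕ := t.flatMap fun f => f.2.map Prod.snd

/-- value of a factor -/
def fv (A : Alg n) (f : Fac) (ι : ℕ → Fin n) : ℂ := A.C f.1 (f.2.map fun s => (s.1, ι s.2))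

/-- value of a product -/
def pr (A : Alg n) (t : Tm) (ι : ℕ → Fin n) : ℂ := (t.map fun f => fv A f ι).prod

/-- full contraction -/
def val (A : Alg n) (t : Tm) : ℂ := Sv id (vars t).dedup (pr A t) 0

/-- real part of a combination of full contractions -/
def ev (A : Alg n) (e : Ex) : ℝ := (e.map fun x => (x.1 : ℝ) * (val A x.2).re).sum

@[simp] theorem vars_nil : vars [] = [] := rfl

@[simp] theorem vars_cons (f : Fac) (t : Tm) : vars (f :: t) = f.2.map Prod.snd ++ vars t := rfl

@[simp] theorem vars_append (t t' : Tm) : vars (t ++ t') = vars t ++ vars t' := List.flatMap_append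

omit [NeZero n] in
@[simp] theorem pr_cons (f : Fac) (t : Tm) (ι : ℕ → Fin n) :
    pr A (f :: t) ι = fv A f ι * pr A t ι := rfl

omit [NeZero n] in
theorem pr_append (t t' : Tm) (ι : ℕ → Fin n) : pr A (t ++ t') ι = pr A t ι * pr A t' ι := by
  simp [pr]

omit [NeZero n] in
theorem pr_dp (t : Tm) : Dp (· ∈ vars t) (pr A t) := by
  intro u u' h
  induction t with
  | nil => rfl
  | cons f t ih =>
    rw [pr_cons, pr_cons, ih fun v hv => h v (by simp [hv]), fv, fv]
    congr 2
    exact List.map_congr_left fun s hs => by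
      rw [h s.2 (by simp only [vars_cons, List.mem_append, List.mem_map]; exact .inl ⟨s, hs, rfl⟩)]

theorem val_eq {t : Tm} {l : List ℕ} (hl : l.Nodup) (h : ∀ v, v ∈ l ↔ v ∈ vars t) :
    val A t = Sv id l (pr A t) 0 := by
  rw [val, Sv_perm ((List.perm_ext_iff_of_nodup (List.nodup_dedup _) hl).2 fun v => by
    rw [List.mem_dedup, h])]

theorem val_congr {t t' : Tm} {c : ℂ} (h : ∀ v, v ∈ vars t' ↔ v ∈ vars t)
    (hp : ∀ ι, pr A t ι = c * pr A t' ι) : val A t = c * val A t' := by
  rw [val_eq (List.nodup_dedup (vars t')) fun v => by rw [List.mem_dedup, h], val, ← Sv_mul,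
    funext hp]

@[simp] theorem ev_nil : ev A [] = 0 := rfl

@[simp] theorem ev_cons (x : ℤ × Tm) (e : Ex) :
    ev A (x :: e) = (x.1 : ℝ) * (val A x.2).re + ev A e := rfl

theorem ev_append (e e' : Ex) : ev A (e ++ e') = ev A e + ev A e' := by simp [ev]

/-- renaming of variables -/
def ren (ρ : ℕ → ℕ) (t : Tm) : Tm := t.map fun f => (f.1, f.2.map fun s => (s.1, ρ s.2))

/-- change of all flags -/
def flp (t : Tm) : Tm := t.map fun f => (f.1, f.2.map fun s => (!s.1, s.2))

theorem vars_ren (ρ : ℕ → ℕ) (t : Tm) : vars (ren ρ t) = (vars t).map ρ := by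
  simp [vars, ren, List.flatMap_map, List.map_flatMap, comp_def]

theorem vars_flp (t : Tm) : vars (flp t) = vars t := by
  simp [vars, flp, List.flatMap_map, comp_def]

omit [NeZero n] in
theorem pr_ren (ρ : ℕ → ℕ) (t : Tm) (ι : ℕ → Fin n) : pr A (ren ρ t) ι = pr A t (ι ∘ ρ) := by
  simp [pr, ren, fv, comp_def]

omit [NeZero n] in
theorem pr_flp (t : Tm) (ι : ℕ → Fin n) : pr A (flp t) ι = conj (pr A t ι) := by
  simp only [pr, flp, fv, List.map_map, map_list_prod, comp_def, ← A.cj]

theorem val_ren {ρ : ℕ → ℕ} (h : Injective ρ) (t : Tm) : val A (ren ρ t) = val A t := by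
  rw [val, vars_ren, List.dedup_map_of_injective h, funext (pr_ren ρ t),
    Sv_map _ (fun _ _ _ hw => h hw)]
  rfl

theorem val_flp (t : Tm) : val A (flp t) = conj (val A t) := by
  rw [val, vars_flp, funext (pr_flp t), Sv_conj, val]

/-- insertion at a position -/
def insAt (x : Fac) (l : Tm) : ℕ → Tm :=
  List.rec (fun _ => [x])
    (fun y l ih i => cond (Nat.beq i 0) (x :: y :: l) (y :: ih (Nat.pred i))) l

theorem insAt_perm (x : Fac) (l : Tm) (i : ℕ) : (insAt x l i).Perm (x :: l) := by
  induction l generalizing i with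
  | nil => exact .refl _
  | cons y l ih =>
    change (cond (Nat.beq i 0) (x :: y :: l) (y :: insAt x l (Nat.pred i))).Perm _
    cases Nat.beq i 0
    · exact ((ih _).cons y).trans (.swap _ _ _)
    · exact .refl _

/-- symmetry move of a factor -/
def swp (f : Fac) : Fac :=
  cond (Nat.beq (Nat.mod f.1 8) 0) (f.1, swT (Nat.div f.1 8) f.2)
    (cond (Nat.beq (Nat.mod f.1 8) 1) (f.1, swR (Nat.div f.1 8) f.2) f)

/-- reordering and symmetry moves -/
def reord (t : Tm) : ℕ → Tm :=
  List.rec (fun _ => []) (fun f _ ih w => insAt (cond (Nat.beq (Nat.mod w 2) 1) (swp f) f)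
    (ih (Nat.div w 32)) (Nat.mod (Nat.div w 2) 16)) t

/-- the sign of the symmetry moves -/
def sgn (t : Tm) : ℕ → ℤ → ℤ :=
  List.rec (fun _ c => c) (fun f _ ih w c =>
    cond (Nat.beq (Nat.mod w 2) 1) (cond (Nat.beq (Nat.mod f.1 8) 0) (Int.neg (ih (Nat.div w 32) c))
      (ih (Nat.div w 32) c)) (ih (Nat.div w 32) c)) t

theorem swp_vars (f : Fac) : ((swp f).2.map Prod.snd).Perm (f.2.map Prod.snd) := by
  unfold swp
  cases Nat.beq (Nat.mod f.1 8) 0
  · cases Nat.beq (Nat.mod f.1 8) 1
    · exact .refl _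
    · exact (swR_perm _ _).map _
  · exact (swT_perm _ _).map _

omit [NeZero n] in
theorem fv_swp (f : Fac) (ι : ℕ → Fin n) :
    fv A (swp f) ι = cond (Nat.beq (Nat.mod f.1 8) 0) (- fv A f ι) (fv A f ι) := by
  unfold swp
  have e := Nat.div_add_mod f.1 8
  cases h0 : Nat.beq (Nat.mod f.1 8) 0
  · cases h1 : Nat.beq (Nat.mod f.1 8) 1
    · rfl
    · have h := A.rs (f.1 / 8) (f.2.map fun s => (s.1, ι s.2))
      rw [show f.1 % 8 = 1 from Nat.eq_of_beq_eq_true h1] at e
      rw [e, ← swR_map] at h
      exact h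
  · have h := A.sw (f.1 / 8) (f.2.map fun s => (s.1, ι s.2))
    rw [show f.1 % 8 = 0 from Nat.eq_of_beq_eq_true h0, add_zero] at e
    rw [e, ← swT_map] at h
    exact h

theorem reord_cons (f : Fac) (t : Tm) (w : ℕ) : reord (f :: t) w
    = insAt (cond (Nat.beq (Nat.mod w 2) 1) (swp f) f) (reord t (Nat.div w 32))
      (Nat.mod (Nat.div w 2) 16) := rfl

theorem reord_vars (t : Tm) (w : ℕ) : (vars (reord t w)).Perm (vars t) := by
  induction t generalizing w with
  | nil => exact .refl _
  | cons f t ih =>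
    rw [reord_cons]
    refine ((insAt_perm _ _ _).flatMap_right _).trans (List.Perm.append ?_ (ih _))
    cases Nat.beq (Nat.mod w 2) 1
    · exact .refl _
    · exact swp_vars f

omit [NeZero n] in
theorem reord_pr (t : Tm) (w : ℕ) (c : ℤ) (ι : ℕ → Fin n) :
    (sgn t w c : ℂ) * pr A (reord t w) ι = c * pr A t ι := by
  induction t generalizing w with
  | nil => rfl
  | cons f t ih =>
    have e := ih (Nat.div w 32)
    rw [reord_cons, pr, ((insAt_perm _ _ _).map _).prod_eq]
    change ((cond (Nat.beq (Nat.mod w 2) 1) (cond (Nat.beq (Nat.mod f.1 8) 0)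
      (- (sgn t (Nat.div w 32) c)) (sgn t (Nat.div w 32) c)) (sgn t (Nat.div w 32) c) : ℤ) : ℂ)
      * pr A (_ :: reord t (Nat.div w 32)) ι = _
    rw [pr_cons, pr_cons]
    cases Nat.beq (Nat.mod w 2) 1
    · simp only [cond_false]; linear_combination fv A f ι * e
    · simp only [cond_true, fv_swp]
      cases Nat.beq (Nat.mod f.1 8) 0
      · simp only [cond_false]; linear_combination fv A f ι * e
      · simp only [cond_true]; push_cast; linear_combination fv A f ι * e

theorem reord_val (t : Tm) (w : ℕ) (c : ℤ) :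
    (sgn t w c : ℂ) * val A (reord t w) = c * val A t := by
  rw [val_eq (List.nodup_dedup (vars t)) fun v => by rw [List.mem_dedup, (reord_vars t w).mem_iff],
    val, ← Sv_mul, ← Sv_mul, funext (reord_pr t w c)]

/-- occurrence of a variable -/
def occ (u : ℕ) (t : Tm) : Bool :=
  List.rec false (fun f _ ih => List.rec ih (fun s _ ih' => cond (Nat.beq s.2 u) true ih') f.2) t

theorem occ_iff (u : ℕ) (t : Tm) : occ u t = true ↔ u ∈ vars t := by
  induction t with
  | nil => simp [occ]
  | cons f t ih =>
    obtain ⟨k, s⟩ := f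
    rw [vars_cons, List.mem_append, ← ih]
    induction s with
    | nil => simp [occ]
    | cons x s ih' =>
      change cond (Nat.beq x.2 u) true (occ u ((k, s) :: t)) = true ↔ _
      cases h : Nat.beq x.2 u
      · have := Nat.ne_of_beq_eq_false h
        simp only [cond_false, ih', List.map_cons, List.mem_cons]
        tauto
      · simp [Nat.eq_of_beq_eq_true h]

/-- substitution of one variable -/
def sbs (u v w : ℕ) : ℕ := cond (Nat.beq w u) v w

theorem sbs_eq (u v w : ℕ) : sbs u v w = if w = u then v else w := by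
  unfold sbs
  cases h : Nat.beq w u
  · rw [if_neg (Nat.ne_of_beq_eq_false h)]; rfl
  · rw [if_pos (Nat.eq_of_beq_eq_true h)]; rfl

theorem val_delta {b : Bool} {u v : ℕ} {r : Tm} (huv : u ≠ v) (hu : u ∈ vars r) :
    val A ((3, [(b, u), (!b, v)]) :: r) = val A (ren (sbs u v) r) := by
  have h1 : u ∉ vars (ren (sbs u v) r) := by
    rw [vars_ren, List.mem_map]
    rintro ⟨w, -, hw⟩
    rw [sbs_eq] at hw
    split_ifs at hw with h
    · exact huv hw.symm
    · exact h hw
  rw [val_eq (l := (vars (ren (sbs u v) r)).dedup ++ [u]), Sv_append, val]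
  · congr 1
    funext ι
    simp only [Sv, pr_cons, fv, List.map_cons, List.map_nil, A.dl, update_self, id,
      update_of_ne huv.symm, ite_mul, one_mul, zero_mul, Finset.sum_ite_eq', Finset.mem_univ,
      if_true, pr_ren]
    congr 1
    funext w
    simp only [comp_apply, sbs_eq, update_apply]
    split_ifs <;> rfl
  · rw [List.nodup_append]
    exact ⟨List.nodup_dedup _, List.nodup_singleton _, fun a ha b hb => by
      rw [List.mem_singleton.1 hb]; rintro rfl; exact h1 (List.mem_dedup.1 ha)⟩
  · intro w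
    simp only [List.mem_append, List.mem_dedup, vars_ren, List.mem_map, sbs_eq, vars_cons,
      List.map_cons, List.map_nil, List.mem_cons, List.not_mem_nil, or_false]
    constructor
    · rintro (⟨x, hx, rfl⟩ | h)
      · split_ifs
        · exact .inl (.inr rfl)
        · exact .inr hx
      · exact .inl (.inl h)
    · rintro ((h | h) | h)
      · exact .inr h
      · exact .inl ⟨u, hu, by simp [h]⟩
      · by_cases hw : w = u
        · exact .inr hw
        · exact .inl ⟨w, h, if_neg hw⟩

theorem val_loop {b : Bool} {u : ℕ} {r : Tm} (hu : u ∉ vars r) :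
    val A ((3, [(b, u), (!b, u)]) :: r) = n * val A r := by
  rw [val_eq (l := (vars r).dedup ++ [u]), Sv_append, val, ← Sv_mul]
  · congr 1
    funext ι
    simp only [Sv, pr_cons, fv, List.map_cons, List.map_nil, A.dl, if_true, one_mul]
    rw [Finset.sum_congr rfl fun i _ => pr_dp r _ ι fun w hw => update_of_ne (by
      rintro rfl; exact hu hw) _ _]
    simp
  · rw [List.nodup_append]
    exact ⟨List.nodup_dedup _, List.nodup_singleton _, fun a ha b hb => by
      rw [List.mem_singleton.1 hb]; rintro rfl; exact hu (List.mem_dedup.1 ha)⟩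
  · intro w
    simp only [List.mem_append, List.mem_dedup, vars_cons, List.map_cons, List.map_nil,
      List.mem_cons, List.not_mem_nil, or_false]
    tauto

/-- one elimination of a metric factor -/
def de1 {γ : Type} (n : ℕ) (t : Tm) (c : ℤ) (go : Tm → ℤ → γ) (stop : γ) : γ :=
  match t with
  | (k, [(b, u), (b', v)]) :: r => cond (Nat.beq k 3) (cond (xor b b')
      (cond (Nat.beq u v) (cond (occ u r) stop (go r (Int.mul (Int.ofNat n) c)))
        (cond (occ u r) (go (ren (sbs u v) r) c) stop)) stop) stop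
  | _ => stop

/-- elimination of the leading metric factors -/
def de {γ : Type} (n : ℕ) (k : Tm → ℤ → γ) (fuel : Tm) : Tm → ℤ → γ :=
  List.rec k (fun _ _ ih t c => de1 n t c ih (k t c)) fuel

theorem de1_spec {γ : Type} (t : Tm) (c : ℤ) (go : Tm → ℤ → γ) (stop : γ) :
    de1 n t c go stop = stop
      ∨ ∃ t' c', de1 n t c go stop = go t' c' ∧ (c' : ℂ) * val A t' = c * val A t := by
  unfold de1
  split
  · rename_i k b u b' v r
    cases hk : Nat.beq k 3
    · exact .inl rfl
    obtain rfl := Nat.eq_of_beq_eq_true hk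
    cases hb : xor b b'
    · exact .inl rfl
    obtain rfl : b' = !b := by revert hb; cases b <;> cases b' <;> simp
    cases huv : Nat.beq u v <;> cases hu : occ u r
    · exact .inl rfl
    · exact .inr ⟨_, _, rfl, by rw [val_delta (Nat.ne_of_beq_eq_false huv) ((occ_iff u r).1 hu)]⟩
    · obtain rfl := Nat.eq_of_beq_eq_true huv
      refine .inr ⟨_, _, rfl, ?_⟩
      rw [val_loop (by rw [← occ_iff, hu]; simp)]
      change (((n : ℤ) * c : ℤ) : ℂ) * _ = _
      push_cast; ring
    · exact .inl rfl
  · exact .inl rfl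

theorem de_spec {γ : Type} (k : Tm → ℤ → γ) (fuel t : Tm) (c : ℤ) :
    ∃ t' c', de n k fuel t c = k t' c' ∧ (c' : ℂ) * val A t' = c * val A t := by
  induction fuel generalizing t c with
  | nil => exact ⟨t, c, rfl, rfl⟩
  | cons f fuel ih =>
    rcases de1_spec (A := A) t c (de n k fuel) (k t c) with h | ⟨t', c', h, e⟩
    · exact ⟨t, c, h, rfl⟩
    · obtain ⟨t2, c2, h2, e2⟩ := ih t' c'
      exact ⟨t2, c2, h.trans h2, e2.trans e⟩

/-- position in a list -/
def idx (l : List ℕ) (v : ℕ) : ℕ :=
  List.rec v (fun x _ ih => cond (Nat.beq x v) 0 (Nat.succ ih)) l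

theorem idx_inj (l : List ℕ) : Injective (idx l) := by
  intro v w h
  induction l with
  | nil => exact h
  | cons x l ih =>
    change cond (Nat.beq x v) 0 (Nat.succ (idx l v)) = cond (Nat.beq x w) 0 (Nat.succ (idx l w)) at h
    cases h1 : Nat.beq x v <;> cases h2 : Nat.beq x w <;> rw [h1, h2] at h
    · exact ih (Nat.succ_injective h)
    · exact absurd h (Nat.succ_ne_zero _)
    · exact absurd h.symm (Nat.succ_ne_zero _)
    · exact (Nat.eq_of_beq_eq_true h1).symm.trans (Nat.eq_of_beq_eq_true h2)

/-- one symbol of the code -/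
def sym (b : Bool) (a acc : ℕ) : ℕ :=
  Nat.add (Nat.shiftLeft (Nat.succ (Nat.mul 2 acc)) (Nat.succ a)) (cond b 1 0)

theorem sym_eq (b : Bool) (a acc : ℕ) : sym b a acc = 2 * (2 ^ a * (2 * acc + 1)) + cond b 1 0 := by
  change (2 * acc + 1) <<< (a + 1) + cond b 1 0 = _
  rw [Nat.shiftLeft_eq]; ring

theorem sym_inj {b b' : Bool} {a a' x x' : ℕ} (h : sym b a x = sym b' a' x') :
    b = b' ∧ a = a' ∧ x = x' := by
  rw [sym_eq, sym_eq] at h
  have h1 : b = b' ∧ 2 ^ a * (2 * x + 1) = 2 ^ a' * (2 * x' + 1) := by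
    cases b <;> cases b' <;> simp only [cond_true, cond_false] at h <;>
      first | exact ⟨rfl, by omega⟩ | omega
  refine ⟨h1.1, ?_⟩
  have h2 := h1.2
  clear h h1
  induction a generalizing a' with
  | zero =>
    cases a' with
    | zero => exact ⟨rfl, by omega⟩
    | succ a' => rw [pow_succ', mul_assoc] at h2; omega
  | succ a ih =>
    cases a' with
    | zero => rw [pow_succ', mul_assoc] at h2; omega
    | succ a' =>
      rw [pow_succ', pow_succ', mul_assoc, mul_assoc] at h2
      have := ih (a' := a') (by omega)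
      exact ⟨by omega, this.2⟩

/-- numerical code of a product after a change of flags and a renaming -/
def encW (fl : Bool) (ρ : ℕ → ℕ) (t : Tm) : ℕ :=
  List.rec 0 (fun f _ ih => sym false f.1
    (List.rec (sym false 0 ih) (fun s _ ih' => sym (xor fl s.1) (Nat.succ (ρ s.2)) ih') f.2)) t

theorem enc_inj : Injective (encW false id) := by
  intro t t' h
  induction t generalizing t' with
  | nil =>
    cases t' with
    | nil => rfl
    | cons f t' =>
      change 0 = sym _ _ _ at h
      rw [sym_eq] at h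
      exact absurd h (by positivity)
  | cons f t ih =>
    cases t' with
    | nil =>
      change sym _ _ _ = 0 at h
      rw [sym_eq] at h
      exact absurd h (by positivity)
    | cons f' t' =>
      obtain ⟨k, s⟩ := f
      obtain ⟨k', s'⟩ := f'
      obtain ⟨-, rfl, h2⟩ := sym_inj h
      clear h
      suffices s = s' ∧ t = t' by rw [this.1, this.2]
      induction s generalizing s' with
      | nil =>
        cases s' with
        | nil => exact ⟨rfl, ih (sym_inj h2).2.2⟩
        | cons x s' => exact absurd (sym_inj h2).2.1 (Nat.succ_ne_zero _).symm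
      | cons x s ih' =>
        cases s' with
        | nil => exact absurd (sym_inj h2).2.1 (Nat.succ_ne_zero _)
        | cons x' s' =>
          obtain ⟨e1, e2, e3⟩ := sym_inj h2
          obtain ⟨rfl, rfl⟩ := ih' s' e3
          exact ⟨by rw [Prod.ext (by simpa using e1) (Nat.succ_injective e2)], rfl⟩

theorem encW_eq (fl : Bool) (ρ : ℕ → ℕ) (t : Tm) :
    encW fl ρ t = encW false id (ren ρ (cond fl (flp t) t)) := by
  induction t with
  | nil => cases fl <;> rfl
  | cons f t ih =>
    obtain ⟨k, s⟩ := f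
    cases fl
    · refine congrArg (sym false k) ?_
      induction s with
      | nil => exact congrArg (sym false 0) ih
      | cons x s ih' => exact congrArg (sym _ _) ih'
    · refine congrArg (sym false k) ?_
      induction s with
      | nil => exact congrArg (sym false 0) ih
      | cons x s ih' =>
        obtain ⟨_ | _, v⟩ := x <;> exact congrArg (sym _ _) ih'

/-- the value attached to a code -/
def kv (A : Alg n) (k : ℕ) : ℝ := (val A (invFun (encW false id) k)).re

theorem kv_encW (fl : Bool) (l : List ℕ) (t : Tm) : kv A (encW fl (idx l) t) = (val A t).re := by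
  rw [kv, encW_eq, leftInverse_invFun enc_inj, val_ren (idx_inj l)]
  cases fl
  · rfl
  · simp [val_flp]

end Pool.Agent.Lib.MP_40b2af_gt
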