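import Mathlib
import Pool.Agent.Lib.MP_40b2af_gt.Alg

set_option autoImplicit false

noncomputable section

namespace Pool.Agent.Lib.MP_40b2af_gt

open scoped ComplexConjugate
open Function

/-- table of codes and coefficients -/
inductive Tr : Type
  | bad : Tr
  | leaf : ℕ → ℤ → Tr
  | node : Tr → Tr → Tr

/-- strict evaluation of a natural number -/
def frcN {γ : Type} (a : ℕ) (k : ℕ → γ) : γ := Nat.rec (k 0) (fun m _ => k (Nat.succ m)) a

/-- strict evaluation of an integer -/
def frcI {γ : Type} (a : ℤ) (k : ℤ → γ) : γ :=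
  Int.rec (fun m => frcN m fun m => k (Int.ofNat m)) (fun m => frcN m fun m => k (Int.negSucc m)) a

/-- strict evaluation of a table -/
def frcT {γ : Type} (T : Tr) (k : Tr → γ) : γ :=
  Tr.rec (k .bad) (fun a c => k (.leaf a c)) (fun l r _ _ => k (.node l r)) T

theorem frcN_eq {γ : Type} (a : ℕ) (k : ℕ → γ) : frcN a k = k a := by cases a <;> rfl

theorem frcI_eq {γ : Type} (a : ℤ) (k : ℤ → γ) : frcI a k = k a := by
  cases a with
  | ofNat m => exact frcN_eq m fun m => k (Int.ofNat m)
  | negSucc m => exact frcN_eq m fun m => k (Int.negSucc m)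

theorem frcT_eq {γ : Type} (T : Tr) (k : Tr → γ) : frcT T k = k T := by cases T <;> rfl

/-- addition to a coefficient, with a test on the code -/
def ins (T : Tr) (p : ℕ → Bool) (d : ℤ) : ℕ → Tr :=
  Tr.rec (fun _ => .bad) (fun k c _ => cond (p k) (frcI (Int.add c d) (.leaf k)) .bad)
    (fun l r il ir i => cond (Nat.beq (Nat.mod i 2) 0) (frcT (il (Nat.div i 2)) fun l' => .node l' r)
      (frcT (ir (Nat.div i 2)) fun r' => .node l r')) T

/-- the code stored at a position -/
def Tr.key : Tr → ℕ → ℕ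
  | .bad, _ => 0
  | .leaf k _, _ => k
  | .node l r, i => if i % 2 = 0 then l.key (i / 2) else r.key (i / 2)

/-- no failure -/
def Tr.ok : Tr → Prop
  | .bad => False
  | .leaf _ _ => True
  | .node l r => l.ok ∧ r.ok

/-- value of a table -/
def Tr.tv (V : ℕ → ℝ) : Tr → ℝ
  | .bad => 0
  | .leaf k c => c * V k
  | .node l r => l.tv V + r.tv V

/-- all coefficients vanish -/
def allZ (T : Tr) : Bool :=
  Tr.rec false (fun _ c => Int.rec (fun m => Nat.beq m 0) (fun _ => false) c)
    (fun _ _ a b => cond a b false) T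

theorem allZ_spec {T : Tr} (h : allZ T = true) (V : ℕ → ℝ) : T.ok ∧ T.tv V = 0 := by
  induction T with
  | bad => exact absurd h (by decide)
  | leaf k c =>
    cases c with
    | ofNat m =>
      obtain rfl : m = 0 := Nat.eq_of_beq_eq_true h
      exact ⟨trivial, by simp [Tr.tv]⟩
    | negSucc m => exact absurd h (by simp [allZ])
  | node l r il ir =>
    change cond (allZ l) (allZ r) false = true at h
    cases h1 : allZ l
    · simp [h1] at h
    · rw [h1] at h
      exact ⟨⟨(il h1).1, (ir h).1⟩, by rw [Tr.tv, (il h1).2, (ir h).2, add_zero]⟩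

theorem ins_spec {T : Tr} {p : ℕ → Bool} {d : ℤ} {i : ℕ} (h : (ins T p d i).ok) (V : ℕ → ℝ) :
    T.ok ∧ p (T.key i) = true ∧ (ins T p d i).tv V = T.tv V + d * V (T.key i)
      ∧ (ins T p d i).key = T.key := by
  induction T generalizing i with
  | bad => exact h.elim
  | leaf k c =>
    have e : ins (.leaf k c) p d i = cond (p k) (.leaf k (c + d)) .bad := by
      change cond (p k) (frcI _ _) _ = _
      rw [frcI_eq]; rfl
    rw [e] at h ⊢
    cases hp : p k
    · rw [hp] at h; exact h.elim
    · exact ⟨trivial, hp, by simp [Tr.tv, Tr.key, add_mul], by funext j; rfl⟩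
  | node l r il ir =>
    have e : ins (.node l r) p d i = cond (Nat.beq (i % 2) 0) (.node (ins l p d (i / 2)) r)
        (.node l (ins r p d (i / 2))) := by
      change cond _ (frcT _ _) (frcT _ _) = _
      rw [frcT_eq, frcT_eq]; rfl
    rw [e] at h ⊢
    cases hi : Nat.beq (i % 2) 0 <;> rw [hi] at h
    · obtain ⟨h1, h2, h3, h4⟩ := ir h.2
      have := Nat.ne_of_beq_eq_false hi
      refine ⟨⟨h.1, h1⟩, by simpa [Tr.key, this] using h2, ?_, ?_⟩
      · simp only [cond_false, Tr.tv, Tr.key, if_neg this, h3]; ring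
      · funext j; simp only [cond_false, Tr.key, h4]
    · obtain ⟨h1, h2, h3, h4⟩ := il h.1
      have := Nat.eq_of_beq_eq_true hi
      refine ⟨⟨h1, h.2⟩, by simpa [Tr.key, this] using h2, ?_, ?_⟩
      · simp only [cond_true, Tr.tv, Tr.key, if_pos this, h3]; ring
      · funext j; simp only [cond_true, Tr.key, h4]

/-- the variables of the slots with a given flag -/
def fvs (fl : Bool) (t : Tm) : List ℕ :=
  List.rec [] (fun f _ ih => List.rec ih (fun s _ ih' => cond (xor fl s.1) ih' (s.2 :: ih')) f.2) t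

/-- insertion of one term -/
def step (n : ℕ) (T : Tr) (c : ℤ) (t : Tm) (w : ℕ) : Tr :=
  de n (fun t c => ins T (Nat.beq (encW (Nat.beq (Nat.mod (Nat.div w 8192) 2) 1)
      (idx (fvs (Nat.beq (Nat.mod (Nat.div w 8192) 2) 1) t)) t)) c (Nat.mod w 8192)) t
    (reord t (Nat.div w 16384)) (sgn t (Nat.div w 16384) c)

/-- insertion of a combination -/
def runE (n : ℕ) (e : Ex) : ℕ → Tr → Tr :=
  List.rec (fun _ T => T) (fun x _ ih w T =>
    frcT (step n T x.1 x.2 (Nat.mod w 18446744073709551616)) fun T' =>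
      ih (Nat.div w 18446744073709551616) T') e

/-- insertion of a list of combinations -/
def runG (n : ℕ) (gs : List (Ex × ℕ)) : Tr → Tr :=
  List.rec (fun T => T) (fun g _ ih T => frcT (runE n g.1 g.2 T) ih) gs

/-- an integer from a natural number -/
def decI (a : ℕ) : ℤ :=
  cond (Nat.beq (Nat.mod a 2) 0) (Int.ofNat (Nat.div a 2)) (Int.negSucc (Nat.div a 2))

/-- insertion of a list of coefficients -/
def runR (res : List ℕ) : Tr → Tr :=
  List.rec (fun T => T) (fun x _ ih T =>
    frcT (ins T (fun _ => true) (decI (Nat.div x 8192)) (Nat.mod x 8192)) ih) res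

/-- the test -/
def chk (n : ℕ) (T : Tr) (gs : List (Ex × ℕ)) (res : List ℕ) : Bool :=
  allZ (runR res (runG n gs T))

variable {n : ℕ} [NeZero n] (A : Alg n)

/-- value of a list of coefficients -/
def rv (T : Tr) (res : List ℕ) : ℝ :=
  (res.map fun x => (decI (x / 8192) : ℝ) * kv A (T.key (x % 8192))).sum

theorem rv_append (T : Tr) (r r' : List ℕ) : rv A T (r ++ r') = rv A T r + rv A T r' := by
  simp [rv]

/-- T' is T with x added -/
def Up (T T' : Tr) (x : ℝ) : Prop :=
  T'.ok → T.ok ∧ T'.tv (kv A) = T.tv (kv A) + x ∧ T'.key = T.key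

theorem Up.trans {T T' T'' : Tr} {x y : ℝ} (h : Up A T T' x) (h' : Up A T' T'' y) :
    Up A T T'' (x + y) := fun h2 => by
  obtain ⟨a, b, c⟩ := h' h2
  obtain ⟨d, e, f⟩ := h a
  exact ⟨d, by rw [b, e, add_assoc], c.trans f⟩

theorem up_step (T : Tr) (c : ℤ) (t : Tm) (w : ℕ) :
    Up A T (step n T c t w) (c * (val A t).re) := by
  intro h
  unfold step at h ⊢
  obtain ⟨t', c', h1, h2⟩ := de_spec (A := A) (fun t c => ins T (Nat.beq
    (encW (Nat.beq (Nat.mod (Nat.div w 8192) 2) 1)
      (idx (fvs (Nat.beq (Nat.mod (Nat.div w 8192) 2) 1) t)) t)) c (Nat.mod w 8192)) t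
    (reord t (Nat.div w 16384)) (sgn t (Nat.div w 16384) c)
  rw [h1] at h ⊢
  obtain ⟨a, b, e, f⟩ := ins_spec h (kv A)
  refine ⟨a, ?_, f⟩
  rw [e, ← Nat.eq_of_beq_eq_true b, kv_encW]
  have := congrArg Complex.re (h2.trans (reord_val t _ c))
  simp only [Complex.mul_re, Complex.intCast_re, Complex.intCast_im, zero_mul, sub_zero] at this
  rw [this]

theorem up_runE (e : Ex) (w : ℕ) (T : Tr) : Up A T (runE n e w T) (ev A e) := by
  induction e generalizing w T with
  | nil => exact fun h => ⟨h, by simp [runE], rfl⟩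
  | cons x e ih =>
    change Up A T (frcT _ _) _
    rw [frcT_eq]
    exact (up_step A T x.1 x.2 _).trans A (ih _ _)

theorem up_runG (gs : List (Ex × ℕ)) (T : Tr) :
    Up A T (runG n gs T) (gs.map fun g => ev A g.1).sum := by
  induction gs generalizing T with
  | nil => exact fun h => ⟨h, by simp [runG], rfl⟩
  | cons x e ih =>
    change Up A T (frcT _ _) _
    rw [frcT_eq]
    exact (up_runE A x.1 x.2 T).trans A (ih _)

theorem up_runR (res : List ℕ) (T : Tr) : Up A T (runR res T) (rv A T res) := by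
  induction res generalizing T with
  | nil => exact fun h => ⟨h, by simp [runR, rv], rfl⟩
  | cons x e ih =>
    change Up A T (frcT _ _) _
    rw [frcT_eq]
    intro h
    obtain ⟨a, b, c⟩ := ih _ h
    obtain ⟨d, -, f, g⟩ := ins_spec a (kv A)
    refine ⟨d, b.trans ?_, c.trans g⟩
    rw [f, rv, rv, g, List.map_cons, List.sum_cons, add_assoc]
    rfl

theorem chk_sound {T : Tr} (h0 : allZ T = true) {gs : List (Ex × ℕ)} {res : List ℕ}
    (h : chk n T gs res = true) : (gs.map fun g => ev A g.1).sum + rv A T res = 0 := by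
  obtain ⟨a, b⟩ := allZ_spec h (kv A)
  obtain ⟨c, d, -⟩ := up_runR A res _ a
  obtain ⟨-, e, f⟩ := up_runG A gs T c
  rw [b, e, (allZ_spec h0 _).2, rv, f] at d
  rw [rv, d, zero_add]

end Pool.Agent.Lib.MP_40b2af_gt
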