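import Mathlib
import Pool.Agent.Lib.MP_40b2af_gt.Chk

set_option autoImplicit false

noncomputable section

namespace Pool.Agent.Lib.MP_40b2af_gt

open scoped ComplexConjugate ComplexOrder
open Function

variable {n : ℕ} [NeZero n] {A : Alg n}

/-- substitution of the free variables and shift of the bound variables -/
def rho (s off v : ℕ) : ℕ :=
  cond (Nat.ble 8 v) (Nat.add v off) (Nat.mod (Nat.shiftRight s (Nat.mul 4 v)) 16)

theorem rho_lt {v : ℕ} (s off : ℕ) (h : v < 8) : rho s off v < 16 := by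
  unfold rho
  cases h' : Nat.ble 8 v
  · exact Nat.mod_lt _ (by norm_num)
  · exact absurd (Nat.le_of_ble_eq_true h') (by omega)

theorem rho_ge {v : ℕ} (s off : ℕ) (h : 8 ≤ v) : rho s off v = v + off := by
  unfold rho
  rw [Nat.ble_eq_true_of_le h]; rfl

/-- the bound variables -/
def bv (t : Tm) : List ℕ := (vars t).dedup.filter fun v => decide (8 ≤ v)

theorem mem_bv {t : Tm} {v : ℕ} : v ∈ bv t ↔ v ∈ vars t ∧ 8 ≤ v := by simp [bv]

theorem nodup_bv (t : Tm) : (bv t).Nodup := (List.nodup_dedup _).filter _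

/-- contraction over the bound variables -/
def vF (A : Alg n) (t : Tm) : (ℕ → Fin n) → ℂ := Sv id (bv t) (pr A t)

/-- combination of contractions over the bound variables -/
def eF (A : Alg n) (Y : Ex) (ι : ℕ → Fin n) : ℂ := (Y.map fun x => (x.1 : ℂ) * vF A x.2 ι).sum

/-- the free variables are 0, ..., k - 1 -/
def WG (k : ℕ) (t : Tm) : Prop :=
  k ≤ 8 ∧ (∀ v < k, v ∈ vars t) ∧ ∀ v ∈ vars t, v < k ∨ (8 ≤ v ∧ v < 16)

instance (k : ℕ) (t : Tm) : Decidable (WG k t) := by unfold WG; infer_instance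

omit [NeZero n] in
theorem WG.dp {k : ℕ} {t : Tm} (h : WG k t) : Dp (· < k) (vF A t) :=
  ((pr_dp t).Sv _).mono fun v hv => (h.2.2 v hv.1).resolve_right fun h' =>
    hv.2 (mem_bv.2 ⟨hv.1, h'.1⟩)

omit [NeZero n] in
theorem eF_dp {k : ℕ} {Y : Ex} (h : ∀ x ∈ Y, WG k x.2) : Dp (· < k) (eF A Y) := by
  intro u u' hu
  unfold eF
  congr 1
  exact List.map_congr_left fun x hx => by rw [(h x hx).dp u u' hu]

theorem val_split {a b : Tm} {o la lb : List ℕ} (h1 : (o ++ (la ++ lb)).Nodup)
    (h2 : ∀ v, v ∈ o ++ (la ++ lb) ↔ v ∈ vars (a ++ b)) (h3 : ∀ v ∈ la, v ∉ vars b)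
    (h4 : ∀ v ∈ lb, v ∉ vars a) :
    val A (a ++ b) = Sv id o (fun ι => Sv id la (pr A a) ι * Sv id lb (pr A b) ι) 0 := by
  rw [val_eq h1 h2, Sv_append, Sv_append, funext (pr_append a b)]
  congr 1
  funext ι
  rw [funext ((pr_dp a).Sv_mul h4 (pr A b))]
  simp only [mul_comm (pr A a _)]
  rw [((pr_dp b).Sv lb).Sv_mul fun v hv h => h3 v hv h.1, mul_comm]

omit [NeZero n] in
theorem Sv_rho (t : Tm) (s : ℕ) {off : ℕ} (ho : 16 ≤ off) (ι : ℕ → Fin n) :
    Sv id ((bv t).map (rho s off)) (pr A (ren (rho s off) t)) ι = vF A t (ι ∘ rho s off) := by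
  rw [funext (pr_ren _ t), Sv_map, vF]
  intro v hv w h
  have h8 := (mem_bv.1 hv).2
  rw [rho_ge s off h8] at h
  by_cases hw : w < 8
  · have := rho_lt s off hw; omega
  · rw [rho_ge s off (by omega)] at h; omega

theorem nodup_rho (t : Tm) (s off : ℕ) : ((bv t).map (rho s off)).Nodup :=
  (nodup_bv t).map_on fun v hv w hw h => by
    rw [rho_ge s off (mem_bv.1 hv).2, rho_ge s off (mem_bv.1 hw).2] at h; omega

theorem mem_rho {t : Tm} {s off v : ℕ} :
    v ∈ (bv t).map (rho s off) ↔ ∃ w ∈ vars t, 8 ≤ w ∧ v = w + off := by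
  simp only [List.mem_map, mem_bv]
  exact ⟨fun ⟨w, hw, e⟩ => ⟨w, hw.1, hw.2, by rw [← e, rho_ge s off hw.2]⟩,
    fun ⟨w, h1, h2, e⟩ => ⟨w, ⟨h1, h2⟩, by rw [e, rho_ge s off h2]⟩⟩

theorem WG.mem_ren {k : ℕ} {t : Tm} (h : WG k t) {s off v : ℕ} :
    v ∈ vars (ren (rho s off) t)
      ↔ v ∈ (List.range k).map (rho s off) ∨ v ∈ (bv t).map (rho s off) := by
  simp only [vars_ren, List.mem_map, List.mem_range, mem_bv]
  constructor
  · rintro ⟨w, hw, rfl⟩
    rcases h.2.2 w hw with h' | h'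
    · exact .inl ⟨w, h', rfl⟩
    · exact .inr ⟨w, ⟨hw, h'.1⟩, rfl⟩
  · rintro (⟨w, hw, rfl⟩ | ⟨w, hw, rfl⟩)
    · exact ⟨w, h.2.1 w hw, rfl⟩
    · exact ⟨w, hw.1, rfl⟩

theorem range_rho {k s off v : ℕ} (hk : k ≤ 8) (h : v ∈ (List.range k).map (rho s off)) :
    v < 16 := by
  obtain ⟨w, hw, rfl⟩ := List.mem_map.1 h
  exact rho_lt s off (lt_of_lt_of_le (List.mem_range.1 hw) hk)

theorem val_inst {k : ℕ} {t cof : Tm} (h : WG k t) (hc : ∀ v ∈ vars cof, v < 16) (s : ℕ) :
    val A (ren (rho s 16) t ++ cof) = Sv id ((List.range k).map (rho s 16) ++ vars cof).dedup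
      (fun ι => vF A t (ι ∘ rho s 16) * pr A cof ι) 0 := by
  rw [val_split (o := ((List.range k).map (rho s 16) ++ vars cof).dedup)
    (la := (bv t).map (rho s 16)) (lb := [])]
  · simp only [Sv_rho t s le_rfl, Sv]
  · rw [List.append_nil, List.nodup_append]
    refine ⟨List.nodup_dedup _, nodup_rho _ _ _, ?_⟩
    rintro v hv _ hw rfl
    obtain ⟨w, -, h1, h2⟩ := mem_rho.1 hw
    rcases List.mem_append.1 (List.mem_dedup.1 hv) with h' | h'
    · have := range_rho h.1 h'; omega
    · have := hc v h'; omega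
  · intro v
    simp only [List.append_nil, List.mem_append, List.mem_dedup, vars_append, h.mem_ren]
    tauto
  · intro v hv h'
    obtain ⟨w, -, h1, h2⟩ := mem_rho.1 hv
    have := hc v h'; omega
  · simp

/-- product of a tensor and the conjugate of another -/
def pairT (s1 s2 : ℕ) (t u : Tm) : Tm := ren (rho s1 16) t ++ flp (ren (rho s2 32) u)

/-- one contraction scheme -/
def Bp (k s1 s2 : ℕ) (X Z : (ℕ → Fin n) → ℂ) : ℂ :=
  Sv id ((List.range k).map (rho s1 16) ++ (List.range k).map (rho s2 32)).dedup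
    (fun ι => X (ι ∘ rho s1 16) * conj (Z (ι ∘ rho s2 32))) 0

theorem val_pair {k : ℕ} {t u : Tm} (h : WG k t) (h' : WG k u) (s1 s2 : ℕ) :
    val A (pairT s1 s2 t u) = Bp k s1 s2 (vF A t) (vF A u) := by
  have b1 : ∀ v ∈ (bv t).map (rho s1 16), 24 ≤ v ∧ v < 32 := fun v hv => by
    obtain ⟨w, h0, h1, h2⟩ := mem_rho.1 hv
    have := h.2.2 w h0; have := h.1; omega
  have b2 : ∀ v ∈ (bv u).map (rho s2 32), 40 ≤ v := fun v hv => by
    obtain ⟨w, -, h1, h2⟩ := mem_rho.1 hv
    omega
  rw [pairT, val_split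
    (o := ((List.range k).map (rho s1 16) ++ (List.range k).map (rho s2 32)).dedup)
    (la := (bv t).map (rho s1 16)) (lb := (bv u).map (rho s2 32))]
  · simp only [funext (pr_flp _), Sv_conj, Sv_rho t s1 le_rfl, Sv_rho u s2 (show 16 ≤ 32 by norm_num)]
    rfl
  · rw [List.nodup_append, List.nodup_append]
    refine ⟨List.nodup_dedup _, ⟨nodup_rho _ _ _, nodup_rho _ _ _, ?_⟩, ?_⟩
    · rintro v hv _ hw rfl
      have := b1 v hv; have := b2 v hw; omega
    · rintro v hv _ hw rfl
      have : v < 16 := (List.mem_append.1 (List.mem_dedup.1 hv)).elim (range_rho h.1) (range_rho h.1)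
      rcases List.mem_append.1 hw with h' | h'
      · have := b1 v h'; omega
      · have := b2 v h'; omega
  · intro v
    simp only [List.mem_append, List.mem_dedup, vars_append, vars_flp, h.mem_ren, h'.mem_ren]
    tauto
  · intro v hv hu
    have := b1 v hv
    rcases h'.mem_ren.1 (vars_flp _ ▸ hu) with h2 | h2
    · have := range_rho h.1 h2; omega
    · have := b2 v h2; omega
  · intro v hv hu
    have := b2 v hv
    rcases h.mem_ren.1 hu with h2 | h2
    · have := range_rho h.1 h2; omega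
    · have := b1 v h2; omega

/-- a combination of contraction schemes -/
abbrev Form : Type := List (ℤ × ℕ × ℕ)

/-- the real bilinear form of a combination of contraction schemes -/
def Bq (k : ℕ) (F : Form) (X Z : (ℕ → Fin n) → ℂ) : ℝ :=
  (F.map fun q => (q.1 : ℝ) * (Bp k q.2.1 q.2.2 X Z).re).sum

theorem Bq_add_left (k : ℕ) (F : Form) (X X' Z : (ℕ → Fin n) → ℂ) :
    Bq k F (fun ι => X ι + X' ι) Z = Bq k F X Z + Bq k F X' Z := by
  simp only [Bq, Bp, add_mul, Sv_add, Complex.add_re, mul_add, List.sum_map_add]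

theorem Bq_add_right (k : ℕ) (F : Form) (X Z Z' : (ℕ → Fin n) → ℂ) :
    Bq k F X (fun ι => Z ι + Z' ι) = Bq k F X Z + Bq k F X Z' := by
  simp only [Bq, Bp, map_add, Sv_add, Complex.add_re, mul_add, List.sum_map_add]

theorem Bq_mul_left (k : ℕ) (F : Form) (c : ℝ) (X Z : (ℕ → Fin n) → ℂ) :
    Bq k F (fun ι => c * X ι) Z = c * Bq k F X Z := by
  simp only [Bq, Bp, mul_assoc, Sv_mul, Complex.re_ofReal_mul, ← List.sum_map_mul_left,
    mul_left_comm c]

theorem Bq_mul_right (k : ℕ) (F : Form) (c : ℝ) (X Z : (ℕ → Fin n) → ℂ) :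
    Bq k F X (fun ι => c * Z ι) = c * Bq k F X Z := by
  simp only [Bq, Bp, map_mul, Complex.conj_ofReal, mul_left_comm _ (c : ℂ), Sv_mul,
    Complex.re_ofReal_mul, ← List.sum_map_mul_left, mul_left_comm c]

theorem Bq_eF_left (k : ℕ) (F : Form) (Y : Ex) (Z : (ℕ → Fin n) → ℂ) :
    Bq k F (eF A Y) Z = (Y.map fun x => (x.1 : ℝ) * Bq k F (vF A x.2) Z).sum := by
  induction Y with
  | nil => simpa [show eF A [] = fun _ => 0 from rfl] using Bq_mul_left k F 0 Z Z
  | cons x Y ih =>
    rw [List.map_cons, List.sum_cons, ← ih, ← Bq_mul_left, ← Bq_add_left]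
    rfl

theorem Bq_eF_right (k : ℕ) (F : Form) (Y : Ex) (Z : (ℕ → Fin n) → ℂ) :
    Bq k F Z (eF A Y) = (Y.map fun x => (x.1 : ℝ) * Bq k F Z (vF A x.2)).sum := by
  induction Y with
  | nil => simpa [show eF A [] = fun _ => 0 from rfl] using Bq_mul_right k F 0 Z Z
  | cons x Y ih =>
    rw [List.map_cons, List.sum_cons, ← ih, ← Bq_mul_right, ← Bq_add_right]
    rfl

/-- nonnegative forms -/
def PSD (n : ℕ) [NeZero n] (k : ℕ) (F : Form) : Prop :=
  ∀ X : (ℕ → Fin n) → ℂ, Dp (· < k) X → 0 ≤ Bq k F X X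

theorem PSD.cs {k : ℕ} {F : Form} (h : PSD n k F) {X Z : (ℕ → Fin n) → ℂ} (hX : Dp (· < k) X)
    (hZ : Dp (· < k) Z) (h0 : Bq k F X X = 0) : Bq k F X Z + Bq k F Z X = 0 := by
  have key : ∀ t : ℝ, 0 ≤ Bq k F Z Z * (t * t) + (Bq k F X Z + Bq k F Z X) * t + 0 := by
    intro t
    have := h (fun ι => X ι + t * Z ι) fun u u' hu => by simp only [hX u u' hu, hZ u u' hu]
    rw [Bq_add_left, Bq_add_right, Bq_add_right, Bq_mul_left, Bq_mul_left, Bq_mul_right,
      Bq_mul_right, h0] at this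
    linarith
  have := discrim_le_zero key
  rw [discrim] at this
  nlinarith [sq_nonneg (Bq k F X Z + Bq k F Z X)]

/-- the standard form -/
def triv : Form := [(1, 1985229328, 1985229328)]

theorem rho_id {v : ℕ} (off : ℕ) (h : v < 8) : rho 1985229328 off v = v := by
  interval_cases v <;> rfl

theorem Bq_triv {k : ℕ} (hk : k ≤ 8) {X : (ℕ → Fin n) → ℂ} (hX : Dp (· < k) X) :
    Bq k triv X X = (Sv id (List.range k) (fun ι => X ι * conj (X ι)) 0).re := by
  have e : ∀ off, (List.range k).map (rho 1985229328 off) = List.range k := fun off => by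
    conv_rhs => rw [← List.map_id (List.range k)]
    exact List.map_congr_left fun v hv => rho_id off (by have := List.mem_range.1 hv; omega)
  have e2 : ∀ off ι, X (ι ∘ rho 1985229328 off) = X ι := fun off ι =>
    hX _ _ fun v hv => by rw [comp_apply, rho_id off (by omega)]
  simp only [Bq, triv, Bp, e, e2, List.map_cons, List.map_nil, List.sum_cons, List.sum_nil]
  rw [Sv_perm (l' := List.range k) ((List.perm_ext_iff_of_nodup (List.nodup_dedup _)
    List.nodup_range).2 fun v => by simp)]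
  simp

theorem psd_triv {k : ℕ} (hk : k ≤ 8) : PSD n k triv := fun X hX => by
  rw [Bq_triv hk hX]
  exact (Complex.nonneg_iff.1 (Sv_nonneg _ (fun ι => mul_star_self_nonneg (X ι)) 0)).1

theorem triv_zero {k : ℕ} (hk : k ≤ 8) {X : (ℕ → Fin n) → ℂ} (hX : Dp (· < k) X)
    (h : Bq k triv X X = 0) (ι : ℕ → Fin n) : X ι = 0 := by
  rw [Bq_triv hk hX] at h
  have h1 := Complex.nonneg_iff.1 (Sv_nonneg (e := id) (List.range k)
    (fun ι => mul_star_self_nonneg (X ι)) 0)
  have h2 := Sv_eq_zero (List.range k) (fun ι => mul_star_self_nonneg (X ι)) 0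
    (fun v => if v < k then ι v else 0) (Complex.ext h h1.2.symm) fun v hv => by
      rw [if_neg (by simpa using hv)]; rfl
  rw [hX _ ι fun v hv => if_pos hv] at h2
  simpa using h2

/-- the terms of a form on two products -/
def frm (cf : Bool) (F : Form) (m : ℤ) (t u : Tm) : Ex :=
  F.map fun q => cond cf (Int.neg (Int.mul m q.1), (2, []) :: pairT q.2.1 q.2.2 t u)
    (Int.mul m q.1, pairT q.2.1 q.2.2 t u)

theorem val_c (t : Tm) : val A ((2, []) :: t) = A.c * val A t :=
  val_congr (fun _ => by simp) fun ι => by rw [pr_cons, fv, List.map_nil, A.cc]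

/-- the sign factor -/
def Alg.sf (A : Alg n) (cf : Bool) : ℝ := cond cf (- A.c) 1

theorem ev_frm {k : ℕ} {t u : Tm} (h : WG k t) (h' : WG k u) (cf : Bool) (F : Form) (m : ℤ) :
    ev A (frm cf F m t u) = A.sf cf * (m * Bq k F (vF A t) (vF A u)) := by
  simp only [ev, frm, Bq, List.map_map, ← List.sum_map_mul_left]
  congr 1
  refine List.map_congr_left fun q _ => ?_
  cases cf
  · simp only [comp_apply, cond_false, val_pair h h', Alg.sf]
    change ((m * q.1 : ℤ) : ℝ) * _ = _
    push_cast; ring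
  · simp only [comp_apply, cond_true, val_c, val_pair h h', Alg.sf, Complex.re_ofReal_mul]
    change ((- (m * q.1) : ℤ) : ℝ) * _ = _
    push_cast; ring

/-- weighted scalar product -/
def dot3 (w : List ℤ) : List ℤ → List ℤ → ℤ :=
  List.rec (fun _ _ => 0) (fun x _ ih a b =>
    Int.add (Int.mul x (Int.mul (a.headD 0) (b.headD 0))) (ih a.tail b.tail)) w

theorem dot3_eq (w a b : List ℤ) :
    dot3 w a b = ∑ j ∈ Finset.range w.length, w.getD j 0 * (a.getD j 0 * b.getD j 0) := by
  induction w generalizing a b with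
  | nil => rfl
  | cons x w ih =>
    rw [List.length_cons, Finset.sum_range_succ', add_comm]
    change x * (a.headD 0 * b.headD 0) + dot3 w a.tail b.tail = _
    rw [ih]
    cases a <;> cases b <;> simp

/-- test of vanishing -/
def isZ (c : ℤ) : Bool := Int.rec (fun m => Nat.beq m 0) (fun _ => false) c

theorem isZ_eq {c : ℤ} (h : isZ c = true) : c = 0 := by
  cases c with
  | ofNat m => exact congrArg Int.ofNat (Nat.eq_of_beq_eq_true h)
  | negSucc m => exact absurd h (by simp [isZ])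

/-- one row of a Gram matrix -/
def psdE (cf : Bool) (F : Form) (w : List ℤ) (gens : List (Tm × List ℤ)) (g : Tm × List ℤ) : Ex :=
  gens.flatMap fun g' => frcI (dot3 w g.2 g'.2) fun m => cond (isZ m) [] (frm cf F m g.1 g'.1)

/-- rows of a Gram matrix, with their witnesses -/
def psdG (cf : Bool) (F : Form) (w : List ℤ) (gens outer : List (Tm × List ℤ)) :
    List ℕ → List (Ex × ℕ) :=
  List.rec (fun _ => []) (fun g _ ih ws => (psdE cf F w gens g, ws.headD 0) :: ih ws.tail) outer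

/-- the j-th combination of generators -/
def comb (j : ℕ) (gens : List (Tm × List ℤ)) : Ex :=
  (gens.map fun g => (g.2.getD j 0, g.1)).filter fun x => !isZ x.1

theorem comb_wg {k : ℕ} {gens : List (Tm × List ℤ)} (h : ∀ g ∈ gens, WG k g.1) (j : ℕ) :
    ∀ x ∈ comb j gens, WG k x.2 := by
  intro x hx
  obtain ⟨g, hg, rfl⟩ := List.mem_map.1 (List.mem_filter.1 hx).1
  exact h g hg

theorem sum_comb (j : ℕ) (gens : List (Tm × List ℤ)) (φ : Tm → ℝ) :
    ((comb j gens).map fun x => (x.1 : ℝ) * φ x.2).sum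
      = (gens.map fun g => (g.2.getD j 0 : ℝ) * φ g.1).sum := by
  induction gens with
  | nil => rfl
  | cons g gens ih =>
    rw [List.map_cons, List.sum_cons, ← ih, comb, List.map_cons, List.filter_cons]
    cases h : isZ (g.2.getD j 0)
    · rfl
    · rw [isZ_eq h]; simp [comb]

theorem sum_list_comm {ι : Type} (l : List ι) (s : Finset ℕ) (φ : ι → ℕ → ℝ) :
    (l.map fun x => ∑ j ∈ s, φ x j).sum = ∑ j ∈ s, (l.map fun x => φ x j).sum := by
  induction l with
  | nil => simp
  | cons x l ih => simp [ih, Finset.sum_add_distrib]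

theorem ev_psdE {k : ℕ} {gens : List (Tm × List ℤ)} (h : ∀ g ∈ gens, WG k g.1) (cf : Bool)
    (F : Form) (w : List ℤ) {g : Tm × List ℤ} (hg : WG k g.1) :
    ev A (psdE cf F w gens g) = ∑ j ∈ Finset.range w.length, A.sf cf * (w.getD j 0
      * (g.2.getD j 0 * Bq k F (vF A g.1) (eF A (comb j gens)))) := by
  have e0 := fun j => sum_comb j gens fun t => Bq k F (vF A g.1) (vF A t)
  simp only [Bq_eF_right, e0]
  simp only [← List.sum_map_mul_left, ← sum_list_comm]
  clear e0
  induction gens with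
  | nil => rfl
  | cons g' gens ih =>
    rw [psdE, List.flatMap_cons, ev_append, List.map_cons, List.sum_cons,
      ← ih fun x hx => h x (List.mem_cons_of_mem _ hx), frcI_eq]
    congr 1
    have e : ev A (frm cf F (dot3 w g.2 g'.2) g.1 g'.1) = _ := ev_frm hg (h g' (by simp)) cf F _
    have e2 : ev A (cond (isZ (dot3 w g.2 g'.2)) [] (frm cf F (dot3 w g.2 g'.2) g.1 g'.1))
        = ev A (frm cf F (dot3 w g.2 g'.2) g.1 g'.1) := by
      cases h0 : isZ (dot3 w g.2 g'.2)
      · rfl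
      · rw [e, isZ_eq h0]; simp
    rw [e2, e, dot3_eq]
    push_cast
    rw [Finset.sum_mul, Finset.mul_sum]
    exact Finset.sum_congr rfl fun j _ => by ring

/-- value of some rows of a Gram matrix -/
def psdV (A : Alg n) (cf : Bool) (F : Form) (w : List ℤ) (gens outer : List (Tm × List ℤ)) : ℝ :=
  (outer.map fun g => ev A (psdE cf F w gens g)).sum

theorem ev_psdG (cf : Bool) (F : Form) (w : List ℤ) (gens outer : List (Tm × List ℤ))
    (ws : List ℕ) :
    ((psdG cf F w gens outer ws).map fun g => ev A g.1).sum = psdV A cf F w gens outer := by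
  induction outer generalizing ws with
  | nil => rfl
  | cons g outer ih => exact congrArg (ev A (psdE cf F w gens g) + ·) (ih ws.tail)

theorem psdV_append (cf : Bool) (F : Form) (w : List ℤ) (gens o o' : List (Tm × List ℤ)) :
    psdV A cf F w gens (o ++ o') = psdV A cf F w gens o + psdV A cf F w gens o' := by
  simp [psdV]

theorem psdV_eq {k : ℕ} {gens : List (Tm × List ℤ)} (h : ∀ g ∈ gens, WG k g.1) (cf : Bool)
    (F : Form) (w : List ℤ) : psdV A cf F w gens gens = ∑ j ∈ Finset.range w.length,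
      A.sf cf * (w.getD j 0 * Bq k F (eF A (comb j gens)) (eF A (comb j gens))) := by
  rw [psdV, List.map_congr_left fun g hg => ev_psdE h cf F w (h g hg), sum_list_comm]
  refine Finset.sum_congr rfl fun j _ => ?_
  rw [Bq_eF_left, sum_comb j gens fun t => Bq k F (vF A t) (eF A (comb j gens)),
    List.sum_map_mul_left, List.sum_map_mul_left]

theorem psdV_nonneg {k : ℕ} {gens : List (Tm × List ℤ)} (h : ∀ g ∈ gens, WG k g.1) {cf : Bool}
    {F : Form} (hF : PSD n k F) {w : List ℤ} (hw : ∀ x ∈ w, 0 < x) (hc : 0 ≤ A.sf cf) :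
    0 ≤ psdV A cf F w gens gens ∧ (psdV A cf F w gens gens = 0 → ∀ j < w.length,
      A.sf cf * Bq k F (eF A (comb j gens)) (eF A (comb j gens)) = 0) := by
  have hw' : ∀ j ∈ Finset.range w.length, (0 : ℝ) < w.getD j 0 := fun j hj => by
    rw [List.getD_eq_getElem _ _ (Finset.mem_range.1 hj)]
    exact_mod_cast hw _ (List.getElem_mem _)
  have h1 : ∀ j ∈ Finset.range w.length,
      0 ≤ A.sf cf * (w.getD j 0 * Bq k F (eF A (comb j gens)) (eF A (comb j gens))) :=
    fun j hj => mul_nonneg hc (mul_nonneg (hw' j hj).le (hF _ (eF_dp (comb_wg h j))))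
  rw [psdV_eq h]
  refine ⟨Finset.sum_nonneg h1, fun h0 j hj => ?_⟩
  have := (Finset.sum_eq_zero_iff_of_nonneg h1).1 h0 j (Finset.mem_range.2 hj)
  rw [mul_left_comm] at this
  exact (mul_eq_zero.1 this).resolve_left (hw' j (Finset.mem_range.2 hj)).ne'

end Pool.Agent.Lib.MP_40b2af_gt
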