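import Mathlib
import Pool.Agent.Lib.MP_40b2af_gt.Row

set_option autoImplicit false

noncomputable section

namespace Pool.Agent.Lib.MP_40b2af_gt

open scoped ComplexConjugate
open Function

/-- slots from a number -/
def decS (k : ℕ) : ℕ → List Sl :=
  Nat.rec (fun _ => []) (fun _ ih N =>
    (Nat.beq (Nat.mod N 2) 1, Nat.mod (Nat.div N 2) 16) :: ih (Nat.div N 32)) k

/-- factors from a number -/
def decF (k : ℕ) : ℕ → Tm :=
  Nat.rec (fun _ => []) (fun _ ih M =>
    (Nat.mod M 32, decS (Nat.mod (Nat.div M 32) 8) (Nat.div M 256))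
      :: ih (Nat.shiftRight M (Nat.add 8 (Nat.mul 5 (Nat.mod (Nat.div M 32) 8))))) k

/-- a product from a number -/
def decT (N : ℕ) : Tm := decF (Nat.mod N 8) (Nat.div N 8)

theorem decS_lt (k N : ℕ) : ∀ v ∈ (decS k N).map Prod.snd, v < 16 := by
  induction k generalizing N with
  | zero => simp [decS]
  | succ k ih =>
    intro v hv
    rcases List.mem_cons.1 hv with rfl | h
    · exact Nat.mod_lt _ (by norm_num)
    · exact ih _ v h

theorem decT_lt (N : ℕ) : ∀ v ∈ vars (decT N), v < 16 := by
  unfold decT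
  generalize Nat.mod N 8 = k
  generalize Nat.div N 8 = M
  induction k generalizing M with
  | zero => simp [decF]
  | succ k ih =>
    intro v hv
    rcases List.mem_append.1 hv with h | h
    · exact decS_lt _ _ v h
    · exact ih _ v h

/-- the Leibniz expansion of a covariant derivative -/
def dT (b : Bool) (a : ℕ) (t : Tm) : List Tm :=
  List.rec [] (fun f r ih => cond (cond (Nat.beq f.1 2) true (Nat.beq f.1 3)) (ih.map (f :: ·))
    (((Nat.add f.1 8, (b, a) :: f.2) :: r) :: ih.map (f :: ·))) t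

/-- the trace of the torsion -/
def eta (a r : ℕ) : Fac := (0, [(false, r), (false, a), (true, r)])

/-- divergence terms -/
def ibpE (W : Tm) (a r : ℕ) (c : ℤ) : Ex :=
  (Int.neg c, eta a r :: W) :: (dT false a W).map fun t => (c, t)

/-- the slots of a product -/
def slots (t : Tm) : List Sl := t.flatMap Prod.snd

/-- number of occurrences of a slot -/
def cnt (b : Bool) (v : ℕ) (l : List Sl) : ℕ :=
  List.rec 0 (fun s _ ih => cond (Nat.beq s.2 v) (cond (xor s.1 b) ih (Nat.succ ih)) ih) l

theorem cnt_eq (b : Bool) (v : ℕ) (l : List Sl) : cnt b v l = l.count (b, v) := by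
  induction l with
  | nil => rfl
  | cons s l ih =>
    obtain ⟨b', w⟩ := s
    change cond (Nat.beq w v) (cond (xor b' b) (cnt b v l) (Nat.succ (cnt b v l))) (cnt b v l) = _
    rw [ih, List.count_cons]
    cases h : Nat.beq w v
    · simp [Nat.ne_of_beq_eq_false h]
    · cases b <;> cases b' <;> simp [Nat.eq_of_beq_eq_true h]

/-- each variable occurs once with each flag -/
def wf (t : Tm) : Bool :=
  (slots t).all fun s => cond (Nat.beq (cnt false s.2 (slots t)) 1) (Nat.beq (cnt true s.2 (slots t)) 1)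
    false

theorem wf_spec {t : Tm} (h : wf t = true) {v : ℕ} (hv : v ∈ vars t) (b : Bool) :
    (slots t).count (b, v) = 1 := by
  have : ∃ s ∈ slots t, s.2 = v := by
    simp only [vars, slots, List.mem_flatMap, List.mem_map] at hv ⊢
    obtain ⟨f, hf, s, hs, e⟩ := hv
    exact ⟨s, ⟨f, hf, hs⟩, e⟩
  obtain ⟨s, hs, rfl⟩ := this
  have h1 := List.all_eq_true.1 h s hs
  cases h2 : Nat.beq (cnt false s.2 (slots t)) 1
  · simp [h2] at h1
  · rw [h2] at h1
    rw [← cnt_eq]
    cases b
    · exact Nat.eq_of_beq_eq_true h2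
    · exact Nat.eq_of_beq_eq_true h1

/-- the terms of a row of a certificate -/
def rowE (rels : List Ex) (uses : List (ℕ × Form × Ex)) (ib : Bool) (hd : ℕ) (cof : Tm) (c : ℤ) :
    Ex :=
  cond (Nat.beq (Nat.mod hd 4) 0)
    ((rels.getD (Nat.mod (Nat.div hd 4) 64) []).map fun x =>
      (Int.mul c x.1, ren (rho (Nat.div hd 256) 16) x.2 ++ cof))
  (cond (Nat.beq (Nat.mod hd 4) 1)
    (cond (ib && wf (eta (Nat.mod (Nat.div hd 256) 16) (Nat.div hd 4096) :: cof))
      (ibpE cof (Nat.mod (Nat.div hd 256) 16) (Nat.div hd 4096) c) [])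
  (cond (Nat.beq (Nat.mod hd 4) 2) [(c, cof), (Int.neg c, cof)]
    (match uses.getD (Nat.div hd 4) (0, [], []) with
      | (k, F, Y) => cond (decide (WG k cof))
        (Y.flatMap fun x => frm false F (Int.mul c x.1) x.2 cof ++ frm false F (Int.mul c x.1) cof x.2)
        [])))

/-- the rows of a certificate with their witnesses -/
def rowsG (rels : List Ex) (uses : List (ℕ × Form × Ex)) (ib : Bool) (rows : List (ℕ × ℕ × ℕ × ℕ)) :
    List (Ex × ℕ) :=
  rows.map fun r => (rowE rels uses ib r.1 (decT r.2.1) (decI r.2.2.1), r.2.2.2)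

variable {n : ℕ} [NeZero n]

/-- a relation holding for all values of the free variables -/
def PV (A : Alg n) (Y : Ex) : Prop := (∃ k, ∀ x ∈ Y, WG k x.2) ∧ ∀ ι, eF A Y ι = 0

/-- a null vector of a nonnegative form -/
def UV (A : Alg n) (U : ℕ × Form × Ex) : Prop :=
  PSD n U.1 U.2.1 ∧ (∀ x ∈ U.2.2, WG U.1 x.2) ∧ Bq U.1 U.2.1 (eF A U.2.2) (eF A U.2.2) = 0

theorem PV.inst {A : Alg n} {Y : Ex} (h : PV A Y) {cof : Tm} (hc : ∀ v ∈ vars cof, v < 16)
    (s : ℕ) (c : ℤ) : ev A (Y.map fun x => (Int.mul c x.1, ren (rho s 16) x.2 ++ cof)) = 0 := by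
  obtain ⟨⟨k, hk⟩, h⟩ := h
  have e := Sv_sum (e := (id : Fin n → Fin n)) Y ((List.range k).map (rho s 16) ++ vars cof).dedup
    (fun x ι => (x.1 : ℂ) * (vF A x.2 (ι ∘ rho s 16) * pr A cof ι)) 0
  simp only [← mul_assoc, List.sum_map_mul_right] at e
  simp only [eF] at h
  simp only [h, zero_mul, Sv_zero, mul_assoc, Sv_mul] at e
  have e2 := congrArg (fun z : ℂ => (c : ℝ) * Complex.reAddGroupHom z) e
  simp only [map_zero, mul_zero, map_list_sum, List.map_map, ← List.sum_map_mul_left] at e2
  rw [e2, ev, List.map_map]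
  congr 1
  refine List.map_congr_left fun x hx => ?_
  simp only [comp_apply, val_inst (hk x hx) hc, Complex.coe_reAddGroupHom, Complex.mul_re,
    Complex.intCast_re, Complex.intCast_im, zero_mul, sub_zero]
  change ((c * x.1 : ℤ) : ℝ) * _ = _
  push_cast; ring

theorem UV.use {A : Alg n} {k : ℕ} {F : Form} {Y : Ex} (h : UV A (k, F, Y)) {cof : Tm}
    (hc : WG k cof) (c : ℤ) : ev A (Y.flatMap fun x =>
      frm false F (Int.mul c x.1) x.2 cof ++ frm false F (Int.mul c x.1) cof x.2) = 0 := by
  obtain ⟨h1, h2, h3⟩ := h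
  have e := h1.cs (eF_dp h2) (hc.dp (A := A)) h3
  rw [Bq_eF_left, Bq_eF_right, ← List.sum_map_add] at e
  rw [← mul_zero (c : ℝ), ← e, ← List.sum_map_mul_left]
  dsimp only at h2 ⊢
  clear e h3 h1
  induction Y with
  | nil => rfl
  | cons x Y ih =>
    rw [List.flatMap_cons, ev_append, ev_append, ih fun y hy => h2 y (List.mem_cons_of_mem _ hy),
      ev_frm (h2 x (by simp)) hc, ev_frm hc (h2 x (by simp)), List.map_cons, List.sum_cons]
    change 1 * (((c * x.1 : ℤ) : ℝ) * _) + 1 * (((c * x.1 : ℤ) : ℝ) * _) + _ = _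
    push_cast; ring

/-- a class of negligible functions -/
structure Nul (X : Type) where
  P : (X → ℝ) → Prop
  zero : P fun _ => 0
  add : ∀ f g, P f → P g → P fun x => f x + g x
  smul : ∀ (c : ℝ) f, P f → P fun x => c * f x
  pos : ∀ f, P f → (∀ x, 0 ≤ f x) → ∀ x, f x = 0

/-- only the zero function -/
def Nul.pt (X : Type) : Nul X where
  P f := ∀ x, f x = 0
  zero _ := rfl
  add f g hf hg x := by simp only [hf, hg, add_zero]
  smul c f hf x := by simp only [hf, mul_zero]
  pos _ h _ := h

variable {X : Type} {N : Nul X} {A : X → Alg n}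

theorem Nul.of_eq {f g : X → ℝ} (h : N.P f) (e : ∀ x, g x = f x) : N.P g := by
  rwa [funext e]

/-- divergences are negligible -/
def IBP (N : Nul X) (A : X → Alg n) : Prop :=
  ∀ W a r, wf (eta a r :: W) = true → N.P fun x => ev (A x) (ibpE W a r 1)

theorem ev_ibp (A : Alg n) (W : Tm) (a r : ℕ) (c : ℤ) :
    ev A (ibpE W a r c) = c * ev A (ibpE W a r 1) := by
  simp only [ibpE, ev, List.map_cons, List.sum_cons, List.map_map, mul_add,
    ← List.sum_map_mul_left, comp_def]
  change ((-c : ℤ) : ℝ) * _ + _ = c * (((-1 : ℤ) : ℝ) * _) + _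
  simp

theorem row_null {rels : List Ex} {uses : List (ℕ × Form × Ex)} {ib : Bool}
    (h1 : ∀ Y ∈ rels, ∀ x, PV (A x) Y) (h2 : ∀ U ∈ uses, ∀ x, UV (A x) U)
    (h3 : ib = true → IBP N A) (hd M : ℕ) (c : ℤ) :
    N.P fun x => ev (A x) (rowE rels uses ib hd (decT M) c) := by
  unfold rowE
  cases Nat.beq (Nat.mod hd 4) 0
  · cases Nat.beq (Nat.mod hd 4) 1
    · cases Nat.beq (Nat.mod hd 4) 2
      · simp only [cond_false]
        rcases lt_or_ge (Nat.div hd 4) uses.length with h | h
        · have := h2 _ (List.getElem_mem h)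
          rw [List.getD_eq_getElem _ _ h]
          generalize uses[Nat.div hd 4] = U at this
          obtain ⟨k, F, Y⟩ := U
          dsimp only
          cases hw : decide (WG k (decT M))
          · exact N.zero
          · exact Nul.of_eq N.zero fun x => (this x).use (of_decide_eq_true hw) c
        · rw [List.getD_eq_default _ _ h]
          dsimp only
          cases decide (WG 0 (decT M)) <;> exact N.zero
      · refine Nul.of_eq N.zero fun x => ?_
        change (c : ℝ) * _ + (((-c : ℤ) : ℝ) * _ + 0) = 0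
        push_cast; ring
    · simp only [cond_false, cond_true]
      cases hw : (ib && wf (eta (Nat.mod (Nat.div hd 256) 16) (Nat.div hd 4096) :: decT M))
      · exact N.zero
      · rw [Bool.and_eq_true] at hw
        exact Nul.of_eq (N.smul c _ (h3 hw.1 _ _ _ hw.2)) fun x => ev_ibp _ _ _ _ _
  · refine Nul.of_eq N.zero fun x => ?_
    simp only [cond_true]
    rcases lt_or_ge (Nat.mod (Nat.div hd 4) 64) rels.length with h | h
    · rw [List.getD_eq_getElem _ _ h]
      exact (h1 _ (List.getElem_mem h) x).inst (decT_lt M) _ c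
    · rw [List.getD_eq_default _ _ h]; rfl

theorem cert_null {rels : List Ex} {uses : List (ℕ × Form × Ex)} {ib : Bool}
    (h1 : ∀ Y ∈ rels, ∀ x, PV (A x) Y) (h2 : ∀ U ∈ uses, ∀ x, UV (A x) U)
    (h3 : ib = true → IBP N A) {T : Tr} (h0 : allZ T = true) {ex : List (Ex × ℕ)}
    {rows : List (ℕ × ℕ × ℕ × ℕ)} {res : List ℕ}
    (h : chk n T (ex ++ rowsG rels uses ib rows) res = true) :
    N.P fun x => (ex.map fun g => ev (A x) g.1).sum + rv (A x) T res := by
  have key : N.P fun x => ((rowsG rels uses ib rows).map fun g => ev (A x) g.1).sum := by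
    clear h
    induction rows with
    | nil => exact N.zero
    | cons r rows ih => exact N.add _ _ (row_null h1 h2 h3 _ _ _) ih
  refine Nul.of_eq (N.smul (-1) _ key) fun x => ?_
  have := chk_sound (A x) h0 h
  rw [List.map_append, List.sum_append] at this
  linarith

/-- a single tensor -/
def genA (fl : List Bool) (hfl : fl.map not ≠ fl) (Z : (ℕ → Fin n) → ℂ) : Alg n where
  C k s := if k = 3 then (match s with
      | [p, q] => if q.1 = !p.1 ∧ p.2 = q.2 then 1 else 0
      | _ => 0)
    else if k = 5 then (if s.map Prod.fst = fl then Z fun v => (s.map Prod.snd).getD v 0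
      else if s.map Prod.fst = fl.map not then conj (Z fun v => (s.map Prod.snd).getD v 0) else 0)
    else 0
  c := 0
  sw j s := by rw [if_neg (by omega), if_neg (by omega), if_neg (by omega), if_neg (by omega)]; simp
  rs j s := by rw [if_neg (by omega), if_neg (by omega), if_neg (by omega), if_neg (by omega)]
  cj k s := by
    have e1 : (s.map fun x => (!x.1, x.2)).map Prod.fst = (s.map Prod.fst).map not := by simp
    have e2 : (s.map fun x => (!x.1, x.2)).map Prod.snd = s.map Prod.snd := by simp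
    have e3 : ∀ l : List Bool, (l.map not).map not = l := fun l => by simp [comp_def]
    rw [e1, e2]
    by_cases h3 : k = 3
    · simp only [if_pos h3]
      rcases s with _ | ⟨p, _ | ⟨q, _ | ⟨r, s⟩⟩⟩ <;> simp [apply_ite conj]
    · simp only [if_neg h3]
      by_cases h5 : k = 5
      · simp only [if_pos h5]
        by_cases ha : s.map Prod.fst = fl
        · rw [if_pos ha, ha, if_neg hfl, if_pos rfl]
        · by_cases hb : s.map Prod.fst = fl.map not
          · rw [if_neg ha, if_pos hb, hb, e3, if_pos rfl, Complex.conj_conj]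
          · rw [if_neg ha, if_neg hb, if_neg fun h => hb (by rw [← h, e3]),
              if_neg fun h => ha (by rw [← e3 fl, ← h, e3]), map_zero]
      · simp only [if_neg h5, map_zero]
  dl b i j := by simp
  cc := by simp

theorem psd_of_chk {fl : List Bool} (hfl : fl.map not ≠ fl) {F : Form} {M : ℤ} (hM : 0 < M)
    {gens : List (Tm × List ℤ)} (h : ∀ g ∈ gens, WG fl.length g.1)
    (h5 : WG fl.length [(5, fl.zipIdx)])
    (e : ∀ A : Alg n, psdV A false F [M] [([(5, fl.zipIdx)], [1])] [([(5, fl.zipIdx)], [1])]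
      + psdV A false triv [-1] gens gens = 0) : PSD n fl.length F := by
  intro Z hZ
  have e1 := e (genA fl hfl Z)
  have e2 : eF (genA fl hfl Z) (comb 0 [([(5, fl.zipIdx)], [1])]) = Z := by
    funext ι
    have hb : bv [(5, fl.zipIdx)] = [] := List.eq_nil_iff_forall_not_mem.2 fun v hv => by
      obtain ⟨h1, h2⟩ := mem_bv.1 hv
      have := h5.1
      simp [List.zipIdx_map_snd] at h1
      omega
    change ((1 : ℤ) : ℂ) * vF _ [(5, fl.zipIdx)] ι + 0 = _
    rw [vF, hb]
    simp only [Sv, pr, fv, genA, List.map_cons, List.map_nil, List.map_map, List.prod_cons,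
      List.prod_nil]
    rw [if_neg (by norm_num), if_pos trivial, if_pos (by
      conv_rhs => rw [← List.zipIdx_map_fst 0 fl]
      rfl)]
    rw [hZ _ ι fun v hv => by simp [List.getD_eq_getElem?_getD, List.getElem?_eq_getElem hv]]
    simp
  rw [psdV_eq (k := fl.length) (by simpa using h5), psdV_eq h] at e1
  simp only [List.length_singleton, Finset.sum_range_one, Alg.sf, cond_false, one_mul,
    List.getD_cons_zero, e2] at e1
  have h1 := psd_triv h5.1 _ (eF_dp (A := genA fl hfl Z) (comb_wg h 0))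
  have h2 : (0 : ℝ) < M := by exact_mod_cast hM
  push_cast at e1
  exact nonneg_of_mul_nonneg_right (by linarith) h2

end Pool.Agent.Lib.MP_40b2af_gt
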