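import Mathlib
import Pool.Agent.Lib.MP_40b2af_gt.Cert

set_option autoImplicit false

noncomputable section

namespace Pool.Agent.Lib.MP_40b2af_gt

variable {n : ℕ} [NeZero n] {X : Type} {N : Nul X} {A : X → Alg n} {T : Tr}

/-- hypotheses of a certificate -/
structure Hyp (N : Nul X) (A : X → Alg n) (T : Tr) (rels : List Ex) (uses : List (ℕ × Form × Ex))
    (ib : Bool) : Prop where
  h1 : ∀ Y ∈ rels, ∀ x, PV (A x) Y
  h2 : ∀ U ∈ uses, ∀ x, UV (A x) U
  h3 : ib = true → IBP N A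
  h0 : allZ T = true

/-- negligible up to a residual -/
def Res (N : Nul X) (A : X → Alg n) (T : Tr) (f : X → ℝ) (r : List ℕ) : Prop :=
  N.P fun x => f x + rv (A x) T r

variable {rels : List Ex} {uses : List (ℕ × Form × Ex)} {ib : Bool} {rows : List (ℕ × ℕ × ℕ × ℕ)}
  {r r' : List ℕ} {f g : X → ℝ}

theorem Hyp.psd (H : Hyp N A T rels uses ib) {cf : Bool} {F : Form} {w : List ℤ}
    {gens outer : List (Tm × List ℤ)} {ws : List ℕ}
    (h : chk n T (psdG cf F w gens outer ws ++ rowsG rels uses ib rows) r = true) :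
    Res N A T (fun x => psdV (A x) cf F w gens outer) r := by
  simpa only [ev_psdG, Res] using cert_null H.h1 H.h2 H.h3 H.h0 h

theorem Hyp.ex (H : Hyp N A T rels uses ib) {e : Ex} {w : ℕ}
    (h : chk n T ([(e, w)] ++ rowsG rels uses ib rows) r = true) :
    Res N A T (fun x => ev (A x) e) r := by
  simpa [Res] using cert_null H.h1 H.h2 H.h3 H.h0 h

theorem Res.add (h : Res N A T f r) (h' : Res N A T g r') :
    Res N A T (fun x => f x + g x) (r ++ r') :=
  Nul.of_eq (N.add _ _ h h') fun x => by rw [rv_append]; ring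

theorem Res.row (h' : Res N A T f r') (H : Hyp N A T rels uses ib)
    (h : chk n T ([] ++ rowsG rels uses ib rows) r = true) : Res N A T f (r' ++ r) :=
  Nul.of_eq (N.add _ _ h' (cert_null H.h1 H.h2 H.h3 H.h0 h)) fun x => by
    rw [rv_append]; simp [add_assoc]

theorem Res.fin (h : Res N A T f r) (H : Hyp N A T rels uses ib) (hz : chk n T [] r = true) :
    N.P f :=
  Nul.of_eq h fun x => by simpa using chk_sound (A x) H.h0 hz

theorem uv_of_psd {A : Alg n} {k : ℕ} {gens : List (Tm × List ℤ)} (h : ∀ g ∈ gens, WG k g.1)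
    {F : Form} (hF : PSD n k F) {w : List ℤ} (hw : ∀ x ∈ w, 0 < x)
    (h0 : psdV A false F w gens gens = 0) {j : ℕ} (hj : j < w.length) :
    UV A (k, F, comb j gens) :=
  ⟨hF, comb_wg h j, (one_mul _).symm.trans ((psdV_nonneg h hF hw zero_le_one).2 h0 j hj)⟩

theorem pv_of_psd {A : Alg n} {k : ℕ} (hk : k ≤ 8) {gens : List (Tm × List ℤ)}
    (h : ∀ g ∈ gens, WG k g.1) {w : List ℤ} (hw : ∀ x ∈ w, 0 < x)
    (h0 : psdV A false triv w gens gens = 0) {j : ℕ} (hj : j < w.length) : PV A (comb j gens) :=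
  ⟨⟨k, comb_wg h j⟩, triv_zero hk (eF_dp (comb_wg h j))
    (uv_of_psd h (psd_triv hk) hw h0 hj).2.2⟩

theorem hyp_pt (h0 : allZ T = true) : Hyp (Nul.pt (Alg n)) id T [] [] false :=
  ⟨by simp, by simp, by simp, h0⟩

end Pool.Agent.Lib.MP_40b2af_gt
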