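import Mathlib
import Pool.Agent.Lib.MP_40b2af_gt.Defs

set_option autoImplicit false

noncomputable section

namespace Pool.Agent.Lib.MP_40b2af_gt

open scoped ContDiff Topology ComplexConjugate
open Set Filter Complex

variable {n : ℕ} {U : Set (V n)} {f g : V n → ℂ} {y : V n} {i j : Fin n} {b b' : Bool}
  {a a' : V n}

/-- sign attached to a flag -/
def sg (b : Bool) : ℂ := bif b then I else -I

/-- Wirtinger derivative of type b -/
def wd (b : Bool) (i : Fin n) (f : V n → ℂ) (y : V n) : ℂ :=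
  (fderiv ℝ f y (Pi.single i 1) + sg b * fderiv ℝ f y (Pi.single i I)) / 2

theorem wd_false : wd false i f y = dz i f y := by simp [wd, dz, sg, sub_eq_add_neg]

theorem wd_true : wd true i f y = dzb i f y := by simp [wd, dzb, sg]

/-- smooth on U -/
abbrev Sm (U : Set (V n)) (f : V n → ℂ) : Prop := ContDiffOn ℝ ∞ f U

theorem Sm.dAt (hf : Sm U f) (hU : IsOpen U) (hy : y ∈ U) : DifferentiableAt ℝ f y :=
  (hf.contDiffAt (hU.mem_nhds hy)).differentiableAt (by simp)

theorem wd_congr (h : f =ᶠ[𝓝 y] g) : wd b i f y = wd b i g y := by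
  unfold wd; rw [h.fderiv_eq]

@[simp] theorem wd_const (c : ℂ) : wd b i (fun _ : V n => c) y = 0 := by
  simp [wd]

theorem wd_add (hf : DifferentiableAt ℝ f y) (hg : DifferentiableAt ℝ g y) :
    wd b i (fun z => f z + g z) y = wd b i f y + wd b i g y := by
  unfold wd; rw [fderiv_fun_add hf hg]; simp; ring

theorem wd_mul (hf : DifferentiableAt ℝ f y) (hg : DifferentiableAt ℝ g y) :
    wd b i (fun z => f z * g z) y = wd b i f y * g y + f y * wd b i g y := by
  unfold wd; rw [fderiv_fun_mul hf hg]; simp; ring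

theorem wd_sum {ι : Type*} {s : Finset ι} {F : ι → V n → ℂ}
    (h : ∀ a ∈ s, DifferentiableAt ℝ (F a) y) :
    wd b i (fun z => ∑ a ∈ s, F a z) y = ∑ a ∈ s, wd b i (F a) y := by
  unfold wd; rw [fderiv_fun_sum h]
  simp only [FunLike.coe_sum, Finset.sum_apply, Finset.mul_sum,
    ← Finset.sum_add_distrib, Finset.sum_div]

theorem wd_prod {ι : Type*} [DecidableEq ι] {s : Finset ι} {F : ι → V n → ℂ}
    (h : ∀ a ∈ s, DifferentiableAt ℝ (F a) y) :
    wd b i (fun z => ∏ a ∈ s, F a z) y = ∑ a ∈ s, wd b i (F a) y * ∏ c ∈ s.erase a, F c y := by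
  unfold wd; rw [fderiv_finsetProd h]
  simp only [FunLike.coe_sum, Finset.sum_apply, FunLike.coe_smul,
    Pi.smul_apply, smul_eq_mul, Finset.mul_sum, ← Finset.sum_add_distrib, Finset.sum_div]
  exact Finset.sum_congr rfl fun _ _ => by ring

theorem Sm.fd (hf : Sm U f) (hU : IsOpen U) (v : V n) : Sm U fun y => fderiv ℝ f y v :=
  (hf.fderiv_of_isOpen hU (m := ∞) (by simp)).clm_apply contDiffOn_const

theorem Sm.wd (hf : Sm U f) (hU : IsOpen U) (b : Bool) (i : Fin n) : Sm U (wd b i f) :=
  ((hf.fd hU _).add (contDiffOn_const.mul (hf.fd hU _))).div_const 2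

theorem fd_comm (hf : Sm U f) (hU : IsOpen U) (hy : y ∈ U) (u v : V n) :
    fderiv ℝ (fun z => fderiv ℝ f z v) y u = fderiv ℝ (fun z => fderiv ℝ f z u) y v := by
  have h2 : ContDiffAt ℝ ∞ f y := hf.contDiffAt (hU.mem_nhds hy)
  have hs : IsSymmSndFDerivAt ℝ f y := h2.isSymmSndFDerivAt (by
    simp only [minSmoothness_of_isRCLikeNormedField]
    exact WithTop.coe_le_coe.2 (le_top : (2 : ℕ∞) ≤ ⊤))
  have hd : DifferentiableAt ℝ (fderiv ℝ f) y :=
    ((hf.fderiv_of_isOpen hU (m := ∞) (by simp)).contDiffAt (hU.mem_nhds hy)).differentiableAt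
      (by simp)
  have key : ∀ a b : V n, fderiv ℝ (fun z => fderiv ℝ f z b) y a
      = fderiv ℝ (fderiv ℝ f) y a b := by
    intro a b
    rw [fderiv_clm_apply hd (differentiableAt_const _)]
    simp
  rw [key, key]
  exact hs.eq _ _

theorem fd_wd (hf : Sm U f) (hU : IsOpen U) (hy : y ∈ U) (u : V n) :
    fderiv ℝ (wd b j f) y u = (fderiv ℝ (fun z => fderiv ℝ f z (Pi.single j 1)) y u
      + sg b * fderiv ℝ (fun z => fderiv ℝ f z (Pi.single j I)) y u) / 2 := by
  have h1 := (hf.fd hU (Pi.single j 1)).dAt hU hy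
  have h2 := (hf.fd hU (Pi.single j I)).dAt hU hy
  have := ((h1.hasFDerivAt.add (h2.hasFDerivAt.const_mul (sg b))).mul_const (1 / 2 : ℂ)).fderiv
  have e : wd b j f = fun z => (fderiv ℝ f z (Pi.single j 1)
      + sg b * fderiv ℝ f z (Pi.single j I)) * (1 / 2 : ℂ) := by
    funext z; simp [wd, div_eq_mul_inv]
  rw [e]
  simp only [Pi.add_def] at this
  rw [this]; simp; ring

theorem wd_comm (hf : Sm U f) (hU : IsOpen U) (hy : y ∈ U) :
    wd b i (wd b' j f) y = wd b' j (wd b i f) y := by
  rw [wd, wd, fd_wd hf hU hy, fd_wd hf hU hy, fd_wd hf hU hy, fd_wd hf hU hy,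
    fd_comm hf hU hy (Pi.single i 1) (Pi.single j 1), fd_comm hf hU hy (Pi.single i 1) (Pi.single j I),
    fd_comm hf hU hy (Pi.single i I) (Pi.single j 1), fd_comm hf hU hy (Pi.single i I) (Pi.single j I)]
  ring

theorem fd_conj (u : V n) : fderiv ℝ (fun z => conj (f z)) y u = conj (fderiv ℝ f y u) := by
  have := conjCLE.comp_fderiv (f := f) (x := y)
  have e : (fun z => conj (f z)) = conjCLE ∘ f := rfl
  rw [e, this]; rfl

theorem wd_conj : wd b i (fun z => conj (f z)) y = conj (wd (!b) i f y) := by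
  unfold wd
  rw [fd_conj, fd_conj]
  cases b <;> simp [sg, map_ofNat]

theorem Sm.conj (hf : Sm U f) : Sm U fun z => conj (f z) :=
  conjCLE.contDiff.comp_contDiffOn hf

/-- directional Wirtinger derivative -/
def wv (b : Bool) (a : V n) (f : V n → ℂ) (y : V n) : ℂ := ∑ i, a i * wd b i f y

theorem wv_congr (h : f =ᶠ[𝓝 y] g) : wv b a f y = wv b a g y := by
  simp only [wv, wd_congr h]

theorem wv_congr_on (hU : IsOpen U) (hy : y ∈ U) (h : ∀ z ∈ U, f z = g z) :
    wv b a f y = wv b a g y :=
  wv_congr (eventually_of_mem (hU.mem_nhds hy) h)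

@[simp] theorem wv_const (c : ℂ) : wv b a (fun _ : V n => c) y = 0 := by
  simp [wv]

theorem wv_single : wv b (Pi.single i 1) f y = wd b i f y := by
  simp [wv, Pi.single_apply]

theorem wv_add (hf : DifferentiableAt ℝ f y) (hg : DifferentiableAt ℝ g y) :
    wv b a (fun z => f z + g z) y = wv b a f y + wv b a g y := by
  simp only [wv, wd_add hf hg, mul_add, Finset.sum_add_distrib]

theorem wv_mul (hf : DifferentiableAt ℝ f y) (hg : DifferentiableAt ℝ g y) :
    wv b a (fun z => f z * g z) y = wv b a f y * g y + f y * wv b a g y := by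
  simp only [wv, wd_mul hf hg, mul_add, Finset.sum_add_distrib, Finset.sum_mul, Finset.mul_sum]
  congr 1 <;> exact Finset.sum_congr rfl fun _ _ => by ring

theorem wv_const_mul (c : ℂ) (hf : DifferentiableAt ℝ f y) :
    wv b a (fun z => c * f z) y = c * wv b a f y := by
  rw [wv_mul (differentiableAt_const c) hf]; simp

theorem wv_neg (hf : DifferentiableAt ℝ f y) : wv b a (fun z => - f z) y = - wv b a f y := by
  have := wv_const_mul (b := b) (a := a) (-1) hf
  simpa using this

theorem wv_sub (hf : DifferentiableAt ℝ f y) (hg : DifferentiableAt ℝ g y) :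
    wv b a (fun z => f z - g z) y = wv b a f y - wv b a g y := by
  simp only [sub_eq_add_neg]
  rw [wv_add hf hg.fun_neg, wv_neg hg]

theorem wv_sum {ι : Type*} {s : Finset ι} {F : ι → V n → ℂ}
    (h : ∀ a ∈ s, DifferentiableAt ℝ (F a) y) :
    wv b a (fun z => ∑ c ∈ s, F c z) y = ∑ c ∈ s, wv b a (F c) y := by
  simp only [wv, wd_sum h, Finset.mul_sum]
  rw [Finset.sum_comm]

theorem Sm.wv (hf : Sm U f) (hU : IsOpen U) (b : Bool) (a : V n) : Sm U (wv b a f) :=
  ContDiffOn.sum fun i _ => contDiffOn_const.mul (hf.wd hU b i)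

theorem wv_comm (hf : Sm U f) (hU : IsOpen U) (hy : y ∈ U) :
    wv b a (wv b' a' f) y = wv b' a' (wv b a f) y := by
  have key : ∀ (b b' : Bool) (a a' : V n), wv b a (wv b' a' f) y
      = ∑ j, ∑ i, a' j * a i * wd b i (wd b' j f) y := by
    intro b b' a a'
    rw [show wv b' a' f = fun z => ∑ j, a' j * wd b' j f z from rfl,
      wv_sum fun j _ => ((hf.wd hU b' j).dAt hU hy).const_mul _]
    refine Finset.sum_congr rfl fun j _ => ?_
    rw [wv_const_mul _ ((hf.wd hU b' j).dAt hU hy), wv, Finset.mul_sum]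
    exact Finset.sum_congr rfl fun _ _ => by ring
  rw [key, key, Finset.sum_comm]
  refine Finset.sum_congr rfl fun i _ => Finset.sum_congr rfl fun j _ => ?_
  rw [wd_comm hf hU hy]; ring

theorem wv_conj : wv b (star a) (fun z => conj (f z)) y = conj (wv (!b) a f y) := by
  simp [wv, wd_conj]

theorem wv_add_left : wv b (a + a') f y = wv b a f y + wv b a' f y := by
  simp [wv, add_mul, Finset.sum_add_distrib]

theorem wv_smul_left (c : ℂ) : wv b (c • a) f y = c * wv b a f y := by
  simp [wv, Finset.mul_sum, mul_assoc]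

theorem wv_lin (b : Bool) (f : V n → ℂ) (y : V n) : IsLinearMap ℂ fun a => wv b a f y :=
  ⟨fun _ _ => wv_add_left, fun c _ => wv_smul_left c⟩

/-- conjugation according to a flag -/
def cb (b : Bool) (a : V n) : V n := bif b then star a else a

theorem fd_eq_sum (L : V n →L[ℝ] ℂ) (v : V n) :
    L v = ∑ j, ((v j).re * L (Pi.single j 1) + (v j).im * L (Pi.single j I)) := by
  have : v = ∑ j, ((v j).re • (Pi.single j 1 : V n) + (v j).im • (Pi.single j I : V n)) := by
    funext k
    simp only [Finset.sum_apply, Pi.add_apply, Pi.smul_apply, Pi.single_apply, smul_ite, smul_zero]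
    rw [Finset.sum_eq_single k] <;> simp +contextual [eq_comm]
  conv_lhs => rw [this]
  simp

theorem wv_eq : wv b a f y
    = (fderiv ℝ f y (cb b a) + sg b * fderiv ℝ f y (I • cb b a)) / 2 := by
  rw [fd_eq_sum _ (cb b a), fd_eq_sum _ (I • cb b a), Finset.mul_sum, ← Finset.sum_add_distrib,
    Finset.sum_div, wv]
  refine Finset.sum_congr rfl fun j _ => ?_
  have h := re_add_im (a j)
  cases b
  · simp only [wd, sg, cb, cond_false, Pi.smul_apply, smul_eq_mul, mul_re, mul_im, I_re, I_im]
    push_cast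
    linear_combination (-(fderiv ℝ f y (Pi.single j 1)
      - I * fderiv ℝ f y (Pi.single j I)) / 2) * h
      - ((a j).im * fderiv ℝ f y (Pi.single j I) / 2) * I_mul_I
  · simp only [wd, sg, cb, cond_true, Pi.smul_apply, Pi.star_apply, smul_eq_mul, mul_re, mul_im,
      I_re, I_im, star_def, conj_re, conj_im]
    push_cast
    linear_combination (-(fderiv ℝ f y (Pi.single j 1)
      + I * fderiv ℝ f y (Pi.single j I)) / 2) * h
      + ((a j).im * fderiv ℝ f y (Pi.single j I) / 2) * I_mul_I

@[simp] theorem cb_cb : cb b (cb b a) = a := by cases b <;> simp [cb]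

theorem sm_det {h : Her n} (hh : ∀ i j, Sm U fun z => h z i j) : Sm U fun z => (h z).det := by
  simp only [Matrix.det_apply']
  exact ContDiffOn.sum fun σ _ => contDiffOn_const.mul (contDiffOn_prod fun i _ => hh _ _)

theorem sm_inv {h : Her n} (hh : ∀ i j, Sm U fun z => h z i j) (hd : ∀ z ∈ U, (h z).det ≠ 0)
    (i j : Fin n) : Sm U fun z => (h z)⁻¹ i j := by
  have h1 : Sm U fun z => (h z).adjugate i j := by
    simp only [Matrix.adjugate_apply]
    refine sm_det (h := fun z => (h z).updateRow j (Pi.single i 1)) fun a b => ?_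
    by_cases hab : a = j
    · subst hab; simp only [Matrix.updateRow_self]; exact contDiffOn_const
    · simp only [Matrix.updateRow_ne hab]; exact hh a b
  have h2 := ((sm_det hh).inv hd).mul h1
  refine h2.congr fun z _ => ?_
  simp [Matrix.inv_def]

theorem wd_det {h : Her n} (hU : IsOpen U) (hh : ∀ i j, Sm U fun z => h z i j) (hy : y ∈ U)
    (hd : (h y).det ≠ 0) : wd b i (fun z => (h z).det) y
      = (h y).det * ∑ p, ∑ q, (h y)⁻¹ p q * wd b i (fun z => h z q p) y := by
  have dH := fun a b => (hh a b).dAt hU hy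
  have dP : ∀ σ : Equiv.Perm (Fin n), DifferentiableAt ℝ (fun z => ∏ c, h z (σ c) c) y := fun σ =>
    Sm.dAt (contDiffOn_prod (t := Finset.univ) fun a _ => hh (σ a) a) hU hy
  have e1 : wd b i (fun z => (h z).det) y
      = ∑ p, ((h y).updateCol p fun q => wd b i (fun z => h z q p) y).det := by
    simp only [Matrix.det_apply']
    rw [wd_sum (fun σ _ => (dP σ).const_mul _), Finset.sum_comm]
    refine Finset.sum_congr rfl fun σ _ => ?_
    rw [wd_mul (differentiableAt_const _) (dP σ), wd_const, zero_mul, zero_add,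
      wd_prod (fun a _ => dH (σ a) a), Finset.mul_sum]
    refine Finset.sum_congr rfl fun a _ => ?_
    congr 1
    rw [← Finset.mul_prod_erase _ _ (Finset.mem_univ a), Matrix.updateCol_self]
    congr 1
    exact Finset.prod_congr rfl fun c hc => by
      rw [Matrix.updateCol_ne (Finset.ne_of_mem_erase hc)]
  rw [e1, Finset.mul_sum]
  refine Finset.sum_congr rfl fun a _ => ?_
  rw [← Matrix.cramer_apply, Matrix.cramer_eq_adjugate_mulVec, Finset.mul_sum]
  simp only [Matrix.mulVec, dotProduct]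
  refine Finset.sum_congr rfl fun c _ => ?_
  simp only [Matrix.inv_def, Matrix.smul_apply, Ring.inverse_eq_inv, smul_eq_mul]
  field_simp

end Pool.Agent.Lib.MP_40b2af_gt
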