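import Mathlib
import Pool.Agent.Lib.MP_40b2af_gt.Calc

set_option autoImplicit false

noncomputable section

namespace Pool.Agent.Lib.MP_40b2af_gt

open scoped ContDiff Topology ComplexConjugate
open Set Filter Complex

variable {n : ℕ}

/-- a function of a list of flagged vectors -/
abbrev Tn (n : ℕ) : Type := List (Bool × V n) → ℂ

/-- linear in each slot -/
def ML (F : Tn n) : Prop :=
  ∀ (s1 : List (Bool × V n)) (b : Bool) (s2 : List (Bool × V n)),
    IsLinearMap ℂ fun u => F (s1 ++ (b, u) :: s2)

theorem ML.tail {F : Tn n} (h : ML F) (x : Bool × V n) : ML fun s => F (x :: s) :=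
  fun s1 b s2 => h (x :: s1) b s2

theorem ML.head {F : Tn n} (h : ML F) (b : Bool) (s : List (Bool × V n)) :
    IsLinearMap ℂ fun u => F ((b, u) :: s) := h [] b s

theorem lin_expand {φ : V n → ℂ} (h : IsLinearMap ℂ φ) (u : V n) :
    φ u = ∑ k, u k * φ (Pi.single k 1) := by
  have := map_sum (IsLinearMap.mk' φ h) (fun k => u k • (Pi.single k 1 : V n)) Finset.univ
  simp only [map_smul, IsLinearMap.mk'_apply, smul_eq_mul] at this
  rw [← this]; congr 1; exact pi_eq_sum_univ' u

theorem lin_sum {φ : V n → ℂ} (h : IsLinearMap ℂ φ) {ι : Type} (s : Finset ι) (c : ι → ℂ)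
    (u : ι → V n) : φ (∑ k ∈ s, c k • u k) = ∑ k ∈ s, c k * φ (u k) := by
  have := map_sum (IsLinearMap.mk' φ h) (fun k => c k • u k) s
  simpa only [map_smul, IsLinearMap.mk'_apply, smul_eq_mul] using this

theorem lin_add {φ ψ : V n → ℂ} (h : IsLinearMap ℂ φ) (h' : IsLinearMap ℂ ψ) :
    IsLinearMap ℂ fun u => φ u + ψ u :=
  ⟨fun u v => by rw [h.1, h'.1]; ring, fun c u => by rw [h.2, h'.2]; simp [mul_add]⟩

theorem lin_sub {φ ψ : V n → ℂ} (h : IsLinearMap ℂ φ) (h' : IsLinearMap ℂ ψ) :
    IsLinearMap ℂ fun u => φ u - ψ u :=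
  ⟨fun u v => by rw [h.1, h'.1]; ring, fun c u => by rw [h.2, h'.2]; simp [mul_sub]⟩

theorem lin_comp {φ : V n → ℂ} {G : V n → V n} (h : IsLinearMap ℂ φ) (h' : IsLinearMap ℂ G) :
    IsLinearMap ℂ fun u => φ (G u) :=
  ⟨fun u v => by rw [h'.1, h.1], fun c u => by rw [h'.2, h.2]⟩

/-- sum over the positions of a list, replacing the vector u by u' at that position -/
def dsum {ι : Type} (fl : ι → Bool) (u u' : ι → V n) : List ι → Tn n → ℂ
  | [], _ => 0
  | x :: l, F => F ((fl x, u' x) :: l.map fun x => (fl x, u x))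
      + dsum fl u u' l fun s => F ((fl x, u x) :: s)

section dsum

variable {ι : Type} {fl : ι → Bool} {u u' u'' : ι → V n}

theorem dsum_addF (l : List ι) (F F' : Tn n) :
    dsum fl u u' l (fun s => F s + F' s) = dsum fl u u' l F + dsum fl u u' l F' := by
  induction l generalizing F F' with
  | nil => simp [dsum]
  | cons x l ih => simp only [dsum, ih]; ring

theorem dsum_mulF (l : List ι) (c : ℂ) (F : Tn n) :
    dsum fl u u' l (fun s => c * F s) = c * dsum fl u u' l F := by
  induction l generalizing F with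
  | nil => simp [dsum]
  | cons x l ih => simp only [dsum, ih]; ring

theorem dsum_subF (l : List ι) (F F' : Tn n) :
    dsum fl u u' l (fun s => F s - F' s) = dsum fl u u' l F - dsum fl u u' l F' := by
  induction l generalizing F F' with
  | nil => simp [dsum]
  | cons x l ih => simp only [dsum, ih]; ring

theorem dsum_add {F : Tn n} (h : ML F) (l : List ι) :
    dsum fl u (fun x => u' x + u'' x) l F = dsum fl u u' l F + dsum fl u u'' l F := by
  induction l generalizing F with
  | nil => simp [dsum]
  | cons x l ih => simp only [dsum, ih (h.tail _), (h.head _ _).1]; ring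

theorem dsum_smul {F : Tn n} (h : ML F) (l : List ι) (c : ℂ) :
    dsum fl u (fun x => c • u' x) l F = c * dsum fl u u' l F := by
  induction l generalizing F with
  | nil => simp [dsum]
  | cons x l ih => simp only [dsum, ih (h.tail _), (h.head _ _).2, smul_eq_mul]; ring

theorem dsum_neg {F : Tn n} (h : ML F) (l : List ι) :
    dsum fl u (fun x => - u' x) l F = - dsum fl u u' l F := by
  have := dsum_smul (fl := fl) (u := u) (u' := u') h l (-1)
  simpa using this

theorem dsum_zero {F : Tn n} (h : ML F) (l : List ι) : dsum fl u (fun _ => 0) l F = 0 := by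
  have := dsum_smul (fl := fl) (u := u) (u' := u) h l 0
  simpa using this

theorem dsum_congr (l : List ι) (F : Tn n) (h : ∀ x ∈ l, u' x = u'' x) :
    dsum fl u u' l F = dsum fl u u'' l F := by
  induction l generalizing F with
  | nil => simp [dsum]
  | cons x l ih =>
    simp only [dsum]
    rw [h x (by simp), ih _ fun z hz => h z (by simp [hz])]

theorem dsum_map {κ : Type} (φ : κ → ι) (l : List κ) (F : Tn n) :
    dsum fl u u' (l.map φ) F
      = dsum (fun x => fl (φ x)) (fun x => u (φ x)) (fun x => u' (φ x)) l F := by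
  induction l generalizing F with
  | nil => simp [dsum]
  | cons x l ih => simp only [dsum, List.map_cons, List.map_map, ih]; rfl

theorem dsum_pull (φ : Bool → Bool) (J : Bool → V n → V n) (l : List ι) (F : Tn n) :
    dsum fl u u' l (fun s => F (s.map fun x => (φ x.1, J x.1 x.2)))
      = dsum (fun x => φ (fl x)) (fun x => J (fl x) (u x)) (fun x => J (fl x) (u' x)) l F := by
  induction l generalizing F with
  | nil => simp [dsum]
  | cons x l ih =>
    simp only [dsum, List.map_cons, List.map_map]
    rw [ih fun s => F ((φ (fl x), J (fl x) (u x)) :: s)]; rfl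

theorem dsum_conj (l : List ι) (F : Tn n) :
    dsum fl u u' l (fun s => conj (F s)) = conj (dsum fl u u' l F) := by
  induction l generalizing F with
  | nil => simp [dsum]
  | cons x l ih => simp only [dsum, map_add, ih]

end dsum

/-- derivation action of a flagged endomorphism -/
def act (G : Bool → V n → V n) (F : Tn n) (s : List (Bool × V n)) : ℂ :=
  dsum Prod.fst Prod.snd (fun x => G x.1 x.2) s F

@[simp] theorem act_nil (G : Bool → V n → V n) (F : Tn n) : act G F [] = 0 := rfl

theorem act_cons (G : Bool → V n → V n) (F : Tn n) (x : Bool × V n) (s : List (Bool × V n)) :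
    act G F (x :: s) = F ((x.1, G x.1 x.2) :: s) + act G (fun s => F (x :: s)) s := by
  simp [act, dsum]

theorem ML.act {F : Tn n} (h : ML F) {G : Bool → V n → V n} (hG : ∀ b, IsLinearMap ℂ (G b)) :
    ML (act G F) := by
  intro s1 b s2
  induction s1 generalizing F with
  | nil =>
    simp only [List.nil_append, act_cons]
    refine lin_add (lin_comp (h.head b s2) (hG b)) ⟨fun u v => ?_, fun c u => ?_⟩
    · simp only [(h.head _ _).1, MP_40b2af_gt.act, dsum_addF]
    · simp only [(h.head _ _).2, MP_40b2af_gt.act, smul_eq_mul, dsum_mulF]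
  | cons x s1 ih =>
    simp only [List.cons_append, act_cons]
    exact lin_add (h (_ :: s1) b s2) (ih (h.tail x))

theorem act_comm {F : Tn n} (h : ML F) (G1 G2 : Bool → V n → V n) (s : List (Bool × V n)) :
    act G1 (act G2 F) s - act G2 (act G1 F) s
      = act (fun b u => G2 b (G1 b u) - G1 b (G2 b u)) F s := by
  induction s generalizing F with
  | nil => simp
  | cons x s ih =>
    have e := ih (h.tail x)
    have e2 := (h.head x.1 s).map_sub (G2 x.1 (G1 x.1 x.2)) (G1 x.1 (G2 x.1 x.2))
    simp only [act_cons]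
    simp only [act, dsum_addF] at e ⊢
    rw [e2, ← e]
    change _ + _ + (_ + dsum _ _ _ s (act G2 fun s => F (x :: s)))
      - (_ + _ + (_ + dsum _ _ _ s (act G1 fun s => F (x :: s)))) = _
    ring

/-- a smooth tensor field in a chart -/
structure IsT (U : Set (V n)) (X : V n → Tn n) : Prop where
  ml : ∀ y ∈ U, ML (X y)
  sm : ∀ s, Sm U fun y => X y s

variable {U : Set (V n)} {X : V n → Tn n} {y : V n} {b : Bool} {a : V n}

theorem IsT.tail (h : IsT U X) (x : Bool × V n) : IsT U fun y s => X y (x :: s) :=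
  ⟨fun y hy => (h.ml y hy).tail x, fun _ => h.sm _⟩

theorem sm_lin {Φ : V n → V n → ℂ} (hl : ∀ z ∈ U, IsLinearMap ℂ (Φ z))
    (hs : ∀ u, Sm U fun z => Φ z u) {v : V n → V n} (hv : ∀ k, Sm U fun z => v z k) :
    Sm U fun z => Φ z (v z) :=
  ContDiffOn.congr (ContDiffOn.sum (s := Finset.univ) fun k _ => (hv k).mul (hs (Pi.single k 1)))
    fun z hz => lin_expand (hl z hz) _

theorem wv_lin_move (hU : IsOpen U) (hy : y ∈ U) {Φ : V n → V n → ℂ}
    (hl : ∀ z ∈ U, IsLinearMap ℂ (Φ z)) (hs : ∀ u, Sm U fun z => Φ z u) {v : V n → V n}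
    (hv : ∀ k, Sm U fun z => v z k) :
    wv b a (fun z => Φ z (v z)) y
      = Φ y (fun k => wv b a (fun z => v z k) y) + wv b a (fun z => Φ z (v y)) y := by
  rw [wv_congr_on hU hy fun z hz => lin_expand (hl z hz) (v z),
    wv_congr_on hU hy fun z hz => lin_expand (hl z hz) (v y),
    wv_sum fun k _ => ((hv k).dAt hU hy).fun_mul ((hs _).dAt hU hy),
    wv_sum fun k _ => ((hs _).dAt hU hy).const_mul _, lin_expand (hl y hy),
    ← Finset.sum_add_distrib]
  refine Finset.sum_congr rfl fun k _ => ?_
  rw [wv_mul ((hv k).dAt hU hy) ((hs _).dAt hU hy), wv_const_mul _ ((hs _).dAt hU hy)]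

theorem IsT.sm_move (h : IsT U X) {ι : Type} {fl : ι → Bool} {u : V n → ι → V n} (l : List ι)
    (hu : ∀ x k, Sm U fun y => u y x k) : Sm U fun y => X y (l.map fun x => (fl x, u y x)) := by
  induction l generalizing X with
  | nil => exact h.sm _
  | cons x l ih =>
    exact sm_lin (Φ := fun z w => X z ((fl x, w) :: l.map fun x => (fl x, u z x)))
      (fun z hz => (h.ml z hz).head _ _) (fun w => ih (h.tail (fl x, w))) (hu x)

theorem IsT.wv_move (h : IsT U X) (hU : IsOpen U) (hy : y ∈ U) {ι : Type} {fl : ι → Bool}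
    {u : V n → ι → V n} (l : List ι) (hu : ∀ x k, Sm U fun y => u y x k) :
    wv b a (fun z => X z (l.map fun x => (fl x, u z x))) y
      = wv b a (fun z => X z (l.map fun x => (fl x, u y x))) y
        + dsum fl (u y) (fun x k => wv b a (fun z => u z x k) y) l (X y) := by
  induction l generalizing X with
  | nil => simp [dsum]
  | cons x l ih =>
    have e := wv_lin_move (b := b) (a := a) hU hy
      (Φ := fun z w => X z ((fl x, w) :: l.map fun x => (fl x, u z x)))
      (fun z hz => (h.ml z hz).head _ _) (fun w => (h.tail (fl x, w)).sm_move l hu) (hu x)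
    have e2 := ih (h.tail (fl x, u y x))
    simp only [List.map_cons, dsum]
    rw [e, e2]; ring

theorem IsT.sm_act (h : IsT U X) {K : V n → Bool → V n → V n}
    (hK : ∀ b u k, Sm U fun z => K z b u k) (s : List (Bool × V n)) :
    Sm U fun z => act (K z) (X z) s := by
  induction s generalizing X with
  | nil => exact contDiffOn_const
  | cons x s ih =>
    simp only [act_cons]
    exact (sm_lin (Φ := fun z w => X z ((x.1, w) :: s)) (fun z hz => (h.ml z hz).head _ _)
      (fun w => h.sm _) (hK x.1 x.2)).add (ih (h.tail x))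

theorem IsT.wv_act (h : IsT U X) (hU : IsOpen U) (hy : y ∈ U) {K : V n → Bool → V n → V n}
    (hK : ∀ b u k, Sm U fun z => K z b u k) (s : List (Bool × V n)) :
    wv b a (fun z => act (K z) (X z) s) y
      = act (fun b' u k => wv b a (fun z => K z b' u k) y) (X y) s
        + act (K y) (fun s => wv b a (fun z => X z s) y) s := by
  induction s generalizing X with
  | nil => simp
  | cons x s ih =>
    simp only [act_cons]
    rw [wv_add ((sm_lin (Φ := fun z w => X z ((x.1, w) :: s)) (fun z hz => (h.ml z hz).head _ _)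
      (fun w => h.sm _) (hK x.1 x.2)).dAt hU hy) (((h.tail x).sm_act hK s).dAt hU hy),
      ih (h.tail x), wv_lin_move hU hy (Φ := fun z w => X z ((x.1, w) :: s))
      (fun z hz => (h.ml z hz).head _ _) (fun w => h.sm _) (hK x.1 x.2)]
    ring

theorem IsT.ml_wv (h : IsT U X) (hU : IsOpen U) (hy : y ∈ U) (b : Bool) (a : V n) :
    ML fun s => wv b a (fun z => X z s) y := by
  intro s1 b' s2
  refine ⟨fun u v => ?_, fun c u => ?_⟩ <;> dsimp only
  · rw [wv_congr_on hU hy fun z hz => (h.ml z hz s1 b' s2).1 u v,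
      wv_add ((h.sm _).dAt hU hy) ((h.sm _).dAt hU hy)]
  · rw [wv_congr_on hU hy fun z hz => (h.ml z hz s1 b' s2).2 c u]
    exact wv_const_mul c ((h.sm _).dAt hU hy)

/-- a connection: flag, point, direction, vector -/
abbrev Cn (n : ℕ) : Type := Bool → V n → V n → V n → V n

/-- regularity of a connection -/
structure IsC (U : Set (V n)) (G : Cn n) : Prop where
  isOpen : IsOpen U
  lin1 : ∀ b, ∀ y ∈ U, ∀ u, IsLinearMap ℂ fun a => G b y a u
  lin2 : ∀ b, ∀ y ∈ U, ∀ a, IsLinearMap ℂ (G b y a)
  sm : ∀ b a u k, Sm U fun y => G b y a u k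

/-- the connection acts only on the slots with the flag of the direction -/
def gf (G : Cn n) (b : Bool) (y a : V n) (b' : Bool) (u : V n) : V n :=
  if b' = b then G b y a u else 0

/-- covariant derivative, the new slot first -/
def cov (G : Cn n) (X : V n → Tn n) : V n → Tn n
  | _, [] => 0
  | y, x :: s => wv x.1 x.2 (fun z => X z s) y - act (gf G x.1 y x.2) (X y) s

theorem cov_cons (G : Cn n) (X : V n → Tn n) (y : V n) (b : Bool) (a : V n)
    (s : List (Bool × V n)) :
    cov G X y ((b, a) :: s) = wv b a (fun z => X z s) y - act (gf G b y a) (X y) s := rfl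

variable {G : Cn n}

theorem IsC.gf_lin (hG : IsC U G) (hy : y ∈ U) (b : Bool) (a : V n) (b' : Bool) :
    IsLinearMap ℂ (gf G b y a b') := by
  unfold gf
  split_ifs
  · exact hG.lin2 b y hy a
  · exact ⟨by simp, by simp⟩

theorem IsC.gf_sm (hG : IsC U G) (b : Bool) (a : V n) (b' : Bool) (u : V n) (k : Fin n) :
    Sm U fun y => gf G b y a b' u k := by
  unfold gf
  split_ifs
  · exact hG.sm b a u k
  · exact contDiffOn_const

theorem IsT.cov (h : IsT U X) (hG : IsC U G) : IsT U (cov G X) := by
  refine ⟨fun y hy s1 b s2 => ?_, fun s => ?_⟩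
  · cases s1 with
    | nil =>
      simp only [List.nil_append, cov_cons]
      refine lin_sub (wv_lin _ _ _) ⟨fun u v => ?_, fun c u => ?_⟩
      · rw [act, act, act, ← dsum_add (h.ml y hy)]
        refine dsum_congr _ _ fun x _ => ?_
        unfold gf; split_ifs
        · exact (hG.lin1 _ _ hy _).1 u v
        · simp
      · rw [act, act, smul_eq_mul, ← dsum_smul (h.ml y hy)]
        refine dsum_congr _ _ fun x _ => ?_
        unfold gf; split_ifs
        · exact (hG.lin1 _ _ hy _).2 c u
        · simp
    | cons x s1 =>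
      exact lin_sub (h.ml_wv hG.isOpen hy x.1 x.2 s1 b s2)
        ((h.ml y hy).act (hG.gf_lin hy x.1 x.2) s1 b s2)
  · cases s with
    | nil => exact contDiffOn_const
    | cons x s =>
      exact ((h.sm s).wv hG.isOpen x.1 x.2).sub (h.sm_act (fun b u k => hG.gf_sm _ _ b u k) s)

theorem IsT.wv_par (h : IsT U X) (hG : IsC U G) (hy : y ∈ U) {ι : Type} {fl : ι → Bool}
    {u : V n → ι → V n} (l : List ι) (hu : ∀ x k, Sm U fun y => u y x k)
    (hp : ∀ x, (fun k => wv b a (fun z => u z x k) y) = - gf G b y a (fl x) (u y x)) :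
    wv b a (fun z => X z (l.map fun x => (fl x, u z x))) y
      = MP_40b2af_gt.cov G X y ((b, a) :: l.map fun x => (fl x, u y x)) := by
  rw [h.wv_move hG.isOpen hy l hu, cov_cons, act, dsum_map, sub_eq_add_neg, ← dsum_neg (h.ml y hy)]
  congr 1
  exact dsum_congr _ _ fun x _ => hp x

theorem IsT.cov_cov (h : IsT U X) (hG : IsC U G) (hy : y ∈ U) (b b' : Bool) (a a' : V n)
    (s : List (Bool × V n)) :
    MP_40b2af_gt.cov G (MP_40b2af_gt.cov G X) y ((b, a) :: (b', a') :: s)
      - MP_40b2af_gt.cov G (MP_40b2af_gt.cov G X) y ((b', a') :: (b, a) :: s)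
      = MP_40b2af_gt.cov G X y ((b, gf G b' y a' b a) :: s)
        - MP_40b2af_gt.cov G X y ((b', gf G b y a b' a') :: s)
        - act (fun c u => (fun k => wv b a (fun z => gf G b' z a' c u k) y)
            - (fun k => wv b' a' (fun z => gf G b z a c u k) y)
            - (gf G b' y a' c (gf G b y a c u) - gf G b y a c (gf G b' y a' c u))) (X y) s := by
  have key : ∀ (b b' : Bool) (a a' : V n),
      MP_40b2af_gt.cov G (MP_40b2af_gt.cov G X) y ((b, a) :: (b', a') :: s)
      = wv b a (wv b' a' fun z => X z s) y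
        - (act (fun c u k => wv b a (fun z => gf G b' z a' c u k) y) (X y) s
          + act (gf G b' y a') (fun s => wv b a (fun z => X z s) y) s)
        - (MP_40b2af_gt.cov G X y ((b', gf G b y a b' a') :: s)
          + (act (gf G b y a) (fun s => wv b' a' (fun z => X z s) y) s
            - act (gf G b y a) (act (gf G b' y a') (X y)) s)) := by
    intro b b' a a'
    rw [cov_cons, act_cons]
    simp only [cov_cons]
    rw [wv_sub (((h.sm s).wv hG.isOpen b' a').dAt hG.isOpen hy)
      ((h.sm_act (fun c u k => hG.gf_sm _ _ c u k) s).dAt hG.isOpen hy),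
      h.wv_act hG.isOpen hy (fun c u k => hG.gf_sm _ _ c u k)]
    congr 2
    exact dsum_subF _ _ _
  have e1 := act_comm (h.ml y hy) (gf G b y a) (gf G b' y a') s
  rw [key, key, wv_comm (h.sm s) hG.isOpen hy]
  simp only [act, sub_eq_add_neg, dsum_add (h.ml y hy), dsum_neg (h.ml y hy)] at e1 ⊢
  linear_combination e1

end Pool.Agent.Lib.MP_40b2af_gt
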