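import Mathlib
import Pool.Agent.Lib.MP_40b2af_gt.Ten

set_option autoImplicit false

noncomputable section

namespace Pool.Agent.Lib.MP_40b2af_gt

open scoped ContDiff Topology ComplexConjugate Matrix
open Set Filter Complex

variable {n : ℕ} {U : Set (V n)} {h : Her n} {y : V n} {b : Bool} {a a' u v w k l x z : V n}

/-- a smooth Hermitian invertible matrix field on an open set -/
structure Good (U : Set (V n)) (h : Her n) : Prop where
  isOpen : IsOpen U
  sm : ∀ i j, Sm U fun z => h z i j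
  herm : ∀ z ∈ U, ∀ i j, h z j i = conj (h z i j)
  det : ∀ z ∈ U, (h z).det ≠ 0

/-- the matrix or its transpose -/
def hm (b : Bool) (H : Matrix (Fin n) (Fin n) ℂ) : Matrix (Fin n) (Fin n) ℂ :=
  bif b then Hᵀ else H

/-- the metric on a vector of flag b and a vector of the other flag -/
def gm (h : Her n) (b : Bool) (y u w : V n) : ℂ := ∑ j, ∑ l, u j * hm b (h y) j l * w l

/-- the Chern connection -/
def Gm (h : Her n) : Cn n := fun b y a u k =>
  ∑ l, wv b a (fun z => gm h b z u (Pi.single l 1)) y * (hm b (h y))⁻¹ l k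

theorem Good.hm_sm (H : Good U h) (b : Bool) (i j : Fin n) : Sm U fun z => hm b (h z) i j := by
  cases b
  · exact H.sm i j
  · exact H.sm j i

theorem Good.hm_det (H : Good U h) (b : Bool) (hy : y ∈ U) : (hm b (h y)).det ≠ 0 := by
  cases b
  · exact H.det y hy
  · simpa [hm] using H.det y hy

theorem gm_lin1 (h : Her n) (b : Bool) (y w : V n) : IsLinearMap ℂ fun u => gm h b y u w :=
  ⟨fun u v => by simp [gm, add_mul, Finset.sum_add_distrib],
    fun c u => by simp [gm, Finset.mul_sum, mul_assoc]⟩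

theorem gm_swap : gm h (!b) y w u = gm h b y u w := by
  unfold gm
  rw [Finset.sum_comm]
  refine Finset.sum_congr rfl fun i _ => Finset.sum_congr rfl fun j _ => ?_
  cases b <;> simp [hm] <;> ring

theorem gm_lin2 (h : Her n) (b : Bool) (y u : V n) : IsLinearMap ℂ fun w => gm h b y u w := by
  simp only [← gm_swap (b := b)]; exact gm_lin1 _ _ _ _

theorem Good.gm_sm (H : Good U h) (b : Bool) (u w : V n) : Sm U fun z => gm h b z u w :=
  ContDiffOn.sum fun i _ => ContDiffOn.sum fun j _ =>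
    (contDiffOn_const.mul (H.hm_sm b i j)).mul contDiffOn_const

theorem gm_eq : gm h b y u w = (u ᵥ* hm b (h y)) ⬝ᵥ w := by
  simp only [gm, dotProduct, Matrix.vecMul, Finset.sum_mul]
  rw [Finset.sum_comm]

theorem Gm_eq : Gm h b y a u
    = (fun l => wv b a (fun z => gm h b z u (Pi.single l 1)) y) ᵥ* (hm b (h y))⁻¹ := rfl

theorem Good.wv_gm_lin2 (H : Good U h) (hy : y ∈ U) (b b' : Bool) (a u : V n) :
    IsLinearMap ℂ fun w => wv b' a (fun z => gm h b z u w) y := by
  refine ⟨fun v w => ?_, fun c w => ?_⟩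
  · simp only [(gm_lin2 h b _ u).1]
    exact wv_add ((H.gm_sm _ _ _).dAt H.isOpen hy) ((H.gm_sm _ _ _).dAt H.isOpen hy)
  · simp only [(gm_lin2 h b _ u).2]
    exact wv_const_mul c ((H.gm_sm _ _ _).dAt H.isOpen hy)

theorem Good.gm_G (H : Good U h) (hy : y ∈ U) :
    gm h b y (Gm h b y a u) w = wv b a (fun z => gm h b z u w) y := by
  rw [gm_eq, Gm_eq, Matrix.vecMul_vecMul,
    Matrix.nonsing_inv_mul _ (isUnit_iff_ne_zero.2 (H.hm_det b hy)), Matrix.vecMul_one,
    lin_expand (H.wv_gm_lin2 hy b b a u) w, dotProduct]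
  exact Finset.sum_congr rfl fun _ _ => mul_comm _ _

theorem Good.gm_G' (H : Good U h) (hy : y ∈ U) :
    gm h b y u (Gm h (!b) y a w) = wv (!b) a (fun z => gm h b z u w) y := by
  rw [← gm_swap, H.gm_G hy]; simp only [gm_swap]

theorem Good.gm_ext (H : Good U h) (hy : y ∈ U) (e : ∀ w, gm h b y u w = gm h b y v w) :
    u = v := by
  have h1 : u ᵥ* hm b (h y) = v ᵥ* hm b (h y) := by
    funext l
    have := e (Pi.single l 1)
    simpa [gm_eq] using this
  have h2 := congrArg (· ᵥ* (hm b (h y))⁻¹) h1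
  simpa [Matrix.vecMul_vecMul,
    Matrix.mul_nonsing_inv _ (isUnit_iff_ne_zero.2 (H.hm_det b hy))] using h2

/-- the connection, cut off outside U -/
theorem Gm_lin1 (h : Her n) (b : Bool) (y u : V n) : IsLinearMap ℂ fun a => Gm h b y a u :=
  ⟨fun a a' => by funext k; simp [Gm, wv_add_left, add_mul, Finset.sum_add_distrib],
    fun c a => by funext k; simp [Gm, wv_smul_left, Finset.mul_sum, mul_assoc]⟩

theorem Good.Gm_lin2 (H : Good U h) (hy : y ∈ U) (b : Bool) (a : V n) :
    IsLinearMap ℂ (Gm h b y a) := by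
  refine ⟨fun u v => H.gm_ext (b := b) hy fun w => ?_, fun c u => H.gm_ext (b := b) hy fun w => ?_⟩
  · rw [(gm_lin1 h b y w).1, H.gm_G hy, H.gm_G hy, H.gm_G hy]
    simp only [(gm_lin1 h b _ w).1]
    exact wv_add ((H.gm_sm _ _ _).dAt H.isOpen hy) ((H.gm_sm _ _ _).dAt H.isOpen hy)
  · rw [(gm_lin1 h b y w).2, H.gm_G hy, H.gm_G hy]
    simp only [(gm_lin1 h b _ w).2]
    exact wv_const_mul c ((H.gm_sm _ _ _).dAt H.isOpen hy)

theorem Good.Gm_sm (H : Good U h) (b : Bool) (a u : V n) (k : Fin n) :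
    Sm U fun y => Gm h b y a u k :=
  ContDiffOn.sum fun l _ => ((H.gm_sm b u _).wv H.isOpen b a).mul
    (sm_inv (h := fun z => hm b (h z)) (H.hm_sm b) (fun _ hz => H.hm_det b hz) l k)

theorem Good.isC (H : Good U h) : IsC U (Gm h) :=
  ⟨H.isOpen, fun b y _ u => Gm_lin1 h b y u, fun b _ hy a => H.Gm_lin2 hy b a, H.Gm_sm⟩

theorem Good.gm_conj (H : Good U h) (hy : y ∈ U) :
    gm h (!b) y (star u) (star w) = conj (gm h b y u w) := by
  simp only [gm, map_sum, map_mul, Pi.star_apply, star_def]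
  refine Finset.sum_congr rfl fun i _ => Finset.sum_congr rfl fun j _ => ?_
  cases b
  · simp [hm, H.herm y hy i j]
  · simp [hm, H.herm y hy j i]

theorem Good.Gm_conj (H : Good U h) (hy : y ∈ U) :
    Gm h (!b) y (star a) (star u) = star (Gm h b y a u) := by
  refine H.gm_ext (b := !b) hy fun w => ?_
  rw [← star_star w, H.gm_conj hy, H.gm_G hy, H.gm_G hy,
    wv_congr_on H.isOpen hy fun z hz => H.gm_conj hz, wv_conj, Bool.not_not]

/-- derivative of a vector field -/
def dv (b : Bool) (a : V n) (v : V n → V n) (y : V n) : V n :=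
  fun k => wv b a (fun z => v z k) y

theorem Good.wv_gm (H : Good U h) (hy : y ∈ U) {v : V n → V n} (hv : ∀ k, Sm U fun z => v z k) :
    wv b a (fun z => gm h b z (v z) w) y = gm h b y (dv b a v y + Gm h b y a (v y)) w := by
  rw [wv_lin_move H.isOpen hy (Φ := fun z u => gm h b z u w) (fun z _ => gm_lin1 h b z w)
    (fun u => H.gm_sm b u w) hv, (gm_lin1 h b y w).1, H.gm_G hy]
  rfl

theorem Good.wv_gm' (H : Good U h) (hy : y ∈ U) {v : V n → V n} (hv : ∀ k, Sm U fun z => v z k) :
    wv (!b) a (fun z => gm h b z (v z) w) y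
      = gm h b y (dv (!b) a v y) w + gm h b y (v y) (Gm h (!b) y a w) := by
  rw [wv_lin_move H.isOpen hy (Φ := fun z u => gm h b z u w) (fun z _ => gm_lin1 h b z w)
    (fun u => H.gm_sm b u w) hv, H.gm_G' hy]
  rfl

theorem Good.flat (H : Good U h) (hy : y ∈ U) (b : Bool) (a a' u : V n) :
    dv b a (fun z => Gm h b z a' u) y + Gm h b y a (Gm h b y a' u)
      = dv b a' (fun z => Gm h b z a u) y + Gm h b y a' (Gm h b y a u) := by
  refine H.gm_ext (b := b) hy fun w => ?_
  rw [← H.wv_gm hy (H.Gm_sm b a' u), ← H.wv_gm hy (H.Gm_sm b a u),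
    wv_congr_on H.isOpen hy fun z hz => H.gm_G hz, wv_congr_on H.isOpen hy fun z hz => H.gm_G hz]
  exact wv_comm (H.gm_sm b u w) H.isOpen hy

/-- curvature endomorphism -/
def Kv (h : Her n) (b : Bool) (y u k z : V n) : V n := dv (!b) z (fun y => Gm h b y u k) y

/-- curvature tensor -/
def Rm (h : Her n) (y u k z l : V n) : ℂ := - gm h false y (Kv h false y u k z) l

/-- torsion tensor -/
def Tor (h : Her n) (b : Bool) (y u v w : V n) : ℂ := gm h b y (Gm h b y u v - Gm h b y v u) w

theorem Good.gm_Kv (H : Good U h) (hy : y ∈ U) :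
    gm h b y (Kv h b y u k z) l = wv (!b) z (wv b u fun z => gm h b z k l) y
      - gm h b y (Gm h b y u k) (Gm h (!b) y z l) := by
  have := H.wv_gm' (b := b) (a := z) (w := l) hy (H.Gm_sm b u k)
  rw [wv_congr_on H.isOpen hy fun z hz => H.gm_G hz] at this
  rw [Kv, eq_sub_iff_add_eq, ← this]

theorem Good.gm_Kv_true (H : Good U h) (hy : y ∈ U) :
    gm h true y (Kv h true y z l u) k = - Rm h y u k z l := by
  rw [Rm, neg_neg, H.gm_Kv hy, H.gm_Kv hy, ← gm_swap (b := true), Bool.not_true, Bool.not_false,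
    wv_comm (H.gm_sm true l k) H.isOpen hy]
  simp only [← gm_swap (b := true), Bool.not_true]

theorem Good.Kv_sm (H : Good U h) (b : Bool) (u k z : V n) (m : Fin n) :
    Sm U fun y => Kv h b y u k z m := (H.Gm_sm b u k m).wv H.isOpen _ _

theorem Good.Rm_sm (H : Good U h) (u k z l : V n) : Sm U fun y => Rm h y u k z l :=
  (sm_lin (Φ := fun y v => gm h false y v l) (fun y _ => gm_lin1 h _ y l)
    (fun v => H.gm_sm _ v l) (H.Kv_sm false u k z)).neg

theorem Good.Tor_sm (H : Good U h) (b : Bool) (u v w : V n) : Sm U fun y => Tor h b y u v w :=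
  sm_lin (Φ := fun y v => gm h b y v w) (fun y _ => gm_lin1 h _ y w)
    (fun v => H.gm_sm _ v w) fun m => (H.Gm_sm b u v m).sub (H.Gm_sm b v u m)

theorem Good.dv_lin (hU : IsOpen U) (hy : y ∈ U) {Φ : V n → V n → V n}
    (hl : ∀ z ∈ U, IsLinearMap ℂ (Φ z)) (hs : ∀ u k, Sm U fun z => Φ z u k) (b : Bool) (a : V n) :
    IsLinearMap ℂ fun u => dv b a (fun z => Φ z u) y := by
  refine ⟨fun u v => ?_, fun c u => ?_⟩ <;> funext m
  · simp only [dv, Pi.add_apply]
    rw [wv_congr_on hU hy (g := fun z => Φ z u m + Φ z v m) fun z hz => by rw [(hl z hz).1]; rfl]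
    exact wv_add ((hs _ _).dAt hU hy) ((hs _ _).dAt hU hy)
  · simp only [dv, Pi.smul_apply, smul_eq_mul]
    rw [wv_congr_on hU hy (g := fun z => c * Φ z u m) fun z hz => by rw [(hl z hz).2]; rfl]
    exact wv_const_mul c ((hs _ _).dAt hU hy)

theorem Good.Kv_lin1 (H : Good U h) (hy : y ∈ U) (b : Bool) (k z : V n) :
    IsLinearMap ℂ fun u => Kv h b y u k z :=
  Good.dv_lin H.isOpen hy (Φ := fun y u => Gm h b y u k) (fun y _ => Gm_lin1 h b y k)
    (fun u m => H.Gm_sm b u k m) _ _

theorem Good.Kv_lin2 (H : Good U h) (hy : y ∈ U) (b : Bool) (u z : V n) :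
    IsLinearMap ℂ fun k => Kv h b y u k z :=
  Good.dv_lin H.isOpen hy (Φ := fun y k => Gm h b y u k) (fun _ hy => H.Gm_lin2 hy b u)
    (fun k m => H.Gm_sm b u k m) _ _

theorem Kv_lin3 (h : Her n) (b : Bool) (y u k : V n) : IsLinearMap ℂ fun z => Kv h b y u k z :=
  ⟨fun _ _ => by funext m; exact wv_add_left, fun c _ => by funext m; exact wv_smul_left c⟩

theorem lin_neg {φ : V n → ℂ} (h : IsLinearMap ℂ φ) : IsLinearMap ℂ fun u => - φ u :=
  ⟨fun u v => by rw [h.1]; ring, fun c u => by rw [h.2]; simp⟩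

theorem linv_sub {φ ψ : V n → V n} (h : IsLinearMap ℂ φ) (h' : IsLinearMap ℂ ψ) :
    IsLinearMap ℂ fun u => φ u - ψ u :=
  ⟨fun u v => by rw [h.1, h'.1]; abel, fun c u => by rw [h.2, h'.2, smul_sub]⟩

theorem Good.Rm_lin1 (H : Good U h) (hy : y ∈ U) (k z l : V n) :
    IsLinearMap ℂ fun u => Rm h y u k z l :=
  lin_neg (lin_comp (φ := fun u => gm h false y u l) (gm_lin1 h _ y l) (H.Kv_lin1 hy _ k z))

theorem Good.Rm_lin2 (H : Good U h) (hy : y ∈ U) (u z l : V n) :
    IsLinearMap ℂ fun k => Rm h y u k z l :=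
  lin_neg (lin_comp (φ := fun u => gm h false y u l) (gm_lin1 h _ y l) (H.Kv_lin2 hy _ u z))

theorem Rm_lin3 (h : Her n) (y u k l : V n) : IsLinearMap ℂ fun z => Rm h y u k z l :=
  lin_neg (lin_comp (φ := fun u => gm h false y u l) (gm_lin1 h _ y l) (Kv_lin3 h _ y u k))

theorem Rm_lin4 (h : Her n) (y u k z : V n) : IsLinearMap ℂ fun l => Rm h y u k z l :=
  lin_neg (gm_lin2 h _ y _)

theorem Good.Tor_lin1 (H : Good U h) (hy : y ∈ U) (b : Bool) (v w : V n) :
    IsLinearMap ℂ fun u => Tor h b y u v w :=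
  lin_comp (φ := fun u => gm h b y u w) (gm_lin1 h b y w) (linv_sub (Gm_lin1 h b y v) (H.Gm_lin2 hy b v))

theorem Good.Tor_lin2 (H : Good U h) (hy : y ∈ U) (b : Bool) (u w : V n) :
    IsLinearMap ℂ fun v => Tor h b y u v w :=
  lin_comp (φ := fun u => gm h b y u w) (gm_lin1 h b y w) (linv_sub (H.Gm_lin2 hy b u) (Gm_lin1 h b y u))

theorem Tor_lin3 (h : Her n) (b : Bool) (y u v : V n) : IsLinearMap ℂ fun w => Tor h b y u v w :=
  gm_lin2 h b y _

theorem Tor_skew : Tor h b y u v w = - Tor h b y v u w := by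
  simp only [Tor, (gm_lin1 h b y w).map_sub]; ring

theorem Good.Tor_conj (H : Good U h) (hy : y ∈ U) :
    Tor h (!b) y (star u) (star v) (star w) = conj (Tor h b y u v w) := by
  rw [Tor, Tor, H.Gm_conj hy, H.Gm_conj hy, ← star_sub, H.gm_conj hy]

theorem Good.Kv_conj (H : Good U h) (hy : y ∈ U) :
    Kv h (!b) y (star u) (star k) (star z) = star (Kv h b y u k z) := by
  funext m
  simp only [Kv, dv, Pi.star_apply, star_def]
  rw [wv_congr_on H.isOpen hy (g := fun y => conj (Gm h b y u k m))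
    fun z hz => by rw [H.Gm_conj hz]; rfl, wv_conj, Bool.not_not]

theorem Good.Rm_conj (H : Good U h) (hy : y ∈ U) :
    Rm h y (star z) (star l) (star u) (star k) = conj (Rm h y u k z l) := by
  have e := H.gm_Kv_true (z := star u) (l := star k) (u := star z) (k := star l) hy
  have e2 := H.Kv_conj (b := false) (u := u) (k := k) (z := z) hy
  have e3 := H.gm_conj (b := false) (u := Kv h false y u k z) (w := l) hy
  rw [Bool.not_false] at e2 e3
  rw [e2, e3] at e
  rw [Rm.eq_1 h y u, map_neg, e, neg_neg]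

theorem Good.dv_sub (hU : IsOpen U) (hy : y ∈ U) {p q : V n → V n} (hp : ∀ k, Sm U fun z => p z k)
    (hq : ∀ k, Sm U fun z => q z k) :
    dv b a (fun z => p z - q z) y = dv b a p y - dv b a q y := by
  funext m
  exact wv_sub ((hp m).dAt hU hy) ((hq m).dAt hU hy)

theorem Good.wv_Tor_bar (H : Good U h) (hy : y ∈ U) :
    wv true z (fun y => Tor h false y u v w) y - Tor h false y u v (Gm h true y z w)
      = Rm h y v u z w - Rm h y u v z w := by
  have e := H.wv_gm' (b := false) (a := z) (w := w) hy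
    (v := fun y => Gm h false y u v - Gm h false y v u)
    fun m => (H.Gm_sm _ u v m).sub (H.Gm_sm _ v u m)
  rw [Good.dv_sub H.isOpen hy (H.Gm_sm _ u v) (H.Gm_sm _ v u), (gm_lin1 h _ y w).map_sub] at e
  simp only [Tor, Rm, Kv, Bool.not_false] at e ⊢
  rw [e]; ring

theorem Good.wv_Tor (H : Good U h) (hy : y ∈ U) :
    wv b x (fun y => Tor h b y u v w) y
      = gm h b y (dv b x (fun y => Gm h b y u v) y + Gm h b y x (Gm h b y u v)) w
        - gm h b y (dv b x (fun y => Gm h b y v u) y + Gm h b y x (Gm h b y v u)) w := by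
  rw [← H.wv_gm hy (H.Gm_sm _ u v), ← H.wv_gm hy (H.Gm_sm _ v u), ← wv_sub]
  · simp only [Tor, (gm_lin1 h b _ w).map_sub]
  · exact (sm_lin (Φ := fun y v => gm h b y v w) (fun y _ => gm_lin1 h _ y w)
      (fun v => H.gm_sm _ v w) (H.Gm_sm b u v)).dAt H.isOpen hy
  · exact (sm_lin (Φ := fun y v => gm h b y v w) (fun y _ => gm_lin1 h _ y w)
      (fun v => H.gm_sm _ v w) (H.Gm_sm b v u)).dAt H.isOpen hy

theorem Good.bianchi1 (H : Good U h) (hy : y ∈ U) (b : Bool) (x u v w : V n) :
    (wv b x (fun y => Tor h b y u v w) y - (Tor h b y (Gm h b y x u) v w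
        + Tor h b y u (Gm h b y x v) w) + Tor h b y (Gm h b y x u - Gm h b y u x) v w)
      + (wv b u (fun y => Tor h b y v x w) y - (Tor h b y (Gm h b y u v) x w
        + Tor h b y v (Gm h b y u x) w) + Tor h b y (Gm h b y u v - Gm h b y v u) x w)
      + (wv b v (fun y => Tor h b y x u w) y - (Tor h b y (Gm h b y v x) u w
        + Tor h b y x (Gm h b y v u) w) + Tor h b y (Gm h b y v x - Gm h b y x v) u w) = 0 := by
  rw [H.wv_Tor hy, H.wv_Tor hy, H.wv_Tor hy, H.flat hy b x u v, H.flat hy b u v x,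
    H.flat hy b v x u]
  simp only [(H.Tor_lin1 hy b _ w).map_sub]
  rw [Tor_skew (u := u) (v := Gm h b y x v), Tor_skew (u := v) (v := Gm h b y u x),
    Tor_skew (u := x) (v := Gm h b y v u)]
  ring

theorem Good.wv_Rm (H : Good U h) (hy : y ∈ U) :
    wv false x (fun y => Rm h y u k z l) y
      = - gm h false y (dv true z (fun y => dv false x (fun y => Gm h false y u k) y) y
        + Gm h false y x (Kv h false y u k z)) l := by
  have e := H.wv_gm (b := false) (a := x) (w := l) hy (H.Kv_sm false u k z)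
  have e2 : dv false x (fun y => Kv h false y u k z) y
      = dv true z (fun y => dv false x (fun y => Gm h false y u k) y) y := by
    funext m
    exact wv_comm (H.Gm_sm false u k m) H.isOpen hy
  rw [← e2, ← e, ← wv_neg]
  · rfl
  · exact (sm_lin (Φ := fun y v => gm h false y v l) (fun y _ => gm_lin1 h _ y l)
      (fun v => H.gm_sm _ v l) (H.Kv_sm false u k z)).dAt H.isOpen hy

theorem Good.dv_GG (H : Good U h) (hy : y ∈ U) :
    dv true z (fun y => Gm h false y x (Gm h false y u k)) y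
      = Gm h false y x (Kv h false y u k z) + Kv h false y x (Gm h false y u k) z := by
  funext m
  exact wv_lin_move H.isOpen hy (Φ := fun y v => Gm h false y x v m)
    (fun y hy => ⟨fun p q => by rw [(H.Gm_lin2 hy false x).1]; rfl,
      fun c p => by rw [(H.Gm_lin2 hy false x).2]; rfl⟩)
    (fun v => H.Gm_sm false x v m) (H.Gm_sm false u k)

theorem Good.bianchi2 (H : Good U h) (hy : y ∈ U) (x u k z l : V n) :
    (wv false x (fun y => Rm h y u k z l) y - (Rm h y (Gm h false y x u) k z l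
        + Rm h y u (Gm h false y x k) z l))
      - (wv false u (fun y => Rm h y x k z l) y - (Rm h y (Gm h false y u x) k z l
        + Rm h y x (Gm h false y u k) z l))
      + Rm h y (Gm h false y x u - Gm h false y u x) k z l = 0 := by
  have s1 : ∀ x u m, Sm U fun y => dv false x (fun y => Gm h false y u k) y m :=
    fun x u m => (H.Gm_sm false u k m).wv H.isOpen _ _
  have s2 : ∀ x u m, Sm U fun y => Gm h false y x (Gm h false y u k) m :=
    fun x u m => sm_lin (Φ := fun y v => Gm h false y x v m)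
      (fun y hy => ⟨fun p q => by rw [(H.Gm_lin2 hy false x).1]; rfl,
        fun c p => by rw [(H.Gm_lin2 hy false x).2]; rfl⟩)
      (fun v => H.Gm_sm false x v m) (H.Gm_sm false u k)
  have e : dv true z (fun y => dv false x (fun y => Gm h false y u k) y) y
      - dv true z (fun y => dv false u (fun y => Gm h false y x k) y) y
      = dv true z (fun y => Gm h false y u (Gm h false y x k)) y
        - dv true z (fun y => Gm h false y x (Gm h false y u k)) y := by
    rw [← Good.dv_sub H.isOpen hy (s1 x u) (s1 u x), ← Good.dv_sub H.isOpen hy (s2 u x) (s2 x u)]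
    funext m
    refine wv_congr_on H.isOpen hy fun y hy => ?_
    have := congrFun (H.flat hy false x u k) m
    simp only [Pi.add_apply, Pi.sub_apply] at this ⊢
    linear_combination this
  rw [H.dv_GG hy, H.dv_GG hy] at e
  have e2 := congrArg (fun v => gm h false y v l) e
  rw [H.wv_Rm hy, H.wv_Rm hy, (H.Rm_lin1 hy k z l).map_sub]
  simp only [(gm_lin1 h false y l).map_sub, (gm_lin1 h false y l).1, Rm] at e2 ⊢
  linear_combination -e2

end Pool.Agent.Lib.MP_40b2af_gt
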