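import Mathlib
import Pool.Agent.Lib.MP_40b2af_gt.Geo
import Pool.Agent.Lib.MP_40b2af_gt.Sum

set_option autoImplicit false

noncomputable section

namespace Pool.Agent.Lib.MP_40b2af_gt

open scoped ContDiff Topology ComplexConjugate Matrix
open Set Filter Complex

variable {n : ℕ} {U : Set (V n)} {h : Her n} {y : V n} {c : ℝ}

/-- functions of no slot -/
def ar0 (φ : ℂ) : Tn n
  | [] => φ
  | _ => 0

/-- functions of two slots -/
def ar2 (φ : Bool × V n → Bool × V n → ℂ) : Tn n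
  | [p, q] => φ p q
  | _ => 0

/-- functions of three slots -/
def ar3 (φ : Bool × V n → Bool × V n → Bool × V n → ℂ) : Tn n
  | [p, q, r] => φ p q r
  | _ => 0

/-- functions of four slots -/
def ar4 (φ : Bool × V n → Bool × V n → Bool × V n → Bool × V n → ℂ) : Tn n
  | [p, q, r, s] => φ p q r s
  | _ => 0

theorem lin_zero : IsLinearMap ℂ fun _ : V n => (0 : ℂ) := ⟨by simp, by simp⟩

theorem lin_ite {φ ψ : V n → ℂ} (P : Prop) {d : V n → Decidable P} (h : IsLinearMap ℂ φ)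
    (h' : IsLinearMap ℂ ψ) : IsLinearMap ℂ fun u => @ite _ P (d u) (φ u) (ψ u) := by
  by_cases hP : P
  · simpa only [if_pos hP] using h
  · simpa only [if_neg hP] using h'

theorem sm_ite {φ ψ : V n → ℂ} (P : Prop) [Decidable P] (h : Sm U φ)
    (h' : Sm U ψ) : Sm U fun u => if P then φ u else ψ u := by
  split_ifs <;> assumption

theorem ml0 (φ : ℂ) : ML (ar0 (n := n) φ) := by
  intro s1 b s2
  rcases s1 with _ | ⟨p, s1⟩ <;> exact lin_zero

theorem ml2 {φ : Bool × V n → Bool × V n → ℂ} (h1 : ∀ b q, IsLinearMap ℂ fun u => φ (b, u) q)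
    (h2 : ∀ b p, IsLinearMap ℂ fun u => φ p (b, u)) : ML (ar2 φ) := by
  intro s1 b s2
  rcases s1 with _ | ⟨p, _ | ⟨q, _ | ⟨r, s1⟩⟩⟩ <;> rcases s2 with _ | ⟨p', _ | ⟨q', s2⟩⟩ <;>
    first | exact lin_zero | exact h1 _ _ | exact h2 _ _

theorem ml3 {φ : Bool × V n → Bool × V n → Bool × V n → ℂ}
    (h1 : ∀ b q r, IsLinearMap ℂ fun u => φ (b, u) q r)
    (h2 : ∀ b p r, IsLinearMap ℂ fun u => φ p (b, u) r)
    (h3 : ∀ b p q, IsLinearMap ℂ fun u => φ p q (b, u)) : ML (ar3 φ) := by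
  intro s1 b s2
  rcases s1 with _ | ⟨p, _ | ⟨q, _ | ⟨r, _ | ⟨s, s1⟩⟩⟩⟩ <;>
    rcases s2 with _ | ⟨p', _ | ⟨q', _ | ⟨r', s2⟩⟩⟩ <;>
    first | exact lin_zero | exact h1 _ _ _ | exact h2 _ _ _ | exact h3 _ _ _

theorem ml4 {φ : Bool × V n → Bool × V n → Bool × V n → Bool × V n → ℂ}
    (h1 : ∀ b q r s, IsLinearMap ℂ fun u => φ (b, u) q r s)
    (h2 : ∀ b p r s, IsLinearMap ℂ fun u => φ p (b, u) r s)
    (h3 : ∀ b p q s, IsLinearMap ℂ fun u => φ p q (b, u) s)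
    (h4 : ∀ b p q r, IsLinearMap ℂ fun u => φ p q r (b, u)) : ML (ar4 φ) := by
  intro s1 b s2
  rcases s1 with _ | ⟨p, _ | ⟨q, _ | ⟨r, _ | ⟨s, _ | ⟨t, s1⟩⟩⟩⟩⟩ <;>
    rcases s2 with _ | ⟨p', _ | ⟨q', _ | ⟨r', _ | ⟨s', s2⟩⟩⟩⟩ <;>
    first | exact lin_zero | exact h1 _ _ _ _ | exact h2 _ _ _ _ | exact h3 _ _ _ _ | exact h4 _ _ _ _

/-- torsion as a function of slots -/
def bT (h : Her n) (y : V n) : Tn n := ar3 fun p q r =>
  if q.1 = p.1 ∧ r.1 = !p.1 then Tor h p.1 y p.2 q.2 r.2 else 0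

/-- curvature as a function of slots -/
def bR (h : Her n) (y : V n) : Tn n := ar4 fun p q r s =>
  if p.1 = false ∧ q.1 = false ∧ r.1 = true ∧ s.1 = true then Rm h y p.2 q.2 r.2 s.2
  else if p.1 = true ∧ q.1 = true ∧ r.1 = false ∧ s.1 = false then Rm h y r.2 s.2 p.2 q.2 else 0

/-- metric as a function of slots -/
def bD (h : Her n) (y : V n) : Tn n := ar2 fun p q =>
  if q.1 = !p.1 then gm h p.1 y p.2 q.2 else 0

/-- the basic tensors -/
def base (h : Her n) (c : ℝ) : ℕ → V n → Tn n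
  | 0 => bT h
  | 1 => bR h
  | 2 => fun _ => ar0 c
  | 3 => bD h
  | _ => fun _ => ar0 0

/-- the covariant derivatives of the basic tensors -/
def ten (h : Her n) (c : ℝ) (k : ℕ) : V n → Tn n := (cov (Gm h))^[k / 8] (base h c (k % 8))

theorem ten_succ (k : ℕ) : ten h c (k + 8) = cov (Gm h) (ten h c k) := by
  unfold ten
  rw [Nat.add_div_right _ (by norm_num), Nat.add_mod_right, Function.iterate_succ_apply']

theorem ten_ind {P : ℕ → (V n → Tn n) → Prop} (r : ℕ) (h0 : P 0 (base h c r))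
    (hs : ∀ j X, P j X → P (j + 1) (cov (Gm h) X)) (j : ℕ) :
    P j ((cov (Gm h))^[j] (base h c r)) := by
  induction j with
  | zero => exact h0
  | succ j ih => rw [Function.iterate_succ_apply']; exact hs j _ ih

theorem Good.isT_base (H : Good U h) (r : ℕ) : IsT U (base h c r) := by
  have h0 : ∀ φ : ℂ, IsT U fun _ => ar0 φ := fun φ => ⟨fun _ _ => ml0 φ, fun _ => contDiffOn_const⟩
  match r with
  | 0 =>
    refine ⟨fun y hy => ml3 (fun b q r => ?_) (fun b q r => ?_) (fun b q r => ?_), fun s => ?_⟩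
    · dsimp only; exact lin_ite _ (H.Tor_lin1 hy _ _ _) lin_zero
    · dsimp only; exact lin_ite _ (H.Tor_lin2 hy _ _ _) lin_zero
    · dsimp only; exact lin_ite _ (Tor_lin3 _ _ _ _ _) lin_zero
    rcases s with _ | ⟨p, _ | ⟨q, _ | ⟨r, _ | ⟨s, s1⟩⟩⟩⟩ <;>
      first | exact contDiffOn_const | exact sm_ite _ (H.Tor_sm _ _ _ _) contDiffOn_const
  | 1 =>
    refine ⟨fun y hy => ml4 (fun b q r s => ?_) (fun b q r s => ?_) (fun b q r s => ?_)
      (fun b q r s => ?_), fun s => ?_⟩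
    · dsimp only; exact lin_ite _ (H.Rm_lin1 hy _ _ _) (lin_ite _ (Rm_lin3 _ _ _ _ _) lin_zero)
    · dsimp only; exact lin_ite _ (H.Rm_lin2 hy _ _ _) (lin_ite _ (Rm_lin4 _ _ _ _ _) lin_zero)
    · dsimp only; exact lin_ite _ (Rm_lin3 _ _ _ _ _) (lin_ite _ (H.Rm_lin1 hy _ _ _) lin_zero)
    · dsimp only; exact lin_ite _ (Rm_lin4 _ _ _ _ _) (lin_ite _ (H.Rm_lin2 hy _ _ _) lin_zero)
    rcases s with _ | ⟨p, _ | ⟨q, _ | ⟨r, _ | ⟨s, _ | ⟨t, s1⟩⟩⟩⟩⟩ <;>
      first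
        | exact contDiffOn_const
        | exact sm_ite _ (H.Rm_sm _ _ _ _) (sm_ite _ (H.Rm_sm _ _ _ _) contDiffOn_const)
  | 2 => exact h0 _
  | 3 =>
    refine ⟨fun y hy => ml2 (fun b q => ?_) (fun b q => ?_), fun s => ?_⟩
    · dsimp only; exact lin_ite _ (gm_lin1 _ _ _ _) lin_zero
    · dsimp only; exact lin_ite _ (gm_lin2 _ _ _ _) lin_zero
    rcases s with _ | ⟨p, _ | ⟨q, _ | ⟨r, s1⟩⟩⟩ <;>
      first | exact contDiffOn_const | exact sm_ite _ (H.gm_sm _ _ _) contDiffOn_const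
  | _ + 4 => exact h0 _

theorem Good.isT (H : Good U h) (k : ℕ) : IsT U (ten h c k) :=
  ten_ind (P := fun _ X => IsT U X) _ (H.isT_base _) (fun _ _ hX => hX.cov H.isC) _

/-- skew symmetry in the slots k and k + 1 -/
def Sw (k : ℕ) (F : Tn n) : Prop := ∀ s, F (swT k s) = - F s

/-- exchange of the two last pairs of slots -/
def Rs (k : ℕ) (F : Tn n) : Prop := ∀ s, F (swR k s) = F s

theorem Sw.act {k : ℕ} {F : Tn n} (hF : Sw k F) (G : Bool → V n → V n) : Sw k (act G F) := by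
  intro s
  induction k generalizing F s with
  | zero =>
    rcases s with _ | ⟨p, _ | ⟨q, s⟩⟩
    · exact neg_zero.symm
    · change MP_40b2af_gt.act G F [p] = _
      simp only [act_cons, act_nil, add_zero]
      exact hF [_]
    · have e : ∀ p q s, F (p :: q :: s) = -1 * F (q :: p :: s) := fun p q s => by
        rw [neg_one_mul]; exact hF (q :: p :: s)
      change MP_40b2af_gt.act G F (q :: p :: s) = _
      simp only [act_cons]
      rw [e _ p, e q, show (fun s => F (q :: p :: s)) = fun s => -1 * F (p :: q :: s) from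
        funext (e q p), MP_40b2af_gt.act, dsum_mulF, MP_40b2af_gt.act]
      ring
  | succ k ih =>
    rcases s with _ | ⟨x, s⟩
    · exact neg_zero.symm
    · change MP_40b2af_gt.act G F (x :: swT k s) = _
      rw [act_cons, act_cons, ih (F := fun s => F (x :: s)) (fun s => hF (x :: s)),
        show F (_ :: swT k s) = _ from hF (_ :: s)]
      ring

theorem Rs.act {k : ℕ} {F : Tn n} (hF : Rs k F) (G : Bool → V n → V n) : Rs k (act G F) := by
  intro s
  induction k generalizing F s with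
  | zero =>
    rcases s with _ | ⟨p, _ | ⟨q, _ | ⟨r, _ | ⟨s, _ | ⟨t, l⟩⟩⟩⟩⟩
    case cons.cons.cons.cons.nil =>
      have e : ∀ p q r s, F [p, q, r, s] = F [r, s, p, q] := fun p q r s => hF [r, s, p, q]
      change MP_40b2af_gt.act G F [r, s, p, q] = _
      simp only [act_cons, act_nil]
      rw [e _ q r s, e p _ r s, e p q _ s, e p q r _]
      ring
    all_goals rfl
  | succ k ih =>
    rcases s with _ | ⟨x, s⟩
    · rfl
    · change MP_40b2af_gt.act G F (x :: swR k s) = _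
      rw [act_cons, act_cons, ih (F := fun s => F (x :: s)) (fun s => hF (x :: s)),
        show F (_ :: swR k s) = _ from hF (_ :: s)]

theorem Good.sw (H : Good U h) (j : ℕ) : ∀ y ∈ U, Sw j (ten h c (8 * j) y) := by
  rw [ten, Nat.mul_div_cancel_left _ (by norm_num), Nat.mul_mod_right]
  refine (ten_ind (P := fun j X => IsT U X ∧ ∀ y ∈ U, Sw j (X y)) 0 ⟨H.isT_base _, ?_⟩ ?_ j).2
  · intro y _ s
    rcases s with _ | ⟨p, _ | ⟨q, _ | ⟨r, _ | ⟨s, post⟩⟩⟩⟩
    case cons.cons.cons.nil =>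
      simp only [base, bT, ar3, swT]
      by_cases h1 : q.1 = p.1
      · rw [h1, Tor_skew]; split_ifs <;> simp_all
      · rw [if_neg fun h => h1 h.1.symm, if_neg fun h => h1 h.1, neg_zero]
    all_goals exact neg_zero.symm
  · rintro j X ⟨hX, hs⟩
    refine ⟨hX.cov H.isC, fun y hy s => ?_⟩
    rcases s with _ | ⟨⟨b, a⟩, s⟩
    · exact neg_zero.symm
    · change cov _ _ _ ((b, a) :: swT j s) = _
      rw [cov_cons, cov_cons, (hs y hy).act _ s, wv_congr_on H.isOpen hy fun z hz => hs z hz s,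
        wv_neg ((hX.sm _).dAt H.isOpen hy)]
      ring

theorem Good.rs (H : Good U h) (j : ℕ) : ∀ y ∈ U, Rs j (ten h c (8 * j + 1) y) := by
  rw [ten, show (8 * j + 1) / 8 = j by omega, show (8 * j + 1) % 8 = 1 by omega]
  refine ten_ind (P := fun j X => ∀ y ∈ U, Rs j (X y)) 1 ?_ ?_ j
  · intro y _ s
    rcases s with _ | ⟨p, _ | ⟨q, _ | ⟨r, _ | ⟨s, _ | ⟨t, l⟩⟩⟩⟩⟩
    case cons.cons.cons.cons.nil =>
      simp only [base, bR, ar4, swR]
      rcases p with ⟨_ | _, p⟩ <;> rcases q with ⟨_ | _, q⟩ <;> rcases r with ⟨_ | _, r⟩ <;>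
        rcases s with ⟨_ | _, s⟩ <;> simp
    all_goals rfl
  · intro j X hs y hy s
    rcases s with _ | ⟨⟨b, a⟩, s⟩
    · rfl
    · change cov _ _ _ ((b, a) :: swR j s) = _
      rw [cov_cons, cov_cons, (hs y hy).act _ s, wv_congr_on H.isOpen hy fun z hz => hs z hz s]

/-- compatibility with conjugation -/
def Cj (F : Tn n) : Prop :=
  ∀ s : List (Bool × V n), F (s.map fun x => (!x.1, star x.2)) = conj (F s)

theorem Good.cj_base (H : Good U h) (hy : y ∈ U) (r : ℕ) : Cj (base h c r y) := by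
  intro s
  match r with
  | 0 =>
    rcases s with _ | ⟨p, _ | ⟨q, _ | ⟨r, _ | ⟨s, s1⟩⟩⟩⟩ <;> try simp [base, bT, ar3]
    rw [H.Tor_conj hy]
    rcases p with ⟨_ | _, p⟩ <;> rcases q with ⟨_ | _, q⟩ <;> rcases r with ⟨_ | _, r⟩ <;> simp
  | 1 =>
    rcases s with _ | ⟨p, _ | ⟨q, _ | ⟨r, _ | ⟨s, _ | ⟨t, s1⟩⟩⟩⟩⟩ <;> try simp [base, bR, ar4]
    rw [H.Rm_conj hy, H.Rm_conj hy]
    rcases p with ⟨_ | _, p⟩ <;> rcases q with ⟨_ | _, q⟩ <;> rcases r with ⟨_ | _, r⟩ <;>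
      rcases s with ⟨_ | _, s⟩ <;> simp
  | 2 => rcases s with _ | ⟨p, s⟩ <;> simp [base, ar0]
  | 3 =>
    rcases s with _ | ⟨p, _ | ⟨q, _ | ⟨r, s1⟩⟩⟩ <;> try simp [base, bD, ar2]
    rw [H.gm_conj hy]
    rcases p with ⟨_ | _, p⟩ <;> rcases q with ⟨_ | _, q⟩ <;> simp
  | _ + 4 => rcases s with _ | ⟨p, s⟩ <;> simp [base, ar0]

theorem Good.cj (H : Good U h) (k : ℕ) : ∀ y ∈ U, Cj (ten h c k y) := by
  refine ten_ind (P := fun _ X => ∀ y ∈ U, Cj (X y)) _ (fun y hy => H.cj_base hy _) ?_ _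
  intro _ X hs y hy s
  rcases s with _ | ⟨⟨b, a⟩, s⟩
  · simp [cov]
  · simp only [List.map_cons, cov_cons, map_sub]
    rw [wv_congr_on H.isOpen hy fun z hz => hs z hz s, wv_conj, Bool.not_not, act, act, dsum_map,
      ← dsum_conj, ← funext (hs y hy), dsum_pull (fun b => !b) fun _ u => star u]
    congr 1
    refine dsum_congr _ _ fun x _ => ?_
    simp only [gf, Bool.not_inj_iff]
    split_ifs
    · exact H.Gm_conj hy
    · simp

theorem act_zero (K : Bool → V n → V n) (s : List (Bool × V n)) : act K (fun _ => 0) s = 0 := by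
  induction s with
  | nil => rfl
  | cons x s ih => rw [act_cons, ih, add_zero]

theorem cov_ar0 (G : Cn n) (φ : ℂ) (y : V n) (s : List (Bool × V n)) :
    cov G (fun _ => ar0 φ) y s = 0 := by
  rcases s with _ | ⟨⟨b, a⟩, _ | ⟨x, s⟩⟩
  · rfl
  · simp [cov_cons]
  · simp [cov_cons, act_cons, ar0, act_zero]

theorem Good.cov_bD (H : Good U h) (hy : y ∈ U) (s : List (Bool × V n)) :
    cov (Gm h) (bD h) y s = 0 := by
  rcases s with _ | ⟨⟨b, a⟩, _ | ⟨⟨b1, u⟩, _ | ⟨⟨b2, w⟩, _ | ⟨x, s⟩⟩⟩⟩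
  · rfl
  · simp [cov_cons, bD, ar2]
  · simp [cov_cons, act_cons, bD, ar2]
  · simp only [cov_cons, act_cons, bD, ar2, act_nil, gf]
    have e1 := H.gm_G (b := b) (a := a) (u := u) (w := w) hy
    have e2 := H.gm_G' (b := !b) (a := a) (u := u) (w := w) hy
    have e3 := (gm_lin1 h (!b) y w).map_zero
    have e4 := (gm_lin2 h b y u).map_zero
    cases b <;> cases b1 <;> cases b2 <;> simp_all
  · simp [cov_cons, act_cons, bD, ar2, act_zero]

end Pool.Agent.Lib.MP_40b2af_gt
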