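import Mathlib
import Pool.Agent.Lib.MP_40b2af_gt.Cert

set_option autoImplicit false
set_option maxRecDepth 100000

noncomputable section

namespace Pool.Agent.Lib.MP_40b2af_gt

def rels1 : List Ex := [
[(1, [(8, [(true, 0), (false, 1), (false, 2), (true, 3)])]),
  (-1, [(1, [(false, 2), (false, 1), (true, 0), (true, 3)])]),
  (1, [(1, [(false, 1), (false, 2), (true, 0), (true, 3)])])],
[(1, [(16, [(false, 4), (true, 0), (false, 1), (false, 2), (true, 3)])]),
  (-1, [(9, [(false, 4), (false, 2), (false, 1), (true, 0), (true, 3)])]),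
  (1, [(9, [(false, 4), (false, 1), (false, 2), (true, 0), (true, 3)])])],
[(1, [(24, [(false, 5), (false, 4), (true, 0), (false, 1), (false, 2), (true, 3)])]),
  (-1, [(17, [(false, 5), (false, 4), (false, 2), (false, 1), (true, 0), (true, 3)])]),
  (1, [(17, [(false, 5), (false, 4), (false, 1), (false, 2), (true, 0), (true, 3)])])],
[(1, [(16, [(false, 0), (true, 1), (false, 2), (false, 3), (true, 4)])]),
  (-1, [(16, [(true, 1), (false, 0), (false, 2), (false, 3), (true, 4)])]),
  (1, [(1, [(false, 0), (false, 2), (true, 1), (true, 8)]), (0, [(false, 8), (false, 3), (true, 4)])]),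
  (1, [(1, [(false, 0), (false, 3), (true, 1), (true, 8)]), (0, [(false, 2), (false, 8), (true, 4)])]),
  (-1, [(1, [(false, 0), (false, 8), (true, 1), (true, 4)]), (0, [(false, 2), (false, 3), (true, 8)])])],
[(1, [(24, [(false, 5), (false, 0), (true, 1), (false, 2), (false, 3), (true, 4)])]),
  (-1, [(24, [(false, 5), (true, 1), (false, 0), (false, 2), (false, 3), (true, 4)])]),
  (1, [(9, [(false, 5), (false, 0), (false, 2), (true, 1), (true, 8)]), (0, [(false, 8), (false, 3), (true, 4)])]),
  (1, [(1, [(false, 0), (false, 2), (true, 1), (true, 8)]), (8, [(false, 5), (false, 8), (false, 3), (true, 4)])]),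
  (1, [(9, [(false, 5), (false, 0), (false, 3), (true, 1), (true, 8)]), (0, [(false, 2), (false, 8), (true, 4)])]),
  (1, [(1, [(false, 0), (false, 3), (true, 1), (true, 8)]), (8, [(false, 5), (false, 2), (false, 8), (true, 4)])]),
  (-1, [(9, [(false, 5), (false, 0), (false, 8), (true, 1), (true, 4)]), (0, [(false, 2), (false, 3), (true, 8)])]),
  (-1, [(1, [(false, 0), (false, 8), (true, 1), (true, 4)]), (8, [(false, 5), (false, 2), (false, 3), (true, 8)])])],
[(1, [(24, [(false, 0), (true, 1), (false, 2), (false, 3), (false, 4), (true, 5)])]),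
  (-1, [(24, [(true, 1), (false, 0), (false, 2), (false, 3), (false, 4), (true, 5)])]),
  (1, [(1, [(false, 0), (false, 2), (true, 1), (true, 8)]), (8, [(false, 8), (false, 3), (false, 4), (true, 5)])]),
  (1, [(1, [(false, 0), (false, 3), (true, 1), (true, 8)]), (8, [(false, 2), (false, 8), (false, 4), (true, 5)])]),
  (1, [(1, [(false, 0), (false, 4), (true, 1), (true, 8)]), (8, [(false, 2), (false, 3), (false, 8), (true, 5)])]),
  (-1, [(1, [(false, 0), (false, 8), (true, 1), (true, 5)]), (8, [(false, 2), (false, 3), (false, 4), (true, 8)])])],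
[(1, [(1, [(false, 0), (false, 1), (true, 2), (true, 3)])]),
  (1, [(1, [(false, 0), (false, 1), (true, 3), (true, 2)])]),
  (1, [(1, [(false, 1), (false, 0), (true, 2), (true, 3)])]),
  (1, [(1, [(false, 1), (false, 0), (true, 3), (true, 2)])]),
  (-2, [(3, [(false, 0), (true, 2)]), (3, [(false, 1), (true, 3)]), (2, [])]),
  (-2, [(3, [(false, 0), (true, 3)]), (3, [(false, 1), (true, 2)]), (2, [])])],
[(1, [(8, [(false, 0), (false, 1), (false, 2), (true, 3)])]),
  (1, [(8, [(false, 1), (false, 2), (false, 0), (true, 3)])]),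
  (1, [(8, [(false, 2), (false, 0), (false, 1), (true, 3)])]),
  (1, [(0, [(false, 0), (false, 1), (true, 8)]), (0, [(false, 8), (false, 2), (true, 3)])]),
  (1, [(0, [(false, 1), (false, 2), (true, 8)]), (0, [(false, 8), (false, 0), (true, 3)])]),
  (1, [(0, [(false, 2), (false, 0), (true, 8)]), (0, [(false, 8), (false, 1), (true, 3)])])],
[(1, [(9, [(false, 0), (false, 1), (false, 2), (true, 3), (true, 4)])]),
  (-1, [(9, [(false, 1), (false, 0), (false, 2), (true, 3), (true, 4)])]),
  (1, [(0, [(false, 0), (false, 1), (true, 8)]), (1, [(false, 8), (false, 2), (true, 3), (true, 4)])])],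
[(1, [(9, [(false, 4), (false, 0), (false, 1), (true, 2), (true, 3)])]),
  (1, [(9, [(false, 4), (false, 0), (false, 1), (true, 3), (true, 2)])]),
  (1, [(9, [(false, 4), (false, 1), (false, 0), (true, 2), (true, 3)])]),
  (1, [(9, [(false, 4), (false, 1), (false, 0), (true, 3), (true, 2)])])],
[(1, [(16, [(false, 0), (false, 1), (false, 2), (false, 3), (true, 4)])]),
  (-1, [(16, [(false, 1), (false, 0), (false, 2), (false, 3), (true, 4)])]),
  (1, [(0, [(false, 0), (false, 1), (true, 8)]), (8, [(false, 8), (false, 2), (false, 3), (true, 4)])])],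
[(1, [(16, [(false, 4), (false, 0), (false, 1), (false, 2), (true, 3)])]),
  (1, [(16, [(false, 4), (false, 1), (false, 2), (false, 0), (true, 3)])]),
  (1, [(16, [(false, 4), (false, 2), (false, 0), (false, 1), (true, 3)])]),
  (1, [(8, [(false, 4), (false, 0), (false, 1), (true, 8)]), (0, [(false, 8), (false, 2), (true, 3)])]),
  (1, [(0, [(false, 0), (false, 1), (true, 8)]), (8, [(false, 4), (false, 8), (false, 2), (true, 3)])]),
  (1, [(8, [(false, 4), (false, 1), (false, 2), (true, 8)]), (0, [(false, 8), (false, 0), (true, 3)])]),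
  (1, [(0, [(false, 1), (false, 2), (true, 8)]), (8, [(false, 4), (false, 8), (false, 0), (true, 3)])]),
  (1, [(8, [(false, 4), (false, 2), (false, 0), (true, 8)]), (0, [(false, 8), (false, 1), (true, 3)])]),
  (1, [(0, [(false, 2), (false, 0), (true, 8)]), (8, [(false, 4), (false, 8), (false, 1), (true, 3)])])],
[(1, [(17, [(false, 0), (false, 1), (false, 2), (false, 3), (true, 4), (true, 5)])]),
  (-1, [(17, [(false, 1), (false, 0), (false, 2), (false, 3), (true, 4), (true, 5)])]),
  (1, [(0, [(false, 0), (false, 1), (true, 8)]), (9, [(false, 8), (false, 2), (false, 3), (true, 4), (true, 5)])])],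
[(1, [(17, [(false, 0), (true, 1), (false, 2), (false, 3), (true, 4), (true, 5)])]),
  (-1, [(17, [(true, 1), (false, 0), (false, 2), (false, 3), (true, 4), (true, 5)])]),
  (1, [(1, [(false, 0), (false, 2), (true, 1), (true, 8)]), (1, [(false, 8), (false, 3), (true, 4), (true, 5)])]),
  (1, [(1, [(false, 0), (false, 3), (true, 1), (true, 8)]), (1, [(false, 2), (false, 8), (true, 4), (true, 5)])]),
  (-1, [(1, [(false, 0), (false, 8), (true, 1), (true, 4)]), (1, [(false, 2), (false, 3), (true, 8), (true, 5)])]),
  (-1, [(1, [(false, 0), (false, 8), (true, 1), (true, 5)]), (1, [(false, 2), (false, 3), (true, 4), (true, 8)])])],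
[(1, [(3, [(false, 0), (true, 4)]), (3, [(false, 1), (true, 5)]), (3, [(false, 2), (true, 6)]), (3, [(false, 3), (true, 7)])]),
  (-1, [(3, [(false, 0), (true, 4)]), (3, [(false, 1), (true, 5)]), (3, [(false, 2), (true, 7)]), (3, [(false, 3), (true, 6)])]),
  (-1, [(3, [(false, 0), (true, 4)]), (3, [(false, 1), (true, 6)]), (3, [(false, 2), (true, 5)]), (3, [(false, 3), (true, 7)])]),
  (1, [(3, [(false, 0), (true, 4)]), (3, [(false, 1), (true, 6)]), (3, [(false, 2), (true, 7)]), (3, [(false, 3), (true, 5)])]),
  (1, [(3, [(false, 0), (true, 4)]), (3, [(false, 1), (true, 7)]), (3, [(false, 2), (true, 5)]), (3, [(false, 3), (true, 6)])]),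
  (-1, [(3, [(false, 0), (true, 4)]), (3, [(false, 1), (true, 7)]), (3, [(false, 2), (true, 6)]), (3, [(false, 3), (true, 5)])]),
  (-1, [(3, [(false, 0), (true, 5)]), (3, [(false, 1), (true, 4)]), (3, [(false, 2), (true, 6)]), (3, [(false, 3), (true, 7)])]),
  (1, [(3, [(false, 0), (true, 5)]), (3, [(false, 1), (true, 4)]), (3, [(false, 2), (true, 7)]), (3, [(false, 3), (true, 6)])]),
  (1, [(3, [(false, 0), (true, 5)]), (3, [(false, 1), (true, 6)]), (3, [(false, 2), (true, 4)]), (3, [(false, 3), (true, 7)])]),
  (-1, [(3, [(false, 0), (true, 5)]), (3, [(false, 1), (true, 6)]), (3, [(false, 2), (true, 7)]), (3, [(false, 3), (true, 4)])]),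
  (-1, [(3, [(false, 0), (true, 5)]), (3, [(false, 1), (true, 7)]), (3, [(false, 2), (true, 4)]), (3, [(false, 3), (true, 6)])]),
  (1, [(3, [(false, 0), (true, 5)]), (3, [(false, 1), (true, 7)]), (3, [(false, 2), (true, 6)]), (3, [(false, 3), (true, 4)])]),
  (1, [(3, [(false, 0), (true, 6)]), (3, [(false, 1), (true, 4)]), (3, [(false, 2), (true, 5)]), (3, [(false, 3), (true, 7)])]),
  (-1, [(3, [(false, 0), (true, 6)]), (3, [(false, 1), (true, 4)]), (3, [(false, 2), (true, 7)]), (3, [(false, 3), (true, 5)])]),
  (-1, [(3, [(false, 0), (true, 6)]), (3, [(false, 1), (true, 5)]), (3, [(false, 2), (true, 4)]), (3, [(false, 3), (true, 7)])]),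
  (1, [(3, [(false, 0), (true, 6)]), (3, [(false, 1), (true, 5)]), (3, [(false, 2), (true, 7)]), (3, [(false, 3), (true, 4)])]),
  (1, [(3, [(false, 0), (true, 6)]), (3, [(false, 1), (true, 7)]), (3, [(false, 2), (true, 4)]), (3, [(false, 3), (true, 5)])]),
  (-1, [(3, [(false, 0), (true, 6)]), (3, [(false, 1), (true, 7)]), (3, [(false, 2), (true, 5)]), (3, [(false, 3), (true, 4)])]),
  (-1, [(3, [(false, 0), (true, 7)]), (3, [(false, 1), (true, 4)]), (3, [(false, 2), (true, 5)]), (3, [(false, 3), (true, 6)])]),
  (1, [(3, [(false, 0), (true, 7)]), (3, [(false, 1), (true, 4)]), (3, [(false, 2), (true, 6)]), (3, [(false, 3), (true, 5)])]),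
  (1, [(3, [(false, 0), (true, 7)]), (3, [(false, 1), (true, 5)]), (3, [(false, 2), (true, 4)]), (3, [(false, 3), (true, 6)])]),
  (-1, [(3, [(false, 0), (true, 7)]), (3, [(false, 1), (true, 5)]), (3, [(false, 2), (true, 6)]), (3, [(false, 3), (true, 4)])]),
  (-1, [(3, [(false, 0), (true, 7)]), (3, [(false, 1), (true, 6)]), (3, [(false, 2), (true, 4)]), (3, [(false, 3), (true, 5)])]),
  (1, [(3, [(false, 0), (true, 7)]), (3, [(false, 1), (true, 6)]), (3, [(false, 2), (true, 5)]), (3, [(false, 3), (true, 4)])])]]

def F11 : Form := [(-1, 0, 17), (3, 16, 16)]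

def F21 : Form := [(-1, 16, 545), (-1, 16, 530), (-1, 272, 544), (4, 528, 528), (-1, 272, 514), (4, 528, 513)]

def F111 : Form := [(1, 16, 545), (-1, 16, 530), (-1, 272, 544), (2, 528, 528), (1, 272, 514), (-2, 528, 513)]

def F32 : Form := [(2, 66064, 275506), (2, 66064, 214066), (2, 66064, 275491), (2, 66064, 214051), (2, 66064, 275011), (2, 66064, 213571), (2, 131600, 275505), (2, 131600, 214065), (-5, 197136, 275489), (-5, 197136, 214049), (-5, 197136, 275009), (-5, 197136, 213569), (2, 131600, 275475), (2, 131600, 214035), (-5, 197136, 275474), (-5, 197136, 214034), (-5, 197136, 274964), (-5, 197136, 213524), (2, 131600, 274755), (2, 131600, 213315), (-5, 197136, 274754), (-5, 197136, 213314), (-5, 197136, 274724), (-5, 197136, 213284), (2, 4624, 275506), (2, 4624, 214066), (2, 4624, 275491), (2, 4624, 214051), (2, 4624, 275011), (2, 4624, 213571), (2, 8720, 275505), (2, 8720, 214065), (-5, 12816, 275489), (-5, 12816, 214049), (-5, 12816, 275009), (-5, 12816, 213569), (2, 8720, 275475), (2, 8720, 214035), (-5, 12816, 275474), (-5, 12816,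 214034), (-5, 12816, 274964), (-5, 12816, 213524), (2, 8720, 274755), (2, 8720, 213315), (-5, 12816, 274754), (-5, 12816, 213314), (-5, 12816, 274724), (-5, 12816, 213284), (2, 135696, 275504), (2, 135696, 214064), (-5, 201232, 275488), (-5, 201232, 214048), (-5, 201232, 275008), (-5, 201232, 213568), (2, 74256, 275504), (2, 74256, 214064), (-5, 78352, 275488), (-5, 78352, 214048), (-5, 78352, 275008), (-5, 78352, 213568), (-5, 205328, 275472), (-5, 205328, 214032), (-5, 143888, 275472), (-5, 143888, 214032), (30, 274960, 274960), (30, 274960, 213520), (-5, 205328, 274752), (-5, 205328, 213312), (-5, 143888, 274752), (-5, 143888, 213312), (30, 274960, 274720), (30, 274960, 213280), (2, 135696, 275459), (2, 135696, 214019), (-5, 201232, 275458), (-5, 201232, 214018), (-5, 201232, 274948), (-5, 201232, 213508), (2, 74256, 275459), (2, 74256, 214019), (-5, 78352, 275458), (-5, 78352, 214018), (-5, 78352, 274948), (-5, 78352, 213508), (-5, 205328, 275457), (-5, 205328, 214017), (-5, 143888, 275457), (-5, 143888, 214017), (30, 274960, 274945), (30,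 274960, 213505), (-5, 205328, 274692), (-5, 205328, 213252), (-5, 143888, 274692), (-5, 143888, 213252), (30, 274960, 274690), (30, 274960, 213250), (2, 135696, 274499), (2, 135696, 213059), (-5, 201232, 274498), (-5, 201232, 213058), (-5, 201232, 274468), (-5, 201232, 213028), (2, 74256, 274499), (2, 74256, 213059), (-5, 78352, 274498), (-5, 78352, 213058), (-5, 78352, 274468), (-5, 78352, 213028), (-5, 205328, 274497), (-5, 205328, 213057), (-5, 143888, 274497), (-5, 143888, 213057), (30, 274960, 274465), (30, 274960, 213025), (-5, 205328, 274452), (-5, 205328, 213012), (-5, 143888, 274452), (-5, 143888, 213012), (30, 274960, 274450), (30, 274960, 213010)]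

def w1a : List ℤ := [9424680979870634292637012617354358516391083435985528541965356892160, 48222324157814279696390016358712740536582879301249814914415984640, 48232581451851168434001350860353306150893517472177321714369167360, 21778486810857937701426730007086648957983889468916843734051061760, 326066347257493453762767650673091227015707510392417588551352320, 36779340706562610345880973018451050524709391545377282373713920, 2267339013058051282905890717018715613942045377822720, 2267339013058051282905890717018715613942045377822720, 2267339013058051282905890717018715613942045377822720, 2267339013058051282905890717018715613942045377822720, 2267339013058051282905890717018715613942045377822720, 2267339013058051282905890717018715613942045377822720, 19137993044819677722549724856272433652145344680417863674101760, 7083507281942905516160797497244993368157959308458938067845120, 814537554459119967329785891533093065406630491867037947658240, 7554866547874284228628924444813976758957635594881703015874560, 1293844165593407003787780158701708871090790827109515180113920,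 86864380901492052813458995484546585824085089370890544087040, 19138684197771028208322293058939702467225942634110385373839360, 1477853400721160377103496157312498188289641242437514176757760, 1241013631600642568595354377707157375615470531041525018132480, 926142705609349981654518931496620925435368917470062848245760, 2175249547133627937852923813470908680966915230936591619850240, 202650224041763494505511417599808047124196517836993690337280, 194349001635053122103613278200626219181550850342892347064320, 157955292410161593300972632311123030490785878616436433223680, 113696326991329507255162274595397089514339629823172306534400]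

def g1a : List (Tm × List ℤ) := [([(0, [(false, 8), (false, 0), (true, 8)]), (2, [])], [1, 0, 0, 0, 0, 0, 20387946098, 0, 0, 0, 0, 0, 1, 1, 0, 1, 0, 0, -1, 0, 0, 0, 1, 0, 0, 0, 0]),
  ([(1, [(false, 8), (false, 9), (true, 8), (true, 10)]), (0, [(false, 10), (false, 0), (true, 9)])], [0, -2, -3, -2, 0, -6, -482878887, 70350616, -93187512, 5330230, 21846600, -47761008, -2, -3, -1, -2, -4, 1, 0, 2, -3, 2, -6, -8, -3, -8, -6]),
  ([(1, [(false, 8), (false, 9), (true, 10), (true, 8)]), (0, [(false, 10), (false, 0), (true, 9)])], [0, -2, -1, 0, 0, -2, -1450600343, -77953152, -47416630, 43712302, 7282200, -15920336, -2, -1, 1, 0, -2, 1, 0, 2, -1, 0, -2, -4, -1, -2, -2]),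
  ([(1, [(false, 8), (false, 0), (true, 8), (true, 9)]), (0, [(false, 9), (false, 10), (true, 10)])], [0, 1, 2, 1, 0, 2, -485373133, -13814707, 72141305, 19191036, -7282200, 15920336, 1, 2, 1, 1, 2, -1, 0, -1, 2, -1, 2, 3, 0, 3, 2]),
  ([(1, [(false, 8), (false, 0), (true, 9), (true, 8)]), (0, [(false, 9), (false, 10), (true, 10)])], [0, 1, 0, 0, 0, 0, 1456089394, 86603465, 0, 0, 0, 0, 1, 0, -1, 0, 1, 0, 0, -1, 0, 0, 0, 1, 0, 0, 0]),
  ([(1, [(false, 8), (false, 9), (true, 8), (true, 9)]), (0, [(false, 10), (false, 0), (true, 10)])], [0, 0, 1, 0, 0, 1, -1459590122, -60760033, 48336247, -21856151, -3641100, 7960168, 0, 1, 1, 0, 0, -1, 0, 0, 1, 0, 1, 1, 0, 1, 1]),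
  ([(1, [(false, 8), (false, 0), (true, 9), (true, 10)]), (0, [(false, 9), (false, 10), (true, 8)])], [0, 0, 1, 0, 0, 0, -1457601799, -26266288, 49255864, 0, 0, 0, 0, 1, 1, 0, 0, -1, 0, 0, 1, 0, 0, 0, -1, 0, 0]),
  ([(1, [(false, 8), (false, 9), (true, 9), (true, 10)]), (0, [(false, 10), (false, 0), (true, 8)])], [0, 0, 0, -2, 0, -2, -1951458788, 26783702, 50901612, -82094374, 7282200, -15920336, 0, 0, 0, -2, -2, -2, 0, 0, 0, 2, -2, -2, -2, -4, -2]),
  ([(1, [(false, 0), (false, 8), (true, 8), (true, 9)]), (0, [(false, 9), (false, 10), (true, 10)])], [0, 0, 0, 1, 0, 0, 977717717, 21101894, -24531189, 62903338, 0, 0, 0, 0, 0, 1, 1, 1, 0, 0, 0, -1, 0, 0, 0, 1, 0]),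
  ([(0, [(false, 8), (false, 9), (true, 8)]), (0, [(false, 10), (false, 11), (true, 9)]), (0, [(true, 10), (true, 11), (false, 0)])], [0, 0, 0, 0, -1, 0, 62466523, -45861950, 66120759, -61430036, -34988447, 0, 0, 0, 0, 0, 0, 0, -1, -1, -1, -1, 0, 0, 0, 0, -1]),
  ([(0, [(false, 8), (false, 9), (true, 8)]), (0, [(false, 10), (false, 0), (true, 10)]), (0, [(true, 9), (true, 11), (false, 11)])], [0, 0, 0, 0, 1, 0, -62466523, 45861950, -66120759, 61430036, 34988447, 0, 0, 0, 0, 0, 0, 0, 1, 1, 1, 1, 0, 0, 0, 0, 1]),
  ([(0, [(false, 8), (false, 9), (true, 8)]), (0, [(false, 10), (false, 0), (true, 11)]), (0, [(true, 9), (true, 10), (false, 11)])], [0, 0, 0, 0, -2, 0, 124933046, -91723900, 132241518, -122860072, -69976894, 0, 0, 0, 0, 0, 0, 0, -2, -2, -2, -2, 0, 0, 0, 0, -2]),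
  ([(8, [(false, 8), (false, 9), (false, 10), (true, 8)]), (0, [(true, 9), (true, 10), (false, 0)])], [0, 0, 0, 0, -2, 0, 124933046, -91723900, 132241518, -122860072, -69976894, 0, 0, 0, 0, 0, 0, 0, -2, -2, -2, -2, 0, 0, 0, 0, -2]),
  ([(8, [(false, 8), (false, 9), (false, 0), (true, 8)]), (0, [(true, 9), (true, 10), (false, 10)])], [0, 0, 0, 0, 4, 0, -249866092, 183447800, -264483036, 245720144, 139953788, 0, 0, 0, 0, 0, 0, 0, 4, 4, 4, 4, 0, 0, 0, 0, 4]),
  ([(8, [(false, 8), (false, 9), (false, 0), (true, 9)]), (0, [(true, 8), (true, 10), (false, 10)])], [0, 0, 0, 0, -2, 0, 124933046, -91723900, 132241518, -122860072, -69976894, 0, 0, 0, 0, 0, 0, 0, -2, -2, -2, -2, 0, 0, 0, 0, -2]),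
  ([(8, [(false, 8), (false, 9), (false, 0), (true, 10)]), (0, [(true, 8), (true, 9), (false, 10)])], [0, 0, 0, 0, 4, 0, -249866092, 183447800, -264483036, 245720144, 139953788, 0, 0, 0, 0, 0, 0, 0, 4, 4, 4, 4, 0, 0, 0, 0, 4]),
  ([(9, [(false, 8), (false, 0), (false, 9), (true, 8), (true, 9)])], [0, 0, 0, 0, 0, 2, -3976646, -68987490, -1839234, -43712302, -7282200, 15920336, 0, 0, 0, 0, 0, 0, 0, 0, 0, 0, 2, 2, 2, 2, 2])]

def w1b : List ℤ := [18580894737180969735002392000755435952150490354769183243176509440, 19762800690877962274126701068939987624718582464431434617271091200, 9767325606019219072212285217864091279844249312298047535416606720, 18302974072669774681756395079471055263121375500781799926826270720, 483129858904246309265017690164123837864649700368363257145589760, 2160692594336566555848459344963607013988832815548050380748226560, 2191726552484067921119835478114027804126680276430969637366661120, 2267339013058051282905890717018715613942045377822720, 2267339013058051282905890717018715613942045377822720, 2267339013058051282905890717018715613942045377822720,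 2267339013058051282905890717018715613942045377822720, 2267339013058051282905890717018715613942045377822720, 2267339013058051282905890717018715613942045377822720, 2267339013058051282905890717018715613942045377822720, 102805631113941847876288107149685394918185486912148702494720, 7058870271929422130250383075042895021435946802049429012480, 156227512062040966481859856408033258631493621777174185902080, 128277461747999129920760780878445730616957770777499816427520, 8645200408381409362027792079860737288436815198370828124160, 51715980421454501981339015200677322459690418763659225333760, 216549989414923976889827460134031808904090865024604805529600, 251019487376298594600460778278176309308349710810490800701440, 181092462201185104403847373615694930871606949892606514954240, 237092931125359818282185919739240254384761024414695332249600, 166602796434980269643103856775952258794286458932911129231360, 23109254313094740375479603978063965954182216813478328401920, 128977421044076333164511790025259446389000275374268979609600, 111403766099090198209785338750042257707908093132566686597120,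 180126222076736337501329330851293103100431863602575095889920, 266140153589837485033237004504465289941030272998834249400320, 282133627421775046191265287550489191111866597671279798517760, 122777826911315651309457081414152304210936084929506805022720, 246543413261653003486158265401501660822939180101725944545280, 42163406811420351902251265997100714313563294599401389424640, 80819763924951914879693470315729106895665065611793308057600]

def g1b : List (Tm × List ℤ) := [([(1, [(false, 8), (false, 0), (true, 8), (true, 9)]), (0, [(false, 9), (false, 1), (true, 2)])], [-2, -1, -2, -2, 0, 1, -2, -93515155, -45703358, -13622426, 11763034, -7474047, 4519117, -3393434, -3, -4, -3, 0, -1, -4, 2, -1, 2, -2, -1, 2, -1, 3, 1, 0, -3, 0, -4, -2, -3]),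
  ([(1, [(false, 8), (false, 0), (true, 9), (true, 8)]), (0, [(false, 9), (false, 1), (true, 2)])], [-2, -1, 0, 0, 0, 0, 0, -289762680, -84886236, 0, 0, 0, 0, 0, -3, -2, -1, 2, 1, 0, 2, -1, 0, 0, -2, 1, 0, 0, 0, 2, -1, 0, 0, 0, 0]),
  ([(1, [(false, 8), (false, 0), (true, 8), (true, 2)]), (0, [(false, 9), (false, 1), (true, 9)])], [1, 0, 1, 2, 0, -1, 1, -95780515, -43133652, 38562691, 12066049, 13929001, -10760686, 1696717, 1, 2, 1, 1, 2, 3, -1, 0, -1, 2, 0, -1, 0, -3, -1, 0, 1, 0, 3, 1, 2]),
  ([(1, [(false, 8), (false, 0), (true, 2), (true, 8)]), (0, [(false, 9), (false, 1), (true, 9)])], [1, 0, 0, 0, 0, 0, 0, 286261050, 0, 0, 0, 0, 0, 0, 1, 1, 0, -1, 0, 0, -1, 0, 0, 0, 1, 0, 0, 0, 0, -1, 0, 0, 0, 0, 0]),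
  ([(1, [(false, 8), (false, 0), (true, 9), (true, 2)]), (0, [(false, 9), (false, 1), (true, 8)])], [0, 1, 0, -2, 0, 0, 0, 276078156, 93957124, -9393100, -102019990, 0, 0, 0, 1, 0, 1, -2, -3, -2, 0, 1, 0, -2, 0, -1, 0, 2, 0, 0, 1, 0, -2, 0, 0]),
  ([(1, [(false, 8), (false, 0), (true, 2), (true, 9)]), (0, [(false, 9), (false, 1), (true, 8)])], [0, 1, 0, 0, 0, 0, 0, -282759420, 84886236, 0, 0, 0, 0, 0, 1, 0, 1, 0, -1, 0, 0, 1, 0, 0, 0, -1, 0, 0, 0, 0, 1, 0, 0, 0, 0]),
  ([(1, [(false, 0), (false, 8), (true, 8), (true, 9)]), (0, [(false, 9), (false, 1), (true, 2)])], [0, 0, -2, 0, 0, 0, -1, -379457390, -45881654, -36811213, 23829083, 6454954, -6241569, -1696717, 0, -2, -2, 0, 0, -2, 0, 0, 2, 0, 0, 0, -2, 0, 0, -1, -1, 1, -1, -1, -1]),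
  ([(1, [(false, 0), (false, 8), (true, 8), (true, 2)]), (0, [(false, 9), (false, 1), (true, 9)])], [0, 0, 1, 0, 0, 0, 0, 193663350, 41930880, 61751478, 0, 0, 0, 0, 0, 1, 1, 0, 0, 1, 0, 0, -1, 0, 0, 0, 1, 0, 0, 0, 0, -1, 0, 0, 0]),
  ([(1, [(false, 0), (false, 1), (true, 8), (true, 9)]), (0, [(false, 8), (false, 9), (true, 2)])], [0, 0, 0, 1, 0, 0, 0, -279418788, -4535444, 4696550, 51009995, 0, 0, 0, 0, 0, 0, 1, 1, 1, 0, 0, 0, 1, 0, 0, 0, -1, 0, 0, 0, 0, 1, 0, 0]),
  ([(0, [(false, 8), (false, 9), (true, 8)]), (0, [(false, 10), (false, 0), (true, 9)]), (0, [(true, 10), (true, 2), (false, 1)])], [0, 0, 0, 0, 2, 0, 0, -42960730, -12589492, -39741496, 36075178, 60465474, 0, 0, 0, 0, 0, 0, 0, 0, 2, 2, 2, 2, 0, 0, 0, 0, 2, 0, 0, 0, 0, 2, 0]),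
  ([(0, [(false, 8), (false, 9), (true, 8)]), (0, [(false, 10), (false, 0), (true, 2)]), (0, [(true, 9), (true, 10), (false, 1)])], [0, 0, 0, 0, -2, 0, 0, 42960730, 12589492, 39741496, -36075178, -60465474, 0, 0, 0, 0, 0, 0, 0, 0, -2, -2, -2, -2, 0, 0, 0, 0, -2, 0, 0, 0, 0, -2, 0]),
  ([(0, [(false, 8), (false, 0), (true, 8)]), (0, [(false, 9), (false, 1), (true, 9)]), (0, [(true, 10), (true, 2), (false, 10)])], [0, 0, 0, 0, 1, 0, 0, -21480365, -6294746, -19870748, 18037589, 30232737, 0, 0, 0, 0, 0, 0, 0, 0, 1, 1, 1, 1, 0, 0, 0, 0, 1, 0, 0, 0, 0, 1, 0]),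
  ([(0, [(false, 8), (false, 0), (true, 8)]), (0, [(false, 9), (false, 1), (true, 10)]), (0, [(true, 9), (true, 2), (false, 10)])], [0, 0, 0, 0, -2, 0, 0, 42960730, 12589492, 39741496, -36075178, -60465474, 0, 0, 0, 0, 0, 0, 0, 0, -2, -2, -2, -2, 0, 0, 0, 0, -2, 0, 0, 0, 0, -2, 0]),
  ([(8, [(false, 8), (false, 9), (false, 0), (true, 8)]), (0, [(true, 9), (true, 2), (false, 1)])], [0, 0, 0, 0, 2, 0, 0, -42960730, -12589492, -39741496, 36075178, 60465474, 0, 0, 0, 0, 0, 0, 0, 0, 2, 2, 2, 2, 0, 0, 0, 0, 2, 0, 0, 0, 0, 2, 0]),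
  ([(8, [(false, 8), (false, 9), (false, 0), (true, 2)]), (0, [(true, 8), (true, 9), (false, 1)])], [0, 0, 0, 0, 4, 0, 0, -85921460, -25178984, -79482992, 72150356, 120930948, 0, 0, 0, 0, 0, 0, 0, 0, 4, 4, 4, 4, 0, 0, 0, 0, 4, 0, 0, 0, 0, 4, 0]),
  ([(8, [(false, 0), (false, 8), (false, 1), (true, 8)]), (0, [(true, 9), (true, 2), (false, 9)])], [0, 0, 0, 0, -2, 0, 0, 42960730, 12589492, 39741496, -36075178, -60465474, 0, 0, 0, 0, 0, 0, 0, 0, -2, -2, -2, -2, 0, 0, 0, 0, -2, 0, 0, 0, 0, -2, 0]),
  ([(8, [(false, 0), (false, 8), (false, 1), (true, 9)]), (0, [(true, 8), (true, 2), (false, 9)])], [0, 0, 0, 0, 4, 0, 0, -85921460, -25178984, -79482992, 72150356, 120930948, 0, 0, 0, 0, 0, 0, 0, 0, 4, 4, 4, 4, 0, 0, 0, 0, 4, 0, 0, 0, 0, 4, 0]),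
  ([(9, [(false, 0), (false, 8), (false, 1), (true, 8), (true, 2)])], [0, 0, 0, 0, 0, 1, 0, 8998029, 38013538, -54109856, 66124858, -20383955, 17002255, 0, 0, 0, 0, 0, 0, 0, 0, 0, 0, 0, 1, 1, 1, 1, 1, 0, 0, 0, 0, 0, -1]),
  ([(9, [(false, 0), (false, 1), (false, 8), (true, 8), (true, 2)])], [0, 0, 0, 0, 0, 0, 1, -7869310, -37980106, -86691743, -23829083, -6454954, 6241569, 1696717, 0, 0, 0, 0, 0, 0, 0, 0, 0, 0, 0, 0, 0, 0, 0, 1, 1, 1, 1, 1, 1])]

def w1c : List ℤ := [633135010600688326071581277187678640691351147146707491984412508160, 35876744689093657987041386774244925406344505405624833368273715200, 65127564044412018802869449519664201308532283647977381136865689600, 45605076274527756469936690822883732718515771765346828554970071040, 2267339013058051282905890717018715613942045377822720, 2267339013058051282905890717018715613942045377822720, 2267339013058051282905890717018715613942045377822720, 2267339013058051282905890717018715613942045377822720, 43042059629794686283710654203104109100571799676487516815360, 103341253678352603563054097337329594182529472059933274931200,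 40940980051886155785277686640582941865168896602129781227520, 146696534856106194341241785813536253751589295595140111400960, 10638152856096214452830260619977998994926436070705576017920, 16715070344216377385172063107950126545982678208255274516480]

def g1c : List (Tm × List ℤ) := [([(0, [(false, 0), (false, 1), (true, 2)]), (2, [])], [1, 0, 0, 0, 166267609, 0, 0, 0, 1, 1, 0, 1, 0, 0]),
  ([(1, [(false, 8), (false, 9), (true, 8), (true, 2)]), (0, [(false, 0), (false, 1), (true, 9)])], [0, -1, -1, 1, 27375095, -30274185, -62092884, 6949574, -1, -1, 0, 1, 2, 2]),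
  ([(1, [(false, 8), (false, 9), (true, 2), (true, 8)]), (0, [(false, 0), (false, 1), (true, 9)])], [0, -1, 0, 0, 15657857, -36350221, 0, 0, -1, 0, 1, 0, 1, 0]),
  ([(1, [(false, 8), (false, 0), (true, 8), (true, 9)]), (0, [(false, 9), (false, 1), (true, 2)])], [0, 2, 2, 0, -15483494, -1303296, 75150616, 0, 2, 2, 0, 0, -2, -2]),
  ([(1, [(false, 8), (false, 0), (true, 9), (true, 8)]), (0, [(false, 9), (false, 1), (true, 2)])], [0, 2, 0, 0, -31315714, 72700442, 0, 0, 2, 0, -2, 0, -2, 0]),
  ([(1, [(false, 8), (false, 9), (true, 9), (true, 2)]), (0, [(false, 0), (false, 1), (true, 8)])], [0, 0, -1, 0, -7916110, 37001869, -37575308, 0, 0, -1, -1, 0, 0, 1]),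
  ([(1, [(false, 0), (false, 8), (true, 8), (true, 9)]), (0, [(false, 9), (false, 1), (true, 2)])], [0, 0, 2, 0, 15832220, -74003738, 75150616, 0, 0, 2, 2, 0, 0, -2]),
  ([(9, [(false, 0), (false, 8), (false, 1), (true, 8), (true, 2)])], [0, 0, 0, 2, 39266696, -61851666, -49035152, 13899148, 0, 0, 0, 2, 2, 2])]

def w1d : List ℤ := [505584976114137833174138787951634830954704162084863183963210383360, 55335015181900587112981461013300336548160612324503374588113059840, 2267339013058051282905890717018715613942045377822720, 2267339013058051282905890717018715613942045377822720, 41914790821299523521029352174088895127778935381677750353920]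

def g1d : List (Tm × List ℤ) := [([(1, [(false, 0), (false, 1), (true, 8), (true, 3)]), (0, [(false, 8), (false, 2), (true, 4)])], [1, 0, 44798159, 0, 1]),
  ([(0, [(false, 8), (false, 0), (true, 8)]), (0, [(false, 9), (false, 1), (true, 3)]), (0, [(true, 9), (true, 4), (false, 2)])], [0, -1, 14628800, -2376100, -1]),
  ([(8, [(false, 0), (false, 8), (false, 1), (true, 3)]), (0, [(true, 8), (true, 4), (false, 2)])], [0, 2, -29257600, 4752200, 2])]

def w1e : List ℤ := [736772614009494721143816919756612978088024866744815023678033158471680, 53848056375348008020772268765287963460908044016633217317003848581120, 2267339013058051282905890717018715613942045377822720, 2267339013058051282905890717018715613942045377822720, 614642575845295473104697600367808274290624594210675270615040]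

def g1e : List (Tm × List ℤ) := [([(0, [(false, 8), (false, 9), (true, 8)]), (0, [(true, 9), (true, 10), (false, 10)])], [1, 0, 570044168, 0, 1]),
  ([(0, [(false, 8), (false, 9), (true, 10)]), (0, [(true, 8), (true, 9), (false, 10)])], [1, 0, 570044168, 0, 1]),
  ([(2, [])], [0, -6, -5041446, -924637674, -6]),
  ([(1, [(false, 8), (false, 9), (true, 8), (true, 9)])], [0, 1, 840241, 154106279, 1])]

def w1f : List ℤ := [17230563446649695345645109762284913401501658517549724095658065920, 10495722576793312606243969646544058721054521832232610878274928640, 13063462287665452482227705670659483977033761334326003565233438720, 8816903717000925072434938634117161111267121101867678777202442240, 29884986288346739032711951699567301315807162512225395434158817280, 17298323618546933345669781920688261910509935545354708129457111040, 2267339013058051282905890717018715613942045377822720, 2267339013058051282905890717018715613942045377822720, 2267339013058051282905890717018715613942045377822720, 2267339013058051282905890717018715613942045377822720, 2267339013058051282905890717018715613942045377822720,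 2267339013058051282905890717018715613942045377822720, 173616097727425251058670397259364511669313398506957077217280, 297454413511284466346373353503243677622064912668760636129280, 36430798356467132405526420449852180840777835704746337894400, 115287495629235360368377404771005049720460650544329979330560, 164323937072396870401629521228200371086309974022523691991040, 63554122450211690075647218482637476693295682350577475911680, 51804270602622982498295370585198031245697322010671642050560, 134367876705264027432389722133856270582063809911183693578240, 118418897134118717472737184287263144686435483937232537518080, 282549813368994942910601644132832995493814957694696803532800, 294611578509932020486840289604431271610992097333138953338880, 85457079853511129310979835610744541341961084877602026946560, 232575360172097238713303663250662729366184126391425564672000, 48504045302166335953461701352041439733823977860981781954560, 429250619891801738620460424644480112505620920103328732938240]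

def g1f : List (Tm × List ℤ) := [([(0, [(false, 8), (false, 9), (true, 8)]), (0, [(true, 9), (true, 1), (false, 0)])], [1, -2, -1, 0, 0, 0, 97474295, -82133047, -43629480, 0, 0, 0, -1, -2, -3, 1, -2, 1, 1, -2, 1, 0, 1, -2, 1, 0, 0]),
  ([(0, [(false, 8), (false, 9), (true, 1)]), (0, [(true, 8), (true, 9), (false, 0)])], [1, 0, 0, 0, 0, 0, 275660266, 0, 0, 0, 0, 0, 1, -1, 0, 1, 0, 0, 1, 0, 0, 0, 1, 0, 0, 0, 0]),
  ([(0, [(false, 8), (false, 0), (true, 8)]), (0, [(true, 9), (true, 1), (false, 9)])], [0, 1, 0, 0, 0, 0, 203676856, 69315739, 0, 0, 0, 0, 1, 0, 1, 0, 1, 0, 0, 1, 0, 0, 0, 1, 0, 0, 0]),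
  ([(0, [(false, 8), (false, 0), (true, 9)]), (0, [(true, 8), (true, 1), (false, 9)])], [0, 0, 2, 0, 0, 0, -458335482, -112996862, 87258960, 0, 0, 0, 0, 2, 2, 0, 0, -2, 0, 0, -2, 0, 0, 0, -2, 0, 0]),
  ([(1, [(false, 8), (false, 0), (true, 8), (true, 1)])], [0, 0, 0, 1, 0, 0, -5653908, 40704369, -167507571, 95594135, 0, 0, 0, 0, 0, 1, 1, 1, 0, 0, 0, 1, 0, 0, 0, -1, 0]),
  ([(1, [(false, 8), (false, 0), (true, 1), (true, 8)])], [0, 0, 0, 0, 1, 0, -79900088, -15411341, 303305260, 85342676, 160926338, 0, 0, 0, 0, 0, 0, 0, 1, 1, 1, 1, 0, 0, 0, 0, 1]),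
  ([(1, [(false, 0), (false, 8), (true, 8), (true, 1)])], [0, 0, 0, 0, 0, 1, 39557411, -97587011, 189992875, 66262462, -126975524, 92675123, 0, 0, 0, 0, 0, 0, 0, 0, 0, 0, 1, 1, 1, 1, 1])]


end Pool.Agent.Lib.MP_40b2af_gt
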