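import Mathlib
import Pool.Agent.Lib.MP_40b2af_gt.Data1
import Pool.Agent.Lib.MP_40b2af_gt.T1

set_option autoImplicit false
set_option maxRecDepth 100000

noncomputable section

namespace Pool.Agent.Lib.MP_40b2af_gt

def r1Pe : List ℕ := [213515922978857611849517588524010595042256296702838076765213723669291008, 35585987163142935308252931420668432507042716117139679460868953944883205, 24142565021376734726738913079245879967636662778667510083592249508102144009, 213515922978857611849517588524010595042256296702838076765213723669291734, 48285130042753469453477826158491759935273325557335020167184499016204289038, 24142565021376734726738913079245879967636662778667510083592249508102145039, 35585987163142935308252931420668432507042716117139679460868953944884240, 63521752925245214337325634370643955506402102846916074028744214835101697041, 21173917641748404779108544790214651835467367615638691342914738278367224850, 1764493136812367064925712065851220986288947301303224278576228189863937043]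

theorem c1Pe : chk 3 T1 (psdG true triv w1e g1e g1e [3370610428988334103532611119245058487326532612664445065729358823433, 3370616925788630228747201936332109891861978783011099135405062226958, 112106538707515434543163546688242450237953802837653266599233257472, 105730214824997496516504955654503772471321959038376967164699705349] ++ rowsG rels1 [] true []) r1Pe = true := by
  decide +kernel

end Pool.Agent.Lib.MP_40b2af_gt
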