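import Mathlib
import Pool.Agent.Lib.MP_40b2af_gt.Base
import Pool.Agent.Lib.MP_40b2af_gt.Cert

set_option autoImplicit false

noncomputable section

namespace Pool.Agent.Lib.MP_40b2af_gt

open scoped ContDiff Topology ComplexConjugate Matrix
open Set Filter Complex Function

variable {n : ℕ} {U : Set (V n)} {h : Her n} {y : V n} {c : ℝ}

/-- a vector for each variable and flag -/
abbrev Asg (n : ℕ) : Type := ℕ → Bool → V n

/-- a frame and a dual frame -/
abbrev Fr (n : ℕ) : Type := Fin n → Bool → V n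

/-- value of a product on vectors -/
def prG (X : ℕ → Tn n) (t : Tm) (ι : Asg n) : ℂ :=
  (t.map fun f => X f.1 (f.2.map fun s => (s.1, ι s.2 s.1))).prod

@[simp] theorem prG_nil (X : ℕ → Tn n) (ι : Asg n) : prG X [] ι = 1 := rfl

@[simp] theorem prG_cons (X : ℕ → Tn n) (f : Fac) (t : Tm) (ι : Asg n) :
    prG X (f :: t) ι = X f.1 (f.2.map fun s => (s.1, ι s.2 s.1)) * prG X t ι := rfl

theorem prG_append (X : ℕ → Tn n) (t t' : Tm) (ι : Asg n) :
    prG X (t ++ t') ι = prG X t ι * prG X t' ι := by simp [prG]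

@[simp] theorem slots_cons (f : Fac) (t : Tm) : slots (f :: t) = f.2 ++ slots t := rfl

theorem mem_vars {t : Tm} {v : ℕ} : v ∈ vars t ↔ ∃ b, (b, v) ∈ slots t := by
  simp only [vars, slots, List.mem_flatMap, List.mem_map]
  constructor
  · rintro ⟨f, hf, s, hs, rfl⟩; exact ⟨s.1, f, hf, hs⟩
  · rintro ⟨b, f, hf, hs⟩; exact ⟨f, hf, _, hs, rfl⟩

theorem prG_congr (X : ℕ → Tn n) {t : Tm} {ι ι' : Asg n}
    (e : ∀ s ∈ slots t, ι s.2 s.1 = ι' s.2 s.1) : prG X t ι = prG X t ι' := by
  induction t with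
  | nil => rfl
  | cons f t ih =>
    rw [prG_cons, prG_cons, ih fun s hs => e s (by simp [hs])]
    congr 2
    exact List.map_congr_left fun s hs => by rw [e s (by simp [hs])]

theorem prG_dp (X : ℕ → Tn n) (t : Tm) : Dp (· ∈ vars t) (prG X t) :=
  fun _ _ e => prG_congr X fun s hs => by rw [e s.2 (mem_vars.2 ⟨s.1, hs⟩)]

/-- change of one vector -/
def up (ι : Asg n) (v : ℕ) (b : Bool) (u : V n) : Asg n := update ι v (update (ι v) b u)

theorem up_self (ι : Asg n) (v : ℕ) (b : Bool) (u : V n) : up ι v b u v b = u := by simp [up]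

theorem up_ne (ι : Asg n) {v : ℕ} {b : Bool} (u : V n) {s : Sl} (hs : s ≠ (b, v)) :
    up ι v b u s.2 s.1 = ι s.2 s.1 := by
  unfold up
  by_cases hv : s.2 = v
  · rw [hv, update_self, update_of_ne fun hb => hs (Prod.ext hb hv)]
  · rw [update_of_ne hv]

theorem prG_up {X : ℕ → Tn n} {t : Tm} {b : Bool} {v : ℕ} (hc : (b, v) ∉ slots t) (ι : Asg n)
    (u : V n) : prG X t (up ι v b u) = prG X t ι :=
  prG_congr X fun _ hs => up_ne ι u fun e => hc (e ▸ hs)

theorem lin_mul {φ : V n → ℂ} (h : IsLinearMap ℂ φ) (c : ℂ) : IsLinearMap ℂ fun u => φ u * c :=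
  ⟨fun u v => by rw [h.1]; ring, fun d u => by rw [h.2]; simp [mul_assoc]⟩

theorem prG_lin {X : ℕ → Tn n} (hX : ∀ k, ML (X k)) {t : Tm} {b : Bool} {v : ℕ}
    (hc : (slots t).count (b, v) = 1) (ι : Asg n) :
    IsLinearMap ℂ fun u => prG X t (up ι v b u) := by
  induction t with
  | nil => simp [slots] at hc
  | cons f t ih =>
    rw [slots_cons, List.count_append] at hc
    simp only [prG_cons]
    by_cases hf : (b, v) ∈ f.2
    · obtain ⟨s1, s2, e⟩ := List.append_of_mem hf
      rw [e, List.count_append, List.count_cons_self] at hc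
      have h1 : (b, v) ∉ s1 := List.count_eq_zero.1 (by omega)
      have h2 : (b, v) ∉ s2 := List.count_eq_zero.1 (by omega)
      have h3 : (b, v) ∉ slots t := List.count_eq_zero.1 (by omega)
      have e1 : ∀ (l : List Sl) (u : V n), (b, v) ∉ l →
          (l.map fun s => (s.1, up ι v b u s.2 s.1)) = l.map fun s => (s.1, ι s.2 s.1) :=
        fun l u hl => List.map_congr_left fun s hs => by rw [up_ne ι u fun e => hl (e ▸ hs)]
      simp only [e, List.map_append, List.map_cons, up_self, e1 _ _ h1, e1 _ _ h2, prG_up h3]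
      exact lin_mul (hX _ _ _ _) _
    · have e1 : ∀ u : V n, (f.2.map fun s => (s.1, up ι v b u s.2 s.1))
          = f.2.map fun s => (s.1, ι s.2 s.1) :=
        fun u => List.map_congr_left fun s hs => by rw [up_ne ι u fun e => hf (e ▸ hs)]
      simp only [e1, mul_comm (X _ _)]
      exact lin_mul (ih (by rw [List.count_eq_zero.2 hf] at hc; omega)) _

/-- linear in the two vectors of a variable -/
def Bil (Φ : Asg n → ℂ) (v : ℕ) : Prop := ∀ ι b, IsLinearMap ℂ fun u => Φ (up ι v b u)

theorem bil_prG {X : ℕ → Tn n} (hX : ∀ k, ML (X k)) {t : Tm} {v : ℕ}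
    (hc : ∀ b, (slots t).count (b, v) = 1) : Bil (prG X t) v := fun ι b => prG_lin hX (hc b) ι

/-- dual frames -/
def Dual (h : Her n) (y : V n) (e : Fr n) : Prop :=
  ∀ u w, ∑ i, gm h false y u (e i true) * gm h false y (e i false) w = gm h false y u w

theorem Dual.exp {e : Fr n} (D : Dual h y e) (H : Good U h) (hy : y ∈ U) (b : Bool) (u : V n) :
    ∑ i, gm h b y u (e i (!b)) • e i b = u := by
  refine H.gm_ext (b := b) hy fun w => ?_
  rw [lin_sum (gm_lin1 h b y w)]
  cases b
  · exact D u w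
  · simp only [← gm_swap (b := true), Bool.not_true, mul_comm (gm h false y (e _ false) u)]
    exact D w u

theorem Dual.lin {e : Fr n} (D : Dual h y e) (H : Good U h) (hy : y ∈ U) {φ : V n → ℂ}
    (hφ : IsLinearMap ℂ φ) (b : Bool) (u : V n) :
    ∑ i, gm h b y u (e i (!b)) * φ (e i b) = φ u := by
  rw [← lin_sum hφ, D.exp H hy]

theorem up_up (ι : Asg n) (v : ℕ) (x : Bool → V n) :
    up (up ι v true (x true)) v false (x false) = update ι v x := by
  simp only [up, update_self, update_idem]
  congr 1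
  funext b
  cases b <;> simp

theorem up_comm (ι : Asg n) (v : ℕ) (u w : V n) :
    up (up ι v true w) v false u = up (up ι v false u) v true w := by
  simp only [up, update_self, update_idem]
  rw [update_comm (by simp)]

theorem Dual.sum_eq {e e' : Fr n} (D : Dual h y e) (D' : Dual h y e') (H : Good U h) (hy : y ∈ U)
    {Φ : Asg n → ℂ} {v : ℕ} (hΦ : Bil Φ v) (ι : Asg n) :
    ∑ i, Φ (update ι v (e i)) = ∑ i, Φ (update ι v (e' i)) := by
  simp only [← up_up]
  have e1 := fun i => D'.lin H hy (hΦ (up ι v true (e i true)) false) false (e i false)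
  have e2 := fun j => D.lin H hy (hΦ (up ι v false (e' j false)) true) true (e' j true)
  simp only [← e1]
  simp only [up_comm, ← e2]
  rw [Finset.sum_comm]
  simp only [← gm_swap (b := true), Bool.not_true, Bool.not_false]

theorem up_update (ι : Asg n) {v w : ℕ} (hv : v ≠ w) (b : Bool) (u : V n) (x : Bool → V n) :
    update (up ι v b u) w x = up (update ι w x) v b u := by
  simp only [up, update_of_ne hv]
  rw [update_comm hv]

theorem lin_Sv (e : Fr n) {Φ : Asg n → ℂ} {v : ℕ} {b : Bool}
    (hΦ : ∀ ι, IsLinearMap ℂ fun u => Φ (up ι v b u)) {l : List ℕ} (hl : v ∉ l) (ι : Asg n) :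
    IsLinearMap ℂ fun u => Sv e l Φ (up ι v b u) := by
  induction l generalizing ι with
  | nil => exact hΦ ι
  | cons w l ih =>
    have hw : v ≠ w := fun e => hl (by simp [e])
    have := fun i => ih (fun h => hl (by simp [h])) (update ι w (e i))
    simp only [Sv, up_update ι hw]
    exact ⟨fun u u' => by simp only [(this _).1, Finset.sum_add_distrib],
      fun d u => by simp only [(this _).2, smul_eq_mul, Finset.mul_sum]⟩

theorem Dual.Sv_eq {e e' : Fr n} (D : Dual h y e) (D' : Dual h y e') (H : Good U h) (hy : y ∈ U)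
    {Φ : Asg n → ℂ} {l : List ℕ} (hl : l.Nodup) (hΦ : ∀ v ∈ l, Bil Φ v) (ι : Asg n) :
    Sv e l Φ ι = Sv e' l Φ ι := by
  induction l generalizing ι with
  | nil => rfl
  | cons v l ih =>
    rw [List.nodup_cons] at hl
    simp only [Sv, ih hl.2 fun w hw => hΦ w (by simp [hw])]
    exact D.sum_eq D' H hy (fun ι b => lin_Sv e' (fun ι => hΦ v (by simp) ι b) hl.1 ι) ι

theorem Sv_congr {α : Type} (e : Fin n → α) (l : List ℕ) {F G : (ℕ → α) → ℂ} {u : ℕ → α}
    (hF : ∀ u', (∀ v, v ∉ l → u' v = u v) → F u' = G u') : Sv e l F u = Sv e l G u := by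
  induction l generalizing u with
  | nil => exact hF u fun _ _ => rfl
  | cons v l ih =>
    refine Finset.sum_congr rfl fun i _ => ih fun u' hu => hF u' fun w hw => ?_
    rw [hu w fun h => hw (by simp [h]), update_of_ne fun h => hw (by simp [h])]

theorem sm_Sv {α : Type} (e : Fin n → α) (l : List ℕ) {F : V n → (ℕ → α) → ℂ}
    (hF : ∀ u, Sm U fun z => F z u) (u : ℕ → α) : Sm U fun z => Sv e l (F z) u := by
  induction l generalizing u with
  | nil => exact hF u
  | cons v l ih => exact ContDiffOn.sum fun i _ => ih _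

theorem wv_Sv {α : Type} (e : Fin n → α) (l : List ℕ) {F : V n → (ℕ → α) → ℂ} (hU : IsOpen U)
    (hy : y ∈ U) (hF : ∀ u, Sm U fun z => F z u) (b : Bool) (a : V n) (u : ℕ → α) :
    wv b a (fun z => Sv e l (F z) u) y = Sv e l (fun u => wv b a (fun z => F z u) y) u := by
  induction l generalizing u with
  | nil => rfl
  | cons v l ih =>
    simp only [Sv, ← ih]
    exact wv_sum fun i _ => (sm_Sv e l hF _).dAt hU hy

/-- transport from y to z -/
def tp (h : Her n) (y z : V n) (x : Bool → V n) (b : Bool) : V n :=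
  bif b then x true else (x false ᵥ* h y) ᵥ* (h z)⁻¹

theorem Good.gm_tp (H : Good U h) {z : V n} (hz : z ∈ U) (x : Bool → V n) (w : V n) :
    gm h false z (tp h y z x false) w = gm h false y (x false) w := by
  simp only [gm_eq, tp, hm, cond_false, Matrix.vecMul_vecMul, Matrix.mul_assoc,
    Matrix.nonsing_inv_mul _ (isUnit_iff_ne_zero.2 (H.det z hz)), Matrix.mul_one]

theorem Good.tp_self (H : Good U h) (hy : y ∈ U) (x : Bool → V n) : tp h y y x = x := by
  funext b
  cases b
  · exact H.gm_ext (b := false) hy fun w => H.gm_tp hy x w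
  · rfl

theorem Good.tp_sm (H : Good U h) (x : Bool → V n) (b : Bool) (k : Fin n) :
    Sm U fun z => tp h y z x b k := by
  cases b
  · exact ContDiffOn.sum (s := Finset.univ) (f := fun l z => (x false ᵥ* h y) l * (h z)⁻¹ l k)
      fun l _ => contDiffOn_const.mul (sm_inv H.sm H.det l k)
  · exact contDiffOn_const

theorem Good.tp_par (H : Good U h) (hy : y ∈ U) (x : Bool → V n) (a : V n) (b : Bool) :
    (fun k => wv false a (fun z => tp h y z x b k) y) = - gf (Gm h) false y a b (tp h y y x b) := by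
  cases b
  · refine eq_neg_of_add_eq_zero_left (H.gm_ext (b := false) hy fun w => ?_)
    have e := H.wv_gm (b := false) (a := a) (w := w) hy (H.tp_sm (y := y) x false)
    rw [wv_congr_on H.isOpen hy fun z hz => H.gm_tp hz x w, wv_const] at e
    rw [(gm_lin1 h false y w).map_zero]
    exact e.symm
  · funext k
    simp [tp, gf]

theorem Dual.tp {e : Fr n} (D : Dual h y e) (H : Good U h) (hy : y ∈ U) {z : V n} (hz : z ∈ U) :
    Dual h z (tp h y z ∘ e) := by
  intro u w
  simp only [comp_apply, H.gm_tp hz, mul_comm (gm h false z u _)]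
  have := D.lin H hy (gm_lin2 h false z u) true w
  simp only [← gm_swap (b := true), Bool.not_true] at this
  exact this

theorem Good.sm_prG (H : Good U h) (t : Tm) {ι : V n → Asg n}
    (hι : ∀ v b k, Sm U fun z => ι z v b k) : Sm U fun z => prG (ten h c · z) t (ι z) := by
  induction t with
  | nil => exact contDiffOn_const
  | cons f t ih =>
    exact ((H.isT f.1).sm_move (fl := Prod.fst) (u := fun z s => ι z s.2 s.1) f.2
      fun s => hι s.2 s.1).mul ih

theorem dT_cons (b : Bool) (a : ℕ) (f : Fac) (r : Tm) : dT b a (f :: r)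
    = cond (cond (Nat.beq f.1 2) true (Nat.beq f.1 3)) ((dT b a r).map (f :: ·))
      (((f.1 + 8, (b, a) :: f.2) :: r) :: (dT b a r).map (f :: ·)) := rfl

theorem Good.leib (H : Good U h) (hy : y ∈ U) (t : Tm) (m : ℕ) (ι : Asg n) :
    wv false (ι m false) (fun z => prG (ten h c · z) t (tp h y z ∘ ι)) y
      = ((dT false m t).map fun t' => prG (ten h c · y) t' ι).sum := by
  induction t with
  | nil => exact wv_const _
  | cons f t ih =>
    have s1 := (H.isT (c := c) f.1).sm_move (fl := Prod.fst)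
      (u := fun z (s : Sl) => tp h y z (ι s.2) s.1) f.2 fun s => H.tp_sm _ _
    have s2 := H.sm_prG (c := c) t (ι := fun z => tp h y z ∘ ι) fun v => H.tp_sm _
    have e := (H.isT (c := c) f.1).wv_par (b := false) (a := ι m false) H.isC hy (fl := Prod.fst)
      (u := fun z (s : Sl) => tp h y z (ι s.2) s.1) f.2 (fun s => H.tp_sm _ _)
      fun s => H.tp_par hy _ _ _
    have e0 : tp h y y ∘ ι = ι := funext fun v => H.tp_self hy _
    simp only [prG_cons, comp_apply]
    rw [wv_mul (s1.dAt H.isOpen hy) (s2.dAt H.isOpen hy), ih, e, ← ten_succ, dT_cons, e0]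
    simp only [H.tp_self hy, ← List.sum_map_mul_left]
    cases h2 : Nat.beq f.1 2
    · cases h3 : Nat.beq f.1 3
      · simp [comp_def]
      · rw [Nat.eq_of_beq_eq_true h3, ten_succ, show ten h c 3 = bD h from rfl, H.cov_bD hy]
        simp [comp_def, Nat.eq_of_beq_eq_true h3, show ten h c 3 = bD h from rfl]
    · rw [Nat.eq_of_beq_eq_true h2, ten_succ, show ten h c 2 = fun _ => ar0 c from rfl, cov_ar0]
      simp [comp_def, Nat.eq_of_beq_eq_true h2, show ten h c 2 = fun _ => ar0 c from rfl]

theorem vars_dT {b : Bool} {m : ℕ} {t t' : Tm} (ht : t' ∈ dT b m t) :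
    (slots t').Perm ((b, m) :: slots t) := by
  induction t generalizing t' with
  | nil => simp [dT] at ht
  | cons f t ih =>
    have key : t' ∈ (dT b m t).map (f :: ·) → (slots t').Perm ((b, m) :: slots (f :: t)) := by
      intro h
      obtain ⟨r, hr, rfl⟩ := List.mem_map.1 h
      exact ((ih hr).append_left _).trans List.perm_middle
    rw [dT_cons] at ht
    revert ht
    cases cond (Nat.beq f.1 2) true (Nat.beq f.1 3)
    · intro ht
      rcases List.mem_cons.1 ht with rfl | h
      · exact .refl _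
      · exact key h
    · exact key

theorem mem_vars_dT {b : Bool} {m : ℕ} {t t' : Tm} (ht : t' ∈ dT b m t) {v : ℕ} :
    v ∈ vars t' ↔ v = m ∨ v ∈ vars t := by
  simp only [mem_vars, (vars_dT ht).mem_iff, List.mem_cons, Prod.mk.injEq, exists_or]
  simp

/-- combination of contractions with a frame -/
def eG (X : ℕ → Tn n) (e : Fr n) (Y : Ex) (ι : Asg n) : ℂ :=
  (Y.map fun x => (x.1 : ℂ) * Sv e (bv x.2) (prG X x.2) ι).sum

/-- a relation on an open set -/
def GV (U : Set (V n)) (h : Her n) (c : ℝ) (Y : Ex) : Prop :=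
  ∀ y ∈ U, ∀ e, Dual h y e → ∀ ι, eG (ten h c · y) e Y ι = 0

/-- covariant derivative of a combination -/
def dE (m : ℕ) (Y : Ex) : Ex := Y.flatMap fun x => (dT false m x.2).map fun t => (x.1, t)

theorem Good.wv_Sv_prG (H : Good U h) (hy : y ∈ U) (e : Fr n) (l : List ℕ) (t : Tm) {m : ℕ}
    (hm : m ∉ l) (ι : Asg n) :
    wv false (ι m false) (fun z => Sv (tp h y z ∘ e) l (prG (ten h c · z) t) (tp h y z ∘ ι)) y
      = ((dT false m t).map fun t' => Sv e l (prG (ten h c · y) t') ι).sum := by
  simp only [Sv_frame]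
  rw [wv_Sv e l H.isOpen hy fun u => H.sm_prG t (ι := fun z => tp h y z ∘ u) fun v => H.tp_sm _,
    ← Sv_sum]
  exact Sv_congr e l fun u hu => by rw [← hu m hm, H.leib hy]

theorem GV.dE {Y : Ex} (hY : GV U h c Y) (H : Good U h) {m : ℕ} (hm : m < 8) :
    GV U h c (dE m Y) := by
  intro y hy e D ι
  have e0 : wv false (ι m false) (fun z => eG (ten h c · z) (tp h y z ∘ e) Y (tp h y z ∘ ι)) y
      = 0 := by
    rw [wv_congr_on H.isOpen hy fun z hz => hY z hz _ (D.tp H hy hz) _, wv_const]
  rw [← e0]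
  clear e0 hY
  have sm : ∀ t : Tm, Sm U fun z =>
      Sv (tp h y z ∘ e) (bv t) (prG (ten h c · z) t) (tp h y z ∘ ι) := fun t => by
    simp only [Sv_frame]
    exact sm_Sv e _ (fun u => H.sm_prG t (ι := fun z => tp h y z ∘ u) fun v => H.tp_sm _) _
  have sm2 : ∀ Y, Sm U fun z => eG (ten h c · z) (tp h y z ∘ e) Y (tp h y z ∘ ι) := fun Y => by
    induction Y with
    | nil => exact contDiffOn_const
    | cons x Y ih => exact (contDiffOn_const.mul (sm x.2)).add ih
  induction Y with
  | nil => exact (wv_const _).symm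
  | cons x Y ih =>
    simp only [eG, MP_40b2af_gt.dE, List.flatMap_cons, List.map_append, List.sum_append,
      List.map_cons, List.sum_cons] at ih sm2 ⊢
    rw [wv_add (((sm x.2).dAt H.isOpen hy).const_mul _) ((sm2 Y).dAt H.isOpen hy), ← ih,
      wv_const_mul _ ((sm x.2).dAt H.isOpen hy),
      H.wv_Sv_prG hy e _ _ fun h => by have := (mem_bv.1 h).2; omega,
      ← List.sum_map_mul_left, List.map_map]
    congr 2
    refine List.map_congr_left fun t ht => ?_
    rw [comp_apply, Sv_perm ((List.perm_ext_iff_of_nodup (nodup_bv t) (nodup_bv x.2)).2 fun v => ?_)]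
    simp only [mem_bv, mem_vars_dT ht]
    constructor
    · rintro ⟨rfl | h1, h2⟩
      · omega
      · exact ⟨h1, h2⟩
    · exact fun h => ⟨.inr h.1, h.2⟩

end Pool.Agent.Lib.MP_40b2af_gt
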