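import Mathlib
import Pool.Agent.Lib.MP_40b2af_gt.Term

set_option autoImplicit false

noncomputable section

namespace Pool.Agent.Lib.MP_40b2af_gt

open scoped ContDiff Topology ComplexConjugate Matrix
open Set Filter Complex Function

variable {n : ℕ} {U U' : Set (V n)} {h h' : Her n} {φ : V n → V n} {y : V n} {c : ℝ}

/-- the differential acting on vectors of a given flag -/
def Jc (φ : V n → V n) (b : Bool) (y u : V n) : V n := cb b (fderiv ℂ φ y (cb b u))

/-- a holomorphic change of coordinates -/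
structure Chg (U U' : Set (V n)) (φ : V n → V n) (h h' : Her n) : Prop where
  good : Good U h
  good' : Good U' h'
  maps : ∀ y ∈ U, φ y ∈ U'
  hol : ContDiffOn ℂ ∞ φ U
  eq : ∀ y ∈ U, ∀ u w, gm h false y u w = gm h' false (φ y) (Jc φ false y u) (Jc φ true y w)

theorem Jc_lin (φ : V n → V n) (b : Bool) (y : V n) : IsLinearMap ℂ (Jc φ b y) := by
  refine ⟨fun u v => ?_, fun c u => ?_⟩ <;> cases b <;> simp [Jc, cb]

theorem wv_coord (b b' : Bool) (v y : V n) (k : Fin n) :
    wv b v (fun z => cb b' z k) y = if b = b' then v k else 0 := by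
  have e : ∀ b (v : V n), wv b v (fun z => z k) y = if b = false then v k else 0 := by
    intro b v
    have := (ContinuousLinearMap.proj (R := ℝ) (φ := fun _ : Fin n => ℂ) k).fderiv (x := y)
    rw [wv_eq, show (fun z : V n => z k) = ContinuousLinearMap.proj (R := ℝ)
      (φ := fun _ : Fin n => ℂ) k from rfl, this]
    cases b <;> simp [cb, sg, ← mul_assoc]
  cases b'
  · exact e b v
  · have := wv_conj (b := b) (a := star v) (f := fun z => z k) (y := y)
    rw [star_star, e] at this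
    refine this.trans ?_
    cases b <;> simp

theorem sm_coord (b : Bool) (k : Fin n) : Sm univ fun z : V n => cb b z k := by
  have : Sm univ fun z : V n => z k := (contDiff_apply ℝ ℂ k).contDiffOn
  cases b
  · exact this
  · exact this.conj

namespace Chg

variable (C : Chg U U' φ h h')
include C

theorem dAt (hy : y ∈ U) : DifferentiableAt ℂ φ y :=
  (C.hol.contDiffAt (C.good.isOpen.mem_nhds hy)).differentiableAt (by simp)

theorem comp {f : V n → ℂ} (hf : Sm U' f) : Sm U fun z => f (φ z) :=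
  hf.comp (C.hol.restrict_scalars ℝ) C.maps

theorem chain (hy : y ∈ U) {f : V n → ℂ} (hf : DifferentiableAt ℝ f (φ y)) (b : Bool) (a : V n) :
    wv b a (fun z => f (φ z)) y = wv b (Jc φ b y a) f (φ y) := by
  rw [wv_eq, wv_eq, Jc, cb_cb, fderiv_fun_comp y hf ((C.dAt hy).restrictScalars ℝ),
    (C.dAt hy).fderiv_restrictScalars ℝ]
  simp

theorem chain' (hy : y ∈ U) {f : V n → ℂ} (hf : Sm U' f) (b : Bool) (a : V n) :
    wv b a (fun z => f (φ z)) y = wv b (Jc φ b y a) f (φ y) :=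
  C.chain hy (hf.dAt C.good'.isOpen (C.maps y hy)) b a

theorem wv_co (hy : y ∈ U) (b b' : Bool) (u : V n) (k : Fin n) :
    wv b u (fun z => cb b' (φ z) k) y = if b = b' then Jc φ b y u k else 0 := by
  rw [C.chain hy ((sm_coord b' k).dAt isOpen_univ (mem_univ _)), wv_coord]

theorem sm_co (b : Bool) (k : Fin n) : Sm U fun z => cb b (φ z) k :=
  C.comp ((sm_coord b k).mono (subset_univ _))

theorem J_eq (hy : y ∈ U) (b : Bool) (u : V n) (k : Fin n) :
    Jc φ b y u k = wv b u (fun z => cb b (φ z) k) y := by rw [C.wv_co hy, if_pos rfl]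

theorem smJ (b : Bool) (u : V n) (k : Fin n) : Sm U fun z => Jc φ b z u k :=
  ((C.sm_co b k).wv C.good.isOpen b u).congr fun _ hz => C.J_eq hz b u k

theorem dJ (hy : y ∈ U) (b b' : Bool) (a u : V n) (k : Fin n) :
    wv b' a (fun z => Jc φ b z u k) y
      = wv b u (fun z => if b' = b then Jc φ b' z a k else 0) y := by
  rw [wv_congr_on C.good.isOpen hy fun z hz => C.J_eq hz b u k, wv_comm (C.sm_co b k)
    C.good.isOpen hy, wv_congr_on C.good.isOpen hy fun z hz => C.wv_co hz b' b a k]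

theorem dJ_bar (hy : y ∈ U) {b b' : Bool} (hb : b' ≠ b) (a u : V n) :
    (fun k => wv b' a (fun z => Jc φ b z u k) y) = 0 := by
  funext k; simp [C.dJ hy, hb]

theorem dJ_symm (hy : y ∈ U) (b : Bool) (a u : V n) :
    dv b a (fun z => Jc φ b z u) y = dv b u (fun z => Jc φ b z a) y := by
  funext k; simp [dv, C.dJ hy b b a u]

theorem gm_eq (hy : y ∈ U) (b : Bool) (u w : V n) :
    gm h b y u w = gm h' b (φ y) (Jc φ b y u) (Jc φ (!b) y w) := by
  cases b
  · exact C.eq y hy u w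
  · rw [← gm_swap, ← gm_swap (b := true)]; exact C.eq y hy w u

theorem surj (hy : y ∈ U) (b : Bool) : Surjective (Jc φ b y) :=
  (LinearMap.injective_iff_surjective (f := IsLinearMap.mk' _ (Jc_lin φ b y))).1
    fun u v e => C.good.gm_ext (b := b) hy fun w => by
      rw [C.gm_eq hy, C.gm_eq hy, show Jc φ b y u = Jc φ b y v from e]

theorem move (hy : y ∈ U) {Φ : V n → V n → ℂ} (hl : ∀ z ∈ U, IsLinearMap ℂ (Φ z))
    (hs : ∀ u, Sm U fun z => Φ z u) {b b' : Bool} (hb : b' ≠ b) (a u : V n) :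
    wv b' a (fun z => Φ z (Jc φ b z u)) y = wv b' a (fun z => Φ z (Jc φ b y u)) y := by
  rw [wv_lin_move C.good.isOpen hy hl hs (C.smJ b u), C.dJ_bar hy hb, (hl y hy).map_zero, zero_add]

theorem Gm_eq (hy : y ∈ U) (b : Bool) (a u : V n) :
    Jc φ b y (Gm h b y a u)
      = Gm h' b (φ y) (Jc φ b y a) (Jc φ b y u) + dv b a (fun z => Jc φ b z u) y := by
  refine C.good'.gm_ext (b := b) (C.maps y hy) fun w => ?_
  obtain ⟨w, rfl⟩ := C.surj hy (!b) w
  rw [← C.gm_eq hy, C.good.gm_G hy, wv_congr_on C.good.isOpen hy fun z hz => C.gm_eq hz b u w,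
    C.move hy (Φ := fun z w => gm h' b (φ z) (Jc φ b z u) w) (fun z _ => gm_lin2 _ _ _ _)
      (fun w => sm_lin (Φ := fun z u => gm h' b (φ z) u w) (fun z _ => gm_lin1 _ _ _ _)
        (fun u => C.comp (C.good'.gm_sm b u w)) (C.smJ b u)) (by simp),
    wv_lin_move C.good.isOpen hy (Φ := fun z u => gm h' b (φ z) u _) (fun z _ => gm_lin1 _ _ _ _)
      (fun u => C.comp (C.good'.gm_sm b u _)) (C.smJ b u), C.chain' hy (C.good'.gm_sm b _ _),
    (gm_lin1 h' b _ _).1, C.good'.gm_G (C.maps y hy), add_comm]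
  rfl

theorem Tor_eq (hy : y ∈ U) (b : Bool) (u v w : V n) :
    Tor h b y u v w = Tor h' b (φ y) (Jc φ b y u) (Jc φ b y v) (Jc φ (!b) y w) := by
  rw [Tor, Tor, C.gm_eq hy, (Jc_lin φ b y).map_sub, C.Gm_eq hy, C.Gm_eq hy, C.dJ_symm hy,
    add_sub_add_right_eq_sub]

theorem Rm_eq (hy : y ∈ U) (u k z l : V n) : Rm h y u k z l
    = Rm h' (φ y) (Jc φ false y u) (Jc φ false y k) (Jc φ true y z) (Jc φ true y l) := by
  rw [Rm, Rm, C.gm_eq hy]
  congr 2
  funext m
  have lm : ∀ {G : V n → V n}, IsLinearMap ℂ G → IsLinearMap ℂ fun u => G u m := fun hG =>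
    ⟨fun u v => by rw [hG.1]; rfl, fun c u => by rw [hG.2]; rfl⟩
  have s1 := fun a u => C.comp (C.good'.Gm_sm false a u m)
  have s2 := fun v => sm_lin (Φ := fun p a => Gm h' false (φ p) a v m)
    (fun p _ => lm (Gm_lin1 _ _ _ _)) (fun a => s1 a v) (C.smJ false u)
  have l2 := fun p (hp : p ∈ U) => lm (C.good'.Gm_lin2 (C.maps p hp) false (Jc φ false p u))
  have e1 := wv_lin_move (b := true) (a := z) C.good.isOpen hy (Φ := fun p v => Jc φ false p v m)
    (fun p _ => lm (Jc_lin φ false p)) (fun v => C.smJ false v m) (C.good.Gm_sm false u k)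
  rw [congrFun (C.dJ_bar hy (by simp) z _) m,
    wv_congr_on C.good.isOpen hy fun p hp => congrFun (C.Gm_eq hp false u k) m] at e1
  simp only [Pi.add_apply, dv] at e1
  rw [wv_add ((sm_lin l2 s2 (C.smJ false k)).dAt C.good.isOpen hy)
      (((C.smJ false k m).wv C.good.isOpen _ _).dAt C.good.isOpen hy),
    wv_comm (C.smJ false k m) C.good.isOpen hy,
    wv_congr_on C.good.isOpen hy fun p hp => congrFun (C.dJ_bar hp (by simp) z k) m,
    C.move hy l2 s2 (by simp), C.move hy (Φ := fun p a => Gm h' false (φ p) a _ m)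
      (fun p _ => lm (Gm_lin1 _ _ _ _)) (fun a => s1 a _) (by simp),
    C.chain' hy (C.good'.Gm_sm false _ _ m)] at e1
  rw [wv_const, Pi.zero_apply, add_zero, add_zero] at e1
  exact e1.symm

theorem cov_eq {X X' : V n → Tn n} (hX : IsT U' X')
    (e : ∀ y ∈ U, ∀ s, X y s = X' (φ y) (s.map fun x => (x.1, Jc φ x.1 y x.2))) (hy : y ∈ U)
    (s : List (Bool × V n)) :
    cov (Gm h) X y s = cov (Gm h') X' (φ y) (s.map fun x => (x.1, Jc φ x.1 y x.2)) := by
  rcases s with _ | ⟨⟨b, a⟩, s⟩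
  · rfl
  have hT : IsT U fun z => X' (φ z) := ⟨fun z hz => hX.ml _ (C.maps z hz), fun s => C.comp (hX.sm s)⟩
  rw [List.map_cons, cov_cons, cov_cons, wv_congr_on C.good.isOpen hy fun z hz => e z hz s,
    hT.wv_move C.good.isOpen hy (fl := Prod.fst) (u := fun z x => Jc φ x.1 z x.2) s
      fun x => C.smJ x.1 x.2, C.chain' hy (hX.sm _), funext (e y hy), act, act,
    dsum_pull (fun b => b) fun b => Jc φ b y, dsum_map,
    dsum_congr (u' := fun x : Bool × V n => Jc φ x.1 y (gf (Gm h) b y a x.1 x.2))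
      (u'' := fun x => gf (Gm h') b (φ y) (Jc φ b y a) x.1 (Jc φ x.1 y x.2)
        + fun k => wv b a (fun z => Jc φ x.1 z x.2 k) y) _ _ fun x _ => ?_,
    dsum_add (hX.ml _ (C.maps y hy))]
  · ring
  · unfold gf
    split_ifs with hb
    · rw [hb]; exact C.Gm_eq hy b a x.2
    · rw [C.dJ_bar hy (Ne.symm hb), (Jc_lin _ _ _).map_zero, add_zero]

theorem base_eq (hy : y ∈ U) (k : ℕ) (s : List (Bool × V n)) :
    base h c k y s = base h' c k (φ y) (s.map fun x => (x.1, Jc φ x.1 y x.2)) := by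
  have e0 : ∀ z : ℂ, ar0 z s = ar0 z (s.map fun x => (x.1, Jc φ x.1 y x.2)) := fun z => by
    cases s <;> rfl
  match k with
  | 0 =>
    rcases s with _ | ⟨p, _ | ⟨q, _ | ⟨r, _ | ⟨s, s1⟩⟩⟩⟩ <;>
      simp only [base, bT, ar3, List.map_cons, List.map_nil]
    refine if_ctx_congr Iff.rfl (fun hb => ?_) fun _ => rfl
    rw [C.Tor_eq hy, hb.1, hb.2]
  | 1 =>
    rcases s with _ | ⟨p, _ | ⟨q, _ | ⟨r, _ | ⟨s, _ | ⟨t, s1⟩⟩⟩⟩⟩ <;>
      simp only [base, bR, ar4, List.map_cons, List.map_nil]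
    refine if_ctx_congr Iff.rfl (fun hb => ?_) fun _ =>
      if_ctx_congr Iff.rfl (fun hb => ?_) fun _ => rfl
    all_goals rw [C.Rm_eq hy, hb.1, hb.2.1, hb.2.2.1, hb.2.2.2]
  | 2 => exact e0 _
  | 3 =>
    rcases s with _ | ⟨p, _ | ⟨q, _ | ⟨r, s1⟩⟩⟩ <;>
      simp only [base, bD, ar2, List.map_cons, List.map_nil]
    refine if_ctx_congr Iff.rfl (fun hb => ?_) fun _ => rfl
    rw [C.gm_eq hy, hb]
  | _ + 4 => exact e0 _

theorem ten_eq (k : ℕ) : ∀ y ∈ U, ∀ s,
    ten h c k y s = ten h' c k (φ y) (s.map fun x => (x.1, Jc φ x.1 y x.2)) := by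
  induction k using Nat.strong_induction_on with
  | _ k ih =>
    intro y hy s
    rcases lt_or_ge k 8 with hk | hk
    · simp only [ten, Nat.div_eq_of_lt hk, iterate_zero, id]
      exact C.base_eq hy _ s
    · obtain ⟨k, rfl⟩ := Nat.exists_eq_add_of_le' hk
      rw [ten_succ, ten_succ]
      exact C.cov_eq (C.good'.isT k) (ih k (by omega)) hy s

theorem prG_eq (hy : y ∈ U) (t : Tm) (ι : Asg n) : prG (ten h c · y) t ι
    = prG (ten h' c · (φ y)) t ((fun x b => Jc φ b y (x b)) ∘ ι) := by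
  simp only [prG, C.ten_eq _ y hy, List.map_map, comp_def]

theorem dual (hy : y ∈ U) {e : Fr n} (D : Dual h y e) :
    Dual h' (φ y) ((fun x b => Jc φ b y (x b)) ∘ e) := by
  intro u w
  obtain ⟨u, rfl⟩ := C.surj hy false u
  obtain ⟨w, rfl⟩ := C.surj hy true w
  simp only [comp_apply, ← C.eq y hy]
  exact D u w

end Chg

end Pool.Agent.Lib.MP_40b2af_gt
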