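import Mathlib
import Pool.Agent.Lib.MP_40b2af_gt.Term

set_option autoImplicit false

noncomputable section

namespace Pool.Agent.Lib.MP_40b2af_gt

open scoped ContDiff Topology ComplexConjugate Matrix ComplexOrder
open Set Filter Complex Function

variable {n : ℕ} {U : Set (V n)} {h : Her n} {y : V n} {c : ℝ}

theorem eG_nil (X : ℕ → Tn n) (e : Fr n) (ι : Asg n) : eG X e [] ι = 0 := rfl

theorem eG_cons (X : ℕ → Tn n) (e : Fr n) (x : ℤ × Tm) (Y : Ex) (ι : Asg n) :
    eG X e (x :: Y) ι = x.1 * Sv e (bv x.2) (prG X x.2) ι + eG X e Y ι := rfl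

theorem bv0 {t : Tm} (ht : ∀ v ∈ vars t, v < 8) : bv t = [] :=
  List.eq_nil_iff_forall_not_mem.2 fun v hv => by
    have := ht v (mem_bv.1 hv).1; have := (mem_bv.1 hv).2; omega

theorem bv1 {t : Tm} (ht : (∀ v ∈ vars t, v ≤ 8) ∧ 8 ∈ vars t) : bv t = [8] :=
  List.perm_singleton.1 ((List.perm_ext_iff_of_nodup (nodup_bv t) (List.nodup_singleton _)).2
    fun v => by
      rw [mem_bv, List.mem_singleton]
      exact ⟨fun h => le_antisymm (ht.1 v h.1) h.2, fun h => by subst h; exact ⟨ht.2, le_rfl⟩⟩)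

theorem ten_T (b : Bool) (u v w : V n) :
    ten h c 0 y [(b, u), (b, v), (!b, w)] = Tor h b y u v w := if_pos ⟨rfl, rfl⟩

theorem ten_T0 (u v w : V n) :
    ten h c 0 y [(false, u), (false, v), (true, w)] = Tor h false y u v w := ten_T false u v w

theorem ten_R (u v w z : V n) :
    ten h c 1 y [(false, u), (false, v), (true, w), (true, z)] = Rm h y u v w z := rfl

theorem ten_D (b : Bool) (u w : V n) : ten h c 3 y [(b, u), (!b, w)] = gm h b y u w := if_pos rfl

theorem ten_D0 (u w : V n) : ten h c 3 y [(false, u), (true, w)] = gm h false y u w :=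
  ten_D false u w

theorem ten_c : ten h c 2 y [] = c := rfl

theorem gf_same (G : Cn n) (b : Bool) (y a u : V n) : gf G b y a b u = G b y a u := if_pos rfl

theorem gf_ft (G : Cn n) (y a u : V n) : gf G false y a true u = 0 := rfl

theorem gf_tf (G : Cn n) (y a u : V n) : gf G true y a false u = 0 := rfl

/-- the (1,1) Bianchi identity -/
def rB3 : Ex := [(1, [(8, [(true, 0), (false, 1), (false, 2), (true, 3)])]),
  (-1, [(1, [(false, 2), (false, 1), (true, 0), (true, 3)])]),
  (1, [(1, [(false, 1), (false, 2), (true, 0), (true, 3)])])]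

theorem Good.rB3 (H : Good U h) : GV U h c rB3 := by
  intro y hy e _ ι
  have e1 := H.wv_Tor_bar (z := ι 0 true) (u := ι 1 false) (v := ι 2 false) (w := ι 3 true) hy
  simp (disch := decide) only [MP_40b2af_gt.rB3, eG_cons, eG_nil, bv0, Sv, prG_cons, prG_nil,
    List.map_cons, List.map_nil, ten_succ 0, cov_cons, act_cons, act_nil, ten_T0, ten_R, gf_tf,
    gf_same, (H.Tor_lin1 hy _ _ _).map_zero, (H.Tor_lin2 hy _ _ _).map_zero]
  push_cast
  linear_combination e1

theorem Dual.tor {e : Fr n} (D : Dual h y e) (H : Good U h) (hy : y ∈ U) {φ : V n → ℂ}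
    (hφ : IsLinearMap ℂ φ) (u v : V n) : ∑ i, Tor h false y u v (e i true) * φ (e i false)
      = φ (Gm h false y u v - Gm h false y v u) := D.lin H hy hφ false _

/-- the first Bianchi identity -/
def rB1 : Ex := [(1, [(8, [(false, 0), (false, 1), (false, 2), (true, 3)])]),
  (1, [(8, [(false, 1), (false, 2), (false, 0), (true, 3)])]),
  (1, [(8, [(false, 2), (false, 0), (false, 1), (true, 3)])]),
  (1, [(0, [(false, 0), (false, 1), (true, 8)]), (0, [(false, 8), (false, 2), (true, 3)])]),
  (1, [(0, [(false, 1), (false, 2), (true, 8)]), (0, [(false, 8), (false, 0), (true, 3)])]),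
  (1, [(0, [(false, 2), (false, 0), (true, 8)]), (0, [(false, 8), (false, 1), (true, 3)])])]

theorem Good.rB1 (H : Good U h) : GV U h c rB1 := by
  intro y hy e D ι
  have e1 := H.bianchi1 hy false (ι 0 false) (ι 1 false) (ι 2 false) (ι 3 true)
  simp (disch := decide) only [MP_40b2af_gt.rB1, eG_cons, eG_nil, bv0, bv1, Sv, prG_cons, prG_nil,
    List.map_cons, List.map_nil, ten_succ 0, cov_cons, act_cons, act_nil, ten_T0, gf_ft,
    gf_same, (Tor_lin3 h _ y _ _).map_zero, update_self, update_of_ne, mul_one,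
    D.tor H hy (H.Tor_lin1 hy _ _ _)]
  push_cast
  linear_combination e1

/-- the second Bianchi identity -/
def rB2 : Ex := [(1, [(9, [(false, 0), (false, 1), (false, 2), (true, 3), (true, 4)])]),
  (-1, [(9, [(false, 1), (false, 0), (false, 2), (true, 3), (true, 4)])]),
  (1, [(0, [(false, 0), (false, 1), (true, 8)]),
    (1, [(false, 8), (false, 2), (true, 3), (true, 4)])])]

theorem Good.rB2 (H : Good U h) : GV U h c rB2 := by
  intro y hy e D ι
  have e1 := H.bianchi2 hy (ι 0 false) (ι 1 false) (ι 2 false) (ι 3 true) (ι 4 true)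
  simp (disch := decide) only [MP_40b2af_gt.rB2, eG_cons, eG_nil, bv0, bv1, Sv, prG_cons, prG_nil,
    List.map_cons, List.map_nil, ten_succ 1, cov_cons, act_cons, act_nil, ten_T0, ten_R, gf_ft,
    gf_same, (Rm_lin3 h y _ _ _).map_zero, (Rm_lin4 h y _ _ _).map_zero, update_self,
    update_of_ne, mul_one, D.tor H hy (H.Rm_lin1 hy _ _ _)]
  push_cast
  linear_combination e1

theorem map_up {l : List Sl} (hl : ∀ s ∈ l, s.2 < 8) (ι : Asg n) (x : Bool → V n) :
    (l.map fun s => (s.1, update ι 8 x s.2 s.1)) = l.map fun s => (s.1, ι s.2 s.1) :=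
  List.map_congr_left fun s hs => by rw [update_of_ne (hl s hs).ne]

/-- commutation of two derivatives of type (1,0) -/
def rC1 (k : ℕ) (s : List Sl) : Ex := [(1, [(k + 16, (false, 0) :: (false, 1) :: s)]),
  (-1, [(k + 16, (false, 1) :: (false, 0) :: s)]),
  (1, [(0, [(false, 0), (false, 1), (true, 8)]), (k + 8, (false, 8) :: s)])]

theorem Good.rC1 (H : Good U h) (k : ℕ) {s : List Sl} (hs : ∀ x ∈ s, x.2 < 8) :
    GV U h c (rC1 k s) := by
  intro y hy e D ι
  have e1 := (H.isT (c := c) k).cov_cov H.isC hy false false (ι 0 false) (ι 1 false)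
    (s.map fun s => (s.1, ι s.2 s.1))
  have hl := ((H.isT (c := c) (k + 8)).ml y hy).head false (s.map fun s => (s.1, ι s.2 s.1))
  rw [act, dsum_congr (u'' := fun _ => 0) _ _ fun x _ => ?_, dsum_zero ((H.isT k).ml y hy),
    ← ten_succ, ← ten_succ, gf_same, gf_same] at e1
  · rw [MP_40b2af_gt.rC1, eG_cons, eG_cons, eG_cons, bv0, bv0, bv1]
    · simp (disch := decide) only [eG_nil, Sv, prG_cons, prG_nil, List.map_cons, List.map_nil,
        ten_T0, update_self, update_of_ne, mul_one, map_up hs, D.tor H hy hl, hl.map_sub]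
      push_cast
      linear_combination e1
    · simpa using fun a hb => Or.elim hb (fun h => (hs (false, a) h).le) fun h => (hs (true, a) h).le
    all_goals simpa using fun a hb => Or.elim hb (hs (false, a)) (hs (true, a))
  · obtain ⟨_ | _, u⟩ := x
    · have := H.flat hy false (ι 0 false) (ι 1 false) u
      simp only [gf_same]
      exact sub_eq_zero.2 (sub_eq_sub_iff_add_eq_add.2 (this.trans (add_comm _ _)))
    · simp [gf_ft]

/-- curvature terms -/
def c2E (k : ℕ) : List Sl → List Sl → Ex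
  | _, [] => []
  | pre, s :: post => (cond s.1
      (-1, [(1, [(false, 0), (false, 8), (true, 1), (true, s.2)]), (k, pre ++ (true, 8) :: post)])
      (1, [(1, [(false, 0), (false, s.2), (true, 1), (true, 8)]), (k, pre ++ (false, 8) :: post)]))
      :: c2E k (pre ++ [s]) post

/-- commutation of two derivatives of opposite types -/
def rC2 (k : ℕ) (s : List Sl) : Ex := (1, [(k + 16, (false, 0) :: (true, 1) :: s)])
  :: (-1, [(k + 16, (true, 1) :: (false, 0) :: s)]) :: c2E k [] s

theorem Dual.c2E {e : Fr n} (D : Dual h y e) (H : Good U h) (hy : y ∈ U) (k : ℕ) (ι : Asg n)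
    (pre post : List Sl) (hs : ∀ x ∈ pre ++ post, x.2 < 8) :
    eG (ten h c · y) e (c2E k pre post) ι
      = act (fun b u => bif b then Kv h true y (ι 1 true) u (ι 0 false)
          else - Kv h false y (ι 0 false) u (ι 1 true))
        (fun s => ten h c k y ((pre.map fun s => (s.1, ι s.2 s.1)) ++ s))
        (post.map fun s => (s.1, ι s.2 s.1)) := by
  induction post generalizing pre with
  | nil => rfl
  | cons x post ih =>
    obtain ⟨b, v⟩ := x
    have h1 : ∀ x ∈ pre, x.2 < 8 := fun x hx => hs x (by simp [hx])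
    have h2 : ∀ x ∈ post, x.2 < 8 := fun x hx => hs x (by simp [hx])
    have h3 : v < 8 := hs (b, v) (by simp)
    have hl := (H.isT (c := c) k).ml y hy (pre.map fun s => (s.1, ι s.2 s.1)) b
      (post.map fun s => (s.1, ι s.2 s.1))
    rw [MP_40b2af_gt.c2E, eG_cons, ih _ (by simpa using hs), List.map_cons, act_cons, bv1]
    · congr 1
      · rw [← D.lin H hy hl b]
        cases b <;> simp (disch := omega) only [cond_true, cond_false, Sv, prG_cons, prG_nil,
          List.map_cons, List.map_nil, List.map_append, ten_R, update_self, update_of_ne, mul_one,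
          map_up h1, map_up h2, Bool.not_true, Bool.not_false]
        · simp only [Rm, (gm_lin1 h false y _).map_neg]
          simp
        · simp [H.gm_Kv_true hy]
      · simp
    · cases b <;> simpa [or_imp, forall_and, h3.le] using
        ⟨⟨fun a hb => (h1 _ hb).le, fun a hb => (h1 _ hb).le⟩, fun a hb => (h2 _ hb).le,
          fun a hb => (h2 _ hb).le⟩

theorem Good.rC2 (H : Good U h) (k : ℕ) {s : List Sl} (hs : ∀ x ∈ s, x.2 < 8) :
    GV U h c (rC2 k s) := by
  intro y hy e D ι
  have e1 := (H.isT (c := c) k).cov_cov H.isC hy false true (ι 0 false) (ι 1 true)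
    (s.map fun s => (s.1, ι s.2 s.1))
  have hl := fun b =>
    (((H.isT (c := c) (k + 8)).ml y hy).head b (s.map fun s => (s.1, ι s.2 s.1))).map_zero
  rw [← ten_succ, ← ten_succ, gf_tf, gf_ft, hl, hl] at e1
  rw [MP_40b2af_gt.rC2, eG_cons, eG_cons, bv0, bv0, D.c2E H hy k ι [] s hs]
  · simp only [Sv, prG_cons, prG_nil, List.map_cons, List.map_nil, List.nil_append]
    rw [act, dsum_congr (u'' := fun x => bif x.1 then Kv h true y (ι 1 true) x.2 (ι 0 false)
      else - Kv h false y (ι 0 false) x.2 (ι 1 true)) _ _ fun x _ => ?_] at e1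
    · rw [act]
      push_cast
      linear_combination e1
    · obtain ⟨_ | _, u⟩ := x <;> funext m <;>
        simp [gf_same, gf_tf, gf_ft, (H.Gm_lin2 hy _ _).map_zero, Kv, dv]
  all_goals simpa using fun a hb => Or.elim hb (hs (false, a)) (hs (true, a))

theorem polar {S : V n → V n → V n → V n → ℂ} (l1 : ∀ k z l, IsLinearMap ℂ fun u => S u k z l)
    (l3 : ∀ u k l, IsLinearMap ℂ fun z => S u k z l) (s1 : ∀ u k z l, S k u z l = S u k z l)
    (s3 : ∀ u k z l, S u k l z = S u k z l) (h0 : ∀ x, S x x (star x) (star x) = 0)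
    (u k z l : V n) : S u k z l = 0 := by
  have l2 : ∀ u z l, IsLinearMap ℂ fun k => S u k z l := fun u z l => by
    simp only [s1 _ u]; exact l1 u z l
  have l4 : ∀ u k z, IsLinearMap ℂ fun l => S u k z l := fun u k z => by
    simp only [s3 u k _ z]; exact l3 u k z
  have q : ∀ x w, S x x w w = 0 := by
    intro x w
    have e := fun t : ℂ => h0 (x + t • star w)
    simp only [star_add, star_smul, star_star, (l1 _ _ _).1, (l2 _ _ _).1, (l3 _ _ _).1,
      (l4 _ _ _).1, (l1 _ _ _).2, (l2 _ _ _).2, (l3 _ _ _).2, (l4 _ _ _).2, smul_eq_mul,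
      s1 x (star w), s3 _ _ (star x) w, h0 x] at e
    have e1 := e 1
    have e2 := e (-1)
    have e3 := e I
    have e4 := e (-I)
    have e5 := e (1 + I)
    have e6 := e (-1 - I)
    have e7 := e (1 - I)
    have e8 := e (-1 + I)
    simp only [star_one, star_neg, star_add, star_sub, star_def, conj_I] at e1 e2 e3 e4 e5 e6 e7 e8
    linear_combination (norm := (ring_nf; simp only [I_sq, I_pow_four]; ring))
      (e1 + e2 - e3 - e4) / 8 + I * (e5 + e6 - e7 - e8) / 16
  have q2 : ∀ u k w, S u k w w = 0 := by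
    intro u k w
    have e := q (u + k) w
    simp only [(l1 _ _ _).1, (l2 _ _ _).1, q, s1 u k] at e
    linear_combination e / 2
  have e := q2 u k (z + l)
  simp only [(l3 _ _ _).1, (l4 _ _ _).1, q2, s3 u k z l] at e
  linear_combination e / 2

/-- constant holomorphic sectional curvature -/
def rH : Ex := [(1, [(1, [(false, 0), (false, 1), (true, 2), (true, 3)])]),
  (1, [(1, [(false, 0), (false, 1), (true, 3), (true, 2)])]),
  (1, [(1, [(false, 1), (false, 0), (true, 2), (true, 3)])]),
  (1, [(1, [(false, 1), (false, 0), (true, 3), (true, 2)])]),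
  (-2, [(3, [(false, 0), (true, 2)]), (3, [(false, 1), (true, 3)]), (2, [])]),
  (-2, [(3, [(false, 0), (true, 3)]), (3, [(false, 1), (true, 2)]), (2, [])])]

/-- the curvature condition on an open set -/
def HSC (U : Set (V n)) (h : Her n) (c : ℝ) : Prop :=
  ∀ y ∈ U, ∀ x, Rm h y x x (star x) (star x) = c * gm h false y x (star x) ^ 2

theorem HSC.rH (hc : HSC U h c) (H : Good U h) : GV U h c rH := by
  intro y hy e _ ι
  have e1 := polar (S := fun u k z l => Rm h y u k z l + Rm h y u k l z + Rm h y k u z l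
      + Rm h y k u l z - 2 * c * (gm h false y u z * gm h false y k l
        + gm h false y u l * gm h false y k z))
    (fun k z l => ⟨fun _ _ => by
      simp only [(H.Rm_lin1 hy _ _ _).1, (H.Rm_lin2 hy _ _ _).1, (gm_lin1 h _ y _).1]; ring,
      fun _ _ => by
      simp only [(H.Rm_lin1 hy _ _ _).2, (H.Rm_lin2 hy _ _ _).2, (gm_lin1 h _ y _).2, smul_eq_mul]
      ring⟩)
    (fun k z l => ⟨fun _ _ => by
      simp only [(Rm_lin3 h y _ _ _).1, (Rm_lin4 h y _ _ _).1, (gm_lin2 h _ y _).1]; ring,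
      fun _ _ => by
      simp only [(Rm_lin3 h y _ _ _).2, (Rm_lin4 h y _ _ _).2, (gm_lin2 h _ y _).2, smul_eq_mul]
      ring⟩)
    (fun _ _ _ _ => by ring) (fun _ _ _ _ => by ring) (fun x => by rw [hc y hy]; ring)
    (ι 0 false) (ι 1 false) (ι 2 true) (ι 3 true)
  simp (disch := decide) only [MP_40b2af_gt.rH, eG_cons, eG_nil, bv0, Sv, prG_cons, prG_nil,
    List.map_cons, List.map_nil, ten_R, ten_D0, ten_c]
  push_cast
  linear_combination e1

/-- unitary frames -/
def Uni (h : Her n) (y : V n) (e : Fr n) : Prop :=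
  Dual h y e ∧ (∀ i, e i true = star (e i false))
    ∧ ∀ i j, gm h false y (e i false) (e j true) = if i = j then 1 else 0

/-- components in a unitary frame -/
def Good.alg (H : Good U h) (hy : y ∈ U) (c : ℝ) {e : Fr n} (he : Uni h y e) : Alg n where
  C k s := ten h c k y (s.map fun x => (x.1, e x.2 x.1))
  c := c
  sw j s := by rw [swT_map]; exact H.sw j y hy _
  rs j s := by rw [swR_map]; exact H.rs j y hy _
  cj k s := by
    rw [← H.cj k y hy, List.map_map, List.map_map]
    congr 1
    refine List.map_congr_left fun x _ => ?_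
    obtain ⟨_ | _, i⟩ := x <;> simp [he.2.1]
  dl b i j := by
    refine (ten_D b _ _).trans ?_
    cases b
    · exact he.2.2 i j
    · rw [← gm_swap]; exact (he.2.2 j i).trans (by simp only [eq_comm])
  cc := rfl

theorem Good.alg_Sv (H : Good U h) (hy : y ∈ U) {e : Fr n} (he : Uni h y e) (l : List ℕ) (t : Tm)
    (ι : ℕ → Fin n) :
    Sv id l (pr (H.alg hy c he) t) ι = Sv e l (prG (ten h c · y) t) (e ∘ ι) := by
  refine Eq.trans ?_ (Sv_frame (e := id) e l _ ι).symm
  congr 1
  funext u
  simp [pr, prG, fv, Good.alg, comp_def]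

theorem GV.pv [NeZero n] {Y : Ex} (hY : GV U h c Y) (H : Good U h) (hy : y ∈ U) {e : Fr n}
    (he : Uni h y e) {k : ℕ} (hk : ∀ x ∈ Y, WG k x.2) : PV (H.alg hy c he) Y :=
  ⟨⟨k, hk⟩, fun ι => by
    simpa only [eF, vF, H.alg_Sv, eG] using hY y hy e he.1 (e ∘ ι)⟩

theorem exists_uni (hp : (h y).PosDef) : ∃ e, Uni h y e := by
  open scoped MatrixOrder Matrix.Norms.L2Operator in
  obtain ⟨B, hB, e⟩ := CStarAlgebra.isStrictlyPositive_iff_eq_star_mul_self.1
    (Matrix.isStrictlyPositive_iff_posDef.2 hp)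
  have hd := (Matrix.isUnit_iff_isUnit_det B).1 hB
  have e1 : (B⁻¹)ᴴ * h y * B⁻¹ = 1 := by
    rw [e, Matrix.star_eq_conjTranspose, ← Matrix.mul_assoc, ← Matrix.conjTranspose_mul,
      Matrix.mul_assoc, Matrix.mul_nonsing_inv _ hd]
    simp
  have e2 : h y * B⁻¹ * ((B⁻¹)ᴴ * h y) = h y := by
    rw [← Matrix.mul_assoc, mul_eq_one_comm.1 ((Matrix.mul_assoc _ _ _).symm.trans e1),
      Matrix.one_mul]
  refine ⟨fun i b => bif b then (B⁻¹)ᵀ i else (B⁻¹)ᴴ i, fun u w => ?_, fun i => ?_, fun i j => ?_⟩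
  · simp only [gm_eq, hm, cond_true, cond_false]
    conv_rhs => rw [← e2, ← Matrix.vecMul_vecMul, ← Matrix.dotProduct_mulVec, ← Matrix.vecMul_vecMul,
      ← Matrix.mulVec_mulVec]
    refine Finset.sum_congr rfl fun i _ => ?_
    rw [← Matrix.dotProduct_mulVec _ (h y) w]
    rfl
  · funext k; simp
  · simp only [gm_eq, hm, cond_true, cond_false]
    exact (congrFun (congrFun e1 i) j).trans (Matrix.one_apply)

end Pool.Agent.Lib.MP_40b2af_gt
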