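import Mathlib
import Pool.Agent.Lib.MP_40b2af_gt.Chg
import Pool.Agent.Lib.MP_40b2af_gt.Rel

set_option autoImplicit false

noncomputable section

namespace Pool.Agent.Lib.MP_40b2af_gt

open scoped ContDiff Topology ComplexConjugate Matrix
open Set Filter Complex Function

variable {n : ℕ} {U U' : Set (V n)} {h h' : Her n} {φ : V n → V n} {y : V n} {c : ℝ}

/-- the coordinate frame and its dual -/
def fr (h : Her n) (y : V n) : Fr n := fun i b => bif b then Pi.single i 1 else (h y)⁻¹ i

theorem Good.fr_vecMul (H : Good U h) (hy : y ∈ U) (i : Fin n) :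
    (h y)⁻¹ i ᵥ* h y = Pi.single i 1 := by
  funext k
  have := congrFun (congrFun (Matrix.nonsing_inv_mul _ (isUnit_iff_ne_zero.2 (H.det y hy))) i) k
  rw [Matrix.one_apply] at this
  rw [Pi.single_apply]
  exact this.trans (by simp only [eq_comm])

theorem Good.dual (H : Good U h) (hy : y ∈ U) : Dual h y (fr h y) := by
  intro u w
  simp [gm_eq, fr, hm, H.fr_vecMul hy, dotProduct, Pi.single_apply]

theorem Good.tp_fr (H : Good U h) (hy : y ∈ U) (z : V n) : tp h y z ∘ fr h y = fr h z := by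
  funext i b
  cases b
  · simp only [comp_apply, tp, fr, cond_false, H.fr_vecMul hy, Matrix.single_one_vecMul]; rfl
  · rfl

theorem tp_zero (h : Her n) (y z : V n) : tp h y z ∘ (0 : Asg n) = 0 := by
  funext v b
  cases b <;> simp [tp]

theorem Good.sm_Sv_fr (H : Good U h) (l : List ℕ) {F : V n → Asg n → ℂ}
    (hF : ∀ ι : V n → Asg n, (∀ v b k, Sm U fun z => ι z v b k) → Sm U fun z => F z (ι z)) :
    Sm U fun z => Sv (fr h z) l (F z) 0 := by
  intro y hy
  have := sm_Sv (fr h y) l (fun u => hF (fun z => tp h y z ∘ u) fun v => H.tp_sm (y := y) _) 0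
  simp only [← Sv_frame, H.tp_fr hy, tp_zero] at this
  exact this y hy

/-- full contraction in a chart -/
def vG (h : Her n) (c : ℝ) (t : Tm) (y : V n) : ℂ :=
  Sv (fr h y) (vars t).dedup (prG (ten h c · y) t) 0

theorem Good.sm_vG (H : Good U h) (t : Tm) : Sm U (vG h c t) :=
  H.sm_Sv_fr _ fun _ hι => H.sm_prG t hι

theorem vG_eq {t : Tm} {l : List ℕ} (hl : l.Nodup) (e : ∀ v, v ∈ l ↔ v ∈ vars t) :
    vG h c t y = Sv (fr h y) l (prG (ten h c · y) t) 0 := by
  rw [vG, Sv_perm ((List.perm_ext_iff_of_nodup (List.nodup_dedup _) hl).2 fun v => by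
    rw [List.mem_dedup, e])]

/-- each variable occurs once with each flag -/
def Wf (t : Tm) : Prop := ∀ v ∈ vars t, ∀ b, (slots t).count (b, v) = 1

theorem Dual.vG {e : Fr n} (D : Dual h y e) (H : Good U h) (hy : y ∈ U) {t : Tm} (ht : Wf t)
    (ι : Asg n) : Sv e (vars t).dedup (prG (ten h c · y) t) ι = vG h c t y := by
  rw [D.Sv_eq (H.dual hy) H hy (List.nodup_dedup _) fun v hv =>
    bil_prG (fun k => (H.isT k).ml y hy) (ht v (List.mem_dedup.1 hv))]
  exact (prG_dp _ t).Sv _ _ _ fun v hv => absurd (List.mem_dedup.2 hv.1) hv.2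

theorem Good.val_alg [NeZero n] (H : Good U h) (hy : y ∈ U) {e : Fr n} (he : Uni h y e) {t : Tm}
    (ht : Wf t) : val (H.alg hy c he) t = vG h c t y := by
  rw [val, H.alg_Sv, he.1.vG H hy ht]

theorem Chg.vG (C : Chg U U' φ h h') (hy : y ∈ U) {t : Tm} (ht : Wf t) :
    vG h c t y = vG h' c t (φ y) := by
  rw [MP_40b2af_gt.vG, funext (C.prG_eq hy t), ← Sv_frame]
  exact (C.dual hy (C.good.dual hy)).vG C.good' (C.maps y hy) ht _

/-- one free slot -/
def W1 (W : Tm) (a : ℕ) : Prop :=
  (slots W).count (true, a) = 1 ∧ (false, a) ∉ slots W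
    ∧ ∀ v ∈ vars W, v ≠ a → ∀ b, (slots W).count (b, v) = 1

/-- the vector field of a product with one free slot -/
def vW (h : Her n) (c : ℝ) (W : Tm) (a : ℕ) (y : V n) : V n := fun k =>
  Sv (fr h y) (vars W).dedup (fun ι => prG (ten h c · y) W ι * ι a false k) 0

theorem Good.sm_vW (H : Good U h) (W : Tm) (a : ℕ) (k : Fin n) : Sm U fun y => vW h c W a y k :=
  H.sm_Sv_fr _ fun _ hι => (H.sm_prG W hι).mul (hι a false k)

theorem Sv_fsum {α κ : Type} (e : Fin n → α) (s : Finset κ) (l : List ℕ) (F : κ → (ℕ → α) → ℂ)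
    (u : ℕ → α) : Sv e l (fun u => ∑ k ∈ s, F k u) u = ∑ k ∈ s, Sv e l (F k) u := by
  induction l generalizing u with
  | nil => rfl
  | cons v l ih => simp only [Sv, ih]; exact Finset.sum_comm

theorem Chg.vW (C : Chg U U' φ h h') (hy : y ∈ U) {W : Tm} {a : ℕ} (hW : W1 W a) :
    Jc φ false y (vW h c W a y) = vW h' c W a (φ y) := by
  funext m
  have lm : IsLinearMap ℂ fun u => Jc φ false y u m :=
    ⟨fun u v => by rw [(Jc_lin _ _ _).1]; rfl, fun c u => by rw [(Jc_lin _ _ _).2]; rfl⟩
  have ml := fun k => (C.good'.isT (c := c) k).ml _ (C.maps y hy)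
  rw [lin_expand lm, MP_40b2af_gt.vW, ← (C.dual hy (C.good.dual hy)).Sv_eq
    (C.good'.dual (C.maps y hy)) C.good' (C.maps y hy) (List.nodup_dedup _) fun v hv ι b => ?_,
    show (0 : Asg n) = (fun x b => Jc φ b y (x b)) ∘ (0 : Asg n) from
      funext fun _ => funext fun b => (Jc_lin φ b y).map_zero.symm, Sv_frame]
  · simp only [MP_40b2af_gt.vW, mul_comm _ (Jc φ false y _ m), ← Sv_mul, ← Sv_fsum, C.prG_eq hy]
    congr 1
    funext ι
    rw [comp_apply, lin_expand lm (ι a false), Finset.mul_sum]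
    exact Finset.sum_congr rfl fun k _ => by ring
  · by_cases hv' : v = a
    · subst hv'
      cases b
      · simp only [prG_up hW.2.1, up_self, mul_comm (prG _ _ _)]
        exact lin_mul ⟨fun _ _ => rfl, fun _ _ => rfl⟩ _
      · simp only [up_ne (s := (false, v)) ι _ (by simp : (false, v) ≠ (true, v))]
        exact lin_mul (prG_lin ml hW.1 ι) _
    · simp only [up_ne (s := (false, a)) ι _ (by simp [Ne.symm hv'] : (false, a) ≠ (b, v))]
      exact lin_mul (prG_lin ml (hW.2.2 v (List.mem_dedup.1 hv) hv' b) ι) _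

theorem Good.div_core (H : Good U h) (hy : y ∈ U) {w : Fin n → V n → ℂ} (hw : ∀ i, Sm U (w i)) :
    ∑ k, wd false k (fun z => (h z).det * ∑ i, w i z * (h z)⁻¹ i k) y
      = (h y).det * (∑ i, wv false ((h y)⁻¹ i) (w i) y
        - ∑ i, ∑ j, Tor h false y ((h y)⁻¹ j) ((h y)⁻¹ i) (Pi.single j 1) * w i y) := by
  have d0 := (sm_det H.sm).dAt H.isOpen hy
  have d1 := fun i => (hw i).dAt H.isOpen hy
  have d2 := fun i k => (sm_inv H.sm H.det i k).dAt H.isOpen hy
  have d3 := fun i k => (H.sm i k).dAt H.isOpen hy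
  have e1 : ∀ i, ∑ k, wd false k (fun z => (h z)⁻¹ i k) y
      = - ∑ j, gm h false y (Gm h false y ((h y)⁻¹ j) ((h y)⁻¹ i)) (Pi.single j 1) := by
    intro i
    have := fun k => congrFun (H.tp_par hy (fr h y i) (Pi.single k 1) false) k
    simp only [← comp_apply (f := tp h y _), H.tp_fr hy, wv_single, gf_same, fr, cond_false,
      Pi.neg_apply] at this
    simp only [this, Finset.sum_neg_distrib, Gm, H.gm_G hy, wv_single]
    rw [Finset.sum_comm]
    simp only [wv, hm, cond_false, mul_comm ((h y)⁻¹ _ _)]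
  have e2 : ∀ u : V n, wv false u (fun z => (h z).det) y
      = (h y).det * ∑ j, gm h false y (Gm h false y u ((h y)⁻¹ j)) (Pi.single j 1) := by
    intro u
    have : ∀ j, gm h false y (Gm h false y u ((h y)⁻¹ j)) (Pi.single j 1)
        = ∑ q, (h y)⁻¹ j q * wv false u (fun z => h z q j) y := fun j => by
      rw [H.gm_G hy]
      simp only [gm, hm, cond_false, Pi.single_apply, mul_ite, mul_one, mul_zero,
        Finset.sum_ite_eq', Finset.mem_univ, if_true]
      rw [wv_sum fun q _ => (d3 q j).const_mul _]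
      simp only [wv_const_mul _ (d3 _ _)]
    simp only [this, wv, wd_det H.isOpen H.sm hy (H.det y hy), Finset.mul_sum]
    rw [Finset.sum_comm]
    refine Finset.sum_congr rfl fun _ _ => ?_
    rw [Finset.sum_comm]
    exact Finset.sum_congr rfl fun _ _ => Finset.sum_congr rfl fun _ _ => by ring
  have e3 : ∀ k, wd false k (fun z => (h z).det * ∑ i, w i z * (h z)⁻¹ i k) y
      = ∑ i, (w i y * ((h y)⁻¹ i k * wd false k (fun z => (h z).det) y)
        + (h y).det * ((h y)⁻¹ i k * wd false k (w i) y)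
        + (h y).det * w i y * wd false k (fun z => (h z)⁻¹ i k) y) := fun k => by
    rw [wd_mul d0 (DifferentiableAt.fun_sum fun i _ => (d1 i).fun_mul (d2 i _)),
      wd_sum fun i _ => (d1 i).fun_mul (d2 i _), Finset.mul_sum, Finset.mul_sum,
      ← Finset.sum_add_distrib]
    exact Finset.sum_congr rfl fun i _ => by rw [wd_mul (d1 _) (d2 _ _)]; ring
  rw [Finset.sum_congr rfl fun k _ => e3 k, Finset.sum_comm, ← Finset.sum_sub_distrib,
    Finset.mul_sum]
  refine Finset.sum_congr rfl fun i _ => ?_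
  have a2 := e2 ((h y)⁻¹ i)
  rw [wv] at a2
  simp only [Finset.sum_add_distrib, ← Finset.mul_sum, e1, a2, Tor, (gm_lin1 h false y _).map_sub,
    ← Finset.sum_mul, Finset.sum_sub_distrib, wv]
  ring

theorem wf_eta {W : Tm} {a r : ℕ} (hw : Wf (eta a r :: W)) : W1 W a ∧ r ∉ vars W ∧ r ≠ a := by
  have h1 := hw a (by simp [eta])
  have h2 := hw r (by simp [eta])
  have h3 := h1 false
  have h4 := h1 true
  have h5 := h2 false
  have h6 := h2 true
  have hr : r ≠ a := by
    rintro rfl
    simp [eta] at h3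
  simp [eta, hr, hr.symm, List.count_eq_zero] at h3 h4 h5 h6
  have h7 : r ∉ vars W := fun h => by
    obtain ⟨_ | _, h⟩ := mem_vars.1 h
    exacts [h5 h, h6 h]
  refine ⟨⟨h4, h3, fun v hv hva b => ?_⟩, h7, hr⟩
  have : v ≠ r := fun e => h7 (e ▸ hv)
  simpa [eta, List.count_cons, hva.symm, this.symm] using hw v (by simp [hv]) b

theorem W1.wf_dT {W t : Tm} {a : ℕ} (hW : W1 W a) (ht : t ∈ dT false a W) : Wf t := by
  intro v hv b
  rw [(vars_dT ht).count_eq, List.count_cons]
  by_cases hva : v = a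
  · subst hva
    cases b
    · simp [List.count_eq_zero.2 hW.2.1]
    · simp [hW.1]
  · simp [hW.2.2 v (((mem_vars_dT ht).1 hv).resolve_left hva) hva, Ne.symm hva]

theorem Good.div (H : Good U h) (hy : y ∈ U) {W : Tm} {a r : ℕ} (hw : Wf (eta a r :: W)) :
    ∑ k, wd false k (fun z => (h z).det * vW h c W a z k) y
      = (h y).det * (((dT false a W).map fun t => vG h c t y).sum - vG h c (eta a r :: W) y) := by
  obtain ⟨hW, hr, hra⟩ := wf_eta hw
  have ha : a ∈ vars W := mem_vars.2 ⟨true, List.count_pos_iff.1 (by rw [hW.1]; norm_num)⟩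
  set l := (vars W).dedup.erase a with hl
  have hm : ∀ v, v ∈ l ↔ v ≠ a ∧ v ∈ vars W := fun v => by
    rw [hl, (List.nodup_dedup _).mem_erase_iff, List.mem_dedup]
  have hn : l.Nodup := (List.nodup_dedup _).erase a
  have hal : a ∉ l := fun h => ((hm a).1 h).1 rfl
  let w : Fin n → V n → ℂ := fun i z =>
    Sv (fr h z) l (prG (ten h c · z) W) (update 0 a (fr h z i))
  have e0 : ∀ {y : V n}, y ∈ U → ∀ i, w i = fun z => Sv (tp h y z ∘ fr h y) l
      (prG (ten h c · z) W) (tp h y z ∘ update 0 a (fr h y i)) := fun {y} hy i => by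
    funext z
    rw [comp_update, tp_zero, ← comp_apply (f := tp h y z), H.tp_fr hy]
  have sw : ∀ i, Sm U (w i) := fun i y hy => by
    rw [e0 hy]
    simp only [Sv_frame]
    exact sm_Sv _ _ (fun u => H.sm_prG W (ι := fun z => tp h y z ∘ u) fun v => H.tp_sm _) _ y hy
  have e1 : ∀ z k, vW h c W a z k = ∑ i, w i z * (h z)⁻¹ i k := fun z k => by
    rw [vW, Sv_perm (List.perm_cons_erase (List.mem_dedup.2 ha)), Sv]
    refine Finset.sum_congr rfl fun i _ => ?_
    simp only [mul_comm (prG _ _ _)]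
    rw [Dp.Sv_mul (A := (· = a)) (G := fun ι : Asg n => ι a false k)
      (fun u u' e => by simp only [e a rfl]) (fun v hv e => hal (e ▸ hv)), update_self, mul_comm]
    rfl
  have e2 : ∑ i, wv false (fr h y i false) (w i) y = ((dT false a W).map fun t => vG h c t y).sum := by
    have := fun i => H.wv_Sv_prG (c := c) hy (fr h y) l W hal (update 0 a (fr h y i))
    simp only [update_self, ← e0 hy] at this
    rw [Finset.sum_congr rfl fun i _ => this i, List.map_congr_left fun t ht =>
      vG_eq (l := a :: l) (List.nodup_cons.2 ⟨hal, hn⟩) fun v => by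
        rw [mem_vars_dT ht, List.mem_cons, hm]; tauto]
    simp only [← Sv_sum]
    rfl
  have e3 : vG h c (eta a r :: W) y
      = ∑ i, ∑ j, Tor h false y ((h y)⁻¹ j) ((h y)⁻¹ i) (Pi.single j 1) * w i y := by
    have hrl : r ∉ l := fun h => hr ((hm r).1 h).2
    rw [vG_eq (l := a :: r :: l) (by simp [hra.symm, hal, hrl, hn]) fun v => by
      simp only [List.mem_cons, hm, vars_cons, eta, List.map_cons, List.map_nil, List.cons_append,
        List.nil_append]
      constructor
      · rintro (rfl | h | h) <;> simp [*]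
      · tauto]
    refine Finset.sum_congr rfl fun i _ => Finset.sum_congr rfl fun j _ => ?_
    rw [funext (prG_cons _ _ _), Dp.Sv_mul (A := fun v => v = a ∨ v = r)
      (fun u u' e => by simp only [eta, List.map_cons, e a (.inl rfl), e r (.inr rfl), List.map_nil])
      fun v hv e => e.elim (fun e => hal (e ▸ hv)) fun e => hrl (e ▸ hv)]
    simp only [eta, List.map_cons, List.map_nil, update_self, update_of_ne hra.symm, ten_T0]
    congr 1
    exact (prG_dp _ W).Sv l _ _ fun v hv => update_of_ne (by rintro rfl; exact hr hv.1) _ _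
  simp only [e1, H.div_core hy sw, ← e2, e3]
  rfl

end Pool.Agent.Lib.MP_40b2af_gt
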