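import Mathlib
import Pool.Agent.Lib.MP_40b2af_gt.Data1
import Pool.Agent.Lib.MP_40b2af_gt.Asm

set_option autoImplicit false
set_option maxRecDepth 100000

noncomputable section

namespace Pool.Agent.Lib.MP_40b2af_gt

def oF110 : List (Tm × List ℤ) := [([(3, [(false, 0), (true, 1)]), (5, [(false, 8), (true, 8)])], [-1]),
  ([(5, [(false, 0), (true, 1)])], [3])]

def gF11 : List (Tm × List ℤ) := [([(3, [(false, 0), (true, 1)]), (5, [(false, 8), (true, 8)])], [-1]),
  ([(5, [(false, 0), (true, 1)])], [3])]

def TF11 : Tr := .node (.leaf 2724222528 0) (.leaf 2730534464 0)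

theorem TF11_z : allZ TF11 = true := by decide +kernel

def rF110 : List ℕ := [49152, 139265]

theorem cF110 : chk 3 TF11 (psdG false F11 [3] [([(5, [(false, 0), (true, 1)])], [1])] [([(5, [(false, 0), (true, 1)])], [1])] [18446744073709551616] ++ rowsG [] [] false []) rF110 = true := by
  decide +kernel

def rF111 : List ℕ := [40960, 147457]

theorem cF111 : chk 3 TF11 (psdG false triv [-1] gF11 oF110 [1048576, 18446744073709584384] ++ rowsG [] [] false []) rF111 = true := by
  decide +kernel

theorem psdF11 : PSD 3 2 F11 := by
  refine psd_of_chk (fl := [false, true]) (by decide) (M := 3) (by decide) (gens := gF11)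
    (by decide +kernel) (by decide) fun A => ?_
  have H := hyp_pt (n := 3) TF11_z
  have e := ((H.psd cF110).add (H.psd cF111)).fin H (by decide +kernel) A
  exact e

def oF210 : List (Tm × List ℤ) := [([(3, [(false, 0), (true, 2)]), (5, [(false, 1), (false, 8), (true, 8)])], [-1]),
  ([(3, [(false, 0), (true, 2)]), (5, [(false, 8), (false, 1), (true, 8)])], [-1]),
  ([(3, [(false, 1), (true, 2)]), (5, [(false, 0), (false, 8), (true, 8)])], [-1]),
  ([(5, [(false, 0), (false, 1), (true, 2)])], [4]),
  ([(3, [(false, 1), (true, 2)]), (5, [(false, 8), (false, 0), (true, 8)])], [-1]),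
  ([(5, [(false, 1), (false, 0), (true, 2)])], [4])]

def gF21 : List (Tm × List ℤ) := [([(3, [(false, 0), (true, 2)]), (5, [(false, 1), (false, 8), (true, 8)])], [-1]),
  ([(3, [(false, 0), (true, 2)]), (5, [(false, 8), (false, 1), (true, 8)])], [-1]),
  ([(3, [(false, 1), (true, 2)]), (5, [(false, 0), (false, 8), (true, 8)])], [-1]),
  ([(5, [(false, 0), (false, 1), (true, 2)])], [4]),
  ([(3, [(false, 1), (true, 2)]), (5, [(false, 8), (false, 0), (true, 8)])], [-1]),
  ([(5, [(false, 1), (false, 0), (true, 2)])], [4])]

def TF21 : Tr := .node (.node (.node (.leaf 2767670567488 0) (.leaf 2772805378624 0)) (.leaf 2767771558464 0)) (.node (.leaf 2769281180224 0) (.leaf 2769584153152 0))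

theorem TF21_z : allZ TF21 = true := by decide +kernel

def rF210 : List ℕ := [262144, 131073, 131074, 516099, 516100]

theorem cF210 : chk 3 TF21 (psdG false F21 [8] [([(5, [(false, 0), (false, 1), (true, 2)])], [1])] [([(5, [(false, 0), (false, 1), (true, 2)])], [1])] [8543948143683645072424061985149573007897195350489476792018926268929846835480455426505967749038080] ++ rowsG [] [] false []) rF210 = true := by
  decide +kernel

def rF211 : List ℕ := [253952, 122881, 122882, 524291, 524292]

theorem cF211 : chk 3 TF21 (psdG false triv [-1] gF21 oF210 [4271974071842063946970366660567248705277517876859834768768800039555131931338146057983366829965314, 121416921556197304248661799024556675740095856469709298896752645492543922127091269632, 2257242747976068306196204478708633477182313497098129739836548448686289933058356907877999056234392584194, 8543948143683648866699242113526664647471232115174841339120156391905160851798890243934895130836992, 2135987035921031499316577903473800776395451977297006185039675527697908812010030738500625143693312, 6407961107762734041576037336123064178830829723705557487850968088800444424119802110542726144491522] ++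 rowsG [] [] false []) rF211 = true := by
  decide +kernel

theorem psdF21 : PSD 3 3 F21 := by
  refine psd_of_chk (fl := [false, false, true]) (by decide) (M := 8) (by decide) (gens := gF21)
    (by decide +kernel) (by decide) fun A => ?_
  have H := hyp_pt (n := 3) TF21_z
  have e := ((H.psd cF210).add (H.psd cF211)).fin H (by decide +kernel) A
  exact e

def oF1110 : List (Tm × List ℤ) := [([(3, [(false, 0), (true, 2)]), (5, [(false, 1), (false, 8), (true, 8)])], [1]),
  ([(3, [(false, 0), (true, 2)]), (5, [(false, 8), (false, 1), (true, 8)])], [-1]),
  ([(3, [(false, 1), (true, 2)]), (5, [(false, 0), (false, 8), (true, 8)])], [-1]),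
  ([(5, [(false, 0), (false, 1), (true, 2)])], [2]),
  ([(3, [(false, 1), (true, 2)]), (5, [(false, 8), (false, 0), (true, 8)])], [1]),
  ([(5, [(false, 1), (false, 0), (true, 2)])], [-2])]

def gF111 : List (Tm × List ℤ) := [([(3, [(false, 0), (true, 2)]), (5, [(false, 1), (false, 8), (true, 8)])], [1]),
  ([(3, [(false, 0), (true, 2)]), (5, [(false, 8), (false, 1), (true, 8)])], [-1]),
  ([(3, [(false, 1), (true, 2)]), (5, [(false, 0), (false, 8), (true, 8)])], [-1]),
  ([(5, [(false, 0), (false, 1), (true, 2)])], [2]),
  ([(3, [(false, 1), (true, 2)]), (5, [(false, 8), (false, 0), (true, 8)])], [1]),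
  ([(5, [(false, 1), (false, 0), (true, 2)])], [-2])]

def TF111 : Tr := .node (.node (.node (.leaf 2767670567488 0) (.leaf 2772805378624 0)) (.leaf 2767771558464 0)) (.node (.leaf 2769281180224 0) (.leaf 2769584153152 0))

theorem TF111_z : allZ TF111 = true := by decide +kernel

def rF1110 : List ℕ := [122880, 65537, 65538, 122883, 131076]

theorem cF1110 : chk 3 TF111 (psdG false F111 [4] [([(5, [(false, 0), (false, 1), (true, 2)])], [1])] [([(5, [(false, 0), (false, 1), (true, 2)])], [1])] [8543948143683645072424061985149573007897195350489476792018926268929846835480455426505967749038080] ++ rowsG [] [] false []) rF1110 = true := by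
  decide +kernel

def rF1111 : List ℕ := [131072, 57345, 57346, 131075, 122884]

theorem cF1111 : chk 3 TF111 (psdG false triv [-1] gF111 oF1110 [4271974071842063946970366660567248705277517876859834768768800039555131931338146057983366829965314, 121416921556197304248661799024556675740095856469709298896752645492543922127091269632, 2257242747976068306196204478708633477182313497098129739836548448686289933058356907877999056234392584194, 8543948143683648866699242113526664647471232115174841339120156391905160851798890243934895130836992, 2135987035921031499316577903473800776395451977297006185039675527697908812010030738500625143693312, 6407961107762734041576037336123064178830829723705557487850968088800444424119802110542726144491522] ++ rowsG [] [] false []) rF1111 = true := by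
  decide +kernel

theorem psdF111 : PSD 3 3 F111 := by
  refine psd_of_chk (fl := [false, false, true]) (by decide) (M := 4) (by decide) (gens := gF111)
    (by decide +kernel) (by decide) fun A => ?_
  have H := hyp_pt (n := 3) TF111_z
  have e := ((H.psd cF1110).add (H.psd cF1111)).fin H (by decide +kernel) A
  exact e


end Pool.Agent.Lib.MP_40b2af_gt
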