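import Mathlib
import Pool.Agent.Lib.MP_40b2af_gt.LB
import Pool.Agent.Lib.MP_40b2af_gt.Psd

set_option autoImplicit false
set_option maxRecDepth 100000

noncomputable section

namespace Pool.Agent.Lib.MP_40b2af_gt

open scoped ComplexConjugate ContDiff
open Function

/-- a scalar curvature -/
def tS : Tm := [(1, [(false, 3), (false, 4), (true, 3), (true, 4)])]

/-- the conjugate trace of the torsion -/
def tW : Tm := [(0, [(true, 2), (true, 0), (false, 2)])]

section General

variable {n : ℕ} [NeZero n]

theorem val_mul (A : Alg n) {a b : Tm} (h : ∀ v ∈ vars a, v ∉ vars b) :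
    val A (a ++ b) = val A a * val A b :=
  val_split (o := []) (la := (vars a).dedup) (lb := (vars b).dedup)
    ((List.nodup_append (l₁ := (vars a).dedup)).2 ⟨List.nodup_dedup _, List.nodup_dedup _,
      fun v hv _ hw e =>
      h v (List.mem_dedup.1 hv) (e ▸ List.mem_dedup.1 hw)⟩) (by simp)
    (fun v hv => h v (List.mem_dedup.1 hv)) fun v hv hw => h v hw (List.mem_dedup.1 hv)

theorem val_tS (A : Alg n) : ((val A tS).re : ℂ) = val A tS := by
  rw [← Complex.conj_eq_iff_re, ← val_flp]
  refine (val_congr (c := 1) (by simp [flp, tS]) fun ι => ?_).trans (one_mul _)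
  simpa [pr, fv, flp, tS, swR] using A.rs 0 [(false, ι 3), (false, ι 4), (true, ι 3), (true, ι 4)]

/-- weighted integration by parts -/
def WIBP {X : Type} (N : Nul X) (A : X → Alg n) : Prop :=
  ∀ φ : ℝ → ℝ, ContDiff ℝ ∞ φ → N.P fun x => φ (val (A x) tS).re * ev (A x) (ibpE tW 0 1 1)
    + deriv φ (val (A x) tS).re * (ev (A x) (ibpE (tS ++ tW) 0 1 1)
      - (val (A x) tS).re * ev (A x) (ibpE tW 0 1 1))

omit [NeZero n] in
theorem PV.single {A : Alg n} {t : Tm} (h : PV A [(1, t)]) (ht : ∀ v ∈ vars t, v < 8)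
    (ι : ℕ → Fin n) : pr A t ι = 0 := by
  have hb : bv t = [] := List.eq_nil_iff_forall_not_mem.2 fun v hv => by
    have := ht v (mem_bv.1 hv).1; have := (mem_bv.1 hv).2; omega
  simpa [eF, vF, hb, Sv] using h.2 ι

end General

variable {X : Type} {N : Nul X} {A : X → Alg 3}

theorem Hyp.pt {T T' : Tr} {rels : List Ex} {uses : List (ℕ × Form × Ex)} {ib : Bool}
    (H : Hyp N A T rels uses ib) (h0 : allZ T' = true) : Hyp (Nul.pt X) A T' rels [] false :=
  ⟨H.h1, by simp, by simp, h0⟩

theorem tor_zero (ha : ∀ x, psdV (A x) false triv w1a g1a g1a = 0)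
    (hc : ∀ x, psdV (A x) false F111 w1c g1c g1c = 0) (x : X) (h0 : (A x).c ≠ 0) (i j k : Fin 3) :
    (A x).C 0 [(false, i), (false, j), (true, k)] = 0 := by
  have e := lvT (N := Nul.pt X) (A := A) ⟨fun Y hY x => ?_, fun U hU x => ?_, by simp, TT_z⟩ x
  · have := (pv_of_psd (k := 3) (j := 0) (by decide) (by decide) (by decide) e (by decide)).single
      (by decide) fun v => if v = 0 then i else if v = 1 then j else k
    simpa [pr, fv, (A x).cc, h0] using this
  · rw [List.mem_singleton.1 hY]
    exact pv_of_psd (k := 1) (j := 0) (by decide) (by decide +kernel) (by decide +kernel) (ha x)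
      (by decide +kernel)
  · rw [List.mem_singleton.1 hU]
    exact uv_of_psd (j := 0) (by decide +kernel) psdF111 (by decide +kernel) (hc x)
      (by decide +kernel)

theorem hyp_W (h1 : ∀ Y ∈ rels1, ∀ x, PV (A x) Y) (h3 : IBP N A)
    (ha : ∀ x, psdV (A x) false triv w1a g1a g1a = 0)
    (hc : ∀ x, psdV (A x) false F111 w1c g1c g1c = 0) (h0 : ∀ x, (A x).c = 0) :
    ∀ Y ∈ relsW, ∀ x, PV (A x) Y := by
  have pa := fun x j => pv_of_psd (k := 1) (j := j) (by decide) (by decide +kernel)
    (by decide +kernel) (ha x)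
  have pc := fun x j => uv_of_psd (j := j) (by decide +kernel) psdF111 (by decide +kernel) (hc x)
  have hA : ∀ Y ∈ relsA, ∀ x, PV (A x) Y := by
    intro Y hY x
    rcases List.mem_append.1 hY with h | h
    · exact h1 Y h x
    simp only [List.mem_cons, List.not_mem_nil, or_false] at h
    rcases h with rfl | rfl | rfl | rfl | rfl | rfl
    · exact ⟨⟨0, by decide⟩, fun ι => by simp [eF, vF, bv, Sv, pr, fv, (A x).cc, h0]⟩
    · exact pa x 1 (by decide +kernel)
    · exact pa x 2 (by decide +kernel)
    · exact pa x 3 (by decide +kernel)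
    · exact pa x 4 (by decide +kernel)
    · exact pa x 5 (by decide +kernel)
  have hU : ∀ U ∈ usesA, ∀ x, UV (A x) U := by
    intro U hU x
    simp only [usesA, List.mem_cons, List.not_mem_nil, or_false] at hU
    rcases hU with rfl | rfl | rfl
    · exact pc x 1 (by decide +kernel)
    · exact pc x 2 (by decide +kernel)
    · exact pc x 3 (by decide +kernel)
  have p1 := fun x => (psdV_nonneg (A := A x) (k := 4) (gens := gAz) (cf := false) (w := wAz)
    (by decide) (psd_triv (by decide)) (by decide) zero_le_one).1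
  have p2 := fun x => (psdV_nonneg (A := A x) (k := 2) (gens := gAd) (cf := false) (w := wAd)
    (by decide) (psd_triv (by decide)) (by decide) zero_le_one).1
  have p3 := fun x => (psdV_nonneg (A := A x) (k := 4) (gens := gAe) (cf := false) (w := wAe)
    (by decide +kernel) (psd_triv (by decide)) (by decide) zero_le_one).1
  have e := N.pos _ (lvA ⟨hA, hU, fun _ => h3, TA_z⟩) fun x =>
    add_nonneg (add_nonneg (p1 x) (p2 x)) (p3 x)
  intro Y hY x
  rcases List.mem_append.1 hY with h | h
  · exact hA Y h x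
  · rw [List.mem_singleton.1 h]
    exact pv_of_psd (k := 4) (gens := gAz) (w := wAz) (j := 0) (by decide) (by decide) (by decide)
      (by linarith [e x, p1 x, p2 x, p3 x]) (by decide)

theorem curv_zero (hW : ∀ Y ∈ relsW, ∀ x, PV (A x) Y) (h3 : IBP N A) (hw : WIBP N A) (x : X)
    (i j k l : Fin 3) : (A x).C 1 [(false, i), (false, j), (true, k), (true, l)] = 0 := by
  set s := fun x => (val (A x) tS).re with hs
  set q := fun x => (val (A x) (eta 0 1 :: tW)).re with hq
  have p1 := fun x => (psdV_nonneg (A := A x) (k := 1) (gens := gNe) (cf := false) (w := wNe)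
    (by decide) (psd_triv (by decide)) (by decide) zero_le_one).1
  have e0 : ∀ x, psdV (A x) false triv wNe gNe gNe = 2 * q x := fun x => by
    have := lvN (N := Nul.pt X) (A := A) ⟨by simp, by simp, by simp, TN_z⟩ x
    simp only [eN, ev_cons, ev_nil] at this
    push_cast at this
    simp only [hq, eta, tW]
    linarith
  have e1 : ∀ x, ev (A x) (ibpE tW 0 1 1) = 2 * s x - q x := fun x => by
    have := lvW (N := Nul.pt X) (A := A) ⟨hW, by simp, by simp, TW_z⟩ x
    simp only [eW, ev_cons, ev_nil] at this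
    change ev (A x) [(-1, _), (1, [(8, [(false, 0), (true, 2), (true, 0), (false, 2)])])] = _
    simp only [hq, hs, eta, tW, tS, ev_cons, ev_nil]
    push_cast at this ⊢
    linarith
  have e2 : ∀ x, ev (A x) (ibpE (tS ++ tW) 0 1 1) = 2 * s x ^ 2 - s x * q x / 2 := fun x => by
    have := lvV (N := Nul.pt X) (A := A) ⟨hW, by simp, by simp, TV_z⟩ x
    have m1 := val_mul (A x) (a := tS) (b := ren (· + 2) tS) (by decide)
    have m2 := val_mul (A x) (a := tS) (b := eta 0 1 :: tW) (by decide)
    rw [val_ren (add_left_injective 2)] at m1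
    rw [← val_tS] at m1 m2
    have m3 := congrArg Complex.re m1
    have m4 := congrArg Complex.re m2
    simp only [Complex.re_ofReal_mul, Complex.ofReal_re] at m3 m4
    simp only [eV, ev_cons, ev_nil] at this
    change ev (A x) [(-1, _), (1, [(9, [(false, 0), (false, 3), (false, 4), (true, 3), (true, 4)]),
      (0, [(true, 2), (true, 0), (false, 2)])]), (1, [(1, [(false, 3), (false, 4), (true, 3),
      (true, 4)]), (8, [(false, 0), (true, 2), (true, 0), (false, 2)])])] = _
    simp only [hq, hs, eta, tW, tS, ev_cons, ev_nil, ren, List.map_cons, List.map_nil,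
      List.cons_append, List.nil_append] at m3 m4 ⊢
    push_cast at this ⊢
    linarith
  have hq0 : ∀ x, 0 ≤ q x := fun x => by linarith [e0 x, p1 x]
  have hg := fun t => ((expNegInvGlue.contDiff (n := 1)).differentiable (by simp) t).hasDerivAt
  have hd : ∀ t : ℝ, deriv (fun t => t ^ 2 * expNegInvGlue t) t
      = 2 * t * expNegInvGlue t + t ^ 2 * deriv expNegInvGlue t := fun t => by
    simpa using ((hasDerivAt_pow 2 t).fun_mul (hg t)).deriv
  have hs3 : ∀ t : ℝ, 0 ≤ t ^ 3 * deriv expNegInvGlue t ∧ 0 ≤ t ^ 3 * expNegInvGlue t := fun t => by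
    rcases lt_or_ge t 0 with h | h
    · rw [expNegInvGlue.zero_of_nonpos h.le, Filter.EventuallyEq.deriv_eq (f := fun _ => 0)
        (Filter.eventually_of_mem (Iio_mem_nhds h) fun u hu => expNegInvGlue.zero_of_nonpos
          (le_of_lt hu))]
      simp
    · exact ⟨mul_nonneg (by positivity) expNegInvGlue.monotone.deriv_nonneg,
        mul_nonneg (by positivity) (expNegInvGlue.nonneg t)⟩
  have e3 := N.pos _ (Nul.of_eq (g := fun x => 2 * (s x ^ 3 * expNegInvGlue (s x))
      + s x ^ 3 * deriv expNegInvGlue (s x) * q x / 2)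
    (hw (fun t => t ^ 2 * expNegInvGlue t) ((contDiff_id.pow 2).mul expNegInvGlue.contDiff))
    fun x => by rw [e1, e2, hd]; ring) fun x => by
      have := mul_nonneg (hs3 (s x)).1 (hq0 x)
      linarith [(hs3 (s x)).2]
  have hs0 : ∀ x, s x ≤ 0 := fun x => by
    by_contra h
    have h1 := mul_pos (pow_pos (not_le.1 h) 3) (expNegInvGlue.pos_of_pos (not_le.1 h))
    have := mul_nonneg (hs3 (s x)).1 (hq0 x)
    linarith [e3 x]
  have e4 := N.pos _ (Nul.of_eq (g := fun x => q x - 2 * s x) (N.smul (-1) _
    (h3 tW 0 1 (by decide))) fun x => by rw [e1]; ring) fun x => by linarith [hq0 x, hs0 x]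
  have p2 := fun x => (psdV_nonneg (A := A x) (k := 4) (gens := gFr) (cf := false) (w := wFr)
    (by decide) (psd_triv (by decide)) (by decide) zero_le_one).1
  have e5 := N.pos _ (lvF ⟨fun Y hY x => ?_, by simp, fun _ => h3, TF_z⟩) p2 x
  · have := (pv_of_psd (k := 4) (j := 0) (by decide) (by decide) (by decide) e5 (by decide)).single
      (by decide) fun v => if v = 0 then i else if v = 1 then j else if v = 2 then k else l
    simpa [pr, fv] using this
  · rcases List.mem_append.1 hY with h | h
    · exact hW Y h x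
    · rw [List.mem_singleton.1 h]
      exact pv_of_psd (k := 1) (gens := gNe) (w := wNe) (j := 0) (by decide) (by decide) (by decide)
        (by linarith [e0 x, e4 x, hq0 x, hs0 x]) (by decide)

end Pool.Agent.Lib.MP_40b2af_gt
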