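import Mathlib
import Pool.Agent.Lib.MP_40b2af_gt.Asm
import Pool.Agent.Lib.MP_40b2af_gt.C1Pa
import Pool.Agent.Lib.MP_40b2af_gt.C1Pb
import Pool.Agent.Lib.MP_40b2af_gt.C1Pc
import Pool.Agent.Lib.MP_40b2af_gt.C1Pd
import Pool.Agent.Lib.MP_40b2af_gt.C1Pe
import Pool.Agent.Lib.MP_40b2af_gt.C1Pf
import Pool.Agent.Lib.MP_40b2af_gt.C1R0
import Pool.Agent.Lib.MP_40b2af_gt.C1R1
import Pool.Agent.Lib.MP_40b2af_gt.C1R2
import Pool.Agent.Lib.MP_40b2af_gt.C1R3
import Pool.Agent.Lib.MP_40b2af_gt.C1R4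
import Pool.Agent.Lib.MP_40b2af_gt.C1R5
import Pool.Agent.Lib.MP_40b2af_gt.C1R6
import Pool.Agent.Lib.MP_40b2af_gt.C1R7
import Pool.Agent.Lib.MP_40b2af_gt.C1R8
import Pool.Agent.Lib.MP_40b2af_gt.C1R9
import Pool.Agent.Lib.MP_40b2af_gt.C1R10
import Pool.Agent.Lib.MP_40b2af_gt.C1R11
import Pool.Agent.Lib.MP_40b2af_gt.C1R12
import Pool.Agent.Lib.MP_40b2af_gt.C1R13
import Pool.Agent.Lib.MP_40b2af_gt.C1R14
import Pool.Agent.Lib.MP_40b2af_gt.C1R15
import Pool.Agent.Lib.MP_40b2af_gt.C1R16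
import Pool.Agent.Lib.MP_40b2af_gt.C1R17
import Pool.Agent.Lib.MP_40b2af_gt.C1R18

set_option autoImplicit false
set_option maxRecDepth 100000

noncomputable section

namespace Pool.Agent.Lib.MP_40b2af_gt


theorem lv1 {X : Type} {N : Nul X} {A : X → Alg 3} (H : Hyp N A T1 rels1 [] true) :
    N.P fun x => psdV (A x) false triv w1a g1a g1a
      + psdV (A x) false F21 w1b g1b g1b
      + psdV (A x) false F111 w1c g1c g1c
      + psdV (A x) false F32 w1d g1d g1d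
      + psdV (A x) true triv w1e g1e g1e
      + psdV (A x) true F11 w1f g1f g1f :=
  (((((((((((((((((((((((((H.psd c1Pa).add (H.psd c1Pb)).add (H.psd c1Pc)).add (H.psd c1Pd)).add (H.psd c1Pe)).add (H.psd c1Pf)).row H c1R0).row H c1R1).row H c1R2).row H c1R3).row H c1R4).row H c1R5).row H c1R6).row H c1R7).row H c1R8).row H c1R9).row H c1R10).row H c1R11).row H c1R12).row H c1R13).row H c1R14).row H c1R15).row H c1R16).row H c1R17).row H c1R18).fin H (by decide +kernel)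

end Pool.Agent.Lib.MP_40b2af_gt
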