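import Mathlib
import Pool.Agent.Lib.MP_40b2af_gt.Rel
import Pool.Agent.Lib.MP_40b2af_gt.Data1

set_option autoImplicit false

noncomputable section

namespace Pool.Agent.Lib.MP_40b2af_gt

open Function

theorem pv_dd (A : Alg 3) : PV A (rels1.getD 14 []) := by
  refine ⟨⟨8, by decide⟩, fun ι => ?_⟩
  obtain ⟨i, j, hij, e⟩ := Fintype.exists_ne_map_eq_of_card_lt (fun i : Fin 4 => ι i) (by simp)
  have e1 := Matrix.det_zero_of_row_eq (M := Matrix.of fun i j : Fin 4 =>
    A.C 3 [(false, ι i), (true, ι (4 + j))]) hij (by funext k; simp only [Matrix.of_apply, e])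
  simp [Matrix.det_succ_row_zero, Fin.sum_univ_succ, Fin.succAbove] at e1
  simp (disch := decide) only [rels1, List.getD_cons_succ, List.getD_cons_zero, eF, vF, bv0, Sv,
    List.map_cons, List.map_nil, List.sum_cons, List.sum_nil, pr, fv, List.prod_cons,
    List.prod_nil]
  push_cast
  linear_combination e1

variable {U : Set (V 3)} {h : Her 3} {y : V 3} {c : ℝ}

theorem HSC.rels1 (hc : HSC U h c) (H : Good U h) (hy : y ∈ U) {e : Fr 3} (he : Uni h y e) :
    ∀ Y ∈ rels1, PV (H.alg hy c he) Y := by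
  have e : MP_40b2af_gt.rels1 = [rB3, dE 4 rB3, dE 5 (dE 4 rB3),
      rC2 0 [(false, 2), (false, 3), (true, 4)], dE 5 (rC2 0 [(false, 2), (false, 3), (true, 4)]),
      rC2 8 [(false, 2), (false, 3), (false, 4), (true, 5)], MP_40b2af_gt.rH, rB1, rB2,
      dE 4 MP_40b2af_gt.rH, rC1 0 [(false, 2), (false, 3), (true, 4)], dE 4 rB1,
      rC1 1 [(false, 2), (false, 3), (true, 4), (true, 5)],
      rC2 1 [(false, 2), (false, 3), (true, 4), (true, 5)], MP_40b2af_gt.rels1.getD 14 []] := by
    rfl
  rw [e]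
  simp only [List.forall_mem_cons, List.not_mem_nil, IsEmpty.forall_iff, implies_true, and_true]
  exact ⟨H.rB3.pv H hy he (k := 4) (by decide),
    (H.rB3.dE H (by decide)).pv H hy he (k := 5) (by decide),
    ((H.rB3.dE H (by decide)).dE H (by decide)).pv H hy he (k := 6) (by decide),
    (H.rC2 _ (by decide)).pv H hy he (k := 5) (by decide),
    ((H.rC2 _ (by decide)).dE H (by decide)).pv H hy he (k := 6) (by decide),
    (H.rC2 _ (by decide)).pv H hy he (k := 6) (by decide),
    (hc.rH H).pv H hy he (k := 4) (by decide), H.rB1.pv H hy he (k := 4) (by decide),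
    H.rB2.pv H hy he (k := 5) (by decide),
    ((hc.rH H).dE H (by decide)).pv H hy he (k := 5) (by decide),
    (H.rC1 _ (by decide)).pv H hy he (k := 5) (by decide),
    (H.rB1.dE H (by decide)).pv H hy he (k := 5) (by decide),
    (H.rC1 _ (by decide)).pv H hy he (k := 6) (by decide),
    (H.rC2 _ (by decide)).pv H hy he (k := 6) (by decide), pv_dd _⟩

end Pool.Agent.Lib.MP_40b2af_gt
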