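import Mathlib
import Pool.Agent.Lib.MP_40b2af_gt.Div

set_option autoImplicit false

noncomputable section

namespace Pool.Agent.Lib.MP_40b2af_gt

open scoped ContDiff Topology Matrix Manifold ComplexConjugate ComplexOrder
open Set Filter MeasureTheory Bundle Complex

section Generic

variable {E : Type} [NormedAddCommGroup E] [NormedSpace ℝ E]
  {M : Type} [TopologicalSpace M] [ChartedSpace E M]

/-- derivative of the inverse chart -/
def pushL (x : M) (y : E) : E →L[ℝ] E := mfderiv 𝓘(ℝ, E) 𝓘(ℝ, E) (chartAt E x).symm y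

variable [IsManifold 𝓘(ℝ, E) ∞ M]

theorem symmL_eq {x₀ x : M} (hx : x ∈ (chartAt E x₀).source) (u : E) :
    (trivializationAt E (TangentSpace 𝓘(ℝ, E)) x₀).symm x u = pushL x₀ (chartAt E x₀ x) u := by
  have := TangentBundle.symmL_trivializationAt (I := 𝓘(ℝ, E)) hx
  have h2 : (trivializationAt E (TangentSpace 𝓘(ℝ, E)) x₀).symm x u
      = (trivializationAt E (TangentSpace 𝓘(ℝ, E)) x₀).symmL ℝ x u := by
    rw [Trivialization.symmL_apply _ (by simpa using hx)]
  rw [h2, this]
  simp [pushL, mfderivWithin_univ]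
  rfl

theorem triv_bilin (φ : ∀ x : M, TangentSpace 𝓘(ℝ, E) x →L[ℝ] TangentSpace 𝓘(ℝ, E) x →L[ℝ] ℝ)
    {x₀ x : M} (hx : x ∈ (chartAt E x₀).source) (u v : E) :
    (trivializationAt (E →L[ℝ] E →L[ℝ] ℝ)
      (fun x : M => TangentSpace 𝓘(ℝ, E) x →L[ℝ] TangentSpace 𝓘(ℝ, E) x →L[ℝ] ℝ) x₀
        ⟨x, φ x⟩).2 u v
      = φ x (pushL x₀ (chartAt E x₀ x) u) (pushL x₀ (chartAt E x₀ x) v) := by
  rw [hom_trivializationAt_apply]
  dsimp only
  rw [inCoordinates_apply_eq₂ (F₃ := ℝ) (E₃ := Bundle.Trivial M ℝ) (by simpa using hx)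
    (by simpa using hx) (by simp), symmL_eq hx, symmL_eq hx]
  simp

theorem contMDiffOn_gval (g : RMetric E M) (x₀ : M) (u v : E) :
    ContMDiffOn 𝓘(ℝ, E) 𝓘(ℝ, ℝ) ∞
      (fun x => g.inner x (pushL x₀ (chartAt E x₀ x) u) (pushL x₀ (chartAt E x₀ x) v))
      (chartAt E x₀).source := by
  have h1 := (Trivialization.contMDiffOn_section_iff (IB := 𝓘(ℝ, E)) (n := ∞) (s := g.inner)
    (trivializationAt (E →L[ℝ] E →L[ℝ] ℝ)
      (fun x : M => TangentSpace 𝓘(ℝ, E) x →L[ℝ] TangentSpace 𝓘(ℝ, E) x →L[ℝ] ℝ) x₀)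
    (chartAt E x₀).open_source (fun x hx => by simpa using hx)).1 g.contMDiff.contMDiffOn
  have h2 := (h1.clm_apply (contMDiffOn_const (c := u))).clm_apply (contMDiffOn_const (c := v))
  exact h2.congr fun x hx => (triv_bilin g.inner hx u v).symm

theorem contDiffOn_gval (g : RMetric E M) (x₀ : M) (u v : E) :
    ContDiffOn ℝ ∞ (fun y => gc g x₀ y u v) (chartAt E x₀).target := by
  have h1 := (contMDiffOn_gval g x₀ u v).comp (contMDiffOn_chart_symm (I := 𝓘(ℝ, E)) (n := ∞))
    (fun y hy => (chartAt E x₀).map_target hy)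
  rw [contMDiffOn_iff_contDiffOn] at h1
  refine h1.congr fun y hy => ?_
  simp only [Function.comp, (chartAt E x₀).right_inv hy]
  rfl

theorem pushL_injective {x₀ : M} {y : E} (hy : y ∈ (chartAt E x₀).target) :
    Function.Injective (pushL x₀ y) :=
  (mdifferentiable_chart (I := 𝓘(ℝ, E)) x₀).symm.mfderiv_injective hy

/-- coordinate change from the chart at x' to the chart at x -/
def trans (E : Type) [NormedAddCommGroup E] [NormedSpace ℝ E] [ChartedSpace E M] (x' x : M) :
    E → E := fun y => chartAt E x ((chartAt E x').symm y)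

/-- domain of the coordinate change -/
def transDom (E : Type) [NormedAddCommGroup E] [NormedSpace ℝ E] [ChartedSpace E M] (x' x : M) :
    Set E := (chartAt E x').target ∩ (chartAt E x').symm ⁻¹' (chartAt E x).source

omit [IsManifold 𝓘(ℝ, E) ∞ M] in
theorem isOpen_transDom (x' x : M) : IsOpen (transDom E x' x) :=
  (chartAt E x').isOpen_inter_preimage_symm (chartAt E x).open_source

theorem contDiffOn_trans (x' x : M) : ContDiffOn ℝ ∞ (trans E x' x) (transDom E x' x) := by
  have h1 := (contMDiffOn_chart (I := 𝓘(ℝ, E)) (n := ∞) (x := x)).comp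
    ((contMDiffOn_chart_symm (I := 𝓘(ℝ, E)) (n := ∞) (x := x')).mono
      (inter_subset_left : transDom E x' x ⊆ _)) (fun y hy => hy.2)
  rwa [contMDiffOn_iff_contDiffOn] at h1

theorem pushL_trans {x' x : M} {y : E} (hy : y ∈ transDom E x' x) (u : E) :
    pushL x' y u = pushL x (trans E x' x y) (fderiv ℝ (trans E x' x) y u) := by
  have hd : DifferentiableAt ℝ (trans E x' x) y :=
    ((contDiffOn_trans x' x).contDiffAt ((isOpen_transDom x' x).mem_nhds hy)).differentiableAt
      (by simp)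
  have h1 : ((chartAt E x').symm : E → M) =ᶠ[𝓝 y] (chartAt E x).symm ∘ trans E x' x := by
    filter_upwards [(isOpen_transDom x' x).mem_nhds hy] with z hz
    exact ((chartAt E x).left_inv hz.2).symm
  have h2 : MDifferentiableAt 𝓘(ℝ, E) 𝓘(ℝ, E) (chartAt E x).symm (trans E x' x y) :=
    (mdifferentiable_chart (I := 𝓘(ℝ, E)) x).mdifferentiableAt_symm ((chartAt E x).map_source hy.2)
  have h3 := mfderiv_comp y h2 hd.mdifferentiableAt
  unfold pushL
  rw [h1.mfderiv_eq, h3, mfderiv_eq_fderiv]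
  rfl

theorem gc_trans (g : RMetric E M) {x' x : M} {y : E} (hy : y ∈ transDom E x' x) (u v : E) :
    gc g x' y u v = gc g x (trans E x' x y) (fderiv ℝ (trans E x' x) y u)
      (fderiv ℝ (trans E x' x) y v) := by
  have h3 : ∀ p q : M, p = q → ∀ u v : E, (show E →L[ℝ] E →L[ℝ] ℝ from g.inner p) u v
      = (show E →L[ℝ] E →L[ℝ] ℝ from g.inner q) u v := by
    rintro p _ rfl u v; rfl
  refine (h3 _ _ ((chartAt E x).left_inv hy.2).symm (pushL x' y u) (pushL x' y v)).trans ?_
  rw [pushL_trans hy, pushL_trans hy]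
  rfl

/-- the metric as a bilinear form in a chart -/
def gB (g : RMetric E M) (x : M) (y : E) : E →L[ℝ] E →L[ℝ] ℝ :=
  (show E →L[ℝ] E →L[ℝ] ℝ from g.inner ((chartAt E x).symm y)).bilinearComp (pushL x y) (pushL x y)

theorem gc_eq (g : RMetric E M) (x : M) (y u v : E) : gc g x y u v = gB g x y u v := rfl

theorem gc_symm (g : RMetric E M) (x : M) (y u v : E) : gc g x y u v = gc g x y v u :=
  g.symm _ _ _

theorem gc_pos (g : RMetric E M) {x : M} {y : E} (hy : y ∈ (chartAt E x).target) {u : E}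
    (hu : u ≠ 0) : 0 < gc g x y u u :=
  g.pos _ (pushL x y u) fun h => hu (pushL_injective hy (h.trans (map_zero _).symm))

omit [IsManifold 𝓘(ℝ, E) ∞ M] in
theorem mem_transDom {x₀ x : M} (hx : x ∈ (chartAt E x₀).source) :
    chartAt E x x ∈ transDom E x x₀ :=
  ⟨mem_chart_target _ x, by
    simp only [mem_preimage, (chartAt E x).left_inv (mem_chart_source _ x)]; exact hx⟩

omit [IsManifold 𝓘(ℝ, E) ∞ M] in
theorem trans_chart (x₀ x : M) : trans E x x₀ (chartAt E x x) = chartAt E x₀ x := by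
  simp only [trans, (chartAt E x).left_inv (mem_chart_source _ x)]

theorem contMDiff_of_charts {f : M → ℂ} (F : M → E → ℂ)
    (hF : ∀ x₀, ContDiffOn ℝ ∞ (F x₀) (chartAt E x₀).target)
    (hf : ∀ x₀, ∀ x ∈ (chartAt E x₀).source, f x = F x₀ (chartAt E x₀ x)) :
    ContMDiff 𝓘(ℝ, E) 𝓘(ℝ, ℂ) ∞ f := by
  intro x₀
  have h1 : ContMDiffOn 𝓘(ℝ, E) 𝓘(ℝ, ℂ) ∞ (F x₀ ∘ chartAt E x₀) (chartAt E x₀).source :=
    (contMDiffOn_iff_contDiffOn.2 (hF x₀)).comp contMDiffOn_chart
      fun x hx => (chartAt E x₀).map_source hx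
  exact (h1.congr (hf x₀)).contMDiffAt (chart_source_mem_nhds _ x₀)

theorem sm_comp_symm {f : M → ℂ} (hf : ContMDiff 𝓘(ℝ, E) 𝓘(ℝ, ℂ) ∞ f) (x₀ : M) :
    ContDiffOn ℝ ∞ (fun y => f ((chartAt E x₀).symm y)) (chartAt E x₀).target :=
  contMDiffOn_iff_contDiffOn.1 (hf.comp_contMDiffOn contMDiffOn_chart_symm)

end Generic

section Form

variable {n : ℕ} {B : V n →L[ℝ] V n →L[ℝ] ℝ}

/-- the Hermitian form of a real bilinear form -/
def hF (B : V n →L[ℝ] V n →L[ℝ] ℝ) (u v : V n) : ℂ := (B u v + I * B u (I • v)) / 2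

theorem smul_eq_re_im (c : ℂ) (u : V n) : c • u = c.re • u + c.im • (I • u) := by
  funext k
  simp only [Pi.add_apply, Pi.smul_apply, smul_eq_mul, real_smul]
  conv_lhs => rw [← re_add_im c]
  ring

theorem hF_eq (hB : ∀ u v, B (I • u) (I • v) = B u v) (u w : V n) :
    hF B u (star w) = ∑ j, ∑ l, u j * hF B (Pi.single j 1) (Pi.single l 1) * w l := by
  have e : ∀ u v, B (I • u) v = - B u (I • v) := fun u v => by
    rw [← hB, smul_smul, I_mul_I]; simp
  have l1 : ∀ v, IsLinearMap ℂ fun u => hF B u v := fun v => ⟨fun u u' => by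
    simp only [hF, map_add, add_apply]; push_cast; ring, fun c u => by
    simp only [hF, smul_eq_re_im c u, map_add, map_smul, add_apply,
      smul_apply, smul_eq_mul, hB, e u v]
    push_cast
    conv_rhs => rw [← re_add_im c]
    linear_combination (-(c.im : ℂ) * B u (I • v) / 2) * I_mul_I⟩
  have l2 : ∀ u, IsLinearMap ℂ fun w => hF B u (star w) := fun u => ⟨fun u u' => by
    simp only [hF, star_add, smul_add, map_add]; push_cast; ring, fun c w => by
    have e2 : B u (I • I • star w) = - B u (star w) := by rw [smul_smul, I_mul_I]; simp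
    simp only [hF, star_smul, smul_eq_re_im (conj c) (star w), smul_add, smul_comm I (_ : ℝ),
      map_add, map_smul, smul_eq_mul, e2, star_def, conj_re, conj_im]
    push_cast
    conv_rhs => rw [← re_add_im c]
    linear_combination (-(c.im : ℂ) * B u (I • star w) / 2) * I_mul_I⟩
  rw [lin_expand (l1 _)]
  refine Finset.sum_congr rfl fun j _ => ?_
  rw [lin_expand (l2 _), Finset.mul_sum]
  refine Finset.sum_congr rfl fun l _ => ?_
  rw [Pi.star_single, star_one]
  ring

end Form

section Coord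

variable {n : ℕ} {M : Type} [TopologicalSpace M] [ChartedSpace (V n) M]
  [IsManifold 𝓘(ℝ, V n) ∞ M] [IsManifold 𝓘(ℂ, V n) ω M] {g : RMetric (V n) M} {x x' : M} {y : V n}

omit [IsManifold 𝓘(ℝ, V n) ∞ M] in
theorem hol_trans (x' x : M) : ContDiffOn ℂ ∞ (trans (V n) x' x) (transDom (V n) x' x) := by
  have h1 := (contMDiffOn_chart (I := 𝓘(ℂ, V n)) (n := ∞) (x := x)).comp
    ((contMDiffOn_chart_symm (I := 𝓘(ℂ, V n)) (n := ∞) (x := x')).mono
      (inter_subset_left : transDom (V n) x' x ⊆ _)) (fun y hy => hy.2)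
  rwa [contMDiffOn_iff_contDiffOn] at h1

omit [IsManifold 𝓘(ℝ, V n) ∞ M] in
theorem fd_trans (hy : y ∈ transDom (V n) x' x) :
    fderiv ℝ (trans (V n) x' x) y = (fderiv ℂ (trans (V n) x' x) y).restrictScalars ℝ :=
  (((hol_trans x' x).contDiffAt ((isOpen_transDom x' x).mem_nhds hy)).differentiableAt
    (by simp)).fderiv_restrictScalars ℝ

omit [IsManifold 𝓘(ℝ, V n) ∞ M] [IsManifold 𝓘(ℂ, V n) ω M] in
theorem mem_transDom' (hy : y ∈ (chartAt (V n) x).target) :
    y ∈ transDom (V n) x ((chartAt (V n) x).symm y) := ⟨hy, mem_chart_source (V n) _⟩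

theorem IsHermitian.gB (hg : IsHermitian g) (hy : y ∈ (chartAt (V n) x).target) (u v : V n) :
    gB g x y (I • u) (I • v) = gB g x y u v := by
  simp only [← gc_eq, gc_trans g (mem_transDom' hy), fd_trans (mem_transDom' hy),
    ContinuousLinearMap.coe_restrictScalars', map_smul]
  exact hg _ _ _

theorem IsHermitian.gm (hg : IsHermitian g) (hy : y ∈ (chartAt (V n) x).target) (u w : V n) :
    gm (coef g x) false y u w = hF (MP_40b2af_gt.gB g x y) u (star w) := by
  rw [hF_eq (hg.gB hy)]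
  simp [MP_40b2af_gt.gm, hm, coef, hF, gc_eq, ← Pi.single_smul']

theorem IsHermitian.skew (hg : IsHermitian g) (hy : y ∈ (chartAt (V n) x).target) (u v : V n) :
    gc g x y u (I • v) = - gc g x y v (I • u) := by
  rw [gc_eq, ← hg.gB hy, smul_smul, I_mul_I, gc_symm g x y v, gc_eq]; simp

theorem IsHermitian.posDef (hg : IsHermitian g) (hy : y ∈ (chartAt (V n) x).target) :
    (coef g x y).PosDef := by
  refine Matrix.posDef_iff_dotProduct_mulVec.2 ⟨?_, fun u hu => ?_⟩
  · ext i j
    have := hg.skew hy (Pi.single i 1) (Pi.single j 1)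
    simp only [← Pi.single_smul', smul_eq_mul, mul_one] at this
    simp [coef, this, gc_symm g x y (Pi.single i 1) (Pi.single j 1)]
  · have h1 := hg.skew hy (star u) (star u)
    have e : MP_40b2af_gt.gm (coef g x) false y (star u) u = star u ᵥ* coef g x y ⬝ᵥ u := gm_eq
    rw [Matrix.dotProduct_mulVec, ← e, hg.gm hy, hF, ← gc_eq, ← gc_eq, show gc g x y (star u) (I • star u) = 0 by linarith]
    have := gc_pos g hy (star_ne_zero.2 hu)
    simp only [ofReal_zero, mul_zero, add_zero]
    exact_mod_cast half_pos this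

theorem IsHermitian.good (hg : IsHermitian g) (x : M) : Good (chartAt (V n) x).target (coef g x) :=
  ⟨(chartAt (V n) x).open_target, fun _ _ =>
    ((ofRealCLM.contDiff.comp_contDiffOn (contDiffOn_gval g x _ _)).add (contDiffOn_const.mul
      (ofRealCLM.contDiff.comp_contDiffOn (contDiffOn_gval g x _ _)))).div_const 2,
    fun _ hz i j => ((hg.posDef hz).isHermitian.apply j i).symm,
    fun _ hz => (hg.posDef hz).det_pos.ne'⟩

theorem IsHermitian.chg (hg : IsHermitian g) (x' x : M) : Chg (transDom (V n) x' x)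
    (chartAt (V n) x).target (trans (V n) x' x) (coef g x') (coef g x) := by
  have H := hg.good x'
  refine ⟨⟨isOpen_transDom x' x, fun i j => (H.sm i j).mono inter_subset_left,
    fun z hz => H.herm z hz.1, fun z hz => H.det z hz.1⟩, hg.good x,
    fun y hy => (chartAt (V n) x).map_source hy.2, hol_trans x' x, fun y hy u w => ?_⟩
  rw [hg.gm hy.1, hg.gm (y := trans (V n) x' x y) ((chartAt (V n) x).map_source hy.2)]
  simp [hF, ← gc_eq, gc_trans g hy, fd_trans hy, Jc, cb]

end Coord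

section Local

variable {n : ℕ} {U U' : Set (V n)} {h h' : Her n} {φ : V n → V n} {y : V n}

theorem gm_single (b : Bool) (z : V n) (k l : Fin n) :
    gm h b z (Pi.single k 1) (Pi.single l 1) = hm b (h z) k l := by
  simp [gm, Pi.single_apply]

theorem Chg.det (C : Chg U U' φ h h') (hy : y ∈ U) :
    (h y).det = (fderiv ℝ φ y).det * (h' (φ y)).det := by
  set L := LinearMap.toMatrix' (fderiv ℂ φ y : V n →ₗ[ℂ] V n) with hL
  have e : h y = Lᵀ * h' (φ y) * L.map conj := by
    ext i j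
    have := C.eq y hy (Pi.single i 1) (Pi.single j 1)
    rw [gm_single, MP_40b2af_gt.gm_eq] at this
    refine this.trans ?_
    simp [hm, Matrix.mul_apply, dotProduct, Matrix.vecMul, Jc, cb, hL, LinearMap.toMatrix'_apply]
  have e2 : (fderiv ℝ φ y).det = normSq L.det := by
    rw [(C.dAt hy).fderiv_restrictScalars ℝ, hL, LinearMap.det_toMatrix', ← Algebra.norm_complex_apply,
      ← LinearMap.det_restrictScalars]
    rfl
  rw [e, e2, Matrix.det_mul, Matrix.det_mul, Matrix.det_transpose, ← RingHom.mapMatrix_apply,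
    ← RingHom.map_det, ← mul_conj]
  ring

theorem Good.Rm_single (H : Good U h) (hy : y ∈ U) (i j k l : Fin n) :
    Rm h y (Pi.single i 1) (Pi.single k 1) (Pi.single j 1) (Pi.single l 1) = chern h y i j k l := by
  have l1 := H.wv_gm_lin2 hy true true (Pi.single j 1) (Pi.single l 1)
  simp only [← gm_swap (b := true), Bool.not_true] at l1
  rw [Rm, H.gm_Kv hy, H.gm_G' (b := false) hy, Bool.not_false, lin_expand l1,
    wv_comm (H.gm_sm _ _ _) H.isOpen hy]
  have e : ∀ f : V n → ℂ, wv true (Pi.single j 1) f = dzb j f := fun f =>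
    funext fun _ => wv_single.trans wd_true
  simp only [e, wv_single, Gm, gm_single, hm, Bool.not_false, cond_false, chern, wd_false, wd_true,
    Finset.sum_mul]
  rw [neg_sub, sub_eq_neg_add]
  congr 1
  exact Finset.sum_congr rfl fun _ _ => Finset.sum_congr rfl fun _ _ => by ring

theorem Good.Rm_sum (H : Good U h) (hy : y ∈ U) (u k z l : V n) : Rm h y u k z l
    = ∑ a, ∑ b, ∑ c, ∑ d, chern h y a b c d * u a * z b * k c * l d := by
  rw [lin_expand (H.Rm_lin1 hy _ _ _)]
  refine Finset.sum_congr rfl fun a _ => ?_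
  rw [lin_expand (Rm_lin3 h y _ _ _), Finset.mul_sum]
  refine Finset.sum_congr rfl fun b _ => ?_
  rw [lin_expand (H.Rm_lin2 hy _ _ _), Finset.mul_sum, Finset.mul_sum]
  refine Finset.sum_congr rfl fun c _ => ?_
  rw [lin_expand (Rm_lin4 h y _ _ _), Finset.mul_sum, Finset.mul_sum, Finset.mul_sum]
  refine Finset.sum_congr rfl fun d _ => ?_
  rw [H.Rm_single hy]; ring

end Local

end Pool.Agent.Lib.MP_40b2af_gt
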