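import Mathlib
import Pool.Agent.Lib.MP_40b2af_gt.Mfd

set_option autoImplicit false

noncomputable section

namespace Pool.Agent.Lib.MP_40b2af_gt

open scoped ContDiff Topology Matrix Manifold ComplexOrder
open Set Filter MeasureTheory Bundle

variable {n : ℕ} {M : Type} [TopologicalSpace M] [ChartedSpace (V n) M]
  [IsManifold 𝓘(ℝ, V n) ∞ M] [MeasurableSpace M] [BorelSpace M]

/-- volume density -/
def rho' (h : Her n) (y : V n) : ℝ := (h y).det.re

theorem Good.cont_rho {U : Set (V n)} {h : Her n} (H : Good U h) : ContinuousOn (rho' h) U :=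
  Complex.continuous_re.comp_continuousOn (sm_det H.sm).continuousOn

/-- the measure of one chart -/
def muc (g : RMetric (V n) M) (x : M) : Measure M :=
  Measure.map (chartAt (V n) x).symm
    ((volume.restrict (chartAt (V n) x).target).withDensity
      fun y => ENNReal.ofReal (rho' (coef g x) y))

/-- the volume measure -/
def vol (g : RMetric (V n) M) : Measure M := ⨆ x, muc g x

theorem aemeasurable_symm (g : RMetric (V n) M) (x : M) :
    AEMeasurable (chartAt (V n) x).symm ((volume.restrict (chartAt (V n) x).target).withDensity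
      fun y => ENNReal.ofReal (rho' (coef g x) y)) :=
  ((chartAt (V n) x).continuousOn_symm.aemeasurable
    (chartAt (V n) x).open_target.measurableSet).mono_ac (withDensity_absolutelyContinuous _ _)

theorem muc_apply (g : RMetric (V n) M) (x : M) {A : Set M} (hA : MeasurableSet A) :
    muc g x A = ∫⁻ y in (chartAt (V n) x).symm ⁻¹' A ∩ (chartAt (V n) x).target,
      ENNReal.ofReal (rho' (coef g x) y) := by
  rw [muc, Measure.map_apply_of_aemeasurable (aemeasurable_symm g x) hA, withDensity_apply',
    Measure.restrict_restrict' (chartAt (V n) x).open_target.measurableSet]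

omit [IsManifold 𝓘(ℝ, V n) ∞ M] in
theorem measurableSet_pre (x : M) {A : Set M} (hA : MeasurableSet A) :
    MeasurableSet ((chartAt (V n) x).symm ⁻¹' A ∩ (chartAt (V n) x).target) := by
  have ht := (chartAt (V n) x).open_target.measurableSet
  have hc : Continuous fun y : (chartAt (V n) x).target => (chartAt (V n) x).symm y :=
    continuousOn_iff_continuous_domRestrict.1 (chartAt (V n) x).continuousOn_symm
  have := (MeasurableEmbedding.subtype_coe ht).measurableSet_image.2 (hA.preimage hc.measurable)
  convert this using 1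
  ext y
  simp only [mem_inter_iff, mem_preimage, mem_image, Subtype.exists, exists_and_right,
    exists_eq_right]
  exact ⟨fun h => ⟨h.2, h.1⟩, fun ⟨h1, h2⟩ => ⟨h2, h1⟩⟩

variable [IsManifold 𝓘(ℂ, V n) ω M] {g : RMetric (V n) M} (hg : IsHermitian g)
include hg

theorem muc_agree (x x' : M) {A : Set M} (hA : MeasurableSet A)
    (hx : A ⊆ (chartAt (V n) x).source) (hx' : A ⊆ (chartAt (V n) x').source) :
    muc g x A = muc g x' A := by
  have C := hg.chg x' x
  rw [muc_apply g x hA, muc_apply g x' hA]
  set S := (chartAt (V n) x').symm ⁻¹' A ∩ (chartAt (V n) x').target with hS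
  have hSU : S ⊆ transDom (V n) x' x := fun y hy => ⟨hy.2, hx hy.1⟩
  have him : (chartAt (V n) x).symm ⁻¹' A ∩ (chartAt (V n) x).target = trans (V n) x' x '' S := by
    ext z
    constructor
    · rintro ⟨h1, h2⟩
      have h3 := hx' h1
      refine ⟨chartAt (V n) x' ((chartAt (V n) x).symm z), ⟨?_, (chartAt (V n) x').map_source h3⟩, ?_⟩
      · simpa only [mem_preimage, (chartAt (V n) x').left_inv h3] using h1
      · simp only [trans, (chartAt (V n) x').left_inv h3, (chartAt (V n) x).right_inv h2]
    · rintro ⟨y, hy, rfl⟩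
      refine ⟨?_, (chartAt (V n) x).map_source (hx hy.1)⟩
      simpa only [trans, mem_preimage, (chartAt (V n) x).left_inv (hx hy.1)] using hy.1
  have hinj : InjOn (trans (V n) x' x) S := by
    intro y hy z hz hyz
    exact (chartAt (V n) x').symm.injOn hy.2 hz.2
      ((chartAt (V n) x).injOn (hx hy.1) (hx hz.1) hyz)
  rw [him, lintegral_image_eq_lintegral_abs_det_fderiv_mul volume (measurableSet_pre x' hA)
    (fun y hy => ((C.dAt (hSU hy)).restrictScalars ℝ).hasFDerivAt.hasFDerivWithinAt) hinj]
  refine setLIntegral_congr_fun (measurableSet_pre x' hA) fun y hy => ?_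
  have h1 := (Complex.pos_iff.1 (hg.posDef hy.2).det_pos).1
  have h2 := (Complex.pos_iff.1 (hg.posDef (C.maps y (hSU hy))).det_pos).1
  rw [C.det (hSU hy), Complex.re_ofReal_mul] at h1
  rw [← ENNReal.ofReal_mul (abs_nonneg _), rho', rho', C.det (hSU hy), Complex.re_ofReal_mul,
    abs_of_pos ((mul_pos_iff_of_pos_right h2).1 h1)]

omit [IsManifold 𝓘(ℂ, V n) ω M] hg in
theorem muc_inter (g : RMetric (V n) M) (x : M) {A : Set M} (hA : MeasurableSet A) :
    muc g x (A ∩ (chartAt (V n) x).source) = muc g x A := by
  rw [muc_apply g x hA, muc_apply g x (hA.inter (chartAt (V n) x).open_source.measurableSet)]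
  congr 2
  ext y
  simp only [mem_inter_iff, mem_preimage]
  exact ⟨fun h => ⟨h.1.1, h.2⟩, fun h => ⟨⟨h.1, (chartAt (V n) x).map_target h.2⟩, h.2⟩⟩

theorem vol_restrict [CompactSpace M] (x : M) :
    (vol g).restrict (chartAt (V n) x).source = muc g x := by
  have hms : ∀ x : M, MeasurableSet (chartAt (V n) x).source :=
    fun x => (chartAt (V n) x).open_source.measurableSet
  obtain ⟨t, ht⟩ := isCompact_univ.elim_finite_subcover (fun x : M => (chartAt (V n) x).source)
    (fun x => (chartAt (V n) x).open_source) (fun x _ => mem_iUnion.2 ⟨x, mem_chart_source _ x⟩)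
  obtain ⟨c, hc⟩ := (insert x (t : Set M)).toFinite.countable.exists_eq_range (insert_nonempty _ _)
  let W : ℕ → Set M := disjointed fun k => (chartAt (V n) (c k)).source
  have hWm : ∀ k, MeasurableSet (W k) := MeasurableSet.disjointed fun k => hms _
  have hWs : ∀ k, W k ⊆ (chartAt (V n) (c k)).source := fun k =>
    disjointed_subset (fun k => (chartAt (V n) (c k)).source) k
  have hWd : Pairwise (Function.onFun Disjoint W) := disjoint_disjointed _
  have hWu : ⋃ k, W k = univ := by
    rw [iUnion_disjointed, eq_univ_iff_forall]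
    intro z
    obtain ⟨p, hp, hz⟩ := mem_iUnion₂.1 (ht (mem_univ z))
    obtain ⟨k, rfl⟩ : p ∈ range c := hc ▸ mem_insert_of_mem _ hp
    exact mem_iUnion.2 ⟨k, hz⟩
  let ν : Measure M := Measure.sum fun k => (muc g (c k)).restrict (W k)
  have hν : ∀ p : M, ν.restrict (chartAt (V n) p).source = muc g p := by
    intro p
    ext A hA
    have hA' := hA.inter (hms p)
    rw [Measure.restrict_apply hA, Measure.sum_apply _ hA', ← muc_inter g p hA]
    have : ∀ k, (muc g (c k)).restrict (W k) (A ∩ (chartAt (V n) p).source)
        = muc g p (A ∩ (chartAt (V n) p).source ∩ W k) := by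
      intro k
      rw [Measure.restrict_apply hA']
      exact muc_agree hg _ _ (hA'.inter (hWm k)) (fun z hz => hWs k hz.2) (fun z hz => hz.1.2)
    simp only [this]
    rw [← measure_iUnion (hWd.mono fun i j hij => hij.mono inter_subset_right inter_subset_right)
      (fun k => hA'.inter (hWm k)), ← inter_iUnion, hWu, inter_univ]
  have h1 : vol g ≤ ν := iSup_le fun p => (hν p).symm.le.trans Measure.restrict_le_self
  have h2 : muc g x ≤ vol g := le_iSup (muc g) x
  refine le_antisymm ((Measure.restrict_mono subset_rfl h1).trans (hν x).le) ?_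
  have h3 : (muc g x).restrict (chartAt (V n) x).source = muc g x := by
    ext A hA
    rw [Measure.restrict_apply hA, muc_inter g x hA]
  rw [← h3]
  exact Measure.restrict_mono subset_rfl h2

theorem integral_vol [CompactSpace M] (x : M) {φ : M → ℂ}
    (hφ : Continuous φ) (h0 : ∀ p, p ∉ (chartAt (V n) x).source → φ p = 0) :
    ∫ p, φ p ∂vol g
      = ∫ y in (chartAt (V n) x).target, (coef g x y).det * φ ((chartAt (V n) x).symm y) := by
  rw [← setIntegral_eq_integral_of_forall_compl_eq_zero h0, vol_restrict hg, muc,
    integral_map (aemeasurable_symm g x) hφ.aestronglyMeasurable,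
    integral_withDensity_eq_integral_toReal_smul₀]
  · refine setIntegral_congr_fun (chartAt (V n) x).open_target.measurableSet fun y hy => ?_
    have h1 := Complex.pos_iff.1 (hg.posDef hy).det_pos
    simp only [rho', Complex.real_smul]
    rw [ENNReal.toReal_ofReal h1.1.le]
    congr 1
    exact Complex.ext rfl h1.2
  · exact ((hg.good x).cont_rho.aemeasurable
      (chartAt (V n) x).open_target.measurableSet).ennreal_ofReal
  · exact Eventually.of_forall fun y => ENNReal.ofReal_lt_top

theorem isFiniteMeasure_vol [CompactSpace M] : IsFiniteMeasure (vol g) := by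
  have : IsLocallyFiniteMeasure (vol g) := by
    refine ⟨fun x => ?_⟩
    obtain ⟨C, hC, hxC, hCt⟩ := exists_compact_subset (chartAt (V n) x).open_target
      (mem_chart_target (V n) x)
    let s := (chartAt (V n) x).source ∩ chartAt (V n) x ⁻¹' interior C
    have hs : IsOpen s := (chartAt (V n) x).isOpen_inter_preimage isOpen_interior
    refine ⟨s, hs.mem_nhds ⟨mem_chart_source _ x, hxC⟩, ?_⟩
    have h1 : vol g s = muc g x s := by
      rw [← vol_restrict hg x, Measure.restrict_apply hs.measurableSet,
        inter_eq_left.2 inter_subset_left]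
    rw [h1, muc_apply g x hs.measurableSet]
    refine lt_of_le_of_lt (lintegral_mono_set (t := C) fun y hy => ?_)
      (((hg.good x).cont_rho.mono hCt).integrableOn_compact hC).setLIntegral_lt_top
    have := hy.1.2
    simp only [mem_preimage, (chartAt (V n) x).right_inv hy.2] at this
    exact interior_subset this
  infer_instance

theorem integrable_vol [CompactSpace M] {F : Type} [NormedAddCommGroup F] {φ : M → F} (hφ : Continuous φ) :
    Integrable φ (vol g) := by
  have := isFiniteMeasure_vol hg
  exact hφ.integrable_of_hasCompactSupport (HasCompactSupport.of_compactSpace φ)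

theorem openPos_vol : (vol g).IsOpenPosMeasure := by
  refine ⟨fun A hA ⟨x, hx⟩ h0 => ?_⟩
  have h1 : muc g x A = 0 := le_antisymm ((le_iSup (muc g) x A).trans h0.le) zero_le
  have ho : IsOpen ((chartAt (V n) x).symm ⁻¹' A ∩ (chartAt (V n) x).target) := by
    rw [inter_comm]; exact (chartAt (V n) x).isOpen_inter_preimage_symm hA
  rw [muc_apply g x hA.measurableSet, lintegral_eq_zero_iff' (((hg.good x).cont_rho.mono
    inter_subset_right).aemeasurable ho.measurableSet).ennreal_ofReal] at h1
  have h2 := (ae_restrict_iff' ho.measurableSet).1 h1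
  refine ho.measure_ne_zero volume ⟨chartAt (V n) x x, ?_, mem_chart_target _ x⟩
    (measure_mono_null (fun y hy => (show ¬ _ from fun h => ?_)) (ae_iff.1 h2))
  · simpa only [mem_preimage, (chartAt (V n) x).left_inv (mem_chart_source _ x)] using hx
  · exact absurd (ENNReal.ofReal_eq_zero.1 (h hy))
      (not_le.2 (Complex.pos_iff.1 (hg.posDef hy.2).det_pos).1)

/-- continuous functions of integral zero -/
def nulM [CompactSpace M] : Nul M where
  P f := Continuous f ∧ ∫ p, f p ∂vol g = 0
  zero := ⟨continuous_const, integral_zero _ _⟩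
  add f f' h h' := ⟨h.1.add h'.1, by
    rw [integral_add (integrable_vol hg h.1) (integrable_vol hg h'.1), h.2, h'.2, add_zero]⟩
  smul c f h := ⟨continuous_const.mul h.1, by rw [integral_const_mul, h.2, mul_zero]⟩
  pos f h h0 := by
    have := openPos_vol hg
    exact congrFun ((Continuous.ae_eq_iff_eq (vol g) h.1 continuous_const).1
      ((integral_eq_zero_iff_of_nonneg h0 (integrable_vol hg h.1)).1 h.2))

end Pool.Agent.Lib.MP_40b2af_gt
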