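import Mathlib
import Pool.Agent.Lib.MP_40b2af_gt.Vol

set_option autoImplicit false

noncomputable section

namespace Pool.Agent.Lib.MP_40b2af_gt

open scoped ContDiff Topology Matrix Manifold ComplexOrder
open Set Filter MeasureTheory Bundle

section Flat

variable {n : ℕ} {U K : Set (V n)} {f : V n → ℂ}

theorem contDiff_of_supp (hU : IsOpen U) (hf : Sm U f) (hK : IsClosed K) (hKU : K ⊆ U)
    (h0 : ∀ y, y ∉ K → f y = 0) : ContDiff ℝ ∞ f := by
  rw [contDiff_iff_contDiffAt]
  intro y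
  by_cases hy : y ∈ K
  · exact hf.contDiffAt (hU.mem_nhds (hKU hy))
  · have : f =ᶠ[𝓝 y] fun _ => 0 := eventually_of_mem (hK.isOpen_compl.mem_nhds hy) h0
    exact contDiffAt_const.congr_of_eventuallyEq this

theorem integrable_of_supp (hU : IsOpen U) (hf : Sm U f) (hK : IsCompact K) (hKU : K ⊆ U)
    (h0 : ∀ y, y ∉ K → f y = 0) : Integrable f :=
  (contDiff_of_supp hU hf hK.isClosed hKU h0).continuous.integrable_of_hasCompactSupport
    (HasCompactSupport.intro hK h0)

theorem fd_zero_of_supp (hK : IsClosed K) (h0 : ∀ y, y ∉ K → f y = 0) (y : V n) (hy : y ∉ K) :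
    fderiv ℝ f y = 0 := by
  rw [(show f =ᶠ[𝓝 y] fun _ => 0 from
    eventually_of_mem (hK.isOpen_compl.mem_nhds hy) h0).fderiv_eq]
  simp

theorem integral_wd_eq_zero (hU : IsOpen U) (hf : Sm U f) (hK : IsCompact K) (hKU : K ⊆ U)
    (h0 : ∀ y, y ∉ K → f y = 0) (b : Bool) (i : Fin n) : ∫ y, wd b i f y = 0 := by
  have hc := contDiff_of_supp hU hf hK.isClosed hKU h0
  have h1 : ∀ v, Integrable (fun y => fderiv ℝ f y v) := fun v =>
    integrable_of_supp hU (hf.fd hU v) hK hKU fun y hy => by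
      simp [fd_zero_of_supp hK.isClosed h0 y hy]
  have h2 : ∀ v, ∫ y, fderiv ℝ f y v = 0 := fun v => by
    simpa using integral_mul_fderiv_eq_neg_fderiv_mul_of_integrable (μ := volume)
      (f := fun _ : V n => (1 : ℂ)) (g := f) (v := v) (by simp)
      (by simpa using h1 v) (by simpa using integrable_of_supp hU hf hK hKU h0)
      (fun _ _ => differentiableAt_const _) (fun x _ => hc.differentiable (by simp) x)
  simp only [wd]
  rw [integral_div, integral_add (h1 _) ((h1 _).const_mul _), integral_const_mul, h2, h2]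
  simp

end Flat

variable {n : ℕ} {M : Type} [TopologicalSpace M] [ChartedSpace (V n) M]
  [IsManifold 𝓘(ℝ, V n) ∞ M] {g : RMetric (V n) M} {c : ℝ} {t W : Tm} {a r : ℕ} {x₀ x : M}
  {ψ : M → ℂ}

/-- full contraction on M -/
def vM (g : RMetric (V n) M) (c : ℝ) (t : Tm) (x : M) : ℂ := vG (coef g x) c t (chartAt (V n) x x)

/-- divergence on M -/
def dM (g : RMetric (V n) M) (c : ℝ) (W : Tm) (a r : ℕ) (x : M) : ℂ :=
  ((dT false a W).map fun t => vM g c t x).sum - vM g c (eta a r :: W) x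

/-- derivative of a function along a vector field -/
def pM (g : RMetric (V n) M) (c : ℝ) (W : Tm) (a : ℕ) (ψ : M → ℂ) (x : M) : ℂ :=
  wv false (vW (coef g x) c W a (chartAt (V n) x x)) (fun y => ψ ((chartAt (V n) x).symm y))
    (chartAt (V n) x x)

theorem pM_zero (hx : x ∉ tsupport ψ) : pM g c W a ψ x = 0 := by
  rw [pM, wv_congr (g := fun _ => 0) (((chartAt (V n) x).tendsto_symm
    (mem_chart_source _ x)).eventually (notMem_tsupport_iff_eventuallyEq.1 hx)), wv_const]

variable [IsManifold 𝓘(ℂ, V n) ω M] (hg : IsHermitian g)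

/-- components in a unitary frame at each point -/
def AM (c : ℝ) (x : M) : Alg n :=
  (hg.good x).alg (mem_chart_target _ x) c (exists_uni (hg.posDef (mem_chart_target _ x))).choose_spec

include hg

theorem val_AM [NeZero n] (ht : Wf t) (x : M) : val (AM hg c x) t = vM g c t x :=
  (hg.good x).val_alg _ _ ht

theorem vM_eq (ht : Wf t) (hx : x ∈ (chartAt (V n) x₀).source) :
    vM g c t x = vG (coef g x₀) c t (chartAt (V n) x₀ x) := by
  rw [vM, (hg.chg x x₀).vG (mem_transDom hx) ht, trans_chart]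

theorem sm_vM (ht : Wf t) : ContMDiff 𝓘(ℝ, V n) 𝓘(ℝ, ℂ) ∞ (vM g c t) :=
  contMDiff_of_charts _ (fun x₀ => (hg.good x₀).sm_vG t) fun _ _ hx => vM_eq hg ht hx

theorem cont_dM (hW : Wf (eta a r :: W)) : Continuous (dM g c W a r) :=
  (continuous_list_sum _ fun _ ht => (sm_vM hg ((wf_eta hW).1.wf_dT ht)).continuous).sub
    (sm_vM hg hW).continuous

theorem dM_eq (hW : Wf (eta a r :: W)) {y : V n} (hy : y ∈ (chartAt (V n) x₀).target) :
    (coef g x₀ y).det * dM g c W a r ((chartAt (V n) x₀).symm y)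
      = ∑ k, wd false k (fun z => (coef g x₀ z).det * vW (coef g x₀) c W a z k) y := by
  have hy' := (chartAt (V n) x₀).map_target hy
  rw [(hg.good x₀).div hy hW, dM, vM_eq hg hW hy',
    List.map_congr_left fun t ht => vM_eq hg ((wf_eta hW).1.wf_dT ht) hy',
    (chartAt (V n) x₀).right_inv hy]

theorem pM_eq (hW : W1 W a) (hψ : ContMDiff 𝓘(ℝ, V n) 𝓘(ℝ, ℂ) ∞ ψ)
    (hx : x ∈ (chartAt (V n) x₀).source) :
    pM g c W a ψ x = wv false (vW (coef g x₀) c W a (chartAt (V n) x₀ x))
      (fun y => ψ ((chartAt (V n) x₀).symm y)) (chartAt (V n) x₀ x) := by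
  have C := hg.chg x x₀
  rw [← trans_chart x₀ x, ← C.vW (mem_transDom hx) hW,
    ← C.chain' (mem_transDom hx) (sm_comp_symm hψ x₀), pM]
  exact wv_congr_on C.good.isOpen (mem_transDom hx) fun z hz => by
    rw [trans, (chartAt (V n) x₀).left_inv hz.2]

theorem cont_pM (hW : W1 W a) (hψ : ContMDiff 𝓘(ℝ, V n) 𝓘(ℝ, ℂ) ∞ ψ) :
    Continuous (pM g c W a ψ) :=
  (contMDiff_of_charts (fun x₀ z => wv false (vW (coef g x₀) c W a z)
    (fun y => ψ ((chartAt (V n) x₀).symm y)) z) (fun x₀ => ContDiffOn.sum fun k _ =>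
      ((hg.good x₀).sm_vW W a k).mul (Sm.wd (sm_comp_symm hψ x₀) (hg.good x₀).isOpen _ k))
    fun _ _ hx => pM_eq hg hW hψ hx).continuous

variable [MeasurableSpace M] [BorelSpace M] [CompactSpace M]

theorem integral_local (hW : Wf (eta a r :: W)) (hψ : ContMDiff 𝓘(ℝ, V n) 𝓘(ℝ, ℂ) ∞ ψ)
    (hs : tsupport ψ ⊆ (chartAt (V n) x₀).source) :
    ∫ p, (ψ p * dM g c W a r p + pM g c W a ψ p) ∂vol g = 0 := by
  have H := hg.good x₀
  set e := chartAt (V n) x₀ with he
  have hK : IsCompact (e '' tsupport ψ) :=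
    (isClosed_tsupport ψ).isCompact.image_of_continuousOn (e.continuousOn.mono hs)
  have hKU : e '' tsupport ψ ⊆ e.target := by
    rintro _ ⟨p, hp, rfl⟩; exact e.map_source (hs hp)
  let F : Fin n → V n → ℂ := fun i => e.target.indicator fun z =>
    ψ (e.symm z) * ((coef g x₀ z).det * vW (coef g x₀) c W a z i)
  have s1 := fun i => (sm_det H.sm).mul (H.sm_vW (c := c) W a i)
  have hF : ∀ i, Sm e.target (F i) := fun i =>
    ((sm_comp_symm hψ x₀).mul (s1 i)).congr fun y hy => indicator_of_mem hy _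
  have hF0 : ∀ i y, y ∉ e '' tsupport ψ → F i y = 0 := by
    intro i y hy
    by_cases hyt : y ∈ e.target
    · refine (indicator_of_mem hyt _).trans ?_
      rw [image_eq_zero_of_notMem_tsupport (f := ψ) fun hc => hy ⟨_, hc, e.right_inv hyt⟩, zero_mul]
    · exact indicator_of_notMem hyt _
  have hF1 : ∀ i y, y ∉ e '' tsupport ψ → wd false i (F i) y = 0 := fun i y hy => by
    simp [wd, fd_zero_of_supp hK.isClosed (hF0 i) y hy]
  have h1 : ∫ y, ∑ i, wd false i (F i) y = 0 := by
    rw [integral_finsetSum _ fun i _ => integrable_of_supp e.open_target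
      ((hF i).wd e.open_target _ i) hK hKU (hF1 i)]
    exact Finset.sum_eq_zero fun i _ => integral_wd_eq_zero e.open_target (hF i) hK hKU (hF0 i) _ i
  rw [integral_vol hg x₀ (φ := fun p => ψ p * dM g c W a r p + pM g c W a ψ p)
    ((hψ.continuous.mul (cont_dM hg hW)).add (cont_pM hg (wf_eta hW).1 hψ)) (fun p hp => by
      have hp' : p ∉ tsupport ψ := fun h => hp (hs h)
      rw [image_eq_zero_of_notMem_tsupport hp', pM_zero hp']; simp), ← h1,
    ← setIntegral_eq_integral_of_forall_compl_eq_zero (s := e.target) (fun y hy =>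
      Finset.sum_eq_zero fun i _ => hF1 i y fun h => hy (hKU h))]
  refine setIntegral_congr_fun e.open_target.measurableSet fun y hy => ?_
  rw [mul_add, mul_left_comm, dM_eq hg hW hy, pM_eq hg (wf_eta hW).1 hψ (e.map_target hy),
    e.right_inv hy, wv, Finset.mul_sum, Finset.mul_sum, ← Finset.sum_add_distrib]
  refine Finset.sum_congr rfl fun i _ => ?_
  rw [wd_congr (eventually_of_mem (e.open_target.mem_nhds hy) fun z hz => indicator_of_mem hz _),
    wd_mul (Sm.dAt (sm_comp_symm hψ x₀) H.isOpen hy) (Sm.dAt (s1 i) H.isOpen hy)]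
  ring

theorem stokes [T2Space M] (hW : Wf (eta a r :: W)) (hψ : ContMDiff 𝓘(ℝ, V n) 𝓘(ℝ, ℂ) ∞ ψ) :
    ∫ p, (ψ p * dM g c W a r p + pM g c W a ψ p) ∂vol g = 0 := by
  obtain ⟨ρ, hρ⟩ := SmoothPartitionOfUnity.exists_isSubordinate_chartAt_source 𝓘(ℝ, V n) M
  have hfin := ρ.locallyFinite.finite_nonempty_of_compact
  set t := hfin.toFinset with ht
  have hsum : ∀ p, ∑ i ∈ t, (ρ i p : ℂ) * ψ p = ψ p := by
    intro p
    rw [← Finset.sum_mul, ← Complex.ofReal_sum, ← finsum_eq_sum_of_support_subset _ fun i hi => ?_,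
      ρ.sum_eq_one (mem_univ p), Complex.ofReal_one, one_mul]
    simp only [ht, Finite.coe_toFinset, mem_ofPred_eq]
    exact ⟨p, hi⟩
  have hs : ∀ i, ContMDiff 𝓘(ℝ, V n) 𝓘(ℝ, ℂ) ∞ fun p => (ρ i p : ℂ) * ψ p := fun i =>
    (ρ i).contMDiff.smul hψ
  have h1 : ∀ p, ψ p * dM g c W a r p + pM g c W a ψ p = ∑ i ∈ t, ((ρ i p : ℂ) * ψ p
      * dM g c W a r p + pM g c W a (fun p => (ρ i p : ℂ) * ψ p) p) := by
    intro p
    rw [Finset.sum_add_distrib, ← Finset.sum_mul, hsum]
    simp only [pM]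
    rw [← wv_sum fun i _ => Sm.dAt (sm_comp_symm (hs i) p) (chartAt (V n) p).open_target
      (mem_chart_target _ p)]
    simp only [hsum]
  rw [integral_congr_ae (Eventually.of_forall h1), integral_finsetSum _
    (f := fun i p => (ρ i p : ℂ) * ψ p * dM g c W a r p
      + pM g c W a (fun p => (ρ i p : ℂ) * ψ p) p) fun i _ => integrable_vol hg (((hs i).continuous.mul (cont_dM hg hW)).add
      (cont_pM hg (wf_eta hW).1 (hs i)))]
  refine Finset.sum_eq_zero fun i _ => integral_local hg hW (hs i) (subset_trans ?_ (hρ i))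
  exact closure_mono fun p hp h => hp (by simp [h])

omit [MeasurableSpace M] [BorelSpace M] [CompactSpace M] in
theorem ev_ibpE [NeZero n] (hW : Wf (eta a r :: W)) (x : M) :
    ev (AM hg c x) (ibpE W a r 1) = (dM g c W a r x).re := by
  rw [ibpE, ev_cons, val_AM hg hW, dM, Complex.sub_re, ev, List.map_map,
    ← Complex.coe_reAddGroupHom, map_list_sum, List.map_map, add_comm, sub_eq_add_neg]
  congr 1
  · congr 1
    exact List.map_congr_left fun t ht => by simp [val_AM hg ((wf_eta hW).1.wf_dT ht)]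
  · exact (congrArg (· * _) (Int.cast_neg 1)).trans (by simp)

theorem ibp_AM [T2Space M] [NeZero n] : IBP (nulM hg) (AM hg c) := by
  intro W a r hw
  have hW : Wf (eta a r :: W) := fun _ => wf_spec hw
  simp only [ev_ibpE hg hW]
  refine ⟨Complex.continuous_re.comp (cont_dM hg hW), ?_⟩
  have := stokes hg (c := c) hW (ψ := fun _ => 1) contMDiff_const
  simp only [pM, wv_const, one_mul, add_zero] at this
  exact (integral_re (integrable_vol hg (cont_dM hg hW))).trans (congrArg Complex.re this)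

end Pool.Agent.Lib.MP_40b2af_gt
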