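import Mathlib
import Pool.Agent.Lib.MP_40b2af_gt.Stokes
import Pool.Agent.Lib.MP_40b2af_gt.Fin

set_option autoImplicit false

noncomputable section

namespace Pool.Agent.Lib.MP_40b2af_gt

open scoped ContDiff Topology Matrix Manifold ComplexConjugate
open Set Filter MeasureTheory Complex

section Local

variable {n : ℕ} {U : Set (V n)} {h : Her n} {y : V n} {c : ℝ}

theorem vW_append {t W : Tm} {a : ℕ} (hd : ∀ v ∈ vars t, v ∉ vars W) (ha : a ∉ vars t) (k : Fin n) :
    vW h c (t ++ W) a y k = vG h c t y * vW h c W a y k := by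
  rw [vW, Sv_perm (l' := (vars t).dedup ++ (vars W).dedup) ((List.perm_ext_iff_of_nodup
    (List.nodup_dedup _) (List.nodup_append.2 ⟨List.nodup_dedup _, List.nodup_dedup _,
      fun v hv _ hw e => hd v (List.mem_dedup.1 hv) (e ▸ List.mem_dedup.1 hw)⟩)).2 (by simp)),
    Sv_append]
  simp only [prG_append, mul_assoc]
  rw [funext ((prG_dp _ t).Sv_mul (fun v hv h => hd v h (List.mem_dedup.1 hv)) _)]
  simp only [mul_comm (prG _ t _)]
  rw [(Dp.Sv (A := fun v => v ∈ vars W ∨ v = a) (fun u u' e => by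
    rw [prG_dp _ W u u' fun v hv => e v (.inl hv), e a (.inr rfl)]) _).Sv_mul fun v hv h =>
      h.1.elim (hd v (List.mem_dedup.1 hv)) fun e => ha (e ▸ List.mem_dedup.1 hv), mul_comm]
  rfl

theorem wv_real {u : V n → ℝ} (hu : DifferentiableAt ℝ u y) {φ : ℝ → ℝ}
    (hφ : DifferentiableAt ℝ φ (u y)) (b : Bool) (a : V n) :
    wv b a (fun z => (φ (u z) : ℂ)) y = deriv φ (u y) * wv b a (fun z => (u z : ℂ)) y := by
  have h1 := (ofRealCLM.hasFDerivAt.comp y (hφ.hasDerivAt.comp_hasFDerivAt y hu.hasFDerivAt)).fderiv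
  have h2 := (ofRealCLM.hasFDerivAt.comp y hu.hasFDerivAt).fderiv
  rw [wv_eq, wv_eq, show (fun z => (φ (u z) : ℂ)) = ofRealCLM ∘ φ ∘ u from rfl, h1,
    show (fun z => (u z : ℂ)) = ofRealCLM ∘ u from rfl, h2]
  simp
  ring

theorem fd_eq_wv (f : V n → ℂ) (u : V n) :
    fderiv ℝ f y u = wv false u f y + wv true (star u) f y := by
  simp only [wv_eq, cb, sg, cond_true, cond_false, star_star]
  ring

theorem Uni.ext {e : Fr n} (he : Uni h y e) (H : Good U h) (hy : y ∈ U) {φ : V n → ℂ}
    (hφ : IsLinearMap ℂ φ) (b : Bool) (h0 : ∀ i, φ (e i b) = 0) (u : V n) : φ u = 0 := by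
  simp [← he.1.lin H hy hφ b u, h0]

end Local

variable {n : ℕ} {M : Type} [TopologicalSpace M] [ChartedSpace (V n) M]
  [IsManifold 𝓘(ℝ, V n) ∞ M] [IsManifold 𝓘(ℂ, V n) ω M] {g : RMetric (V n) M} {c : ℝ}
  (hg : IsHermitian g)
include hg

theorem hsc_chart (hc : ConstChernHSC g c) (x : M) :
    HSC (chartAt (V n) x).target (coef g x) c := by
  intro y hy X
  have C := hg.chg x ((chartAt (V n) x).symm y)
  have e : ∀ u, Jc (trans (V n) x ((chartAt (V n) x).symm y)) true y (star u)
      = star (Jc (trans (V n) x ((chartAt (V n) x).symm y)) false y u) := fun u => by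
    simp [Jc, cb]
  rw [C.Rm_eq (mem_transDom' hy), C.eq y (mem_transDom' hy), e,
    C.good'.Rm_sum (C.maps y (mem_transDom' hy))]
  refine (hc _ _).trans ?_
  simp only [gm, hm, cond_false, mul_comm (Jc _ false y X _)]
  rfl

theorem flat_of_AM (h0 : ∀ x i j k l,
    (AM hg c x).C 1 [(false, i), (false, j), (true, k), (true, l)] = 0) : ChernFlat g := by
  intro x i j k l
  have H := hg.good x
  have hy := mem_chart_target (V n) x
  have he := (exists_uni (hg.posDef hy)).choose_spec
  rw [← H.Rm_single hy]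
  exact he.ext H hy (H.Rm_lin1 hy _ _ _) false (fun i => he.ext H hy (H.Rm_lin2 hy _ _ _) false
    (fun j => he.ext H hy (Rm_lin3 _ _ _ _ _) true
      (fun k => he.ext H hy (Rm_lin4 _ _ _ _ _) true (h0 x i j k) _) _) _) _

theorem kaehler_of_AM (h0 : ∀ x i j k, (AM hg c x).C 0 [(false, i), (false, j), (true, k)] = 0) :
    IsKaehler g := by
  intro x u v w
  have H := hg.good x
  have hy := mem_chart_target (V n) x
  have he := (exists_uni (hg.posDef hy)).choose_spec
  have t1 : ∀ u v w, Tor (coef g x) false (chartAt (V n) x x) u v w = 0 := fun u v w =>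
    he.ext H hy (H.Tor_lin1 hy _ _ _) false (fun i => he.ext H hy (H.Tor_lin2 hy _ _ _) false
      (fun j => he.ext H hy (Tor_lin3 _ _ _ _ _) true (h0 x i j) _) _) _
  have t2 : ∀ u v w, Tor (coef g x) true (chartAt (V n) x x) u v w = 0 := fun u v w => by
    have := H.Tor_conj (b := false) (u := star u) (v := star v) (w := star w) hy
    simpa [t1] using this
  have e : ∀ u v w : V n, (fderiv ℝ (fun y => gc g x y (I • v) w) (chartAt (V n) x x) u : ℂ)
      = I * (gm (coef g x) false (chartAt (V n) x x) (Gm (coef g x) false (chartAt (V n) x x) u v)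
          (star w) - gm (coef g x) false (chartAt (V n) x x)
            (Gm (coef g x) false (chartAt (V n) x x) u w) (star v)
        + (gm (coef g x) true (chartAt (V n) x x)
            (Gm (coef g x) true (chartAt (V n) x x) (star u) (star w)) v
          - gm (coef g x) true (chartAt (V n) x x)
            (Gm (coef g x) true (chartAt (V n) x x) (star u) (star v)) w)) := by
    intro u v w
    have d := ((contDiffOn_gval g x (I • v) w).contDiffAt (H.isOpen.mem_nhds hy)).differentiableAt
      (by simp)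
    have h2 := (ofRealCLM.hasFDerivAt.comp _ d.hasFDerivAt).fderiv
    have e1 : ∀ y ∈ (chartAt (V n) x).target, (ofRealCLM ∘ fun y => gc g x y (I • v) w) y
        = I * (gm (coef g x) false y v (star w) - gm (coef g x) false y w (star v)) := by
      intro y hy
      simp only [hg.gm hy, hF, star_star, ← gc_eq, hg.skew hy v w, gc_symm g x y w v,
        gc_symm g x y w (I • v), Function.comp_apply, ofRealCLM_apply]
      push_cast
      linear_combination (gc g x y (I • v) w : ℂ) * I_mul_I
    have d1 := fun u w => (H.gm_sm false u w).dAt H.isOpen hy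
    refine (congrArg (· u) h2).symm.trans ?_
    simp only [fd_eq_wv, wv_congr_on H.isOpen hy e1, wv_const_mul _ ((d1 _ _).fun_sub (d1 _ _)),
      wv_sub (d1 _ _) (d1 _ _), H.gm_G hy]
    simp only [← gm_swap (b := true), Bool.not_true]
    ring
  have a1 := t1 u v (star w)
  have a2 := t1 v w (star u)
  have a3 := t1 w u (star v)
  have b1 := t2 (star u) (star v) w
  have b2 := t2 (star v) (star w) u
  have b3 := t2 (star w) (star u) v
  simp only [Tor, (gm_lin1 _ _ _ _).map_sub] at a1 a2 a3 b1 b2 b3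
  rw [← ofReal_eq_zero]
  push_cast
  rw [e, e, e]
  linear_combination I * (a1 + a2 + a3 - b1 - b2 - b3)

variable [MeasurableSpace M] [BorelSpace M] [CompactSpace M] [T2Space M] [NeZero n]

theorem wibp_AM : WIBP (nulM hg) (AM hg c) := by
  intro φ hφ
  have w1 : Wf (eta 0 1 :: tW) := fun _ => wf_spec (by decide)
  have w2 : Wf (eta 0 1 :: (tS ++ tW)) := fun _ => wf_spec (by decide)
  have w3 : Wf tS := fun _ => wf_spec (by decide)
  have hre : ∀ x, ((vM g c tS x).re : ℂ) = vM g c tS x := fun x => by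
    rw [← val_AM hg w3, val_tS]
  have s1 : ContMDiff 𝓘(ℝ, V n) 𝓘(ℝ, ℝ) ∞ fun x => (vM g c tS x).re :=
    reCLM.contMDiff.comp (sm_vM hg w3)
  have s2 : ContMDiff 𝓘(ℝ, V n) 𝓘(ℝ, ℂ) ∞ fun x => (φ (vM g c tS x).re : ℂ) :=
    ofRealCLM.contMDiff.comp (hφ.contMDiff.comp s1)
  have key : ∀ x, pM g c tW 0 (fun x => (φ (vM g c tS x).re : ℂ)) x = deriv φ (vM g c tS x).re
      * (dM g c (tS ++ tW) 0 1 x - (vM g c tS x).re * dM g c tW 0 1 x) := by
    intro x
    have H := hg.good x
    have hy := mem_chart_target (V n) x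
    have hx := (chartAt (V n) x).left_inv (mem_chart_source _ x)
    have d := ((contMDiffOn_iff_contDiffOn.1 (s1.comp_contMDiffOn (contMDiffOn_chart_symm
      (x := x)))).contDiffAt (H.isOpen.mem_nhds hy)).differentiableAt (by simp)
    have e1 := dM_eq hg (c := c) w1 hy
    have e2 := dM_eq hg (c := c) w2 hy
    simp only [vW_append (t := tS) (W := tW) (a := 0) (by decide) (by decide),
      mul_left_comm _ (vG _ c tS _), wd_mul ((H.sm_vG tS).dAt H.isOpen hy)
        (Sm.dAt ((sm_det H.sm).mul (H.sm_vW tW 0 _)) H.isOpen hy), Finset.sum_add_distrib,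
      ← Finset.mul_sum, ← e1, hx] at e2
    rw [pM, wv_real (u := fun y => (vM g c tS ((chartAt (V n) x).symm y)).re) d
      (hφ.differentiable (by simp) _), hx, wv_congr_on H.isOpen hy (g := vG (coef g x) c tS)
        fun z hz => by rw [hre, vM_eq hg w3 ((chartAt (V n) x).map_target hz),
          (chartAt (V n) x).right_inv hz], hre]
    congr 1
    refine mul_left_cancel₀ (H.det _ hy) ?_
    rw [mul_sub, e2, wv, Finset.mul_sum, vM, mul_left_comm, add_sub_cancel_right]
    exact Finset.sum_congr rfl fun _ _ => by ring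
  have hI := (s2.continuous.mul (cont_dM hg (c := c) w1)).add (cont_pM hg (c := c) (wf_eta w1).1 s2)
  refine Nul.of_eq (f := fun x => ((φ (vM g c tS x).re : ℂ) * dM g c tW 0 1 x
    + pM g c tW 0 (fun x => (φ (vM g c tS x).re : ℂ)) x).re) ⟨continuous_re.comp hI,
      (integral_re (integrable_vol hg hI)).trans (congrArg re (stokes hg w1 s2))⟩ fun x => ?_
  simp only [key, ev_ibpE hg w1, ev_ibpE hg w2, val_AM hg w3, add_re, re_ofReal_mul, sub_re]

end Pool.Agent.Lib.MP_40b2af_gt
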