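import Mathlib
import Pool.Agent.Lib.MP_40b2af_gt.Top
import Pool.Agent.Lib.MP_40b2af_gt.Rels
import Pool.Agent.Lib.MP_40b2af_gt.L1
import Pool.Agent.Lib.MP_40b2af_gt.Psd32

set_option autoImplicit false
set_option maxRecDepth 100000

noncomputable section

namespace Pool.Agent.Lib.MP_40b2af_gt

open scoped ContDiff Manifold

theorem lv1_zero {X : Type} {N : Nul X} {A : X → Alg 3} (h1 : ∀ Y ∈ rels1, ∀ x, PV (A x) Y)
    (h3 : IBP N A) (hc : ∀ x, 0 ≤ (A x).sf true) :
    (∀ x, psdV (A x) false triv w1a g1a g1a = 0) ∧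
      ∀ x, psdV (A x) false F111 w1c g1c g1c = 0 := by
  have p1 := fun x => (psdV_nonneg (A := A x) (k := 1) (gens := g1a) (cf := false) (w := w1a)
    (by decide +kernel) (psd_triv (by decide)) (by decide +kernel) zero_le_one).1
  have p2 := fun x => (psdV_nonneg (A := A x) (k := 3) (gens := g1b) (cf := false) (w := w1b)
    (by decide +kernel) psdF21 (by decide +kernel) zero_le_one).1
  have p3 := fun x => (psdV_nonneg (A := A x) (k := 3) (gens := g1c) (cf := false) (w := w1c)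
    (by decide +kernel) psdF111 (by decide +kernel) zero_le_one).1
  have p4 := fun x => (psdV_nonneg (A := A x) (k := 5) (gens := g1d) (cf := false) (w := w1d)
    (by decide +kernel) psdF32 (by decide +kernel) zero_le_one).1
  have p5 := fun x => (psdV_nonneg (A := A x) (k := 0) (gens := g1e) (cf := true) (w := w1e)
    (by decide +kernel) (psd_triv (by decide)) (by decide +kernel) (hc x)).1
  have p6 := fun x => (psdV_nonneg (A := A x) (k := 2) (gens := g1f) (cf := true) (w := w1f)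
    (by decide +kernel) psdF11 (by decide +kernel) (hc x)).1
  have e := N.pos _ (lv1 ⟨h1, by simp, fun _ => h3, T1_z⟩) fun x =>
    add_nonneg (add_nonneg (add_nonneg (add_nonneg (add_nonneg (p1 x) (p2 x)) (p3 x)) (p4 x))
      (p5 x)) (p6 x)
  exact ⟨fun x => by linarith [e x, p1 x, p2 x, p3 x, p4 x, p5 x, p6 x],
    fun x => by linarith [e x, p1 x, p2 x, p3 x, p4 x, p5 x, p6 x]⟩

theorem threefold (M : Type) [TopologicalSpace M] [T2Space M] [CompactSpace M]
    [ChartedSpace (V 3) M] [IsManifold 𝓘(ℝ, V 3) ∞ M] [IsManifold 𝓘(ℂ, V 3) ω M]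
    (g : RMetric (V 3) M) (c : ℝ) (hg : IsHermitian g) (hc : c ≤ 0) (h : ConstChernHSC g c) :
    (c ≠ 0 → IsKaehler g) ∧ (c = 0 → ChernFlat g) := by
  borelize M
  have h1 : ∀ Y ∈ rels1, ∀ x, PV (AM hg c x) Y := fun Y hY x =>
    (hsc_chart hg h x).rels1 (hg.good x) (mem_chart_target _ x) _ Y hY
  obtain ⟨ha, hb⟩ := lv1_zero h1 (ibp_AM hg) fun _ => neg_nonneg.2 hc
  exact ⟨fun h0 => kaehler_of_AM hg fun x => tor_zero ha hb x h0,
    fun h0 => flat_of_AM hg (c := c) fun x =>
      curv_zero (hyp_W h1 (ibp_AM hg) ha hb fun _ => h0) (ibp_AM hg) (wibp_AM hg) x⟩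

end Pool.Agent.Lib.MP_40b2af_gt
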