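import Mathlib
import Pool.Agent.Lib.MP_40b2af_gt.Data1

set_option autoImplicit false
set_option maxRecDepth 100000

noncomputable section

namespace Pool.Agent.Lib.MP_40b2af_gt

def oF320 : List (Tm × List ℤ) := [([(3, [(false, 0), (true, 3)]), (3, [(false, 1), (true, 4)]), (5, [(false, 2), (false, 8), (false, 9), (true, 8), (true, 9)])], [2]),
  ([(3, [(false, 0), (true, 3)]), (3, [(false, 1), (true, 4)]), (5, [(false, 2), (false, 8), (false, 9), (true, 9), (true, 8)])], [2]),
  ([(3, [(false, 0), (true, 3)]), (3, [(false, 1), (true, 4)]), (5, [(false, 8), (false, 2), (false, 9), (true, 8), (true, 9)])], [2]),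
  ([(3, [(false, 0), (true, 3)]), (3, [(false, 1), (true, 4)]), (5, [(false, 8), (false, 2), (false, 9), (true, 9), (true, 8)])], [2]),
  ([(3, [(false, 0), (true, 3)]), (3, [(false, 1), (true, 4)]), (5, [(false, 8), (false, 9), (false, 2), (true, 8), (true, 9)])], [2]),
  ([(3, [(false, 0), (true, 3)]), (3, [(false, 1), (true, 4)]), (5, [(false, 8), (false, 9), (false, 2), (true, 9), (true, 8)])], [2]),
  ([(3, [(false, 0), (true, 3)]), (3, [(false, 2), (true, 4)]), (5, [(false, 1), (false, 8), (false, 9), (true, 8), (true, 9)])], [2]),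
  ([(3, [(false, 0), (true, 3)]), (3, [(false, 2), (true, 4)]), (5, [(false, 1), (false, 8), (false, 9), (true, 9), (true, 8)])], [2]),
  ([(3, [(false, 0), (true, 3)]), (5, [(false, 1), (false, 2), (false, 8), (true, 4), (true, 8)])], [-5]),
  ([(3, [(false, 0), (true, 3)]), (5, [(false, 1), (false, 2), (false, 8), (true, 8), (true, 4)])], [-5]),
  ([(3, [(false, 0), (true, 3)]), (5, [(false, 1), (false, 8), (false, 2), (true, 4), (true, 8)])], [-5]),
  ([(3, [(false, 0), (true, 3)]), (5, [(false, 1), (false, 8), (false, 2), (true, 8), (true, 4)])], [-5]),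
  ([(3, [(false, 0), (true, 3)]), (3, [(false, 2), (true, 4)]), (5, [(false, 8), (false, 1), (false, 9), (true, 8), (true, 9)])], [2]),
  ([(3, [(false, 0), (true, 3)]), (3, [(false, 2), (true, 4)]), (5, [(false, 8), (false, 1), (false, 9), (true, 9), (true, 8)])], [2]),
  ([(3, [(false, 0), (true, 3)]), (5, [(false, 2), (false, 1), (false, 8), (true, 4), (true, 8)])], [-5]),
  ([(3, [(false, 0), (true, 3)]), (5, [(false, 2), (false, 1), (false, 8), (true, 8), (true, 4)])], [-5]),
  ([(3, [(false, 0), (true, 3)]), (5, [(false, 8), (false, 1), (false, 2), (true, 4), (true, 8)])], [-5]),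
  ([(3, [(false, 0), (true, 3)]), (5, [(false, 8), (false, 1), (false, 2), (true, 8), (true, 4)])], [-5]),
  ([(3, [(false, 0), (true, 3)]), (3, [(false, 2), (true, 4)]), (5, [(false, 8), (false, 9), (false, 1), (true, 8), (true, 9)])], [2]),
  ([(3, [(false, 0), (true, 3)]), (3, [(false, 2), (true, 4)]), (5, [(false, 8), (false, 9), (false, 1), (true, 9), (true, 8)])], [2])]

def oF321 : List (Tm × List ℤ) := [([(3, [(false, 0), (true, 3)]), (5, [(false, 2), (false, 8), (false, 1), (true, 4), (true, 8)])], [-5]),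
  ([(3, [(false, 0), (true, 3)]), (5, [(false, 2), (false, 8), (false, 1), (true, 8), (true, 4)])], [-5]),
  ([(3, [(false, 0), (true, 3)]), (5, [(false, 8), (false, 2), (false, 1), (true, 4), (true, 8)])], [-5]),
  ([(3, [(false, 0), (true, 3)]), (5, [(false, 8), (false, 2), (false, 1), (true, 8), (true, 4)])], [-5]),
  ([(3, [(false, 0), (true, 4)]), (3, [(false, 1), (true, 3)]), (5, [(false, 2), (false, 8), (false, 9), (true, 8), (true, 9)])], [2]),
  ([(3, [(false, 0), (true, 4)]), (3, [(false, 1), (true, 3)]), (5, [(false, 2), (false, 8), (false, 9), (true, 9), (true, 8)])], [2]),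
  ([(3, [(false, 0), (true, 4)]), (3, [(false, 1), (true, 3)]), (5, [(false, 8), (false, 2), (false, 9), (true, 8), (true, 9)])], [2]),
  ([(3, [(false, 0), (true, 4)]), (3, [(false, 1), (true, 3)]), (5, [(false, 8), (false, 2), (false, 9), (true, 9), (true, 8)])], [2]),
  ([(3, [(false, 0), (true, 4)]), (3, [(false, 1), (true, 3)]), (5, [(false, 8), (false, 9), (false, 2), (true, 8), (true, 9)])], [2]),
  ([(3, [(false, 0), (true, 4)]), (3, [(false, 1), (true, 3)]), (5, [(false, 8), (false, 9), (false, 2), (true, 9), (true, 8)])], [2]),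
  ([(3, [(false, 0), (true, 4)]), (3, [(false, 2), (true, 3)]), (5, [(false, 1), (false, 8), (false, 9), (true, 8), (true, 9)])], [2]),
  ([(3, [(false, 0), (true, 4)]), (3, [(false, 2), (true, 3)]), (5, [(false, 1), (false, 8), (false, 9), (true, 9), (true, 8)])], [2]),
  ([(3, [(false, 0), (true, 4)]), (5, [(false, 1), (false, 2), (false, 8), (true, 3), (true, 8)])], [-5]),
  ([(3, [(false, 0), (true, 4)]), (5, [(false, 1), (false, 2), (false, 8), (true, 8), (true, 3)])], [-5]),
  ([(3, [(false, 0), (true, 4)]), (5, [(false, 1), (false, 8), (false, 2), (true, 3), (true, 8)])], [-5]),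
  ([(3, [(false, 0), (true, 4)]), (5, [(false, 1), (false, 8), (false, 2), (true, 8), (true, 3)])], [-5]),
  ([(3, [(false, 0), (true, 4)]), (3, [(false, 2), (true, 3)]), (5, [(false, 8), (false, 1), (false, 9), (true, 8), (true, 9)])], [2]),
  ([(3, [(false, 0), (true, 4)]), (3, [(false, 2), (true, 3)]), (5, [(false, 8), (false, 1), (false, 9), (true, 9), (true, 8)])], [2]),
  ([(3, [(false, 0), (true, 4)]), (5, [(false, 2), (false, 1), (false, 8), (true, 3), (true, 8)])], [-5]),
  ([(3, [(false, 0), (true, 4)]), (5, [(false, 2), (false, 1), (false, 8), (true, 8), (true, 3)])], [-5])]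

def oF322 : List (Tm × List ℤ) := [([(3, [(false, 0), (true, 4)]), (5, [(false, 8), (false, 1), (false, 2), (true, 3), (true, 8)])], [-5]),
  ([(3, [(false, 0), (true, 4)]), (5, [(false, 8), (false, 1), (false, 2), (true, 8), (true, 3)])], [-5]),
  ([(3, [(false, 0), (true, 4)]), (3, [(false, 2), (true, 3)]), (5, [(false, 8), (false, 9), (false, 1), (true, 8), (true, 9)])], [2]),
  ([(3, [(false, 0), (true, 4)]), (3, [(false, 2), (true, 3)]), (5, [(false, 8), (false, 9), (false, 1), (true, 9), (true, 8)])], [2]),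
  ([(3, [(false, 0), (true, 4)]), (5, [(false, 2), (false, 8), (false, 1), (true, 3), (true, 8)])], [-5]),
  ([(3, [(false, 0), (true, 4)]), (5, [(false, 2), (false, 8), (false, 1), (true, 8), (true, 3)])], [-5]),
  ([(3, [(false, 0), (true, 4)]), (5, [(false, 8), (false, 2), (false, 1), (true, 3), (true, 8)])], [-5]),
  ([(3, [(false, 0), (true, 4)]), (5, [(false, 8), (false, 2), (false, 1), (true, 8), (true, 3)])], [-5]),
  ([(3, [(false, 1), (true, 3)]), (3, [(false, 2), (true, 4)]), (5, [(false, 0), (false, 8), (false, 9), (true, 8), (true, 9)])], [2]),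
  ([(3, [(false, 1), (true, 3)]), (3, [(false, 2), (true, 4)]), (5, [(false, 0), (false, 8), (false, 9), (true, 9), (true, 8)])], [2]),
  ([(3, [(false, 1), (true, 3)]), (5, [(false, 0), (false, 2), (false, 8), (true, 4), (true, 8)])], [-5]),
  ([(3, [(false, 1), (true, 3)]), (5, [(false, 0), (false, 2), (false, 8), (true, 8), (true, 4)])], [-5]),
  ([(3, [(false, 1), (true, 3)]), (5, [(false, 0), (false, 8), (false, 2), (true, 4), (true, 8)])], [-5]),
  ([(3, [(false, 1), (true, 3)]), (5, [(false, 0), (false, 8), (false, 2), (true, 8), (true, 4)])], [-5]),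
  ([(3, [(false, 1), (true, 4)]), (3, [(false, 2), (true, 3)]), (5, [(false, 0), (false, 8), (false, 9), (true, 8), (true, 9)])], [2]),
  ([(3, [(false, 1), (true, 4)]), (3, [(false, 2), (true, 3)]), (5, [(false, 0), (false, 8), (false, 9), (true, 9), (true, 8)])], [2]),
  ([(3, [(false, 1), (true, 4)]), (5, [(false, 0), (false, 2), (false, 8), (true, 3), (true, 8)])], [-5]),
  ([(3, [(false, 1), (true, 4)]), (5, [(false, 0), (false, 2), (false, 8), (true, 8), (true, 3)])], [-5]),
  ([(3, [(false, 1), (true, 4)]), (5, [(false, 0), (false, 8), (false, 2), (true, 3), (true, 8)])], [-5]),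
  ([(3, [(false, 1), (true, 4)]), (5, [(false, 0), (false, 8), (false, 2), (true, 8), (true, 3)])], [-5])]

def oF323 : List (Tm × List ℤ) := [([(3, [(false, 2), (true, 3)]), (5, [(false, 0), (false, 1), (false, 8), (true, 4), (true, 8)])], [-5]),
  ([(3, [(false, 2), (true, 3)]), (5, [(false, 0), (false, 1), (false, 8), (true, 8), (true, 4)])], [-5]),
  ([(3, [(false, 2), (true, 4)]), (5, [(false, 0), (false, 1), (false, 8), (true, 3), (true, 8)])], [-5]),
  ([(3, [(false, 2), (true, 4)]), (5, [(false, 0), (false, 1), (false, 8), (true, 8), (true, 3)])], [-5]),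
  ([(5, [(false, 0), (false, 1), (false, 2), (true, 3), (true, 4)])], [30]),
  ([(5, [(false, 0), (false, 1), (false, 2), (true, 4), (true, 3)])], [30]),
  ([(3, [(false, 2), (true, 3)]), (5, [(false, 0), (false, 8), (false, 1), (true, 4), (true, 8)])], [-5]),
  ([(3, [(false, 2), (true, 3)]), (5, [(false, 0), (false, 8), (false, 1), (true, 8), (true, 4)])], [-5]),
  ([(3, [(false, 2), (true, 4)]), (5, [(false, 0), (false, 8), (false, 1), (true, 3), (true, 8)])], [-5]),
  ([(3, [(false, 2), (true, 4)]), (5, [(false, 0), (false, 8), (false, 1), (true, 8), (true, 3)])], [-5]),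
  ([(5, [(false, 0), (false, 2), (false, 1), (true, 3), (true, 4)])], [30]),
  ([(5, [(false, 0), (false, 2), (false, 1), (true, 4), (true, 3)])], [30]),
  ([(3, [(false, 1), (true, 3)]), (3, [(false, 2), (true, 4)]), (5, [(false, 8), (false, 0), (false, 9), (true, 8), (true, 9)])], [2]),
  ([(3, [(false, 1), (true, 3)]), (3, [(false, 2), (true, 4)]), (5, [(false, 8), (false, 0), (false, 9), (true, 9), (true, 8)])], [2]),
  ([(3, [(false, 1), (true, 3)]), (5, [(false, 2), (false, 0), (false, 8), (true, 4), (true, 8)])], [-5]),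
  ([(3, [(false, 1), (true, 3)]), (5, [(false, 2), (false, 0), (false, 8), (true, 8), (true, 4)])], [-5]),
  ([(3, [(false, 1), (true, 3)]), (5, [(false, 8), (false, 0), (false, 2), (true, 4), (true, 8)])], [-5]),
  ([(3, [(false, 1), (true, 3)]), (5, [(false, 8), (false, 0), (false, 2), (true, 8), (true, 4)])], [-5]),
  ([(3, [(false, 1), (true, 4)]), (3, [(false, 2), (true, 3)]), (5, [(false, 8), (false, 0), (false, 9), (true, 8), (true, 9)])], [2]),
  ([(3, [(false, 1), (true, 4)]), (3, [(false, 2), (true, 3)]), (5, [(false, 8), (false, 0), (false, 9), (true, 9), (true, 8)])], [2])]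

def oF324 : List (Tm × List ℤ) := [([(3, [(false, 1), (true, 4)]), (5, [(false, 2), (false, 0), (false, 8), (true, 3), (true, 8)])], [-5]),
  ([(3, [(false, 1), (true, 4)]), (5, [(false, 2), (false, 0), (false, 8), (true, 8), (true, 3)])], [-5]),
  ([(3, [(false, 1), (true, 4)]), (5, [(false, 8), (false, 0), (false, 2), (true, 3), (true, 8)])], [-5]),
  ([(3, [(false, 1), (true, 4)]), (5, [(false, 8), (false, 0), (false, 2), (true, 8), (true, 3)])], [-5]),
  ([(3, [(false, 2), (true, 3)]), (5, [(false, 1), (false, 0), (false, 8), (true, 4), (true, 8)])], [-5]),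
  ([(3, [(false, 2), (true, 3)]), (5, [(false, 1), (false, 0), (false, 8), (true, 8), (true, 4)])], [-5]),
  ([(3, [(false, 2), (true, 4)]), (5, [(false, 1), (false, 0), (false, 8), (true, 3), (true, 8)])], [-5]),
  ([(3, [(false, 2), (true, 4)]), (5, [(false, 1), (false, 0), (false, 8), (true, 8), (true, 3)])], [-5]),
  ([(5, [(false, 1), (false, 0), (false, 2), (true, 3), (true, 4)])], [30]),
  ([(5, [(false, 1), (false, 0), (false, 2), (true, 4), (true, 3)])], [30]),
  ([(3, [(false, 2), (true, 3)]), (5, [(false, 8), (false, 0), (false, 1), (true, 4), (true, 8)])], [-5]),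
  ([(3, [(false, 2), (true, 3)]), (5, [(false, 8), (false, 0), (false, 1), (true, 8), (true, 4)])], [-5]),
  ([(3, [(false, 2), (true, 4)]), (5, [(false, 8), (false, 0), (false, 1), (true, 3), (true, 8)])], [-5]),
  ([(3, [(false, 2), (true, 4)]), (5, [(false, 8), (false, 0), (false, 1), (true, 8), (true, 3)])], [-5]),
  ([(5, [(false, 2), (false, 0), (false, 1), (true, 3), (true, 4)])], [30]),
  ([(5, [(false, 2), (false, 0), (false, 1), (true, 4), (true, 3)])], [30]),
  ([(3, [(false, 1), (true, 3)]), (3, [(false, 2), (true, 4)]), (5, [(false, 8), (false, 9), (false, 0), (true, 8), (true, 9)])], [2]),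
  ([(3, [(false, 1), (true, 3)]), (3, [(false, 2), (true, 4)]), (5, [(false, 8), (false, 9), (false, 0), (true, 9), (true, 8)])], [2]),
  ([(3, [(false, 1), (true, 3)]), (5, [(false, 2), (false, 8), (false, 0), (true, 4), (true, 8)])], [-5]),
  ([(3, [(false, 1), (true, 3)]), (5, [(false, 2), (false, 8), (false, 0), (true, 8), (true, 4)])], [-5])]

def oF325 : List (Tm × List ℤ) := [([(3, [(false, 1), (true, 3)]), (5, [(false, 8), (false, 2), (false, 0), (true, 4), (true, 8)])], [-5]),
  ([(3, [(false, 1), (true, 3)]), (5, [(false, 8), (false, 2), (false, 0), (true, 8), (true, 4)])], [-5]),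
  ([(3, [(false, 1), (true, 4)]), (3, [(false, 2), (true, 3)]), (5, [(false, 8), (false, 9), (false, 0), (true, 8), (true, 9)])], [2]),
  ([(3, [(false, 1), (true, 4)]), (3, [(false, 2), (true, 3)]), (5, [(false, 8), (false, 9), (false, 0), (true, 9), (true, 8)])], [2]),
  ([(3, [(false, 1), (true, 4)]), (5, [(false, 2), (false, 8), (false, 0), (true, 3), (true, 8)])], [-5]),
  ([(3, [(false, 1), (true, 4)]), (5, [(false, 2), (false, 8), (false, 0), (true, 8), (true, 3)])], [-5]),
  ([(3, [(false, 1), (true, 4)]), (5, [(false, 8), (false, 2), (false, 0), (true, 3), (true, 8)])], [-5]),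
  ([(3, [(false, 1), (true, 4)]), (5, [(false, 8), (false, 2), (false, 0), (true, 8), (true, 3)])], [-5]),
  ([(3, [(false, 2), (true, 3)]), (5, [(false, 1), (false, 8), (false, 0), (true, 4), (true, 8)])], [-5]),
  ([(3, [(false, 2), (true, 3)]), (5, [(false, 1), (false, 8), (false, 0), (true, 8), (true, 4)])], [-5]),
  ([(3, [(false, 2), (true, 4)]), (5, [(false, 1), (false, 8), (false, 0), (true, 3), (true, 8)])], [-5]),
  ([(3, [(false, 2), (true, 4)]), (5, [(false, 1), (false, 8), (false, 0), (true, 8), (true, 3)])], [-5]),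
  ([(5, [(false, 1), (false, 2), (false, 0), (true, 3), (true, 4)])], [30]),
  ([(5, [(false, 1), (false, 2), (false, 0), (true, 4), (true, 3)])], [30]),
  ([(3, [(false, 2), (true, 3)]), (5, [(false, 8), (false, 1), (false, 0), (true, 4), (true, 8)])], [-5]),
  ([(3, [(false, 2), (true, 3)]), (5, [(false, 8), (false, 1), (false, 0), (true, 8), (true, 4)])], [-5]),
  ([(3, [(false, 2), (true, 4)]), (5, [(false, 8), (false, 1), (false, 0), (true, 3), (true, 8)])], [-5]),
  ([(3, [(false, 2), (true, 4)]), (5, [(false, 8), (false, 1), (false, 0), (true, 8), (true, 3)])], [-5]),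
  ([(5, [(false, 2), (false, 1), (false, 0), (true, 3), (true, 4)])], [30]),
  ([(5, [(false, 2), (false, 1), (false, 0), (true, 4), (true, 3)])], [30])]

def gF32 : List (Tm × List ℤ) := [([(3, [(false, 0), (true, 3)]), (3, [(false, 1), (true, 4)]), (5, [(false, 2), (false, 8), (false, 9), (true, 8), (true, 9)])], [2]),
  ([(3, [(false, 0), (true, 3)]), (3, [(false, 1), (true, 4)]), (5, [(false, 2), (false, 8), (false, 9), (true, 9), (true, 8)])], [2]),
  ([(3, [(false, 0), (true, 3)]), (3, [(false, 1), (true, 4)]), (5, [(false, 8), (false, 2), (false, 9), (true, 8), (true, 9)])], [2]),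
  ([(3, [(false, 0), (true, 3)]), (3, [(false, 1), (true, 4)]), (5, [(false, 8), (false, 2), (false, 9), (true, 9), (true, 8)])], [2]),
  ([(3, [(false, 0), (true, 3)]), (3, [(false, 1), (true, 4)]), (5, [(false, 8), (false, 9), (false, 2), (true, 8), (true, 9)])], [2]),
  ([(3, [(false, 0), (true, 3)]), (3, [(false, 1), (true, 4)]), (5, [(false, 8), (false, 9), (false, 2), (true, 9), (true, 8)])], [2]),
  ([(3, [(false, 0), (true, 3)]), (3, [(false, 2), (true, 4)]), (5, [(false, 1), (false, 8), (false, 9), (true, 8), (true, 9)])], [2]),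
  ([(3, [(false, 0), (true, 3)]), (3, [(false, 2), (true, 4)]), (5, [(false, 1), (false, 8), (false, 9), (true, 9), (true, 8)])], [2]),
  ([(3, [(false, 0), (true, 3)]), (5, [(false, 1), (false, 2), (false, 8), (true, 4), (true, 8)])], [-5]),
  ([(3, [(false, 0), (true, 3)]), (5, [(false, 1), (false, 2), (false, 8), (true, 8), (true, 4)])], [-5]),
  ([(3, [(false, 0), (true, 3)]), (5, [(false, 1), (false, 8), (false, 2), (true, 4), (true, 8)])], [-5]),
  ([(3, [(false, 0), (true, 3)]), (5, [(false, 1), (false, 8), (false, 2), (true, 8), (true, 4)])], [-5]),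
  ([(3, [(false, 0), (true, 3)]), (3, [(false, 2), (true, 4)]), (5, [(false, 8), (false, 1), (false, 9), (true, 8), (true, 9)])], [2]),
  ([(3, [(false, 0), (true, 3)]), (3, [(false, 2), (true, 4)]), (5, [(false, 8), (false, 1), (false, 9), (true, 9), (true, 8)])], [2]),
  ([(3, [(false, 0), (true, 3)]), (5, [(false, 2), (false, 1), (false, 8), (true, 4), (true, 8)])], [-5]),
  ([(3, [(false, 0), (true, 3)]), (5, [(false, 2), (false, 1), (false, 8), (true, 8), (true, 4)])], [-5]),
  ([(3, [(false, 0), (true, 3)]), (5, [(false, 8), (false, 1), (false, 2), (true, 4), (true, 8)])], [-5]),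
  ([(3, [(false, 0), (true, 3)]), (5, [(false, 8), (false, 1), (false, 2), (true, 8), (true, 4)])], [-5]),
  ([(3, [(false, 0), (true, 3)]), (3, [(false, 2), (true, 4)]), (5, [(false, 8), (false, 9), (false, 1), (true, 8), (true, 9)])], [2]),
  ([(3, [(false, 0), (true, 3)]), (3, [(false, 2), (true, 4)]), (5, [(false, 8), (false, 9), (false, 1), (true, 9), (true, 8)])], [2]),
  ([(3, [(false, 0), (true, 3)]), (5, [(false, 2), (false, 8), (false, 1), (true, 4), (true, 8)])], [-5]),
  ([(3, [(false, 0), (true, 3)]), (5, [(false, 2), (false, 8), (false, 1), (true, 8), (true, 4)])], [-5]),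
  ([(3, [(false, 0), (true, 3)]), (5, [(false, 8), (false, 2), (false, 1), (true, 4), (true, 8)])], [-5]),
  ([(3, [(false, 0), (true, 3)]), (5, [(false, 8), (false, 2), (false, 1), (true, 8), (true, 4)])], [-5]),
  ([(3, [(false, 0), (true, 4)]), (3, [(false, 1), (true, 3)]), (5, [(false, 2), (false, 8), (false, 9), (true, 8), (true, 9)])], [2]),
  ([(3, [(false, 0), (true, 4)]), (3, [(false, 1), (true, 3)]), (5, [(false, 2), (false, 8), (false, 9), (true, 9), (true, 8)])], [2]),
  ([(3, [(false, 0), (true, 4)]), (3, [(false, 1), (true, 3)]), (5, [(false, 8), (false, 2), (false, 9), (true, 8), (true, 9)])], [2]),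
  ([(3, [(false, 0), (true, 4)]), (3, [(false, 1), (true, 3)]), (5, [(false, 8), (false, 2), (false, 9), (true, 9), (true, 8)])], [2]),
  ([(3, [(false, 0), (true, 4)]), (3, [(false, 1), (true, 3)]), (5, [(false, 8), (false, 9), (false, 2), (true, 8), (true, 9)])], [2]),
  ([(3, [(false, 0), (true, 4)]), (3, [(false, 1), (true, 3)]), (5, [(false, 8), (false, 9), (false, 2), (true, 9), (true, 8)])], [2]),
  ([(3, [(false, 0), (true, 4)]), (3, [(false, 2), (true, 3)]), (5, [(false, 1), (false, 8), (false, 9), (true, 8), (true, 9)])], [2]),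
  ([(3, [(false, 0), (true, 4)]), (3, [(false, 2), (true, 3)]), (5, [(false, 1), (false, 8), (false, 9), (true, 9), (true, 8)])], [2]),
  ([(3, [(false, 0), (true, 4)]), (5, [(false, 1), (false, 2), (false, 8), (true, 3), (true, 8)])], [-5]),
  ([(3, [(false, 0), (true, 4)]), (5, [(false, 1), (false, 2), (false, 8), (true, 8), (true, 3)])], [-5]),
  ([(3, [(false, 0), (true, 4)]), (5, [(false, 1), (false, 8), (false, 2), (true, 3), (true, 8)])], [-5]),
  ([(3, [(false, 0), (true, 4)]), (5, [(false, 1), (false, 8), (false, 2), (true, 8), (true, 3)])], [-5]),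
  ([(3, [(false, 0), (true, 4)]), (3, [(false, 2), (true, 3)]), (5, [(false, 8), (false, 1), (false, 9), (true, 8), (true, 9)])], [2]),
  ([(3, [(false, 0), (true, 4)]), (3, [(false, 2), (true, 3)]), (5, [(false, 8), (false, 1), (false, 9), (true, 9), (true, 8)])], [2]),
  ([(3, [(false, 0), (true, 4)]), (5, [(false, 2), (false, 1), (false, 8), (true, 3), (true, 8)])], [-5]),
  ([(3, [(false, 0), (true, 4)]), (5, [(false, 2), (false, 1), (false, 8), (true, 8), (true, 3)])], [-5]),
  ([(3, [(false, 0), (true, 4)]), (5, [(false, 8), (false, 1), (false, 2), (true, 3), (true, 8)])], [-5]),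
  ([(3, [(false, 0), (true, 4)]), (5, [(false, 8), (false, 1), (false, 2), (true, 8), (true, 3)])], [-5]),
  ([(3, [(false, 0), (true, 4)]), (3, [(false, 2), (true, 3)]), (5, [(false, 8), (false, 9), (false, 1), (true, 8), (true, 9)])], [2]),
  ([(3, [(false, 0), (true, 4)]), (3, [(false, 2), (true, 3)]), (5, [(false, 8), (false, 9), (false, 1), (true, 9), (true, 8)])], [2]),
  ([(3, [(false, 0), (true, 4)]), (5, [(false, 2), (false, 8), (false, 1), (true, 3), (true, 8)])], [-5]),
  ([(3, [(false, 0), (true, 4)]), (5, [(false, 2), (false, 8), (false, 1), (true, 8), (true, 3)])], [-5]),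
  ([(3, [(false, 0), (true, 4)]), (5, [(false, 8), (false, 2), (false, 1), (true, 3), (true, 8)])], [-5]),
  ([(3, [(false, 0), (true, 4)]), (5, [(false, 8), (false, 2), (false, 1), (true, 8), (true, 3)])], [-5]),
  ([(3, [(false, 1), (true, 3)]), (3, [(false, 2), (true, 4)]), (5, [(false, 0), (false, 8), (false, 9), (true, 8), (true, 9)])], [2]),
  ([(3, [(false, 1), (true, 3)]), (3, [(false, 2), (true, 4)]), (5, [(false, 0), (false, 8), (false, 9), (true, 9), (true, 8)])], [2]),
  ([(3, [(false, 1), (true, 3)]), (5, [(false, 0), (false, 2), (false, 8), (true, 4), (true, 8)])], [-5]),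
  ([(3, [(false, 1), (true, 3)]), (5, [(false, 0), (false, 2), (false, 8), (true, 8), (true, 4)])], [-5]),
  ([(3, [(false, 1), (true, 3)]), (5, [(false, 0), (false, 8), (false, 2), (true, 4), (true, 8)])], [-5]),
  ([(3, [(false, 1), (true, 3)]), (5, [(false, 0), (false, 8), (false, 2), (true, 8), (true, 4)])], [-5]),
  ([(3, [(false, 1), (true, 4)]), (3, [(false, 2), (true, 3)]), (5, [(false, 0), (false, 8), (false, 9), (true, 8), (true, 9)])], [2]),
  ([(3, [(false, 1), (true, 4)]), (3, [(false, 2), (true, 3)]), (5, [(false, 0), (false, 8), (false, 9), (true, 9), (true, 8)])], [2]),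
  ([(3, [(false, 1), (true, 4)]), (5, [(false, 0), (false, 2), (false, 8), (true, 3), (true, 8)])], [-5]),
  ([(3, [(false, 1), (true, 4)]), (5, [(false, 0), (false, 2), (false, 8), (true, 8), (true, 3)])], [-5]),
  ([(3, [(false, 1), (true, 4)]), (5, [(false, 0), (false, 8), (false, 2), (true, 3), (true, 8)])], [-5]),
  ([(3, [(false, 1), (true, 4)]), (5, [(false, 0), (false, 8), (false, 2), (true, 8), (true, 3)])], [-5]),
  ([(3, [(false, 2), (true, 3)]), (5, [(false, 0), (false, 1), (false, 8), (true, 4), (true, 8)])], [-5]),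
  ([(3, [(false, 2), (true, 3)]), (5, [(false, 0), (false, 1), (false, 8), (true, 8), (true, 4)])], [-5]),
  ([(3, [(false, 2), (true, 4)]), (5, [(false, 0), (false, 1), (false, 8), (true, 3), (true, 8)])], [-5]),
  ([(3, [(false, 2), (true, 4)]), (5, [(false, 0), (false, 1), (false, 8), (true, 8), (true, 3)])], [-5]),
  ([(5, [(false, 0), (false, 1), (false, 2), (true, 3), (true, 4)])], [30]),
  ([(5, [(false, 0), (false, 1), (false, 2), (true, 4), (true, 3)])], [30]),
  ([(3, [(false, 2), (true, 3)]), (5, [(false, 0), (false, 8), (false, 1), (true, 4), (true, 8)])], [-5]),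
  ([(3, [(false, 2), (true, 3)]), (5, [(false, 0), (false, 8), (false, 1), (true, 8), (true, 4)])], [-5]),
  ([(3, [(false, 2), (true, 4)]), (5, [(false, 0), (false, 8), (false, 1), (true, 3), (true, 8)])], [-5]),
  ([(3, [(false, 2), (true, 4)]), (5, [(false, 0), (false, 8), (false, 1), (true, 8), (true, 3)])], [-5]),
  ([(5, [(false, 0), (false, 2), (false, 1), (true, 3), (true, 4)])], [30]),
  ([(5, [(false, 0), (false, 2), (false, 1), (true, 4), (true, 3)])], [30]),
  ([(3, [(false, 1), (true, 3)]), (3, [(false, 2), (true, 4)]), (5, [(false, 8), (false, 0), (false, 9), (true, 8), (true, 9)])], [2]),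
  ([(3, [(false, 1), (true, 3)]), (3, [(false, 2), (true, 4)]), (5, [(false, 8), (false, 0), (false, 9), (true, 9), (true, 8)])], [2]),
  ([(3, [(false, 1), (true, 3)]), (5, [(false, 2), (false, 0), (false, 8), (true, 4), (true, 8)])], [-5]),
  ([(3, [(false, 1), (true, 3)]), (5, [(false, 2), (false, 0), (false, 8), (true, 8), (true, 4)])], [-5]),
  ([(3, [(false, 1), (true, 3)]), (5, [(false, 8), (false, 0), (false, 2), (true, 4), (true, 8)])], [-5]),
  ([(3, [(false, 1), (true, 3)]), (5, [(false, 8), (false, 0), (false, 2), (true, 8), (true, 4)])], [-5]),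
  ([(3, [(false, 1), (true, 4)]), (3, [(false, 2), (true, 3)]), (5, [(false, 8), (false, 0), (false, 9), (true, 8), (true, 9)])], [2]),
  ([(3, [(false, 1), (true, 4)]), (3, [(false, 2), (true, 3)]), (5, [(false, 8), (false, 0), (false, 9), (true, 9), (true, 8)])], [2]),
  ([(3, [(false, 1), (true, 4)]), (5, [(false, 2), (false, 0), (false, 8), (true, 3), (true, 8)])], [-5]),
  ([(3, [(false, 1), (true, 4)]), (5, [(false, 2), (false, 0), (false, 8), (true, 8), (true, 3)])], [-5]),
  ([(3, [(false, 1), (true, 4)]), (5, [(false, 8), (false, 0), (false, 2), (true, 3), (true, 8)])], [-5]),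
  ([(3, [(false, 1), (true, 4)]), (5, [(false, 8), (false, 0), (false, 2), (true, 8), (true, 3)])], [-5]),
  ([(3, [(false, 2), (true, 3)]), (5, [(false, 1), (false, 0), (false, 8), (true, 4), (true, 8)])], [-5]),
  ([(3, [(false, 2), (true, 3)]), (5, [(false, 1), (false, 0), (false, 8), (true, 8), (true, 4)])], [-5]),
  ([(3, [(false, 2), (true, 4)]), (5, [(false, 1), (false, 0), (false, 8), (true, 3), (true, 8)])], [-5]),
  ([(3, [(false, 2), (true, 4)]), (5, [(false, 1), (false, 0), (false, 8), (true, 8), (true, 3)])], [-5]),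
  ([(5, [(false, 1), (false, 0), (false, 2), (true, 3), (true, 4)])], [30]),
  ([(5, [(false, 1), (false, 0), (false, 2), (true, 4), (true, 3)])], [30]),
  ([(3, [(false, 2), (true, 3)]), (5, [(false, 8), (false, 0), (false, 1), (true, 4), (true, 8)])], [-5]),
  ([(3, [(false, 2), (true, 3)]), (5, [(false, 8), (false, 0), (false, 1), (true, 8), (true, 4)])], [-5]),
  ([(3, [(false, 2), (true, 4)]), (5, [(false, 8), (false, 0), (false, 1), (true, 3), (true, 8)])], [-5]),
  ([(3, [(false, 2), (true, 4)]), (5, [(false, 8), (false, 0), (false, 1), (true, 8), (true, 3)])], [-5]),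
  ([(5, [(false, 2), (false, 0), (false, 1), (true, 3), (true, 4)])], [30]),
  ([(5, [(false, 2), (false, 0), (false, 1), (true, 4), (true, 3)])], [30]),
  ([(3, [(false, 1), (true, 3)]), (3, [(false, 2), (true, 4)]), (5, [(false, 8), (false, 9), (false, 0), (true, 8), (true, 9)])], [2]),
  ([(3, [(false, 1), (true, 3)]), (3, [(false, 2), (true, 4)]), (5, [(false, 8), (false, 9), (false, 0), (true, 9), (true, 8)])], [2]),
  ([(3, [(false, 1), (true, 3)]), (5, [(false, 2), (false, 8), (false, 0), (true, 4), (true, 8)])], [-5]),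
  ([(3, [(false, 1), (true, 3)]), (5, [(false, 2), (false, 8), (false, 0), (true, 8), (true, 4)])], [-5]),
  ([(3, [(false, 1), (true, 3)]), (5, [(false, 8), (false, 2), (false, 0), (true, 4), (true, 8)])], [-5]),
  ([(3, [(false, 1), (true, 3)]), (5, [(false, 8), (false, 2), (false, 0), (true, 8), (true, 4)])], [-5]),
  ([(3, [(false, 1), (true, 4)]), (3, [(false, 2), (true, 3)]), (5, [(false, 8), (false, 9), (false, 0), (true, 8), (true, 9)])], [2]),
  ([(3, [(false, 1), (true, 4)]), (3, [(false, 2), (true, 3)]), (5, [(false, 8), (false, 9), (false, 0), (true, 9), (true, 8)])], [2]),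
  ([(3, [(false, 1), (true, 4)]), (5, [(false, 2), (false, 8), (false, 0), (true, 3), (true, 8)])], [-5]),
  ([(3, [(false, 1), (true, 4)]), (5, [(false, 2), (false, 8), (false, 0), (true, 8), (true, 3)])], [-5]),
  ([(3, [(false, 1), (true, 4)]), (5, [(false, 8), (false, 2), (false, 0), (true, 3), (true, 8)])], [-5]),
  ([(3, [(false, 1), (true, 4)]), (5, [(false, 8), (false, 2), (false, 0), (true, 8), (true, 3)])], [-5]),
  ([(3, [(false, 2), (true, 3)]), (5, [(false, 1), (false, 8), (false, 0), (true, 4), (true, 8)])], [-5]),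
  ([(3, [(false, 2), (true, 3)]), (5, [(false, 1), (false, 8), (false, 0), (true, 8), (true, 4)])], [-5]),
  ([(3, [(false, 2), (true, 4)]), (5, [(false, 1), (false, 8), (false, 0), (true, 3), (true, 8)])], [-5]),
  ([(3, [(false, 2), (true, 4)]), (5, [(false, 1), (false, 8), (false, 0), (true, 8), (true, 3)])], [-5]),
  ([(5, [(false, 1), (false, 2), (false, 0), (true, 3), (true, 4)])], [30]),
  ([(5, [(false, 1), (false, 2), (false, 0), (true, 4), (true, 3)])], [30]),
  ([(3, [(false, 2), (true, 3)]), (5, [(false, 8), (false, 1), (false, 0), (true, 4), (true, 8)])], [-5]),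
  ([(3, [(false, 2), (true, 3)]), (5, [(false, 8), (false, 1), (false, 0), (true, 8), (true, 4)])], [-5]),
  ([(3, [(false, 2), (true, 4)]), (5, [(false, 8), (false, 1), (false, 0), (true, 3), (true, 8)])], [-5]),
  ([(3, [(false, 2), (true, 4)]), (5, [(false, 8), (false, 1), (false, 0), (true, 8), (true, 3)])], [-5]),
  ([(5, [(false, 2), (false, 1), (false, 0), (true, 3), (true, 4)])], [30]),
  ([(5, [(false, 2), (false, 1), (false, 0), (true, 4), (true, 3)])], [30])]

def TF32 : Tr := .node (.node (.node (.node (.node (.node (.node (.leaf 184760281966972772928 0) (.leaf 184760653011221226048 0)) (.leaf 184760650115570213440 0)) (.node (.leaf 184760623520455336512 0) (.leaf 184761026562218533440 0))) (.node (.node (.node (.leaf 184760283771362353728 0) (.leaf 184761972425224888896 0)) (.leaf 184760282122101203520 0)) (.node (.leaf 184760387520095330880 0) (.leaf 184761048835457557056 0)))) (.node (.node (.node (.node (.leaf 184760600275589014080 0) (.leaf 184761877170546811456 0)) (.leaf 184760623520499376704 0)) (.node (.leaf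 184761032745610388032 0) (.leaf 184760287690429833792 0))) (.node (.node (.leaf 184760286966482477632 0) (.leaf 184760600637546963520 0)) (.node (.leaf 184760387571815293504 0) (.leaf 184761877584218432064 0))))) (.node (.node (.node (.node (.node (.leaf 184760283616240214592 0) (.leaf 184761919648616424000 0)) (.leaf 184760287069941277248 0)) (.node (.leaf 184761032435366109760 0) (.leaf 184760287690404667968 0))) (.node (.node (.leaf 184760600430711153216 0) (.leaf 184760283978198164032 0)) (.node (.leaf 184760603574130188864 0) (.leaf 184760413034717651520 0)))) (.node (.node (.node (.node (.leaf 184760282018680152640 0) (.leaf 184761877170584560192 0)) (.leaf 184761916752965411392 0)) (.node (.leaf 184761045939749921344 0) (.leaf 184760626622992491072 0))) (.node (.node (.leaf 184760287069897237056 0) (.leaf 184760387675230052928 0)) (.node (.leaf 184761125518265033280 0) (.leaf 184760413862048309824 0)))))) (.node (.node (.node (.node (.node (.node (.leaf 184760387520089039424 0) (.leaf 184760653011271557696 0)) (.leaf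 184760399116687385152 0)) (.node (.leaf 184760623727284855360 0) (.leaf 184760600637584712256 0))) (.node (.node (.leaf 184760392829843022400 0) (.leaf 184760387675217470016 0)) (.node (.leaf 184760392467897655872 0) (.leaf 184760293873802814016 0)))) (.node (.node (.node (.node (.leaf 184760603574123897408 0) (.leaf 184761890778345382464 0)) (.leaf 184761025941755142720 0)) (.node (.leaf 184761045732920402496 0) (.leaf 184760626622942159424 0))) (.node (.node (.leaf 184760399116668510784 0) (.leaf 184760604349740884544 0)) (.node (.leaf 184760283771406393920 0) (.leaf 184760294287474434624 0))))) (.node (.node (.node (.node (.node (.leaf 184760392467891364416 0) (.leaf 184761919648666755648 0)) (.leaf 184761969943195165248 0)) (.node (.leaf 184761025941711102528 0) (.leaf 184760400667908776512 0))) (.node (.node (.leaf 184760603936075555392 0) (.leaf 184760393243508351552 0)) (.node (.leaf 184760412414229094976 0) (.leaf 184760293873840562752 0)))) (.node (.node (.node (.node (.leaf 184760387571796419136 0) (.leaf 184761972425174557248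 0)) (.leaf 184761045732964442688 0)) (.node (.leaf 184760281966979064384 0) (.leaf 184761048835407225408 0))) (.node (.node (.leaf 184760399426912789056 0) (.leaf 184760283978235912768 0)) (.node (.leaf 184760600430755193408 0) (.leaf 184760294287499600448 0))))))

theorem TF32_z : allZ TF32 = true := by decide +kernel

end Pool.Agent.Lib.MP_40b2af_gt
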